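import Pool.Agent.PSS.StmtsS1e
import Pool.Agent.Helper68_PFD.CNR
import Pool.Agent.Helper35_PFD.BFS
import Pool.Agent.Helper63_PSS.PSC
import Pool.Agent.Helper67_PSS.DFM
import Pool.Agent.Helper39_PSS.UNJ

/-!
# Squad PST: the dimension of the centre of the generic fibre, if the centre is onto
-/

open scoped BigOperators TensorProduct

noncomputable section

namespace Pool.Agent.PST

open Pool.Agent.PFC (tw IsTv)
open Pool.Agent.PFD.D2 (Cdv FibG wittCdv)
open Pool.Agent.PFD.D2b (FrR)
open Pool.Agent.PSS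

/-- the dimension of the centre of the generic fibre of a deformation with surjective centre -/
theorem dzw (F F' W A A' : Type) [Field F] [CommGroup W] [Ring A] [Algebra F A]
    [FiniteDimensional F A] [Ring A'] [Algebra (PowerSeries F) A']
    [Module.Finite (PowerSeries F) A'] [Module.Free (PowerSeries F) A'] [Field F']
    [Algebra (PowerSeries F) F'] [FaithfulSMul (PowerSeries F) F'] (om : W →* A) (om' : W →* A')
    (df : Df (PowerSeries.X : PowerSeries F) PowerSeries.constantCoeff om om')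
    (hlift : ∀ z₀ : A, (∀ a, z₀ * a = a * z₀) → ∃ Z : A', (∀ a, Z * a = a * Z) ∧ df.q Z = z₀) :
    Module.finrank F' (Subalgebra.center F' (F' ⊗[PowerSeries F] A')) =
      Module.finrank F (Subalgebra.center F A) := by
  obtain ⟨cv, hπ, hκ⟩ := Pool.Agent.PSS.H63.psc F
  let fb : FibG A' A cv :=
    { q := df.q
      sc := fun r => by rw [df.sc, hκ]
      surj := df.surj
      ker := fun x hx => by rw [hπ]; exact df.ker x hx }
  have h1 := Pool.Agent.PFD.D4.H68.cnr (PowerSeries F) F A A' cv fb hlift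
  have h2 := Pool.Agent.PFD.D4.H35.cnk (PowerSeries F) F' A'
  rw [h1, h2]

/-- a permutation frame with twisted diagonal stabilisers has `StE` -/
theorem stE_of {V E Ω : Type} [CommGroup V] [Group E] [MulAction (V × V) Ω] (φ : E →* MulAut V)
    (h : ∀ ω : Ω, ∃ (e : E) (S : Subgroup V),
      MulAction.stabilizer (V × V) ω = tw (φ e).toMonoidHom S) : StE φ Ω := by
  intro ω u v hh
  obtain ⟨e, S, hS⟩ := h ω
  have h1 : ((u, v) : V × V) ∈ MulAction.stabilizer (V × V) ω := hh
  rw [hS] at h1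
  obtain ⟨s, -, hs⟩ := h1
  have e1 : φ e s = u := congrArg Prod.fst hs
  have e2 : s = v := congrArg Prod.snd hs
  exact ⟨e, by rw [← e1, ← e2]⟩

/-- from `Df` to `Dm`, for the frame of `V × V` -/
theorem df_dm {F V Ω A A' : Type} [Field F] [CommGroup V] [Ring A] [Algebra F A]
    [FiniteDimensional F A] [Ring A'] [Algebra (PowerSeries F) A']
    [Module.Finite (PowerSeries F) A'] [Module.Free (PowerSeries F) A'] [Fintype Ω]
    [MulAction (V × V) Ω] (W : Subgroup V) (α : V →* A) (α' : W →* A') (b : Ω → A)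
    (c : Ω → (A →ₗ[F] F)) (hfr : FrR (bw F α) b c)
    (df : Df (PowerSeries.X : PowerSeries F) PowerSeries.constantCoeff (aw α W) α') :
    ∃ (D₀ : Dm F (aw α W)) (θ : D₀.R ≃ₐ[PowerSeries F] A'),
      (∀ w, θ (D₀.w w) = α' w) ∧ ∀ Z, df.q (θ Z) = D₀.sq Z 0 := by
  let _ : MulAction (W × W) Ω := MulAction.compHom Ω (W.subtype.prodMap W.subtype)
  obtain ⟨D₀, θ, h1, h2⟩ := Pool.Agent.PSS.H67.dfm Pool.Agent.PSS.H39.unj F W A A' Ω (aw α W) α' b c
    ⟨fun g t => hfr.1 ((g.1 : V), (g.2 : V)) t,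
      fun g t n => hfr.2.1 ((g.1 : V), (g.2 : V)) t n, hfr.2.2⟩ df
  refine ⟨D₀, θ, h1, fun Z => ?_⟩
  have h3 := h2 (D₀.sq Z)
  rw [Dm.of_sq] at h3
  exact h3

/-- transport of a symmetric form with a relative Frobenius system by an isomorphism -/
theorem rf_equiv {R W A A' K : Type} [CommRing R] [CommGroup W] [Fintype W] [Ring A]
    [Algebra R A] [Ring A'] [Algebra R A'] [Fintype K] (θ : A ≃ₐ[R] A') (α : W →* A)
    (α' : W →* A') (hθ : ∀ w, θ (α w) = α' w) (lam : A →ₗ[R] R) (x y : K → A)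
    (h : RF R α lam x y) :
    RF R α' (lam.comp θ.symm.toLinearMap) (fun k => θ (x k)) (fun k => θ (y k)) := by
  constructor
  · intro a a'
    change lam (θ.symm (a * a')) = lam (θ.symm (a' * a))
    rw [map_mul θ.symm, map_mul θ.symm, h.sym]
  · intro a
    have h1 := congrArg θ (h.e1 (θ.symm a))
    rw [AlgEquiv.apply_symm_apply, map_sum] at h1
    refine Eq.trans (Finset.sum_congr rfl fun k _ => ?_) h1
    rw [map_sum]
    refine Finset.sum_congr rfl fun w _ => ?_
    have h2 : lam (θ.symm (α' w⁻¹ * θ (y k) * a)) = lam (α w⁻¹ * y k * θ.symm a) := by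
      rw [map_mul θ.symm, map_mul θ.symm, AlgEquiv.symm_apply_apply, ← hθ,
        AlgEquiv.symm_apply_apply]
    change lam (θ.symm (α' w⁻¹ * θ (y k) * a)) • _ = _
    rw [map_smul θ, map_mul θ, hθ, h2]
  · intro a
    have h1 := congrArg θ (h.e2 (θ.symm a))
    rw [AlgEquiv.apply_symm_apply, map_sum] at h1
    refine Eq.trans (Finset.sum_congr rfl fun k _ => ?_) h1
    rw [map_sum]
    refine Finset.sum_congr rfl fun w _ => ?_
    have h2 : lam (θ.symm (a * (θ (x k) * α' w))) = lam (θ.symm a * (x k * α w)) := by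
      rw [map_mul θ.symm, map_mul θ.symm, AlgEquiv.symm_apply_apply, ← hθ,
        AlgEquiv.symm_apply_apply]
    change lam (θ.symm (a * (θ (x k) * α' w))) • _ = _
    rw [map_smul θ, map_mul θ, hθ, h2]

end Pool.Agent.PST
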