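import Pool.Agent.PST.DefsK
import Pool.Agent.PSS.StmtsS4

/-!
# Theorem (S+), block DR (direction): statements (helper75)

Complete proofs in the docstrings.  Definitions: `PST/DefsR.lean`.

1. Rows 180 - 186: eigen-coordinates (linear algebra of `V / W`).
2. Rows 190 - 196: the regular derivation over `F`.
3. Rows 200 - 205: the direction over `R` (`DrqStmt`) and the first order datum.
4. Rows 210 - 214: properties of the datum.

Proved rows which may be imported: THL (`Helper2_PSS/THL.lean` or see the table pss), CNH, SVH, EOR, WWL, DFR,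
ORB, BKI, RTC, UZL (columns `path` of the table pss).
-/

open scoped BigOperators PowerSeries

noncomputable section

namespace Pool.Agent.PST

open Pool.Agent.PFC (tw IsTv)
open Pool.Agent.PFD.D2 (Cdv FibG)
open Pool.Agent.PFD.D2b (FrR)
open Pool.Agent.PSS
open Pool.Agent.PSS.S2 (PrD Nh Cn CV)
open Dm (cst)

/-! ## 1. Eigen-coordinates -/

/-- EGC (180): the additive functions on `V / W` have a basis of eigenvectors of `E`.

Proof.  `H` = the subspace of the additive `μ : V → F` with `μ = 0` on `W` (a finite dimensional subspace of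
`V → F`).  `T e μ = μ ∘ φ e`, an endomorphism of `H` (`W` is stable); `T (e f) = T f * T e`, `T 1 = 1`, and
`T e`, `T f` commute by the last hypothesis (`μ (φ (e f) v) = μ (φ (f e) v)`).  `T e ^ |E| = 1` and `X ^ |E| - 1`
is separable over `F` (`ℓ` does not divide `|E|`; `Polynomial.separable_X_pow_sub_C`) and splits, so
`T e` is semisimple (`Module.End.IsSemisimple`, from a squarefree annihilating polynomial:
`Module.End.isSemisimple_of_squarefree_aeval_eq_zero`) and its generalised eigenspaces are eigenspaces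
(`Module.End.IsFinitelySemisimple.maxGenEigenspace_eq_eigenspace`).  Commuting operators:
`Module.End.iSup_iInf_maxGenEigenspace_eq_top_of_iSup_maxGenEigenspace_eq_top_of_commute`
(`⨆ χ : E → F, ⨅ e, (T e).maxGenEigenspace (χ e) = ⊤`) and
`Module.End.independent_iInf_maxGenEigenspace_of_forall_mapsTo`: `H` is the internal direct sum of the joint
eigenspaces, `DirectSum.IsInternal.collectedBasis` (or: `H` is spanned by joint eigenvectors, choose a
basis from this spanning set: `Module.Basis.ofSpan`, `exists_linearIndependent`).  A joint eigenvector `la l ≠ 0`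
with `T e (la l) = χ l e • la l`: `χ l (e f) = χ l e * χ l f` and `χ l 1 = 1` since `la l ≠ 0`. -/
def EgcStmt : Prop :=
  ∀ (ℓ : ℕ) [Fact ℓ.Prime] (F V E : Type) [Field F] [IsAlgClosed F] [CharP F ℓ] [CommGroup V]
    [Fintype V] [Group E] [Fintype E] (φ : E →* MulAut V) (W : Subgroup V),
    ¬ ℓ ∣ Nat.card E → Stb φ W → (∀ e f v, φ (e * f) v * (φ (f * e) v)⁻¹ ∈ W) →
    ∃ (r : ℕ) (la : Fin r → V → F) (χ : Fin r → E → F),
      (∀ l u v, la l (u * v) = la l u + la l v) ∧ (∀ l, ∀ w ∈ W, la l w = 0) ∧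
      (∀ l e v, la l (φ e v) = χ l e * la l v) ∧
      (∀ l e f, χ l (e * f) = χ l e * χ l f) ∧ (∀ l, χ l 1 = 1) ∧ LinearIndependent F la ∧
      ∀ μ : V → F, (∀ u v, μ (u * v) = μ u + μ v) → (∀ w ∈ W, μ w = 0) →
        ∃ a : Fin r → F, ∀ v, μ v = ∑ l, a l * la l v

/-- SPT (181): the additive functions separate the points of an elementary abelian group.

Proof.  `V ⧸ W` is a vector space over `ZMod ℓ` (`AddCommGroup.zmodModule` for `Additive (V ⧸ W)`, every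
element is killed by `ℓ`); for the class of `v`, which is not `0`, there is a linear functional `f` with
`f v ≠ 0` (`Module.exists_dual_forall_apply_ne_zero..` / `Module.forall_dual_apply_eq_zero_iff`); compose with
the injective ring homomorphism `ZMod.castHom (dvd_refl ℓ) F`. -/
def SptStmt : Prop :=
  ∀ (ℓ : ℕ) [Fact ℓ.Prime] (F V : Type) [Field F] [CharP F ℓ] [CommGroup V] [Finite V]
    (W : Subgroup V), (∀ v : V, v ^ ℓ ∈ W) → ∀ v : V, v ∉ W →
    ∃ μ : V → F, (∀ u v, μ (u * v) = μ u + μ v) ∧ (∀ w ∈ W, μ w = 0) ∧ μ v ≠ 0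

/-- DUL (182): dual elements in `F Q`.

Proof.  The functions `la l` restricted to `Q` are linearly independent: a combination which vanishes on
`Q` vanishes on `V = Q W`.  The linear map `T : (Q → F) → (Fin r → F)`, `x ↦ (∑ q, x q * la n q)_n` is
surjective: otherwise its image is contained in the kernel of a functional `a ≠ 0`,
`∑ n, a n * la n q = 0` for all `q` in `Q` (take `x` = the indicator function of `q`), so `a = 0`.  Extend the
preimages of the basis vectors by `0` to `V`. -/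
def DulStmt : Prop :=
  ∀ (F V : Type) [Field F] [CommGroup V] [Fintype V] (W Q : Subgroup V) (r : ℕ)
    (la : Fin r → V → F), (∀ l u v, la l (u * v) = la l u + la l v) →
    (∀ l, ∀ w ∈ W, la l w = 0) → LinearIndependent F la →
    (∀ v : V, ∃ q ∈ Q, ∃ w ∈ W, v = q * w) →
    ∃ xx : Fin r → V → F, (∀ l v, v ∉ Q → xx l v = 0) ∧
      ∀ l n, ∑ v, xx l v * la n v = if l = n then 1 else 0

/-- AVX (183): equivariant dual elements with augmentation `0`.

Proof.  `x₁ l v = xx' l v - (if v = 1 then ∑ u, xx' l u else 0)` (`la n 1 = 0`, `1 ∈ Q`), and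
`xx l v = |E|⁻¹ * ∑ e, χ l e * x₁ l (φ e v)`.  `χ l f * xx l (φ f v) = |E|⁻¹ ∑ e, χ l (e f) x₁ l (φ (e f) v)
= xx l v`.  `∑ v, xx l v * la n v = |E|⁻¹ ∑ e, χ l e ∑ v, x₁ l (φ e v) la n v`, substitute `v ↦ φ e⁻¹ v`:
`la n (φ e⁻¹ v) = χ n e⁻¹ la n v`, so it is `|E|⁻¹ ∑ e, χ l e χ n e⁻¹ δ = δ`.  Support: `Q` is stable
(`φ e v ∈ Q` implies `v ∈ Q`). -/
def AvxStmt : Prop :=
  ∀ (ℓ : ℕ) [Fact ℓ.Prime] (F V E : Type) [Field F] [CharP F ℓ] [CommGroup V] [Fintype V]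
    [Group E] [Fintype E] (φ : E →* MulAut V) (Q : Subgroup V) (r : ℕ) (la : Fin r → V → F)
    (χ : Fin r → E → F) (xx' : Fin r → V → F), ¬ ℓ ∣ Nat.card E → Stb φ Q →
    (∀ l u v, la l (u * v) = la l u + la l v) → (∀ l e v, la l (φ e v) = χ l e * la l v) →
    (∀ l e f, χ l (e * f) = χ l e * χ l f) → (∀ l, χ l 1 = 1) →
    (∀ l v, v ∉ Q → xx' l v = 0) →
    (∀ l n, ∑ v, xx' l v * la n v = if l = n then 1 else 0) →
    ∃ xx : Fin r → V → F, (∀ l v, v ∉ Q → xx l v = 0) ∧ (∀ l, ∑ v, xx l v = 0) ∧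
      (∀ l n, ∑ v, xx l v * la n v = if l = n then 1 else 0) ∧
      ∀ l e v, χ l e * xx l (φ e v) = xx l v

/-- TIN (184): distinct eigenvalues `≠ 0` exist, as `F` is infinite.

Proof.  `Infinite F` (`IsAlgClosed.instInfinite` or so), the set `{x | x ≠ 0}` is infinite
(`Set.Infinite.diff`), `Set.Infinite.exists_subset_card_eq` or `Infinite.natEmbedding`. -/
def TinStmt : Prop :=
  ∀ (F : Type) [Field F] [IsAlgClosed F] (r : ℕ),
    ∃ t : Fin r → F, (∀ l, t l ≠ 0) ∧ Function.Injective t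

/-- QWV (185): `QW0 φ W` is stable, and `V = QW0 · W`.

Proof.  `K` = the subgroup of the `e` with `φ e u * u⁻¹ ∈ W` for all `u`; it is normal:
`φ (f⁻¹ e f) u * u⁻¹ = φ f⁻¹ (φ e (φ f u) * (φ f u)⁻¹)`.  Stable: for `v ∈ QW0`, `e ∈ K`:
`φ e (φ f v) = φ f (φ (f⁻¹ e f) v) = φ f v`.  `V = QW0 W`: `k = |K|` is prime to `ℓ` (it divides `|E|`), and
`|V|` is a power of `ℓ`, so there is `m` with `v ^ (m * k) = v` for all `v` (`Nat.Coprime`, `pow_card_eq_one`).
For `v` put `q = ∏ (e : K), φ e (v ^ m)`: `φ f q = q` for `f ∈ K` (reindex; `V` is commutative), so `q ∈ QW0`;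
`φ e (v ^ m) = v ^ m * w_e`, so `q = v ^ (m k) * w = v * w`. -/
def QwvStmt : Prop :=
  ∀ (ℓ : ℕ) [Fact ℓ.Prime] (V E : Type) [CommGroup V] [Fintype V] [Group E] [Fintype E]
    (φ : E →* MulAut V) (W : Subgroup V), IsPGroup ℓ V → ¬ ℓ ∣ Nat.card E → Stb φ W →
    Stb φ (QW0 φ W) ∧ ∀ v : V, ∃ q ∈ QW0 φ W, ∃ w ∈ W, v = q * w

/-- EGX (186, uses EGC SPT DUL AVX TIN): eigen-coordinates exist.

Proof.  `ker`: SPT, a function `μ` with `μ v ≠ 0` is a combination of the `la l`.  `spn`: with `μ = ∑ a n la n`,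
`∑ u, xx l u * μ u = a l`. -/
def EgxStmt : Prop :=
  ∀ (ℓ : ℕ) [Fact ℓ.Prime] (F V E : Type) [Field F] [IsAlgClosed F] [CharP F ℓ] [CommGroup V]
    [Fintype V] [Group E] [Fintype E] (φ : E →* MulAut V) (W Q : Subgroup V),
    ¬ ℓ ∣ Nat.card E → Stb φ W → Stb φ Q → (∀ v : V, v ^ ℓ ∈ W) →
    (∀ e f v, φ (e * f) v * (φ (f * e) v)⁻¹ ∈ W) → (∀ v : V, ∃ q ∈ Q, ∃ w ∈ W, v = q * w) →
    ∃ (r : ℕ) (la : Fin r → V → F) (χ : Fin r → E → F) (xx : Fin r → V → F) (t : Fin r → F),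
      Eg F φ W Q la χ xx t

/-! ## 2. The regular derivation over the field -/

/-- DGX (190, uses THL): the transfer is a derivation.

Proof.  Fix `a`.  `f b = (N (a * b) - a * N b) * X` is right `V`-linear: `N (a b v) = N (a b) v + χ v • a b v`,
`a N (b v) = a N b v + χ v • a b v` (`Cn.lin` with `q = 0`, `S2.cg_zero`), and `X` commutes with `V`.
`N (a b x_k) - a b N (x_k) = (N (a (b x_k)) - a N (b x_k)) + a (N (b x_k) - b N (x_k))`, so
`Gx (a b) = ∑ k, f (b * x k) * y k + a * Gx b`, and `S2.ThlStmt` (`q = 0`) gives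
`∑ k, f (b * x k) * y k = (∑ k, f (x k) * y k) * b = Gx a * b`. -/
def DgxStmt : Prop :=
  ∀ (F V A K : Type) [Field F] [CommGroup V] [Fintype V] [Ring A] [Algebra F A] [Fintype K]
    (α : V →* A) (lam : A →ₗ[F] F) (x y : K → A) (χ : V → F) (N : A →ₗ[F] A) (X : A),
    RF F α lam x y → Cn 0 α χ N → CV α X → ∀ a b : A,
    Gx X x y N (a * b) = Gx X x y N a * b + a * Gx X x y N b

/-- GXU (191): the value at `α u`.

Proof.  `Nh H b c a = ∑ ω, (c ω a * H ω) • b ω`.  `Nh H (α u * a)`: substitute `ω = (u, 1) • ω'`,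
`c ((u, 1) • ω') (α u * a) = c ω' a`, `b ((u, 1) • ω') = α u * b ω'`, so
`Nh H (α u * a) - α u * Nh H a = ∑ ω, (c ω a * (H ((u, 1) • ω) - H ω)) • (α u * b ω)`, and
`H ((u, 1) • ω) - H ω = la (φ (e ω)⁻¹ u) - la 1 = χ (e ω)⁻¹ * la u` (`la 1 = 0` from additivity). -/
def GxuStmt : Prop :=
  ∀ (F V E A K Ω : Type) [Field F] [CommGroup V] [Fintype V] [Group E]
    [Ring A] [Algebra F A] [Fintype K] [Fintype Ω] [MulAction (V × V) Ω]
    (φ : E →* MulAut V) (α : V →* A) (x y : K → A) (b : Ω → A)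
    (c : Ω → (A →ₗ[F] F)) (la : V → F) (χ : E → F) (H : Ω → F) (e : Ω → E) (X : A),
    FrR (bw F α) b c → (∀ u v, la (u * v) = la u + la v) →
    (∀ e v, la (φ e v) = χ e * la v) →
    (∀ (u v : V) (ω : Ω), H ((u, v) • ω) = H ω + la (φ (e ω)⁻¹ u) - la v) → ∀ u : V,
    Gx X x y (Nh H b c) (α u) =
      la u • (α u * ∑ k, Nh (fun ω => χ (e ω)⁻¹) b c (x k) * (X * y k))

/-- YCV (192, uses THL): the element `Y` commutes with `V`.

Proof.  `f a = Nh κ b c a * X` is right `V`-linear, and left `V`-linear (`κ` is invariant; as in GXU).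
`S2.ThlStmt` for `q = 0` and `a = α v`: `(∑ f (x k) * y k) * α v = ∑ f (α v * x k) * y k =
α v * ∑ f (x k) * y k`. -/
def YcvStmt : Prop :=
  ∀ (F V A K Ω : Type) [Field F] [CommGroup V] [Fintype V]
    [Ring A] [Algebra F A] [Fintype K] [Fintype Ω] [MulAction (V × V) Ω]
    (α : V →* A) (lam : A →ₗ[F] F) (x y : K → A) (b : Ω → A) (c : Ω → (A →ₗ[F] F))
    (κ : Ω → F) (X : A), RF F α lam x y → FrR (bw F α) b c →
    (∀ (p : V × V) ω, κ (p • ω) = κ ω) → CV α X →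
    ∑ k, Nh κ b c (x k) * (X * y k) ∈ FxR (cw F α) ⊤

/-- YQT (193): the element `Y` as a sum over the orbits of `1 × V`.

Proof.  Let `ŷ ω = ∑ k, c ω (x k) • y k`; the left side is `∑ ω, κ ω • b ω * X * ŷ ω` (`Nh κ b c a =
∑ ω, (c ω a * κ ω) • b ω`).  `d ω = ∑ k v, lam (d ω * (x k * α v)) • (α v⁻¹ * y k)` (`RF.e2`), and
`lam (d ω * (x k * α v)) = c ω (x k * α v) = c ((1, v) • ω) (x k)` (`FrR`: `c (g • t) (g n) = c t n` with
`g = (1, v)`, `n = x k * α v`), so `d ω = ∑ v, α v⁻¹ * ŷ ((1, v) • ω)`.  `V × Qt Ω → Ω`,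
`(v, k) ↦ (1, v) • k.rep` is bijective (`DFr.fr`, see the row DRF), so with `b ((1, v) • ω) = b ω * α v⁻¹` the sum is
`∑ k v, κ • b k.rep * α v⁻¹ * X * ŷ ((1, v) • k.rep) = ∑ k, κ • b k.rep * X * d k.rep`. -/
def YqtStmt : Prop :=
  ∀ (F V A K Ω : Type) [Field F] [CommGroup V] [Fintype V]
    [Ring A] [Algebra F A] [Fintype K] [Fintype Ω] [MulAction (V × V) Ω]
    (α : V →* A) (lam : A →ₗ[F] F) (x y : K → A) (b d : Ω → A) (c : Ω → (A →ₗ[F] F))
    (κ : Ω → F) (X : A), RF F α lam x y → FrR (bw F α) b c → DFr F α lam b d →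
    (∀ ω a, c ω a = lam (d ω * a)) → (∀ (p : V × V) ω, κ (p • ω) = κ ω) → CV α X →
    ∑ k, Nh κ b c (x k) * (X * y k) =
      ∑ k : Qt (V := V) Ω, κ k.rep • (b k.rep * X * d k.rep)

/-- YBR (194, uses DFR ORB YQT): `Y` is congruent to `X ζ`, `ζ = rt x y 1`.

Proof.  DFR: dual frame `d`.  YQT for `κ ω = χ (e ω)⁻¹`, `X = Xe α xx`; and for `κ = 1`, `X = 1`:
`rt x y 1 = ∑ k, b k.rep * d k.rep` (`Nh (fun _ => 1) b c a = a`).  So the difference is `∑ k, f k`,
`f k = g k.rep`, `g ω = χ (e ω)⁻¹ • (b ω * X * d ω) - X * (b ω * d ω)`.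
`g ((u, v) • ω) = α u * g ω * α u⁻¹` (`X` commutes with `V`), so `g` depends only on the orbit of `1 × V`, and
`f ((q, 1) • k) = α q * f k * α q⁻¹`.  ORB for the group `Q` (acting on `Qt Ω` by `q • k = (q, 1) • k`,
`MulAction.compHom`; `ρ = (cw F α).comp Q.subtype`, `BKR_range` or `ResStmt`): modulo `BKR (cw) Q` only the fixed
orbits contribute.  Let `k` be fixed, `ω = k.rep`, `e = e ω`: for `q` in `Q` there is `v` with
`(q, v) • ω = ω` (`qmk_eq`), so `(q, v) ∈ tw (φ e) S`, `q = φ e v`.  As `Q` is stable and `φ e` is bijective on `Q`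
(finite), for every `v ∈ Q`: `(φ e v, v) • ω = ω`, so `b ω * α v = α (φ e v) * b ω`.  `xx` is supported in `Q`:
`b ω * X = ∑ v, xx v • (α (φ e v) * b ω) = ∑ v, xx (φ e⁻¹ v) • (α v * b ω) = χ e • (X * b ω)`, as
`χ e * xx v = xx (φ e⁻¹ v)` (`xe`).  `χ e⁻¹ * χ e = 1`, so `g ω = 0`. -/
def YbrStmt : Prop :=
  ∀ (F V E A K Ω : Type) [Field F] [CommGroup V] [Fintype V] [Group E]
    [Ring A] [Algebra F A] [Fintype K] [Fintype Ω] [MulAction (V × V) Ω]
    (φ : E →* MulAut V) (α : V →* A) (lam : A →ₗ[F] F) (x y : K → A) (b : Ω → A)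
    (c : Ω → (A →ₗ[F] F)) (e : Ω → E) (S : Ω → Subgroup V) (χ : E → F) (xx : V → F)
    (Q : Subgroup V), RF F α lam x y → FrR (bw F α) b c →
    (∀ (p : V × V) ω, e (p • ω) = e ω) →
    (∀ ω : Ω, MulAction.stabilizer (V × V) ω = tw (φ (e ω)).toMonoidHom (S ω)) →
    (∀ e f, χ (e * f) = χ e * χ f) → χ 1 = 1 → (∀ e v, χ e * xx (φ e v) = xx v) →
    (∀ v, v ∉ Q → xx v = 0) → Stb φ Q →
    ∑ k, Nh (fun ω => χ (e ω)⁻¹) b c (x k) * (Xe α xx * y k) - Xe α xx * rt x y 1 ∈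
      BKR (cw F α) Q

/-- DRG (195, uses EOR SVH CNH DGX GXU YCV YBR RTC BKI): the regular derivation.

Proof.  EOR: `e`, `S`; SVH (`B = F`, `χ = la l`): `H l`; CNH (`q = 0`): `N l = Nh (H l) b c` is a connection for
`la l`.  `X l = Xe α (xx l)` commutes with `V` (`V` is commutative).  `Y l` = the sum in GXU.  `ζ = rt x y 1` is
central (RTC) and `u₀ * ζ = 1`, so `u₀` is central.  `G a = ∑ l, t l • (u₀ * Gx (X l) x y (N l) a)` and
`D u = ∑ l, (t l * la l u) • (u₀ * Y l)`.  DGX: `G` is a derivation.  GXU: `G (α u) = α u * D u`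
(`u₀` is central).  `D u - Xe α (pg la xx t u) = ∑ l, (t l * la l u) • (u₀ * (Y l - X l * ζ))`, and
`u₀ * (Y l - X l * ζ) ∈ BKR (cw) Q` by YBR and BKI (`u₀` commutes with `V`). -/
def DrgStmt : Prop :=
  ∀ (F V E A K Ω : Type) [Field F] [CommGroup V] [Fintype V] [Group E]
    [Ring A] [Algebra F A] [Fintype K] [Fintype Ω] [MulAction (V × V) Ω]
    (φ : E →* MulAut V) (α : V →* A) (lam : A →ₗ[F] F) (x y : K → A) (b : Ω → A)
    (c : Ω → (A →ₗ[F] F)) (u₀ : A) (W Q : Subgroup V) (r : ℕ) (la : Fin r → V → F)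
    (χ : Fin r → E → F) (xx : Fin r → V → F) (t : Fin r → F), RF F α lam x y →
    PrD F φ α b c → u₀ * rt x y 1 = 1 → Eg F φ W Q la χ xx t → Stb φ Q →
    ∃ (G : A →ₗ[F] A) (D : V → A), Drd F φ α W Q la χ xx t D ∧
      (∀ a a', G (a * a') = G a * a' + a * G a') ∧ ∀ u, G (α u) = α u * D u

/-! ## 3. The first order term over `R` -/

/-- LGD (200, uses WWL): a derivation over `F` which kills `W` lifts to a `W`-`W`-linear map over `R`.

Proof.  `g ω` = a lift of `G (b ω)`, `G' a = ∑ ω, c' ω a • g ω`; `f.q (G' a) = ∑ ω, κ (c' ω a) • G (b ω) =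
∑ ω, c ω (f.q a) • G (b ω) = G (f.q a)` (`qc`, `qb`).  For `w ∈ W`: `G (α w * a) = α w * G a`,
`G (a * α w) = G a * α w` (derivation, `G (α w) = 0`), so by `f.ker` `G'` is `W`-`W`-linear modulo `π`; WWL
(`q := cv.π`): `v₁` is `W`-`W`-linear and congruent to `G'`, so `f.q (v₁ a) = G (f.q a)`.  `G 1 = 0`, so
`v a = v₁ a - v₁ 1 * a` has the same reduction; `v₁ 1` commutes with `W`, so `v` is `W`-`W`-linear, `v 1 = 0`. -/
def LgdStmt : Prop :=
  ∀ (R F V A A' K Ω : Type) [CommRing R] [Field F] (cv : Cdv R F) [CommGroup V] [Fintype V]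
    [Ring A] [Algebra F A] [Ring A'] [Algebra R A'] [Fintype K] [Fintype Ω]
    [MulAction (V × V) Ω] (W : Subgroup V) (α : V →* A) (lam : A →ₗ[F] F) (x y : K → A)
    (b : Ω → A) (c : Ω → (A →ₗ[F] F)) (f : FibG A' A cv) (α' : V →* A') (lam' : A' →ₗ[R] R)
    (x' y' : K → A') (b' : Ω → A') (c' : Ω → (A' →ₗ[R] R)) (G : A →ₗ[F] A),
    LiftV cv α lam x y b c f α' lam' x' y' b' c' →
    (∀ a a', G (a * a') = G a * a' + a * G a') → (∀ w ∈ W, G (α w) = 0) →
    ∃ v : A' →ₗ[R] A', (∀ a, f.q (v a) = G (f.q a)) ∧ v 1 = 0 ∧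
      (∀ w ∈ W, ∀ a, v (α' w * a) = α' w * v a ∧ v (a * α' w) = v a * α' w) ∧
      ∀ a a', ∃ e, a * v a' - v (a * a') + v a * a' = cv.π • e

/-- HLF (201): lifts of the values `D u` which commute with `V` and depend only on `u` modulo `W`.

Proof.  For every `u` there is `a` in `A` which commutes with `V`, `f.q a = D u`: the fixed vectors of the diagonal
lift (UZL (2), `X` = the diagonal subgroup; or directly: `a = ∑ ω, r ω • b ω` with `r ω` a lift of `c₀ ω (D u)`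
which is constant on the orbits of the diagonal, e.g. `r ω = s (c₀ ω (D u))` for a section `s` of `κ`:
`c₀ ((v, v) • ω) (D u) = c₀ ω (D u)`).  `h u` = the lift chosen for `D u` as a function of the element `D u` of
`A₀` (choice function on the values): then `D (u * w) = D u` gives `h (u * w) = h u`. -/
def HlfStmt : Prop :=
  ∀ (R F V A A₀ κ Ω : Type) [CommRing R] [Field F] (cv : Cdv R F) [CommGroup V] [Fintype V]
    [Ring A] [Algebra R A] [Ring A₀] [Algebra F A₀] [Fintype κ] [Fintype Ω]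
    [MulAction (V × V) Ω] (W : Subgroup V) (f : FibG A A₀ cv) (α₀ : V →* A₀)
    (lam₀ : A₀ →ₗ[F] F) (x₀ y₀ : κ → A₀) (b₀ : Ω → A₀) (c₀ : Ω → (A₀ →ₗ[F] F)) (α : V →* A)
    (lam : A →ₗ[R] R) (x y : κ → A) (b : Ω → A) (c : Ω → (A →ₗ[R] R)) (D : V → A₀),
    LiftV cv α₀ lam₀ x₀ y₀ b₀ c₀ f α lam x y b c → FrR (bw F α₀) b₀ c₀ →
    (∀ u, D u ∈ FxR (cw F α₀) ⊤) → (∀ u, ∀ w ∈ W, D (u * w) = D u) →
    ∃ h : V → A, (∀ u v, h u * α v = α v * h u) ∧ (∀ u, ∀ w ∈ W, h (u * w) = h u) ∧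
      ∀ u, f.q (h u) = D u

/-- DRR (202, uses QWV EGX DRG LGD HLF): the output of the block, `DrqStmt` of `PST/DefsK.lean`.

Proof.  `Q = QW0 φ W` (QWV), EGX (`Chf`: `sw`, `pw`, `ab`: `φ (e * f) v * (φ (f * e) v)⁻¹ = 1`), DRG
(`PrD F φ α₀ b₀ c₀`; the inverse `u₀` of `rt x₀ y₀ 1` is `f.q u`: apply `f.q` to `u * rt x y 1 = 1`, `qx`, `qy`): `G`,
`D`.  `G (α₀ w) = α₀ w * D w = 0`.  LGD: `v`; `der` with `cv.π = ℓ` (change the sign of `e`).  HLF: `h`
(`D (u * w) = D u + D w = D u`).  `vh`: `f.q (v (α u) - α u * h u) = G (α₀ u) - α₀ u * D u = 0` and `f.ker`. -/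
def DrrStmt : Prop :=
  QwvStmt → EgxStmt → DrgStmt → LgdStmt → HlfStmt → DrqStmt

/-- NSM (203): the norm identity.

Proof.  `T i = v (z ^ i) * z' ^ i` is `0` for `i = 0` and for `i = n` (`v (z ^ n) = v 1 * z ^ n = 0`).
`(z ^ i * v z - v (z ^ i * z) + v (z ^ i) * z) * z' ^ (i + 1) = z ^ i * (v z * z') * z' ^ i - T (i + 1) + T i`; the
sum telescopes. -/
def NsmStmt : Prop :=
  ∀ (A : Type) [Ring A] (v : A → A) (z z' : A) (n : ℕ), z * z' = 1 → z' * z = 1 → v 1 = 0 →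
    v (z ^ n) = v 1 * z ^ n →
    ∑ i ∈ Finset.range n, (z ^ i * v z - v (z ^ i * z) + v (z ^ i) * z) * z' ^ (i + 1) =
      ∑ i ∈ Finset.range n, z ^ i * (v z * z') * z' ^ i

/-- PWR (204): powers and commutators in the ring of a deformation, to first order.

Proof.  `D.of f * D.of g = D.of (D.mul f g)`, `D.mul f g 0 = f 0 * g 0`, `D.mul f g 1 = f 0 * g 1 + f 1 * g 0 +
D.m 1 (f 0) (g 0)`.  First part: `Z = D.of (fun n => f (n + 1))` (`of_smul`, `smulq`).  Powers: induction on `n` with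
`z ^ (n + 1) = z ^ n * z`: `sq (z ^ (n + 1)) 1 = a ^ n * (- h) + sq (z ^ n) 1 * a + D.m 1 (a ^ n) a` (`n = 0`:
`sq 1 = cst 1`, `D.m 1 1 a = 0`). -/
def PwrStmt : Prop :=
  ∀ (k A W : Type) [CommRing k] [Ring A] [Algebra k A] [Group W] (om : W →* A) (D : Dm k om)
    (a a₁ h h₁ : A) (n : ℕ),
    (∀ f : ℕ → A, f 0 = 0 → ∃ Z : D.R, D.of f = (PowerSeries.X : PowerSeries k) • Z ∧
      D.sq Z 0 = f 1 ∧ D.sq Z 1 = f 2) ∧
    D.sq (D.of (fun i => if i = 0 then a else if i = 1 then - h else 0) ^ n) 0 = a ^ n ∧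
    D.sq (D.of (fun i => if i = 0 then a else if i = 1 then - h else 0) ^ n) 1 =
      ∑ i ∈ Finset.range n, (D.m 1 (a ^ i) a - a ^ i * h) * a ^ (n - 1 - i) ∧
    D.sq (D.of (fun i => if i = 0 then a else if i = 1 then - h else 0) *
        D.of (fun i => if i = 0 then a₁ else if i = 1 then - h₁ else 0)) 0 = a * a₁ ∧
    D.sq (D.of (fun i => if i = 0 then a else if i = 1 then - h else 0) *
        D.of (fun i => if i = 0 then a₁ else if i = 1 then - h₁ else 0)) 1 =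
      D.m 1 a a₁ - a * h₁ - h * a₁

/-- FOX (205, uses NSM PWR): the first order datum of the reduction.

Proof.  Write `u` for `α u`, `C.i (α u)`, `α₀ u`, and `u'` for the inverse.  `Fod.gh`: `g u = ℓ⁻¹ • (h u * u) + i (a u)`
(`h u` commutes with `V`; `(ℓ : K) ≠ 0`).  `s u = a u * u'` (in `A`), `s₀ u = f.q (s u)`, so
`g u * u' = ℓ⁻¹ • i (h u) + i (s u)`.  `s u` commutes with `W`: `g u * u'` does (`WBl`, `V` commutative) and
`h u` does, `C.inj`.  `lf u` = `D₀.of` of the sequence `(α₀ u, - s₀ u * α₀ u, 0, ..)`.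
(1) `cm`: `D₀.w_mul_of`, and the product with `D₀.w w` on the right is also componentwise (`Dm.m_om_right`, `wr`;
`D.mul f (cst (om w)) n = f n * om w`); `α₀ w` commutes with `α₀ u` and `s₀ u`.
(2) power: NSM in `B` for `v = g`, `z = u`, `n = ℓ` (`g (u ^ ℓ) = g 1 * u ^ ℓ` as `u ^ ℓ ∈ W`):
`∑ i < ℓ, d1 g (u ^ i) u * u' ^ (i + 1) = ∑ i < ℓ, u ^ i * (g u * u') * u' ^ i = i (h u + ∑ i, u ^ i * s u * u' ^ i)`,
so by the hypothesis on `D₀.m 1` (with `C.inj`) `∑ i < ℓ, D₀.m 1 (u ^ i) u * u' ^ (i + 1) =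
D u + ∑ i, u ^ i * s₀ u * u' ^ i` in `A₀`.  PWR with `h = s₀ u * u`: `sq (lf u ^ ℓ) 1 =
∑ i < ℓ, (D₀.m 1 (u ^ i) u - u ^ i * s₀ u * u) * u ^ (ℓ - 1 - i) = D u * u ^ ℓ` (multiply the identity by
`u ^ ℓ`, `u' ^ (i + 1) * u ^ ℓ = u ^ (ℓ - 1 - i)`), and `sq (lf u ^ ℓ) 0 = u ^ ℓ`.  `D u = f.q (h u)` commutes with
`V`.  So `lf u ^ ℓ = D₀.w (u ^ ℓ) * D₀.of f'` with `f' n = α₀ (u ^ ℓ)⁻¹ * sq (lf u ^ ℓ) n`, `f' 0 = 1`, `f' 1 = D u`:
`D₀.of f' = 1 + X • G u` (PWR, first part, for `f' - cst 1`), `sq (G u) 0 = D u`.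
(3) `cc`: `D₀.m 1 u v - D₀.m 1 v u = f.q e` with `i e = d1 g u v - d1 g v u = u g(v) - g(v) u + g(u) v - v g(u)`
`= i (u s(v) v - s(v) v u + s(u) u v - v s(u) u)` (the terms with `h` cancel), so by PWR the component of
`lf u * lf v - lf v * lf u` in degree `1` is `0`; in degree `0`: `u v = v u`.  Twice the first part of PWR. -/
def FoxStmt : Prop :=
  ∀ (ℓ : ℕ) [Fact ℓ.Prime] (R K F V A A₀ B κ Ω : Type) [CommRing R] [Field K] [CharZero K]
    [Algebra R K] [Field F] [CommGroup V] [Fintype V] [Ring A] [Algebra R A] [Ring A₀]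
    [Algebra F A₀] [Ring B] [Algebra R B] [Algebra K B] [Fintype κ] [Fintype Ω]
    [MulAction (V × V) Ω] (W : Subgroup V) (cv : Cdv R F) (f : FibG A A₀ cv) (α₀ : V →* A₀)
    (α : V →* A) (lam : A →ₗ[R] R) (x y : κ → A) (b : Ω → A) (c : Ω → (A →ₗ[R] R))
    (C : KC R K B α lam x y b c) (D : V → A₀) (g : B →ₗ[K] B) (h : V → A)
    (D₀ : Dm F (aw α₀ W)) (q : D₀.R → A₀), (∀ u : V, u ^ ℓ ∈ W) →
    (∀ u, f.q (α u) = α₀ u) → Fod ℓ C W f g h D →
    (∀ a a', ∃ e, C.i e = d1 g (C.i a) (C.i a') ∧ D₀.m 1 (f.q a) (f.q a') = f.q e) →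
    (∀ Z, q Z = D₀.sq Z 0) → ∃ lf G : V → D₀.R, FoD ℓ F α₀ W D₀.w q D lf G

/-! ## 4. Properties of the datum -/

/-- ALF (210): every lift.

Proof.  `q (z - lf u) = 0`, `lf u` is a unit of `As`?  Not needed: `z = lf u + X • y`, `y` commutes with `γ W`
(`X` is a nonzero divisor on `As`).  `z ^ ℓ = lf u ^ ℓ + X • ∑ i < ℓ, lf u ^ i * y * lf u ^ (ℓ - 1 - i)` modulo
`X ^ 2` (induction on the exponent).  `γ (u ^ ℓ)⁻¹ * z ^ ℓ = 1 + X • G'` with
`G' = G u + γ (u ^ ℓ)⁻¹ ∑ i, lf u ^ i y lf u ^ (ℓ - 1 - i)` modulo `X`, so `q G' = D u + ∑ i, u⁻¹ ^ (ℓ - i) (q y)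
u ^ (ℓ - 1 - i)`, with `s = α u⁻¹ * q y` and `j = ℓ - 1 - i`: `∑ j < ℓ, u⁻¹ ^ j * s * u ^ j`. -/
def AlfStmt : Prop :=
  ∀ (ℓ : ℕ) [Fact ℓ.Prime] (F V A As : Type) [Field F] [CommGroup V] [Ring A] [Algebra F A]
    [Ring As] [Algebra F⟦X⟧ As] [Module.Finite F⟦X⟧ As] [Module.Free F⟦X⟧ As] (α : V →* A)
    (W : Subgroup V) (γ : W →* As) (q : As →+* A) (D : V → A) (lf G : V → As),
    (∀ r : F⟦X⟧, q (algebraMap F⟦X⟧ As r) = algebraMap F A (PowerSeries.constantCoeff r)) →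
    (∀ x, q x = 0 → ∃ y, x = (PowerSeries.X : F⟦X⟧) • y) → (∀ w, q (γ w) = aw α W w) →
    FoD ℓ F α W γ q D lf G → ∀ (u : V) (h : u ^ ℓ ∈ W) (z : As), q z = α u →
    (∀ w, γ w * z = z * γ w) →
    ∃ (G' : As) (s : A), z ^ ℓ = γ ⟨u ^ ℓ, h⟩ * (1 + (PowerSeries.X : F⟦X⟧) • G') ∧
      (∀ w ∈ W, α w * s = s * α w) ∧
      q G' = D u + ∑ i ∈ Finset.range ℓ, α u⁻¹ ^ i * s * α u ^ i

/-- GCM (211): `G u` commutes with `lf u`, and `γ W`.

Proof.  `lf u` commutes with `lf u ^ ℓ` and with `γ (u ^ ℓ)`; `γ (u ^ ℓ)` is a unit, so `X • (lf u * G u - G u *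
lf u) = 0`, and `As` is free over `F⟦X⟧`.  `γ w` commutes with `lf u`, the same argument. -/
def GcmStmt : Prop :=
  ∀ (ℓ : ℕ) [Fact ℓ.Prime] (F V A As : Type) [Field F] [CommGroup V] [Ring A] [Algebra F A]
    [Ring As] [Algebra F⟦X⟧ As] [Module.Finite F⟦X⟧ As] [Module.Free F⟦X⟧ As] (α : V →* A)
    (W : Subgroup V) (γ : W →* As) (q : As → A) (D : V → A) (lf G : V → As),
    FoD ℓ F α W γ q D lf G → ∀ u : V, u ^ ℓ ∈ W →
    lf u * G u = G u * lf u ∧ ∀ w, γ w * G u = G u * γ w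

/-- PGP (212): properties of the direction `pg`.

Proof.  Additivity: `Eg.add`.  `pg (φ e u) (φ e v) = ∑ t l * χ l e * la l u * xx l (φ e v) = ∑ t l * la l u * xx l v`
(`xe`).  `∑ v, pg u v * la n v = ∑ l, t l * la l u * δ = t n * la n u`. -/
def PgpStmt : Prop :=
  ∀ (F V E : Type) [Field F] [CommGroup V] [Fintype V] [Group E] (φ : E →* MulAut V)
    (W Q : Subgroup V) (r : ℕ) (la : Fin r → V → F) (χ : Fin r → E → F) (xx : Fin r → V → F)
    (t : Fin r → F), Eg F φ W Q la χ xx t →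
    (∀ u u' v, pg la xx t (u * u') v = pg la xx t u v + pg la xx t u' v) ∧
    (∀ w ∈ W, ∀ v, pg la xx t w v = 0) ∧
    (∀ e u v, pg la xx t (φ e u) (φ e v) = pg la xx t u v) ∧
    (∀ u v, v ∉ Q → pg la xx t u v = 0) ∧ (∀ u, ∑ v, pg la xx t u v = 0) ∧
    ∀ u n, ∑ v, pg la xx t u v * la n v = t n * la n u

/-- ALT (213): a biadditive alternating form on `V / W` with values in a vector space which satisfies the
relation of the regular direction vanishes.

Proof.  `f (u, ·)` composed with linear functionals: for every linear functional `g : M → F` the map `v ↦ g (f u v)`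
is a combination of the `la l` (`spn`), in both variables: `f u v = ∑ l n, la l u * la n v • m l n` with
`m l n = ∑ u v, xx l u * xx n v • f u v` (apply `spn` twice; functionals separate the points of `M`, or prove
`f u v = ∑ l, la l u • (∑ u', xx l u' • f u' v)` by applying every functional).  `f u u = 0` for all `u` gives
`m l n = - m n l` and `m l l = 0`: polarise, `f u v = - f v u`, and the functions `la l * la n` .. (use
`∑ u v, xx l u xx n v f u v`).  The relation: `∑ v, pg u v • f u v = 0` for all `u`; polarise: `∑ v, pg u v • f u' v +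
∑ v, pg u' v • f u v = 0`; multiply by `xx l u * xx n u'` and sum over `u`, `u'`: `∑ u, xx l u * pg u v =
t l * xx l v`, so `t l • m n l + t n • m l n = 0`, i.e. `(t l - t n) • m n l = 0` (`m l n = - m n l`), so `m n l = 0` for
`l ≠ n`.  For `l = n`: `m l l = ∑ xx l u xx l v f u v = 0` because `f` is alternating: pair `(u, v)` with `(v, u)`,
the diagonal terms are `0`, `f u v + f v u = 0`. -/
def AltStmt : Prop :=
  ∀ (F V E M : Type) [Field F] [CommGroup V] [Fintype V] [Group E] [AddCommGroup M] [Module F M]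
    (φ : E →* MulAut V) (W Q : Subgroup V) (r : ℕ) (la : Fin r → V → F) (χ : Fin r → E → F)
    (xx : Fin r → V → F) (t : Fin r → F) (f : V → V → M), Eg F φ W Q la χ xx t →
    (∀ u u' v, f (u * u') v = f u v + f u' v) → (∀ u v v', f u (v * v') = f u v + f u v') →
    (∀ w ∈ W, ∀ v, f w v = 0 ∧ f v w = 0) → (∀ u, f u u = 0) →
    (∀ u, ∑ v, pg la xx t u v • f u v = 0) → ∀ u v, f u v = 0

end Pool.Agent.PST
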