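import Pool.Agent.PST.StmtsET2

/-!
# Squad PST, block ET (helper57), part 3: corners, the Dade twist, blocks, and the top statement

`EtcStmt` (TOP of ET): `H` in the class `Cl F φ α`, `V` elementary abelian of rank `r`, `φ(E)` free on `V - 1`, `Hs` a
deformation of `H` over `R` (an `F`-algebra) with the first order datum `Rgd`: then `∑ x k * y k = π ^ r • z` with a central
unit `z` of `Hs`, for every symmetric form of `Hs` with dual families `x`, `y`.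

Steps: corners (C1 - C3), the twist by `N = End(M)` (D1 - D7), the decomposition of `1` modulo the commutators (E1 - E5).
-/

open scoped BigOperators TensorProduct

noncomputable section

namespace Pool.Agent.PST.ET

open Pool.Agent.PFD.D2 (Cdv FibG)
open Pool.Agent.PFC (Fx BK cj bi tw PS Frm PMid PIn Ctf IA BQ Cor)
open Pool.Agent.PFC.B5c (bd)
open Pool.Agent.PSS (RF Cl Per Uni FxR BKR cw)
open Pool.Agent.PSS.S5 (Loi Eqi Pci CorV Ej Lc)

/-! ## C. Corners -/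

/-- CRE: a corner of the deformation.

Proof.  `Ys` = the submodule `{a | j a = a = a j}` of `D` (finite and free: `R` is a PID) with the multiplication of `D` and the
unit `j`; `κs` the inclusion.  `fY.q a = κ⁻¹ (q a)` (`CrR.ran`, `CrR.inj`).  Surjective: `κ y = q a`, take `j a j`.  Kernel: `q a = 0`
gives `a = π b`, `a = j a j = π (j b j)`. -/
def CreStmt : Prop :=
  ∀ (R F D H Y : Type) [CommRing R] [IsDomain R] [IsPrincipalIdealRing R] [Field F] (c : Cdv R F)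
    [Ring D] [Algebra R D] [Module.Finite R D] [Module.Free R D] [Ring H] [Algebra F H]
    (f : FibG D H c) [Ring Y] [Algebra F Y] (j : D) (κ : Y →ₗ[F] H), j * j = j →
    CrR (f.q j) κ →
    ∃ (Ys : Type) (_ : Ring Ys) (_ : Algebra R Ys) (_ : Module.Finite R Ys)
      (_ : Module.Free R Ys) (κs : Ys →ₗ[R] D) (fY : FibG Ys Y c), CrR j κs ∧
      ∀ a, κ (fY.q a) = f.q (κs a)

/-- CRS: the form and the Casimir element of a corner.

Proof.  `x' k = κs⁻¹ (j x k j)`, `y' k = κs⁻¹ (j y k j)`.  `e1`: for `a = κs b`: `∑ T (j y k j a) j x k j = j (∑ T (y k a) x k) j = a`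
(`T (j y j a) = T (y j a j) = T (y a)`).  `κs (∑ x' y') = ∑ j x k j y k j = j τ(j) j = j τ(j)` (`τ(j) = ∑ x k j y k` is central: TAU). -/
def CrsStmt : Prop :=
  ∀ (R D Y K : Type) [CommRing R] [Ring D] [Algebra R D] [Ring Y] [Algebra R Y] [Fintype K]
    (T : D →ₗ[R] R) (x y : K → D) (j : D) (κ : Y →ₗ[R] D), SFr R T x y → j * j = j →
    CrR j κ → ∃ x' y' : K → Y, SFr R (T.comp κ) x' y' ∧
      κ (∑ k, x' k * y' k) = j * ∑ k, x k * j * y k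

/-- CRG: the first order datum of a corner.

Proof.  `P = j`, `q P` commutes with the `α v`.  (pw) `w`, `G` for `v`: `w P - P w = π s` (`q` of it is `0`); multiply by `P` on both
sides: `P s P = 0` (TOR).  Claim: `(P w P) ^ n = P w ^ n P + π ^ 2 ..` for `n ≥ 1`: `(P w ^ n P)(P w P) = P w ^ n (P w) P =
P w ^ n (w P - π s) P = P w ^ (n+1) P - π P w ^ n s P`, and modulo `π` `P w ^ n s P` is `w ^ n P s P = 0` (`q w ^ n` commutes with `q P`).
So `(P w P) ^ ℓ = P w ^ ℓ P + π ^ 2 .. = P + π (P G P + π ..)`.  `w' = κs⁻¹ (P w P)`, `G'`: `κ (fY.q G') = q P q G q P`.  `κ⁻¹ (P h P)` maps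
`α u b - b α u` to `αY u b' - b' αY u` (`b' = κ⁻¹ (P b P)`, `P` commutes with `α u`), and `α u` to `αY u`.
(cm) `a`, `b`, `d`: `P a P b P = P a (b P - π s) P = P a b P - π P a s P`, `P s P = 0` and `q P` commutes with `q a = α u`, so `P a s P ∈ π D`:
`[P a P, P b P] = P [a, b] P + π ^ 2 .. = π (P d P + π ..)`. -/
def CrgStmt : Prop :=
  ∀ (ℓ r : ℕ) [Fact ℓ.Prime] (R F V D H Y Ys : Type) [CommRing R] [Field F] [CommGroup V]
    [Fintype V] [Ring D] [Algebra R D] [Module.Free R D] [Ring H] [Algebra F H] [Ring Y]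
    [Algebra F Y] [Ring Ys] [Algebra R Ys] (c : Cdv R F) (f : FibG D H c) (fY : FibG Ys Y c)
    (α : V →* H) (αY : V →* Y) (j : D) (κ : Y →ₗ[F] H) (κs : Ys →ₗ[R] D)
    (lam xx : Fin r → V → F) (t : Fin r → F), j * j = j → CrR (f.q j) κ → CrR j κs →
    (∀ a, κ (fY.q a) = f.q (κs a)) → (∀ v, α v * f.q j = f.q j * α v) →
    (∀ v, κ (αY v) = α v * f.q j) → Rgd ℓ c f α lam xx t → Rgd ℓ c fY αY lam xx t

/-! ## D. The twist -/

/-- NBK: `N(V) = F`: the elements of `V` are `1` modulo the Brauer kernel.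

Proof.  `BQ N (IA.one F V) ⊤`: `β`, `s`; `β (ι v) = 1` (`ABr.cov`), `β 1 = 1` (`cov` for `v = 1`); `QkeStmt` (`PFC.B5c`, proved:
`Helper18_PFC`, `H18.qke`): for `a` fixed by `V`, `β a = 0` iff `a ∈ BK`. -/
def NbkStmt : Prop :=
  ∀ (ℓ : ℕ) [Fact ℓ.Prime] (F V : Type) [Field F] [CharP F ℓ] [CommGroup V] [Fintype V]
    (N : IA F V), IsPGroup ℓ V → BQ N (IA.one F V) ⊤ → ∀ v, N.ι v - 1 ∈ BK (cj F N.ι) ⊤

/-- CO2: the core of part (0), for `W = ⊥`, with more output.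

Proof.  Copy of `PFC.B5c.H43.core` (`Helper43_PFC/AsmB5.lean`; its hypotheses `Rows` are proved: see `Helper66_PFD/AsmPmz.lean`,
`B5c.H43.rows` in `Helper43_PFC/AllB5.lean`): `hNt : BQ N (IA.one F V) ⊤` gives the fourth part (NBK), `H.ndm` gives
`(n : F) ≠ 0`; the last part is `FulStmt` (`Helper31_PFC/FUL.lean`, `H31.ful`) for `N ⊗ A`; its hypothesis about the centre:
`ZmxStmt` (see the use of both in `pmz` of `AsmB5.lean`). -/
def Co2Stmt : Prop :=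
  ∀ (ℓ : ℕ) [Fact ℓ.Prime] (F V E A : Type) [Field F] [IsAlgClosed F] [CharP F ℓ] [CommGroup V]
    [Fintype V] [Group E] [Fintype E] [Ring A] [Algebra F A] [FiniteDimensional F A]
    (φ : E →* MulAut V) (α : V →* A), Ctf ℓ φ ⊥ → PIn F φ ⊥ α →
    ∃ (N Y' : IA F V) (j : (N.tens (bd F α)).A) (κ : Y'.A →ₗ[F] (N.tens (bd F α)).A) (n : ℕ),
      0 < n ∧ (n : F) ≠ 0 ∧ Nonempty (N.A ≃ₐ[F] Matrix (Fin n) (Fin n) F) ∧
      (∀ v, N.ι v - 1 ∈ BK (cj F N.ι) ⊤) ∧ Cor (N.tens (bd F α)) Y' j κ ∧ j * j = j ∧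
      1 - j ∈ BK (cj F (N.tens (bd F α)).ι) ⊤ ∧ PMid F φ ⊥ Y'.ι ∧
      (1 : (N.tens (bd F α)).A) ∈ Submodule.span F {x | ∃ a b, x = a * j * b}

/-- TWF: matrices over `Hs` are a deformation of `N ⊗ H`.

Proof.  `g.q X = ∑_(a,b) e⁻¹(E_ab) ⊗ q (X a b)`: the composite of `Matrix (Fin n) (Fin n) Hs → Matrix (Fin n) (Fin n) H` (`RingHom.mapMatrix`)
and of the isomorphism `X ↦ ∑ e⁻¹(E_ab) ⊗ X a b` onto `N ⊗ H` (multiplicative: `E_ab E_cd = δ_bc E_ad`; bijective: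
`matrixEquivTensor` or `Basis.baseChange`).  `sc`: `∑_a e⁻¹(E_aa) ⊗ κ r = κ r`.  Kernel: all `q (X a b) = 0`. -/
def TwfStmt : Prop :=
  ∀ (n : ℕ) (R F N H Hs : Type) [CommRing R] [Field F] [Ring N] [Algebra F N] [Ring H]
    [Algebra F H] [Ring Hs] [Algebra R Hs] (c : Cdv R F) (f : FibG Hs H c)
    (e : N ≃ₐ[F] Matrix (Fin n) (Fin n) F),
    ∃ g : FibG (Matrix (Fin n) (Fin n) Hs) (N ⊗[F] H) c,
      ∀ X, g.q X = ∑ a, ∑ b, e.symm (Matrix.single a b 1) ⊗ₜ[F] f.q (X a b)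

/-- TWR: the first order datum of the twist.

Proof.  `i : F → R` the structure map, `X_v` = the matrix `e (ι v)` with entries mapped to `Hs` (`v ↦ X_v` is multiplicative),
`s(w)` = the scalar matrix; `X_v` commutes with `s(w)`.  (pw) `w' = X_v s(w)`, `g.q w' = ι v ⊗ α v`; `w' ^ ℓ = X_v ^ ℓ s(w ^ ℓ) = 1 + π s(G)`
(`v ^ ℓ = 1`).  `g.q s(G) = 1 ⊗ q G`.  (1) `1 ⊗ (α u b - b α u) = β u (ι u⁻¹ ⊗ b) - (ι u⁻¹ ⊗ b) β u ∈ IV`.  (2) `∑_u gv v u (ι u ⊗ α u - 1 ⊗ α u) ∈ IV`: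
`ι u - 1` is a combination of traces `∑_(x ∈ S) ι x m ι x⁻¹`, `S` a transversal of `P' < ⊤`, `|S| = 0` in `F`, and
`(∑_x ι x m ι x⁻¹) ⊗ α u = ∑_x β x (m ⊗ α u) β x⁻¹` (`V` commutative) is `|S| (m ⊗ α u) = 0` modulo `IV`
(`y b y⁻¹ - b = y (b y⁻¹) - (b y⁻¹) y`, `y = β x`).
(cm) `a' = X_u s(a)`, `b' = X_v s(b)`: `[a', b'] = X_u X_v s([a, b]) = π X_(u v) s(d)`, `g.q = ι (u v) ⊗ q d`, and
`ι z ⊗ (α u b - b α u) = β u (ι (z u⁻¹) ⊗ b) - (ι (z u⁻¹) ⊗ b) β u`. -/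
def TwrStmt : Prop :=
  ∀ (ℓ r n : ℕ) [Fact ℓ.Prime] (R F V N H Hs : Type) [CommRing R] [Field F] [CharP F ℓ]
    [Algebra F R] [CommGroup V] [Fintype V] [Ring N] [Algebra F N] [Ring H] [Algebra F H]
    [Ring Hs] [Algebra R Hs] (c : Cdv R F) (f : FibG Hs H c)
    (e : N ≃ₐ[F] Matrix (Fin n) (Fin n) F) (g : FibG (Matrix (Fin n) (Fin n) Hs) (N ⊗[F] H) c)
    (ι : V →* N) (α : V →* H) (β : V →* N ⊗[F] H) (lam xx : Fin r → V → F) (t : Fin r → F),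
    (∀ a : F, c.κ (algebraMap F R a) = a) →
    (∀ X, g.q X = ∑ a, ∑ b, e.symm (Matrix.single a b 1) ⊗ₜ[F] f.q (X a b)) →
    (∀ v, β v = ι v ⊗ₜ[F] α v) → IsPGroup ℓ V → (∀ v : V, v ^ ℓ = 1) →
    (∀ v, ι v - 1 ∈ BK (cj F ι) ⊤) → Rgd ℓ c f α lam xx t → Rgd ℓ c g β lam xx t

/-- TWC: the form and the Casimir element of the matrix algebra.

Proof.  `T' X = ∑_a T (X a a)`, `X_(a,b,k) = E_ab x k`, `Y_(a,b,k) = E_ba y k` (`Matrix.single`): `T' (Y Z) = T (y k Z a b)`; the products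
`X Y = E_aa x k y k`, the sum over `b` gives `n`. -/
def TwcStmt : Prop :=
  ∀ (n : ℕ) (R D K : Type) [CommRing R] [Ring D] [Algebra R D] [Fintype K]
    (T : D →ₗ[R] R) (x y : K → D), SFr R T x y →
    ∃ (T' : Matrix (Fin n) (Fin n) D →ₗ[R] R) (L : Type) (_ : Fintype L)
      (X Y : L → Matrix (Fin n) (Fin n) D), SFr R T' X Y ∧
      ∑ l, X l * Y l = Matrix.scalar (Fin n) ((n : R) • ∑ k, x k * y k)

/-- TWZ: the centre of the matrix algebra.  Proof.  `z` commutes with the `E_ab`: it is a scalar matrix; the entry is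
central, and a unit if `z` is (the inverse is central, so scalar). -/
def TwzStmt : Prop :=
  ∀ (n : ℕ) (D : Type) [Ring D], 0 < n → ∀ z : Matrix (Fin n) (Fin n) D, IsUnit z →
    (∀ a, z * a = a * z) → ∃ z1 : D, IsUnit z1 ∧ (∀ a, z1 * a = a * z1) ∧
      z = Matrix.scalar (Fin n) z1

/-- BCM: the Brauer kernel of `V` consists of sums of commutators.

Proof.  `∑_(x ∈ S) x m x⁻¹` is `|S| m = 0` modulo `cmt` (`x m x⁻¹ - m = x (m x⁻¹) - (m x⁻¹) x`; `ℓ` divides `|S| = |V : P'|`, `P' < ⊤`). -/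
def BcmStmt : Prop :=
  ∀ (ℓ : ℕ) [Fact ℓ.Prime] (F V H : Type) [Field F] [CharP F ℓ] [CommGroup V] [Finite V]
    [Ring H] [Algebra F H] (α : V →* H), IsPGroup ℓ V → ∀ m ∈ BK (cj F α) ⊤, m ∈ cmt F H

/-- LCL: TOP of part D: the local class `Lc`.

Proof.  `Ctf ℓ φ ⊥` (`cmp` with `U = ⊤`; `free` by hypothesis), `PIn F φ ⊥ α`: `S5.LcpStmt` with `NN Q = ¬ Q ≤ ⊥` and `S5.LkcStmt`
(`Q ≠ ⊥`: an element which centralises `Q` is `1`).  CO2: `N`, `Y'`, `j`, `κ`, `n`.  `D = Matrix (Fin n) (Fin n) Hs`: TWF `g`, TWR `Rgd ℓ c g ..`,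
TWC `T'`, `X`, `Y`.  ILF: `j~`; CRE: `Ys`, `κs`, `fY`; CRG; CRS; LOC (`E`, `PMid F φ ⊥ Y'.ι`): `∑ x' y' = π ^ r • u`, `u` a central unit.  So
with `τ a = ∑ X l * a * Y l`: `j~ τ(j~) = π ^ r • κs u`.  `1 - j ∈ cmt F` (BCM), KLF for the idempotents `1`, `j~` and the integers
`1`, `-1`: `1 - j~ ∈ cmt R D`, so `τ(1) = τ(j~)` (TAU).  FUN (`b = 1`), FCZ (`b = 1`, `p = π ^ r`, `u, u'` = `κs u`, `κs u⁻¹`): `τ(1) =
π ^ r • z`, `z` a central unit.  TWC, TWZ: `n • ρ = π ^ r • z1`, `ρ = ∑ x k * y k` (entry `(0,0)`, `n > 0`); `n` is a unit of `R` (`κ n ≠ 0`). -/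
def LclStmt : Prop :=
  ∀ (ℓ r : ℕ) [Fact ℓ.Prime] (R F V E H Hs K : Type) [CommRing R] [IsDomain R]
    [IsPrincipalIdealRing R] [CharP R ℓ] [Field F] [IsAlgClosed F] [CharP F ℓ] [Algebra F R]
    [CommGroup V] [Fintype V] [Group E] [Finite E] [Ring H] [Algebra F H] [Ring Hs]
    [Algebra R Hs] [Module.Finite R Hs] [Module.Free R Hs] [Fintype K] (c : Cdv R F)
    (f : FibG Hs H c) (φ : E →* MulAut V) (α : V →* H) (lam xx : Fin r → V → F)
    (t : Fin r → F) (T : Hs →ₗ[R] R) (x y : K → Hs), (∀ a : F, c.κ (algebraMap F R a) = a) →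
    IsPGroup ℓ V → Nontrivial V → (∀ v : V, v ^ ℓ = 1) → ¬ ℓ ∣ Nat.card E →
    (∀ (e : E) (v : V), φ e v = v → e = 1 ∨ v = 1) → Lc F φ α → EDat F lam xx t →
    Rgd ℓ c f α lam xx t → SFr R T x y →
    ∃ z : Hs, IsUnit z ∧ (∀ a, z * a = a * z) ∧ ∑ k, x k * y k = c.π ^ r • z

/-! ## E. Blocks -/

/-- EQC: equivalent and conjugate idempotents have the same class and the same relative trace.

Proof.  `Eqi`: `p q = y j y'`, `q p = j'`, difference `p q - q p`; `y j y' - j = (y j) y' - y' (y j)`.  `rt (p q) = rt (q p)`: `S0.TrsStmt`.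
`rt (y j y') = rt j`: the families `x k * y`, `y' * y k` are also a relative Frobenius system: `∑_(k,v) lam (α v⁻¹ y' y_k a) x_k y α v =
∑ lam (y' α(s v)⁻¹ y_k a) x_k α(s v) y = (∑_w lam (α w⁻¹ y_k (a y')) x_k α w) y = a y' y = a`; `S0.IndStmt` (`e2` in the same way). -/
def EqcStmt : Prop :=
  ∀ (F V H K : Type) [Field F] [CommGroup V] [Fintype V] [Ring H] [Algebra F H] [Fintype K]
    (α : V →* H) (lam : H →ₗ[F] F) (x y : K → H) (s : MulAut V) (j j' y0 y0' : H),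
    RF F α lam x y → y0 * y0' = 1 → y0' * y0 = 1 → (∀ u, y0 * α u = α (s u) * y0) →
    j ∈ FxR (cw F α) ⊤ → j' ∈ FxR (cw F α) ⊤ → Eqi F α (y0 * j * y0') j' →
    j - j' ∈ cmt F H ∧ ∑ k, x k * j * y k = ∑ k, x k * j' * y k

/-- DCI: decomposition of an idempotent of the centraliser of `V`.

Proof.  Strong induction on `finrank {x ∈ C | b x = x, x b = x}`, `C = FxR (cw F α) ⊤` (the subalgebra `Cz F α ⊤`).  If `b ∈ BKR`, or
`Loi F α b`: one summand.  Otherwise `b ≠ 0`, `Loi.loc` fails: some `x ∈ C` with `b x b` neither nilpotent nor invertible: `S5.FitStmt`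
(`S = C`, `j = b`): `b = j1 + (b - j1)`, both idempotents of `b C b`, nonzero, with smaller spaces. -/
def DciStmt : Prop :=
  ∀ (F V H : Type) [Field F] [CommGroup V] [Ring H] [Algebra F H] [FiniteDimensional F H]
    (α : V →* H) (b : H), b ∈ FxR (cw F α) ⊤ → b * b = b →
    ∃ (n : ℕ) (j : Fin n → H), (∀ i, j i ∈ FxR (cw F α) ⊤ ∧ b * j i = j i) ∧
      (∀ i, Loi F α (j i) ∨ j i ∈ BKR (cw F α) ⊤) ∧ ∑ i, j i = b

/-- MLT: a block is a multiple of a local idempotent modulo the commutators.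

Proof.  DCI for `b` (central, so in `C`): `b = ∑ j_i`.  The `j_i` with `Loi`: `S5.BorStmt` for `j`, `j_i` and EQC (`Uni`: units for `e`):
`j - j_i ∈ cmt`, `rt j = rt j_i`.  The others are in `BKR ≤ cmt` (BCM), and `rt` of them is in `BKR` (`S5.RbkStmt`).  `m` = the number of
the first: `b - m • j ∈ cmt F H`.  If `m = 0` in `F`: `rt b = b ζ ∈ BKR`, `ζ = rt 1`, `u ζ = 1` (`Cl.rt`; `ζ` is central, so is `u`), `b = u (b ζ) ∈
BKR (cw F α) ⊤` (`S0.BkiStmt`), and `Cl.blk` for `Q = ⊥` gives `b ∈ BKR (cw F α) ⊥ = ⊥`, `b = 0`, a contradiction. -/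
def MltStmt : Prop :=
  ∀ (ℓ : ℕ) [Fact ℓ.Prime] (F V E H : Type) [Field F] [CharP F ℓ] [CommGroup V] [Fintype V]
    [Group E] [Finite E] [Ring H] [Algebra F H] (φ : E →* MulAut V) (α : V →* H),
    IsPGroup ℓ V → Cl F φ α → ∀ b j : H, Pci b → Loi F α j → b * j = j →
    ∃ m : ℕ, (m : F) ≠ 0 ∧ b - m • j ∈ cmt F H

/-- VTR: the case `V = 1`.

Proof.  `r = 0`: otherwise `x1` for `l = n` is `xx l 1 * lam l 1 = 0 ≠ 1` (`lam l 1 = 0`).  `Cl.rt`: `SFr F lam1 x1 y1` (`V` is trivial),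
`u ∑ x1 y1 = 1`.  RDF: `lam0` with the dual families `q x`, `q y`.  There are `c1, c2 ∈ H` with `lam0 a = lam1 (c1 a)`, `lam1 a = lam0 (c2 a)`
(`c1 = ∑ lam0 (x1 k) y1 k`), central, `c1 c2 = 1`.  `(x1, y1 c2)` are dual for `lam0`: `lam0 (y1 c2 a) = lam1 (c1 y1 c2 a) = lam1 (y1 a)`; CSI:
`∑ q x q y = (∑ x1 y1) c2`, a unit; UPR, TAU. -/
def VtrStmt : Prop :=
  ∀ (ℓ r : ℕ) [Fact ℓ.Prime] (R F V E H Hs K : Type) [CommRing R] [Field F] [CharP F ℓ]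
    [CommGroup V] [Fintype V] [Group E] [Ring H] [Algebra F H] [Ring Hs] [Algebra R Hs]
    [Module.Finite R Hs] [Module.Free R Hs] [Fintype K] (c : Cdv R F) (_f : FibG Hs H c)
    (φ : E →* MulAut V) (α : V →* H) (lam xx : Fin r → V → F) (t : Fin r → F)
    (T : Hs →ₗ[R] R) (x y : K → Hs), Subsingleton V → Cl F φ α → EDat F lam xx t →
    SFr R T x y → ∃ z : Hs, IsUnit z ∧ (∀ a, z * a = a * z) ∧ ∑ k, x k * y k = c.π ^ r • z

/-- ETB: one block.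

Proof.  `S5.CoeStmt`: the corner `Y` of `H` at `j`; `S5.CljStmt`: `Lc F (Ej φ αY).subtype αY`.  ILF: `j~`; CRE: `Ys`, `κs`, `fY`; CRG; CRS;
LCL for the group `Ej φ αY` (finite; contained in `φ.range`, so its order divides `|E|`; free by hypothesis): `∑ x' y' = π ^ r • u`,
so `j~ τ(j~) = π ^ r • κs u`, `τ a = ∑ x k * a * y k`.  ILF: `b~`, an idempotent lift of `b`, central (CIL).  `(1 - b~) j~` is an idempotent
in `π Hs` (`q` of it is `(1 - b) j = 0`), so it is in `π ^ n Hs` for all `n`: `b~ j~ = j~` (TOR).  FUN: `b~ ∈ span {s j~ t}`.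
`τ(j~) b~ = τ(j~ b~) = τ(j~)`; FCZ. -/
def EtbStmt : Prop :=
  ∀ (ℓ r : ℕ) [Fact ℓ.Prime] (R F V E H Hs K : Type) [CommRing R] [IsDomain R]
    [IsPrincipalIdealRing R] [CharP R ℓ] [Field F] [IsAlgClosed F] [CharP F ℓ] [Algebra F R]
    [CommGroup V] [Fintype V] [Group E] [Finite E] [Ring H] [Algebra F H] [Ring Hs]
    [Algebra R Hs] [Module.Finite R Hs] [Module.Free R Hs] [Fintype K] (c : Cdv R F)
    (f : FibG Hs H c) (φ : E →* MulAut V) (α : V →* H) (lam xx : Fin r → V → F)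
    (t : Fin r → F) (T : Hs →ₗ[R] R) (x y : K → Hs) (b j : H),
    (∀ a : F, c.κ (algebraMap F R a) = a) →
    IsPGroup ℓ V → Nontrivial V → (∀ v : V, v ^ ℓ = 1) → ¬ ℓ ∣ Nat.card E →
    (∀ (e : E) (v : V), φ e v = v → v = 1 ∨ φ e = 1) → Cl F φ α → EDat F lam xx t →
    Rgd ℓ c f α lam xx t → SFr R T x y → Pci b → Loi F α j → b * j = j →
    b ∈ Submodule.span F {x : H | ∃ s t : H, x = s * j * t} →
    ∃ (j' z z' : Hs), j' * j' = j' ∧ f.q j' = j ∧ (∀ a, z * a = a * z) ∧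
      (∀ a, z' * a = a * z') ∧ f.q z * f.q z' = b ∧ f.q z * b = f.q z ∧
      ∑ k, x k * j' * y k = c.π ^ r • z

/-- ETC: TOP of the block ET.

Proof.  `V = 1`: VTR.  Otherwise `S5.PcxStmt`: `1 = ∑ b_i`.  `Cl.rt`, `S5.BptStmt`: `j_i` local, `b_i j_i = j_i`, `b_i = rt (j_i c_i j_i)`, which is in
the span of the `s j_i t`.  MLT: `m_i`.  So `1 - ∑ m_i • j_i ∈ cmt F H`.  ETB: `j'_i`, `z_i`, `z'_i`.  KLF (idempotents `1` and the `j'_i`,
index type `Option (Fin n)`): `1 - ∑ m_i • j'_i ∈ cmt R Hs`, so by TAU `∑ x y = ∑ m_i • τ(j'_i) = π ^ r • z`, `z = ∑ m_i • z_i`, central.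
Unit: `w = q z = ∑ m_i • u_i`, `u_i = q z_i`, `u_i = u_i b_i`; with `u'_i = q z'_i b_i` (`b_i` is central): `u_i u'_k = u_i b_i b_k q z'_k = 0`
for `i ≠ k`, `u_i u'_i = b_i`; so `w * ∑ (m_i)⁻¹ • u'_i = ∑ b_i = 1`, and `w` is central: `w` is a unit, `z` is a unit (UPR). -/
def EtcStmt : Prop :=
  ∀ (ℓ r : ℕ) [Fact ℓ.Prime] (R F V E H Hs K : Type) [CommRing R] [IsDomain R]
    [IsPrincipalIdealRing R] [CharP R ℓ] [Field F] [IsAlgClosed F] [CharP F ℓ] [Algebra F R]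
    [CommGroup V] [Fintype V] [Group E] [Finite E] [Ring H] [Algebra F H] [Ring Hs]
    [Algebra R Hs] [Module.Finite R Hs] [Module.Free R Hs] [Fintype K] (c : Cdv R F)
    (f : FibG Hs H c) (φ : E →* MulAut V) (α : V →* H) (lam xx : Fin r → V → F)
    (t : Fin r → F) (T : Hs →ₗ[R] R) (x y : K → Hs), (∀ a : F, c.κ (algebraMap F R a) = a) →
    IsPGroup ℓ V → (∀ v : V, v ^ ℓ = 1) → ¬ ℓ ∣ Nat.card E →
    (∀ (e : E) (v : V), φ e v = v → v = 1 ∨ φ e = 1) → Cl F φ α → EDat F lam xx t →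
    Rgd ℓ c f α lam xx t → SFr R T x y →
    ∃ z : Hs, IsUnit z ∧ (∀ a, z * a = a * z) ∧ ∑ k, x k * y k = c.π ^ r • z

end Pool.Agent.PST.ET
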