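import Pool.Agent.PSS.StmtsS3p
import Pool.Agent.PSS.StmtsS1e

/-!
# Squad PST, block U (helper30 with helper78): the blocks of the generic fibre

`As` an algebra over `F⟦X⟧` with a group `γ : W →* As`, of the type `C0` (form with a relative
Frobenius system over `W`, permutation frame, units which induce `E`), `E` induces an abelian group on
`W`.  `C = F' ⊗ As`, `F'` a field over `F⟦X⟧`.  Result (GFV): `C` is in the class `Cl`, if
* `Vsh`: closedness, `As(Q)` has no central elements with `br_Q' = 0` for all `Q' > Q`, unless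
  `Q = C_W(C_E(Q))`;
* `Nlw`: the central elements of `As` in the Brauer kernel of `⟨w₀⟩` are nilpotent (proved in part A, B
  from a lift of `As` to `O⟦X⟧`), `w₀` an element of `W` with `C_E(w₀) = C_E(W)`;
* `Etw`: the relative trace of `1` in `As(W)` divides a power of `X`;
* `Rel`: a homogeneous relation between the relative traces of `w` and `1` (from the lift).

Everything is elementary, no characters.  Complete proofs in the docstrings.  All rows of the blocks S0, S3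
of squad PSS are PROVED: import `Pool.Agent.Helper30_PSS.S3All` (theorems `Pool.Agent.PSS.All30.bkf`,
`fco`, `fbk`, `ftr`, `bki`, `zrt`, `trs`, `rfs`, `ind`, `bqx`, `lmb`, `mck`, `bpu`, `bls`, `gfb`, `gfq`, `idn`,
.. `: S0.BkfStmt` etc.); all rows of S1: `Pool.Agent.PSS.AllS` (theorems `Pool.Agent.PSS.All.a_csu`, ..).
Base change lemmas: `Pool.Agent.Helper64_PSS.GFB` (`bcf`, `bcf_ap`, `cw_t`, `fx_t`, `bcw_ap`).
We write `v` for `γ v`, `α v`, `D.w v`; `rt(a) = ∑ x k * a * y k`.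
-/

open scoped BigOperators TensorProduct PowerSeries

noncomputable section

namespace Pool.Agent.PST.U

open Pool.Agent.PFC (tw IsTv)
open Pool.Agent.PFD.D2 (Cdv FibG wittCdv)
open Pool.Agent.PFD.D2b (FrR)
open Pool.Agent.PSS
open Pool.Agent.PSS.S0
open Pool.Agent.PSS.S3

/-! ## Definitions -/

/-- `Q` is closed: `Q = C_W(C_E(Q))`. -/
def Clo {W E : Type} [CommGroup W] [Group E] (ψ : E →* MulAut W) (Q : Subgroup W) : Prop :=
  ∀ w : W, (∀ e : E, (∀ q ∈ Q, ψ e q = q) → ψ e w = w) → w ∈ Q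

/-- The central elements of `As(Q)` with `br_Q' = 0` for all `Q' > Q` are zero. -/
def Vsh (R : Type) {W As : Type} [CommRing R] [CommGroup W] [Ring As] [Algebra R As]
    (γ : W →* As) (Q : Subgroup W) : Prop :=
  ∀ a ∈ FxR (cw R γ) ⊤, (∀ Q' : Subgroup W, Q < Q' → a ∈ BKR (cw R γ) Q') →
    (∀ m ∈ FxR (cw R γ) Q, a * m - m * a ∈ BKR (cw R γ) Q) → a ∈ BKR (cw R γ) Q

/-- The central elements in the Brauer kernel of `⟨w⟩` are nilpotent. -/
def Nlw (R : Type) {W As : Type} [CommRing R] [CommGroup W] [Ring As] [Algebra R As]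
    (γ : W →* As) (w : W) : Prop :=
  ∀ z : As, (∀ a, z * a = a * z) → z ∈ BKR (cw R γ) (Subgroup.zpowers w) → IsNilpotent z

/-- The relative trace of `1` in `As(W)` divides a power of `X`. -/
def Etw (F : Type) {W As : Type} [Field F] [CommGroup W] [Fintype W] [Ring As] [Algebra F⟦X⟧ As]
    (γ : W →* As) (lam : As →ₗ[F⟦X⟧] F⟦X⟧) : Prop :=
  ∀ (Bs KB : Type) [Ring Bs] [Algebra F⟦X⟧ Bs] [Fintype KB] (γB : W →* Bs) (βs : As → Bs)
    (lamB : Bs →ₗ[F⟦X⟧] F⟦X⟧) (xB yB : KB → Bs), IsBQ F⟦X⟧ γ ⊤ γB βs → RF F⟦X⟧ γB lamB xB yB →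
    (∀ a ∈ FxR (cw F⟦X⟧ γ) ⊤, lamB (βs a) = lam a) →
    ∃ (m : ℕ) (u : Bs), u * ∑ k, xB k * yB k = (PowerSeries.X ^ m : F⟦X⟧) • (1 : Bs)

/-- A homogeneous relation between the relative traces of `w` and of `1`. -/
def Rel (F : Type) {W As K : Type} [Field F] [CommGroup W] [Ring As] [Algebra F⟦X⟧ As] [Fintype K]
    (x y : K → As) (γ : W →* As) (w : W) : Prop :=
  ∃ (d : ℕ) (a : ℕ → F), a 0 ≠ 0 ∧ ∑ i ∈ Finset.range (d + 1),
    (PowerSeries.C (a i) : F⟦X⟧) • ((∑ k, x k * γ w * y k) ^ i * (∑ k, x k * y k) ^ (d - i)) = 0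

/-- `L` (over `S`) is a lift of `As` (over `R`) modulo `ℓ`, `p : L → As` the reduction, `κ : S → R`. -/
structure OL (ℓ : ℕ) {S R W As L K : Type} [CommRing S] [CommRing R] [CommGroup W] [Fintype W]
    [Ring As] [Algebra R As] [Ring L] [Algebra S L] [Fintype K] (κ : S →+* R) (γ : W →* As)
    (γL : W →* L) (p : L →+* As) (lamL : L →ₗ[S] S) (x y : K → L) : Prop where
  sur : Function.Surjective κ
  sep : ∀ d : S, d ≠ 0 → ∃ (m : ℕ) (d' : S), d = (ℓ : S) ^ m * d' ∧ κ d' ≠ 0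
  sc : ∀ (s : S) (a : L), p (s • a) = κ s • p a
  pw : ∀ w, p (γL w) = γ w
  ker : ∀ a, p a = 0 → ∃ a', a = ℓ • a'
  tf : ∀ a : L, ℓ • a = 0 → a = 0
  rf : RF S γL lamL x y
  cen : ∀ z : As, (∀ a, z * a = a * z) → ∃ z' : L, (∀ a, z' * a = a * z') ∧ p z' = z
  fr : ∃ (Ω : Type) (_ : Fintype Ω) (_ : MulAction (W × W) Ω) (b : Ω → L)
    (c : Ω → (L →ₗ[S] S)) (c₀ : Ω → (As →ₗ[R] R)), FrR (bw S γL) b c ∧
    FrR (bw R γ) (fun ω => p (b ω)) c₀

/-! ## A. Vanishing in the lift -/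

/-- VNX (300).  Proof (compare `Helper28_PSS/VAN.lean`).  `n = ℓ^k`.
`f (w (∑ a x)^n) = ∑ Θ u` over `u : Fin n → X`, `Θ u = f (w a(u_0) a(u_1) .. a(u_(n-1)))`.  The map
`σ u = (w⁻¹ u_(n-1), u_0, .., u_(n-2))` satisfies `Θ (σ u) = Θ u`:
`f (w a(u_0) .. a(u_(n-1))) = f (a(u_(n-1)) w a(u_0) .. a(u_(n-2)))` and `a(x) w = w a(w⁻¹ x)`.
`σ^n u = w⁻¹ u` (componentwise), so `σ^(n ord w) = 1`, `n ord w` is a power of `ℓ`, and `σ^n` has no fixed
point.  So all orbits of `⟨σ⟩` have a length which is a power of `ℓ` and does not divide `n = ℓ^k`, hence is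
divisible by `ℓ^(k+1)`.  The fibres `Θ⁻¹ z` are `σ`-stable, so `ℓ^(k+1)` divides their cardinalities, and
`∑ Θ = ∑_z |Θ⁻¹ z| • z`.  (Orbit lengths: `MulAction` of `Multiplicative (ZMod (ℓ^N))` or
`Function.minimalPeriod`; or: pass from `X` to the orbits of `σ^(n)`.) -/
def VnxStmt : Prop :=
  ∀ (ℓ : ℕ) [Fact ℓ.Prime] (W X B Z : Type) [CommGroup W] [Finite W] [Fintype X] [MulAction W X]
    [Ring B] [AddCommGroup Z] (γ : W →* B) (a : X → B) (f : B →+ Z) (w : W) (k : ℕ),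
    IsPGroup ℓ W → (∀ v x, γ v * a x * γ v⁻¹ = a (v • x)) → (∀ x y, f (x * y) = f (y * x)) →
    (∀ x : X, w • x ≠ x) → ∃ y : Z, f (γ w * (∑ x, a x) ^ ℓ ^ k) = ℓ ^ (k + 1) • y

/-- PWC (301).  Proof: in the commutative ring `Subring.closure {a, d}` (`Subring.closureCommRingOfComm`)
use `dvd_sub_pow_of_dvd_sub`; or induction on `k` with the binomial formula (`Commute.add_pow`) for
`(A + ℓ^(k+1) D)^ℓ`, `A`, `D` commuting: the terms `i ≥ 1` are divisible by `ℓ^(k+2)`. -/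
def PwcStmt : Prop :=
  ∀ (ℓ : ℕ) [Fact ℓ.Prime] (L : Type) [Ring L] (a d : L), a * d = d * a →
    ∀ k : ℕ, ∃ y : L, (a + ℓ • d) ^ ℓ ^ k = a ^ ℓ ^ k + ℓ ^ (k + 1) • y

/-- NBL (302, uses VNX PWC).  Proof.  `fr`: `b`, `c`, `c₀`.  `c₀ ((v,v) ω) z = c₀ ω z` (`z` is central), and
`c₀ ω z = 0` if `(w,w) ω = ω` (FCO for the diagonal action and `P = ⟨w⟩`).  `X = {ω | (w,w) ω ≠ ω}` is
stable under the diagonal action of `W` (`W` is commutative).  With a section `s` of `κ`: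
`a ω = s (c₀ ω z) • b ω` satisfies `v a(ω) v⁻¹ = a ((v,v) ω)`; `z' = ∑_(ω in X) a ω`, `p z' = z`, `z'` commutes
with `W`.  `z1` = the central lift of `z` (`cen`): `z1 = z' + ℓ • δ` (`ker`), and `z' δ = δ z'` by `tf`
(`z1` is central).
`f b = ∑_(k, v) x k v b v⁻¹ y k` is a trace map `L → L` (RFS and TRS for the trivial subgroup).  VNX:
`f (w z'^n) = ℓ^(k+1) • y`, `n = ℓ^k`.  `f (w z'^n) = |W| ∑ x k w z'^n y k`.  PWC: `z1^n = z'^n + ℓ^(k+1) • y'`.  So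
`|W| z1^n rt(w) = |W| ∑ x k w z1^n y k` is `ℓ^(k+1) • y''`; multiply by `r`: `|W| d • z1^n = ℓ^(k+1) • y3`.
`|W| = ℓ^g`, `d = ℓ^m d'`, `κ d' ≠ 0` (`sep`).  Take `k = g + m` and cancel (`tf`): `d' • z1^n = ℓ • y3`.  Apply `p`:
`κ d' • z^n = 0`, so `z^n = 0` (apply `c₀ ω`, `R` is a domain). -/
def NblStmt : Prop :=
  ∀ (ℓ : ℕ) [Fact ℓ.Prime] (S R W As L K : Type) [CommRing S] [CommRing R] [IsDomain R]
    [CommGroup W] [Fintype W] [Ring As] [Algebra R As] [Ring L] [Algebra S L] [Fintype K]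
    (κ : S →+* R) (γ : W →* As) (γL : W →* L) (p : L →+* As) (lamL : L →ₗ[S] S) (x y : K → L)
    (w : W) (r : L) (d : S), (ℓ : R) = 0 → IsPGroup ℓ W → OL ℓ κ γ γL p lamL x y → d ≠ 0 →
    r * ∑ k, x k * γL w * y k = d • (1 : L) → Nlw R γ w

/-- DVD (303).  Proof: `M` = the matrix of the right multiplication by `r` in a basis; if `det M = 0` then
there is `v ≠ 0` with `M v = 0` (`Matrix.exists_mulVec_eq_zero_iff`), i.e. `a ≠ 0`, `a r = 0`.  `d = det M`,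
`r'` = the element with the coordinates `adjugate M * (coordinates of 1)`: `r' r = d • 1`. -/
def DvdStmt : Prop :=
  ∀ (S L : Type) [CommRing S] [IsDomain S] [Ring L] [Algebra S L] [Module.Finite S L]
    [Module.Free S L] (r : L), (∀ a, a * r = 0 → a = 0) →
    ∃ (r' : L) (d : S), d ≠ 0 ∧ r' * r = d • (1 : L)

/-- SPS (304).  Proof.  Some coefficient of `d` is not `0`, so by `sep` it is not divisible by some `π^N`;
let `m` be maximal such that `π^m` divides all coefficients, `d = π^m d'`.  If `κ d' = 0` then all coefficients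
of `d'` are divisible by `π` (`ker`). -/
def SpsStmt : Prop :=
  ∀ (R F : Type) [CommRing R] [Field F] (c : Cdv R F) (d : R⟦X⟧), d ≠ 0 →
    ∃ (m : ℕ) (d' : R⟦X⟧), d = (PowerSeries.C c.π) ^ m * d' ∧ PowerSeries.map c.κ d' ≠ 0

/-! ## B. The relative traces of the lift -/

/-- CRT (305).  The trace formula over `K`, without complement and in the form of rings.  Proof: an EDIT of
`Helper32_PSS/CRR.lean` (row CRR): `T` = the ring `T.R` of the trivial deformation, `Φ = exPhi`, `j b = T.of (cst b)`,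
`N`, `N'` as there; instead of `Fin (orderOf z)` use a transversal `S` of `W` in `V` (`PFC.IsTv W ⊤ S`): the
families `x k s`, `s⁻¹ y k` are dual over `W` (row RFS of S0, proved), `∑_(k, s) x k s w s⁻¹ y k = W.index • rt(w)`.
The last identity is `h1` of that file. -/
def CrtStmt : Prop :=
  ∀ (K V B κ κ' : Type) [Field K] [CharZero K] [CommGroup V] [Fintype V] [Ring B] [Algebra K B]
    [FiniteDimensional K B] [Fintype κ] [Fintype κ'] (W : Subgroup V) [Fintype W] (β : V →* B)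
    (lamK : B →ₗ[K] K) (x y : κ → B) (P : ℕ → (B →ₗ[K] B)) (m : ℕ → (B →ₗ[K] B →ₗ[K] B))
    (D : Dm K (aw β W)) (Λ : D.R →ₗ[PowerSeries K] PowerSeries K) (x' y' : κ' → D.R),
    Trv β W P m → D.m = m → RF K β lamK x y → RF (PowerSeries K) D.w Λ x' y' →
    ∃ (T : Type) (_ : Ring T) (_ : Algebra (PowerSeries K) T) (Φ : D.R →+* T) (j : B →+* T)
      (N N' : T), Function.Bijective Φ ∧ (∀ (s : PowerSeries K) a, Φ (s • a) = s • Φ a) ∧
      (∀ (t : K) b, j (t • b) = (PowerSeries.C t : PowerSeries K) • j b) ∧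
      (∀ a, N * a = a * N) ∧ N * N' = 1 ∧
      ∀ w : W, N * Φ (rt x' y' (D.w w)) = W.index • j (rt x y (β w))

/-- NZD (306, uses CRT).  Proof.  TRA: `D' : Dm K` with `D'.m = m`; LKX: `ψ : D.R → D'.R`, injective (`C.i` is
injective, `ψ (D.of f) = D'.of (i f)`), `RF` for `D'.w`, `ψ x'`, `ψ y'`.  CRT with `rt (i x) (i y) (i w) = i (rt x y w)`, which
has the left inverse `i u`: `N Φ(ψ r) = W.index • j (i (rt x y w))`, `r = rt x' y' (D.w w)`, so `Φ(ψ r)` has a left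
inverse (`W.index ≠ 0` in `K`), and `ψ r` has a left inverse `s`.  `r` is central, so `ψ r` commutes with `ψ a`, and
`ψ r` is central in `D'.R` (ZRT).  `a r = 0` gives `ψ a = s (ψ r) (ψ a) = s ψ(a r) = 0`. -/
def NzdStmt : Prop :=
  ∀ (R K V A B κ κ' Ω : Type) [CommRing R] [Field K] [CharZero K] [Algebra R K] [CommGroup V]
    [Fintype V] [Ring A] [Algebra R A] [Ring B] [Algebra R B] [Algebra K B] [Fintype κ]
    [Fintype κ'] [Fintype Ω] [MulAction (V × V) Ω] (W : Subgroup V) [Fintype W] (α : V →* A)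
    (lam : A →ₗ[R] R) (x y : κ → A) (b : Ω → A) (c : Ω → (A →ₗ[R] R))
    (C : KC R K B α lam x y b c) (D : Dm R (aw α W)) (P : ℕ → (B →ₗ[K] B))
    (m : ℕ → (B →ₗ[K] B →ₗ[K] B)) (Λ : D.R →ₗ[PowerSeries R] PowerSeries R) (x' y' : κ' → D.R)
    (w : W) (u : A), Trv (ia C.i α) W P m →
    (∀ n a₁ a₂, C.i (D.m n a₁ a₂) = m n (C.i a₁) (C.i a₂)) → RF (PowerSeries R) D.w Λ x' y' →
    u * rt x y (α w) = 1 → ∀ a : D.R, a * rt x' y' (D.w w) = 0 → a = 0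

/-- CHP (307).  Proof.  `c = u z` is a unit (inverse `u' z₁`; all the elements commute), `χ` = the characteristic polynomial of the
left multiplication `M` by `c` (`LinearMap.charpoly`), monic of degree `d`; `χ(c) = 0` (Cayley - Hamilton applied to
`1`), its constant coefficient is `± det M`, a unit, since `M` is invertible.  Multiply `∑ a_i c^i = 0` by `z₁^d`:
`c^i z₁^d = z^i z₁^(d-i)` as `u z₁ = 1`. -/
def ChpStmt : Prop :=
  ∀ (R A : Type) [CommRing R] [Ring A] [Algebra R A] [Module.Finite R A] [Module.Free R A]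
    (z z₁ u u' : A), (∀ a, z * a = a * z) → (∀ a, z₁ * a = a * z₁) → u * z₁ = 1 → u' * z = 1 →
    ∃ (d : ℕ) (a : ℕ → R), IsUnit (a 0) ∧
      ∑ i ∈ Finset.range (d + 1), a i • (z ^ i * z₁ ^ (d - i)) = 0

/-- RHR (308, uses CRT CHP).  Proof.  CHP for `z = rt x y w`, `z₁ = rt x y 1` (central by ZRT): `d`, `a`; apply
`C.i`.  TRA, LKX, CRT as in NZD.  Apply `Φ ∘ ψ` (injective) to the left side and multiply by the unit `N^d`:
`N^d Φψ(r_w^i r_1^(d-i)) = (N Φψ r_w)^i (N Φψ r_1)^(d-i) = W.index^d • j (i (z^i z₁^(d-i)))`, and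
`Φψ(C (a i) • ..) = C (algebraMap R K (a i)) • ..`; the sum is `W.index^d • j (i (∑ a i • ..)) = 0`.
(`r_1 = rt x' y' (D.w 1)`.) -/
def RhrStmt : Prop :=
  ∀ (R K V A B κ κ' Ω : Type) [CommRing R] [Field K] [CharZero K] [Algebra R K] [CommGroup V]
    [Fintype V] [Ring A] [Algebra R A] [Module.Finite R A] [Module.Free R A] [Ring B]
    [Algebra R B] [Algebra K B] [Fintype κ] [Fintype κ'] [Fintype Ω] [MulAction (V × V) Ω]
    (W : Subgroup V) [Fintype W] (α : V →* A) (lam : A →ₗ[R] R) (x y : κ → A) (b : Ω → A)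
    (c : Ω → (A →ₗ[R] R)) (C : KC R K B α lam x y b c) (D : Dm R (aw α W))
    (P : ℕ → (B →ₗ[K] B)) (m : ℕ → (B →ₗ[K] B →ₗ[K] B))
    (Λ : D.R →ₗ[PowerSeries R] PowerSeries R) (x' y' : κ' → D.R) (w : W) (u u' : A),
    Trv (ia C.i α) W P m → (∀ n a₁ a₂, C.i (D.m n a₁ a₂) = m n (C.i a₁) (C.i a₂)) →
    RF (PowerSeries R) D.w Λ x' y' → u * rt x y 1 = 1 → u' * rt x y (α w) = 1 →
    ∃ (d : ℕ) (a : ℕ → R), IsUnit (a 0) ∧ ∑ i ∈ Finset.range (d + 1),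
      (PowerSeries.C (a i) : PowerSeries R) •
        (rt x' y' (D.w w) ^ i * rt x' y' 1 ^ (d - i)) = 0

/-- CNL (309).  The centre of the lift is onto the centre of the deformation.  Proof.  `M` = the centre of
`D₀.R`, a finite `F⟦X⟧`-module (FRE, `F⟦X⟧` is noetherian); `N` = the submodule of the `ψ z`, `z` central in
`D.R` (`ψ (r • a) = map κ r • ψ a`, `map κ` is surjective; `ψ` is surjective, so `ψ z` is central).  For `z₀` in `M`:
`D₀.sq z₀ 0` is central in `A₀`, it lifts to a central `z` in `A`, CEN: a central `Z` in `D.R`, `sq Z 0 = z`;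
`z₀ - ψ Z` has the constant coefficient `0`, so it is `X • z₁`, and `z₁` is central (`D₀.R` is `X`-torsion free).
So `M ≤ N + X M`, and Nakayama gives `M = N`. -/
def CnlStmt : Prop :=
  ∀ (R F V A A₀ : Type) [CommRing R] [Field F] [CommGroup V] [Ring A] [Algebra R A] [Ring A₀]
    [Algebra F A₀] [FiniteDimensional F A₀] (W : Subgroup V) (α : V →* A) (cv : Cdv R F)
    (f : FibG A A₀ cv) (α₀ : V →* A₀) (D : Dm R (aw α W)) (D₀ : Dm F (aw α₀ W))
    (ψ : D.R →+* D₀.R), (∀ g, ψ (D.of g) = D₀.of (fun n => f.q (g n))) → H1P R (aw α W) →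
    (∀ z₀ : A₀, (∀ a, z₀ * a = a * z₀) → ∃ z : A, (∀ a, z * a = a * z) ∧ f.q z = z₀) →
    ∀ z₀ : D₀.R, (∀ a, z₀ * a = a * z₀) → ∃ z : D.R, (∀ a, z * a = a * z) ∧ ψ z = z₀

/-- RTU (310).  All relative traces `rt_V(v)` are units.  Proof (compare UNW).  `P = ⊤`, `B = A(V)` (BQX, BPU).  MCK
with `a = α v`, `Q = ⊤`, `T` a set of representatives of the `e` modulo `φ e = φ e'`:
`β (rt(v)) = ∑_(t ∈ T) β (φ_t v) rtB(1)` (the elements `αB u` are central in `B`), `β (rt(1)) = |T| rtB(1)`.  So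
`β (rt(v) - rt(1)) = ∑_t (β (φ_t v) - 1) rtB(1)` is a sum of commuting nilpotent elements (`u^(ℓ^N) = 1`,
characteristic `ℓ`), it is nilpotent, so `(rt(v) - rt(1))^n` is in `BK(⊤)`; it is central (ZRT), so it is
nilpotent by IDN.  `rt(1)` is a unit and commutes with it. -/
def RtuStmt : Prop :=
  ∀ (ℓ : ℕ) [Fact ℓ.Prime] (F V E A K : Type) [Field F] [CharP F ℓ] [CommGroup V] [Fintype V]
    [Group E] [Finite E] [Ring A] [Algebra F A] [Fintype K] (φ : E →* MulAut V) (α : V →* A)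
    (lam : A →ₗ[F] F) (x y : K → A), IsPGroup ℓ V → ¬ ℓ ∣ Nat.card E → Cl F φ α →
    RF F α lam x y → (∃ u, u * ∑ k, x k * y k = 1) → ∀ v : V, ∃ u, u * ∑ k, x k * α v * y k = 1

/-- CNA (320).  CNL in the form of `Olf` (`DefsT.lean`): `As` is the reduction of `D.R`.  Proof: as CNL.  `q` is surjective
(`f.q` is), so `q z₀` is central; it lifts to a central `z` in `A`, CEN: a central `Z` in `D.R` with `sq Z 0 = z`
(`Z = D.of (D.sq Z)`), `q (θ Z) = f.q z = q z₀`, so `z₀ - θ Z = X • z₁`, `z₁` is central (`As` is free), Nakayama in the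
centre of `As` (a finite `F⟦X⟧`-module; the image of the centre of `D.R` is an `F⟦X⟧`-submodule of it). -/
def CnaStmt : Prop :=
  ∀ (R F V A A₀ As : Type) [CommRing R] [Field F] [CommGroup V] [Ring A] [Algebra R A] [Ring A₀]
    [Algebra F A₀] [Ring As] [Algebra F⟦X⟧ As] [Module.Finite F⟦X⟧ As] [Module.Free F⟦X⟧ As]
    (W : Subgroup V) (α : V →* A) (cv : Cdv R F) (f : FibG A A₀ cv) (D : Dm R (aw α W))
    (θ : D.R →+* As) (q : As →+* A₀),
    (∀ (r : PowerSeries R) a, θ (r • a) = (PowerSeries.map cv.κ r) • θ a) →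
    Function.Surjective θ → (∀ g : ℕ → A, q (θ (D.of g)) = f.q (g 0)) →
    (∀ a, q a = 0 → ∃ a', a = (PowerSeries.X : F⟦X⟧) • a') → H1P R (aw α W) →
    (∀ z₀ : A₀, (∀ a, z₀ * a = a * z₀) → ∃ z : A, (∀ a, z * a = a * z) ∧ f.q z = z₀) →
    ∀ z₀ : As, (∀ a, z₀ * a = a * z₀) → ∃ z : D.R, (∀ a, z * a = a * z) ∧ θ z = z₀

/-- OLU (311, uses NBL DVD SPS NZD RHR CNA; StmtsOB: H1W, proved).  THE PROPERTIES OF `As`, in the form of `Olf`:
`As` is the reduction (`θ`) of `D.R`, `D` a deformation of the lift `A` of `A₀` to a complete discrete valuation ring `R`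
with `π = ℓ`, with a trivialisation `P` over `K`.  Proof.
(1) H1W: `H1P R (aw α W)`.
(2) `rt x y w` has the reduction `rt x₀ y₀ w` (`LiftV`), so it has a left inverse in `A` (as in UZL (1): `u₁` a lift of `u₀`, the
right multiplication by `u₁ rt x y w` is congruent to `1` modulo `π`, so bijective by UNJ).  The same for `w = 1`.
(3) `OL ℓ (map κ) γ D.w θ Λ xs ys`: `sep`: SPS, `π = ℓ`; `sc`, `pw`, `ker` are the hypotheses (`C ℓ • a = ℓ • a`); `tf`: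
sequences in the free `R`-module `A`, `R` has characteristic `0`; `cen`: CNA and UZL (3) for `LiftV`; `fr`: CFR for `D`
(`cs ω`, constant frame `D.of (cst (b ω))`, the action of `W × W` on `Ω` restricted, `MulAction.compHom`), and
`c₀ ω (θ a) = map κ (cs ω a)` (well defined: the kernel of `θ` is `C π • D.R`), `F⟦X⟧`-linear.
(4) NZD, DVD (`R⟦X⟧` is a domain, `D.R` is finite and free by FRE): `r * rt xs ys (D.w w) = d • 1`, `d ≠ 0`; NBL: `Nlw`.
(5) RHR; apply `θ`: `a_i ↦ κ a_i`, and `κ a_0 ≠ 0`: `Rel`. -/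
def OluStmt : Prop :=
  ∀ (ℓ : ℕ) [Fact ℓ.Prime] (R F V A₀ As A K B κ κ' Ω : Type) [CommRing R] [IsDomain R]
    [IsPrincipalIdealRing R] [CharZero R] [Field F] [IsAlgClosed F] [CharP F ℓ]
    [CommGroup V] [Fintype V] [Ring A₀] [Algebra F A₀] [FiniteDimensional F A₀] [Ring As]
    [Algebra F⟦X⟧ As] [Module.Finite F⟦X⟧ As] [Module.Free F⟦X⟧ As] [Fintype κ] [Fintype κ']
    [Fintype Ω] [MulAction (V × V) Ω] [Ring A] [Algebra R A]
    [Module.Finite R A] [Module.Free R A] [Field K] [CharZero K]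
    [Algebra R K] [Ring B] [Algebra R B] [Algebra K B]
    (W : Subgroup V) [Fintype W] (cv : Cdv R F) (α₀ : V →* A₀) (lam₀ : A₀ →ₗ[F] F)
    (x₀ y₀ : κ → A₀) (b₀ : Ω → A₀) (c₀ : Ω → (A₀ →ₗ[F] F))
    (f : FibG A A₀ cv) (α : V →* A) (lam : A →ₗ[R] R)
    (x y : κ → A) (b : Ω → A) (c : Ω → (A →ₗ[R] R)) (u : A)
    (C : KC R K B α lam x y b c) (D : Dm R (aw α W))
    (P : ℕ → (B →ₗ[K] B)) (m : ℕ → (B →ₗ[K] B →ₗ[K] B)) (γ : W →* As) (q : As →+* A₀)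
    (θ : D.R →+* As) (Λ : D.R →ₗ[PowerSeries R] PowerSeries R) (xs ys : κ' → D.R),
    cv.π = (ℓ : R) → IsPGroup ℓ V →
    LiftV cv α₀ lam₀ x₀ y₀ b₀ c₀ f α lam x y b c → u * rt x y 1 = 1 →
    (∀ w : W, ∃ u₀, u₀ * rt x₀ y₀ (α₀ w) = 1) →
    Trv (ia C.i α) W P m → (∀ n a₁ a₂, C.i (D.m n a₁ a₂) = m n (C.i a₁) (C.i a₂)) →
    (∀ a, q a = 0 → ∃ a', a = (PowerSeries.X : F⟦X⟧) • a') →
    (∀ (r : PowerSeries R) a, θ (r • a) = (PowerSeries.map cv.κ r) • θ a) →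
    Function.Surjective θ →
    (∀ a, θ a = 0 → ∃ a', a = (PowerSeries.C cv.π : PowerSeries R) • a') →
    (∀ w, θ (D.w w) = γ w) → (∀ g : ℕ → A, q (θ (D.of g)) = f.q (g 0)) →
    RF (PowerSeries R) D.w Λ xs ys →
    ∀ w : W, Nlw F⟦X⟧ γ w ∧ Rel F (fun k => θ (xs k)) (fun k => θ (ys k)) γ w

/-! ## C. The generic fibre -/

/-- LIX (312).  Tensor normal form.  Proof: `z = ∑ s_i ⊗ m_i`; the submodule `N` of `S` generated by the `s_i` is
finitely generated and torsion free over the principal ideal domain `R`, so free; `g` = a basis of `N`. -/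
def LixStmt : Prop :=
  ∀ (R S M : Type) [CommRing R] [IsDomain R] [IsPrincipalIdealRing R] [Field S] [Algebra R S]
    [AddCommGroup M] [Module R M], Function.Injective (algebraMap R S) → ∀ z : S ⊗[R] M,
    ∃ (n : ℕ) (g : Fin n → S) (a : Fin n → M), LinearIndependent R g ∧
      z = ∑ i, g i ⊗ₜ[R] a i

/-- CLC (313, uses LIX).  `Vsh` for the base change.  Proof.  `C = S ⊗ As`, frame `b`, `c` of `As` (`Per`), frame
`1 ⊗ b ω`, `cS ω` of `C`, `cS ω (s ⊗ a) = s * algebraMap (c ω a)` (`H64.bcf`).  LIX: `e = ∑ g_i ⊗ a_i`.  (*) If `h : As → As` is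
`R`-linear and `cS ω ((S ⊗ h) e) = 0` then `∑ c ω (h a_i) • g_i = 0`, so `c ω (h a_i) = 0` for all `i`.
(1) `w e w⁻¹ = e`, (*) for all `ω` and `h a = w a w⁻¹ - a`: `a_i` is in `As^W`.  (2) `Q' > Q`: `cS ω e = 0` for all `ω` fixed by
`Q'` (FCO for `C`), so `c ω a_i = 0`, and `a_i` is in `BK(Q')` (FBK).  (3) `m` in `As^Q`: `1 ⊗ m` is in `C^Q`, so
`e (1 ⊗ m) - (1 ⊗ m) e` is in `BK(Q)`, `cS ω` of it is `0` for `ω` fixed by `Q` (FCO); (*) for `h a = a m - m a`, and FBK: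
`a_i m - m a_i` is in `BK(Q)`.  `Vsh R γ Q`: `a_i` is in `BK(Q)`, so `c ω a_i = 0` and `cS ω e = ∑ g_i * c ω a_i = 0` for
the `ω` fixed by `Q` (FCO), and `e` is in `BK(Q)` (FBK for `C`). -/
def ClcStmt : Prop :=
  ∀ (ℓ : ℕ) [Fact ℓ.Prime] (R S W E As : Type) [CommRing R] [IsDomain R]
    [IsPrincipalIdealRing R] [Field S] [Algebra R S] [CommGroup W] [Fintype W] [Group E]
    [Ring As] [Algebra R As] (ψ : E →* MulAut W) (γ : W →* As),
    Function.Injective (algebraMap R S) → (ℓ : R) = 0 → IsPGroup ℓ W → Per R ψ γ →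
    ∀ Q : Subgroup W, Vsh R γ Q → Vsh S (bcw (R := R) (S := S) γ) Q

/-- BOT (314, uses CLC LIX).  Proof.  Let `P₀ = ⟨w₀⟩`.  (1) `e` is in `BK(P₀)`: otherwise let `Q ≥ P₀` be maximal with
`e` not in `BK(Q)`; then `Q ≠ ⊤`, `e` is in `BK(Q')` for all `Q' > Q`, `e` is central.  If `Q` is not closed CLC gives
`e` in `BK(Q)`.  So `Q` is closed, and it contains `w₀`: an element of `E` which fixes `Q` fixes `w₀`, so it acts
trivially on `W`, hence `Q = ⊤`, a contradiction.  (2) LIX: `e = ∑ g_i ⊗ a_i`.  As in CLC (*): `a_i` is central in `As`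
(`e (1 ⊗ m) = (1 ⊗ m) e`, all `ω`), `a_i` is in `BK(P₀)`.  `Nlw`: the `a_i` are nilpotent, the `1 ⊗ a_i` commute, so
`e = ∑ g_i • (1 ⊗ a_i)` is nilpotent, `e = e^n = 0`. -/
def BotStmt : Prop :=
  ∀ (ℓ : ℕ) [Fact ℓ.Prime] (R S W E As : Type) [CommRing R] [IsDomain R]
    [IsPrincipalIdealRing R] [Field S] [Algebra R S] [CommGroup W] [Fintype W] [Group E]
    [Ring As] [Algebra R As] (ψ : E →* MulAut W) (γ : W →* As) (w₀ : W),
    Function.Injective (algebraMap R S) → (ℓ : R) = 0 → IsPGroup ℓ W → Per R ψ γ →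
    (∀ e, ψ e w₀ = w₀ → ψ e = 1) → (∀ Q : Subgroup W, ¬ Clo ψ Q → Vsh R γ Q) → Nlw R γ w₀ →
    ∀ e : S ⊗[R] As, (∀ a, e * a = a * e) → e * e = e →
      e ∈ BKR (cw S (bcw (R := R) (S := S) γ)) ⊤ → e = 0

/-- FIT (315).  Proof.  In the finite dimensional commutative algebra `F[r]` (`Algebra.adjoin F {r}`) there are
`n ≥ 1` and `c` with `r^n = r^(2n) c`.  `g = r^n c` is idempotent and central (`r` is central), `f = 1 - g`,
`r^n f = 0`, so `f = 0`, `(r^(n-1) c) r = 1`. -/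
def FitStmt : Prop :=
  ∀ (F C : Type) [Field F] [Ring C] [Algebra F C] [FiniteDimensional F C] (r : C),
    (∀ a, r * a = a * r) → (∀ f : C, (∀ a, f * a = a * f) → f * f = f →
      (∃ n : ℕ, r ^ n * f = 0) → f = 0) → ∃ u : C, u * r = 1

/-- UNC (316, uses FIT).  `rt(1)` is a unit of `C`.  Proof.  `r = 1 ⊗ ∑ x k y k` is central (ZRT).  `Q = ⊤`: `Bs = As(W)`,
`βs` (BQX), `lamB`, `xB`, `yB` (BPU), `D = C(W)`, `βD` (BQX), `κ : Bs → D` (GFQ; per, uni, system: GFB).  MCK over `F⟦X⟧` with `a = 1`,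
`Q = ⊤`, `T` a set of representatives of the `e` modulo `ψ e = ψ e'`: `βs (∑ x k y k) = |T| • ∑ xB k yB k`, `|T|` is prime
to `ℓ`.  `Etw`: `u ∑ xB yB = X^m`.  So `κ (|T|⁻¹ u) βD(r) = X^m`, which is not `0` in `F'`: `βD(r)` has a left inverse.
FIT: let `f` be a central idempotent, `r^n f = 0`: `βD(r)^n βD(f) = 0`, `βD(f) = 0`, `f` is in `BK(⊤)`, so `f = 0` by the
hypothesis. -/
def UncStmt : Prop :=
  ∀ (ℓ : ℕ) [Fact ℓ.Prime] (F F' W E As K : Type) [Field F] [CharP F ℓ] [Field F']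
    [CharP F' ℓ] [Algebra F⟦X⟧ F'] [CommGroup W] [Fintype W] [Group E] [Finite E] [Ring As]
    [Algebra F⟦X⟧ As] [Fintype K] (ψ : E →* MulAut W) (γ : W →* As) (lam : As →ₗ[F⟦X⟧] F⟦X⟧)
    (x y : K → As), Function.Injective (algebraMap F⟦X⟧ F') → IsPGroup ℓ W →
    ¬ ℓ ∣ Nat.card E → Per F⟦X⟧ ψ γ → Uni ψ γ → RF F⟦X⟧ γ lam x y → Etw F γ lam →
    (∀ e : F' ⊗[F⟦X⟧] As, (∀ a, e * a = a * e) → e * e = e →
      e ∈ BKR (cw F' (bcw (R := F⟦X⟧) (S := F') γ)) ⊤ → e = 0) →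
    ∃ u : F' ⊗[F⟦X⟧] As, u * ((1 : F') ⊗ₜ[F⟦X⟧] ∑ k, x k * y k) = 1

/-- UNR (317).  Proof.  The relation says `- a_0 z₁^d = z g`, `g = ∑_(i ≥ 1) a_i z^(i-1) z₁^(d-i)`.  In `C`:
`u^d (1 ⊗ z₁)^d = 1`, so `(- a_0⁻¹ u^d (1 ⊗ g)) (1 ⊗ z) = 1`. -/
def UnrStmt : Prop :=
  ∀ (F F' As : Type) [Field F] [Field F'] [Algebra F⟦X⟧ F'] [Ring As] [Algebra F⟦X⟧ As]
    (z z₁ : As) (u : F' ⊗[F⟦X⟧] As) (d : ℕ) (a : ℕ → F),
    Function.Injective (algebraMap F⟦X⟧ F') → (∀ m, z * m = m * z) → (∀ m, z₁ * m = m * z₁) →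
    a 0 ≠ 0 → ∑ i ∈ Finset.range (d + 1),
      (PowerSeries.C (a i) : F⟦X⟧) • (z ^ i * z₁ ^ (d - i)) = 0 →
    u * ((1 : F') ⊗ₜ[F⟦X⟧] z₁) = 1 → ∃ u' : F' ⊗[F⟦X⟧] As, u' * ((1 : F') ⊗ₜ[F⟦X⟧] z) = 1

/-- BLV (318, uses CLC).  The blocks of the generic fibre.  Proof.  As BLK / GFP (`Helper30_PSS/GFP.lean`): downward
induction on `Q`, `Q = ⊤` is trivial; `e` satisfies the hypotheses at all `Q' > Q`, so `e` is in `BK(Q')`.  If `Q` is
not closed: CLC.  Let `Q` be closed, `Q ≠ ⊤`.  `Q` is `E`-stable: for `q` in `Q`, `f` in `E` and `e'` in `E` which fixes `Q`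
pointwise, `ψ e' (ψ f q) = ψ f (ψ e' q) = ψ f q`, so `ψ f q` is in `Q`.  Let `w` be not in `Q`.  `D = C(Q)`, `βD` (BQX),
`lamD`, `xD`, `yD` (BPU over `F'` for `C`; per, uni, system of `C`: GFB).  MCK (over `F'`, for `C`) with `a` = the image of `w`:
`βD (∑ (1 ⊗ x k) w (1 ⊗ y k)) = ∑_(t ∈ T) ∑ xD k (γD (ψ_t w)) yD k` (`n_t w n'_t = ψ_t w`), and `ψ_t w` is not in `Q`.  BLS:
`βD e * ∑ xD k (γD w') yD k = 0` for all `w'` not in `Q`.  So `βD e * βD (unit) = 0`, `βD e = 0`, `e` is in `BK(Q)`. -/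
def BlvStmt : Prop :=
  ∀ (ℓ : ℕ) [Fact ℓ.Prime] (F F' W E As K : Type) [Field F] [CharP F ℓ] [Field F']
    [CharP F' ℓ] [Algebra F⟦X⟧ F'] [CommGroup W] [Fintype W] [Group E] [Finite E] [Ring As]
    [Algebra F⟦X⟧ As] [Fintype K] (ψ : E →* MulAut W) (γ : W →* As) (lam : As →ₗ[F⟦X⟧] F⟦X⟧)
    (x y : K → As), Function.Injective (algebraMap F⟦X⟧ F') → IsPGroup ℓ W →
    ¬ ℓ ∣ Nat.card E → Per F⟦X⟧ ψ γ → Uni ψ γ → RF F⟦X⟧ γ lam x y →
    (∀ e f : E, ψ e * ψ f = ψ f * ψ e) → (∀ Q : Subgroup W, ¬ Clo ψ Q → Vsh F⟦X⟧ γ Q) →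
    (∀ w : W, ∃ u : F' ⊗[F⟦X⟧] As, u * ((1 : F') ⊗ₜ[F⟦X⟧] ∑ k, x k * γ w * y k) = 1) →
    ∀ (Q : Subgroup W), ∀ e ∈ FxR (cw F' (bcw (R := F⟦X⟧) (S := F') γ)) ⊤,
      e * e - e ∈ BKR (cw F' (bcw (R := F⟦X⟧) (S := F') γ)) Q →
      (∀ a ∈ FxR (cw F' (bcw (R := F⟦X⟧) (S := F') γ)) Q,
        e * a - a * e ∈ BKR (cw F' (bcw (R := F⟦X⟧) (S := F') γ)) Q) →
      e ∈ BKR (cw F' (bcw (R := F⟦X⟧) (S := F') γ)) ⊤ →
      e ∈ BKR (cw F' (bcw (R := F⟦X⟧) (S := F') γ)) Q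

/-- GFV (319, uses BOT UNC UNR BLV).  THE GENERIC FIBRE IS IN THE CLASS.  Proof.  `fin`, `per`, `uni`, the system: GFB (as
in `Helper30_PSS/GFP.lean`).  BOT: the central idempotents in `BK(⊤)` are `0`.  UNC: `1 ⊗ rt(1)` is a unit, this is
`rt`.  UNR with `Rel` (`z = rt(w)`, `z₁ = rt(1)` central by ZRT): all `1 ⊗ rt(w)` are units.  BLV: `blk`. -/
def GfvStmt : Prop :=
  ∀ (ℓ : ℕ) [Fact ℓ.Prime] (F F' W E As K : Type) [Field F] [CharP F ℓ] [Field F']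
    [CharP F' ℓ] [Algebra F⟦X⟧ F'] [CommGroup W] [Fintype W] [Group E] [Finite E] [Ring As]
    [Algebra F⟦X⟧ As] [Fintype K] (ψ : E →* MulAut W) (γ : W →* As) (lam : As →ₗ[F⟦X⟧] F⟦X⟧)
    (x y : K → As) (w₀ : W), Function.Injective (algebraMap F⟦X⟧ F') → IsPGroup ℓ W →
    ¬ ℓ ∣ Nat.card E → Per F⟦X⟧ ψ γ → Uni ψ γ → RF F⟦X⟧ γ lam x y →
    (∀ e f : E, ψ e * ψ f = ψ f * ψ e) → (∀ e, ψ e w₀ = w₀ → ψ e = 1) →
    (∀ Q : Subgroup W, ¬ Clo ψ Q → Vsh F⟦X⟧ γ Q) → Nlw F⟦X⟧ γ w₀ → Etw F γ lam →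
    (∀ w : W, Rel F x y γ w) → Cl F' ψ (bcw (R := F⟦X⟧) (S := F') γ)

end Pool.Agent.PST.U
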