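import Pool.Agent.PST.DefsT
import Pool.Agent.PST.StmtsU

/-!
# Squad PST, interface of the block UC (helper30): ETW
-/

open scoped BigOperators TensorProduct PowerSeries

noncomputable section

namespace Pool.Agent.PST.UC

open Pool.Agent.PSS

/-- ETW: the relative trace of `1` in `As(W)` divides a power of `X` (blocks ET, UC). -/
def EtwStmt : Prop :=
  ∀ (ℓ : ℕ) [Fact ℓ.Prime] (F V E A As K K0 : Type) [Field F] [IsAlgClosed F] [CharP F ℓ]
    [CommGroup V] [Fintype V] [Group E] [Fintype E] [Ring A] [Algebra F A] [Ring As]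
    [Algebra F⟦X⟧ As] [Module.Finite F⟦X⟧ As] [Module.Free F⟦X⟧ As] [Fintype K] [Fintype K0]
    (φ : E →* MulAut V) (α : V →* A) (W : Subgroup V) [Fintype W] (ψ : E →* MulAut W)
    (γ : W →* As) (q : As →+* A) (lam : As →ₗ[F⟦X⟧] F⟦X⟧) (lam0 : A →ₗ[F] F) (x y : K → As)
    (x0 y0 : K0 → A), IsPGroup ℓ V → ¬ ℓ ∣ Nat.card E → W ≠ ⊤ →
    Dpt ℓ F φ α W ψ γ q lam lam0 x y x0 y0 → U.Etw F γ lam

end Pool.Agent.PST.UC
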