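import Pool.Agent.PSS.StmtsS2
import Pool.Agent.PSS.DefsN
import Pool.Agent.PSS.DefsOB

/-!
# Theorem (S+), block DR (direction): definitions (helper75)

`W ≤ V` is `E`-stable, `V / W` elementary abelian, `E / C_E(V / W)` abelian.  `Q ≤ V` is `E`-stable with
`Q W = V` (for example `QW0 φ W` = the fixed points of `C_E(V / W)`).

* `Eg F φ W Q la χ xx t`: eigen-coordinates `la l : V → F` of `V / W`, their weights `χ l`, dual elements
  `xx l ∈ F Q`, eigenvalues `t l`.
* `pg la xx t u v`: the direction, `∑ l, t l * la l u * xx l v`; `Xe α x = ∑ v, x v • α v`.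
* `Gx X x y N`: the transfer of the derivation given by the connection `N` and the element `X`.
* `Drd F φ α W Q la χ xx t D`: the values `D : V → A` of the regular derivation.
* `FoD ℓ F α W γ q D lf G`: first order datum of a deformation: lifts `lf u` of `α u` which commute
  with `W` and with each other modulo `X ^ 2`, and `lf u ^ ℓ = γ (u ^ ℓ) (1 + X G u)`, `q (G u) = D u`.
-/

open scoped BigOperators PowerSeries

noncomputable section

namespace Pool.Agent.PST

open Pool.Agent.PFC (tw IsTv)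
open Pool.Agent.PFD.D2b (FrR)
open Pool.Agent.PSS

/-- the fixed points of `C_E(V / W)` -/
def QW0 {V E : Type} [CommGroup V] [Group E] (φ : E →* MulAut V) (W : Subgroup V) : Subgroup V where
  carrier := {v | ∀ e : E, (∀ u, φ e u * u⁻¹ ∈ W) → φ e v = v}
  one_mem' := fun e _ => map_one _
  mul_mem' := by
    intro a b ha hb e he
    rw [map_mul, ha e he, hb e he]
  inv_mem' := by
    intro a ha e he
    rw [map_inv, ha e he]

/-- eigen-coordinates of `V / W` -/
structure Eg (F : Type) {V E : Type} [Field F] [CommGroup V] [Fintype V] [Group E]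
    (φ : E →* MulAut V) (W Q : Subgroup V) {r : ℕ} (la : Fin r → V → F) (χ : Fin r → E → F)
    (xx : Fin r → V → F) (t : Fin r → F) : Prop where
  add : ∀ l u v, la l (u * v) = la l u + la l v
  ker : ∀ v, v ∈ W ↔ ∀ l, la l v = 0
  wt : ∀ l e v, la l (φ e v) = χ l e * la l v
  chm : ∀ l e f, χ l (e * f) = χ l e * χ l f
  ch1 : ∀ l, χ l 1 = 1
  qs : ∀ l v, v ∉ Q → xx l v = 0
  x0 : ∀ l, ∑ v, xx l v = 0
  xl : ∀ l n, ∑ v, xx l v * la n v = if l = n then 1 else 0
  xe : ∀ l e v, χ l e * xx l (φ e v) = xx l v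
  spn : ∀ μ : V → F, (∀ u v, μ (u * v) = μ u + μ v) → (∀ w ∈ W, μ w = 0) →
    ∀ v, μ v = ∑ l, (∑ u, xx l u * μ u) * la l v
  t0 : ∀ l, t l ≠ 0
  tj : Function.Injective t

/-- the direction: `pg la xx t u` is the element `∑ l, t l * la l u • X_l` of `F Q` -/
def pg {F V : Type} [Field F] {r : ℕ} (la xx : Fin r → V → F) (t : Fin r → F) (u v : V) : F :=
  ∑ l, t l * la l u * xx l v

/-- the element `∑ v, x v • α v` -/
def Xe {R V A : Type} [CommRing R] [CommGroup V] [Fintype V] [Ring A] [Algebra R A] (α : V →* A)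
    (x : V → R) : A := ∑ v, x v • α v

/-- the transfer given by the connection `N` and the element `X` -/
def Gx {R A K : Type} [CommRing R] [Ring A] [Algebra R A] [Fintype K] (X : A) (x y : K → A)
    (N : A →ₗ[R] A) : A →ₗ[R] A :=
  ∑ k, (LinearMap.mulRight R (X * y k)).comp
    (N.comp (LinearMap.mulRight R (x k)) - LinearMap.mulRight R (N (x k)))

theorem gx_apply {R A K : Type} [CommRing R] [Ring A] [Algebra R A] [Fintype K] (X : A)
    (x y : K → A) (N : A →ₗ[R] A) (a : A) :
    Gx X x y N a = ∑ k, (N (a * x k) - a * N (x k)) * (X * y k) := by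
  simp [Gx, LinearMap.sum_apply, mul_assoc]

/-- the values `D : V → A` of the regular derivation -/
structure Drd (F : Type) {V E A : Type} [Field F] [CommGroup V] [Fintype V] [Group E] [Ring A]
    [Algebra F A] (φ : E →* MulAut V) (α : V →* A) (W Q : Subgroup V) {r : ℕ}
    (la : Fin r → V → F) (χ : Fin r → E → F) (xx : Fin r → V → F) (t : Fin r → F) (D : V → A) :
    Prop where
  eg : Eg F φ W Q la χ xx t
  qst : Stb φ Q
  add : ∀ u v, D (u * v) = D u + D v
  w0 : ∀ w ∈ W, D w = 0
  fx : ∀ u, D u ∈ FxR (cw F α) ⊤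
  bk : ∀ u, D u - Xe α (pg la xx t u) ∈ BKR (cw F α) Q

/-- first order datum of a deformation -/
structure FoD (ℓ : ℕ) (F : Type) {V A As : Type} [Field F] [CommGroup V] [Ring A] [Algebra F A]
    [Ring As] [Algebra F⟦X⟧ As] (α : V →* A) (W : Subgroup V) (γ : W →* As) (q : As → A)
    (D : V → A) (lf G : V → As) : Prop where
  q0 : ∀ u, q (lf u) = α u
  cm : ∀ u w, γ w * lf u = lf u * γ w
  pl : ∀ (u : V) (h : u ^ ℓ ∈ W), lf u ^ ℓ = γ ⟨u ^ ℓ, h⟩ * (1 + (PowerSeries.X : F⟦X⟧) • G u)
  qG : ∀ u, q (G u) = D u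
  cc : ∀ u v, ∃ z, lf u * lf v - lf v * lf u = ((PowerSeries.X : F⟦X⟧) ^ 2) • z

end Pool.Agent.PST
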