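import Pool.Agent.PSS.StmtsS0
import Pool.Agent.PSS.StmtsS2
import Pool.Agent.PSS.DefsN
import Pool.Agent.PST.DefsR

/-!
# Squad PST, block KEY, part 1 (helper79): the class `Cl` over `F`

Notation: `v` for `α v`, `rt x y a = ∑ x k * a * y k` (`PSS.rt`), `ζ = rt x y 1`.  `Adc φ e`: `e : V → F` is
additive and `E`-invariant.  Complete proofs in the docstrings.  All rows of block S0 (`PSS/StmtsS0.lean`) are
PROVED (files: table `pss`, column path): take them as hypotheses (`(mck : S0.MckStmt)` ..) or import them.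

1. DEX: the derivation `D_e` with `D_e v = e(v) v ζ`.  NKB, ADX, LSA.
2. ZIJ: the Brauer map at a subgroup centralised by `E` is injective on the centre.
3. DZC: the values of a derivation at central elements.  HON: cocycles of `V / W`.
-/

open scoped BigOperators

noncomputable section

namespace Pool.Agent.PST

open Pool.Agent.PFC (tw IsTv)
open Pool.Agent.PFD.D2b (FrR)
open Pool.Agent.PSS
open Pool.Agent.PSS.S0 (IsBQ)

/-- additive `E`-invariant functions on `V` -/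
structure Adc {F V E : Type} [Field F] [CommGroup V] [Group E] (φ : E →* MulAut V) (e : V → F) :
    Prop where
  add : ∀ u v, e (u * v) = e u + e v
  inv : ∀ g v, e (φ g v) = e v

/-- `D` is a derivation -/
def Der {F A : Type} [Field F] [Ring A] [Algebra F A] (D : A →ₗ[F] A) : Prop :=
  ∀ a b, D (a * b) = D a * b + a * D b

/-! ## 1. Derivations and relative traces -/

/-- DEX: the derivation of an additive `E`-invariant function.

Proof.  `Per`: frame `(Ω, b, c)` with stabilisers `tw (φ (g ω)) (S ω)`; choose `g`, `S` constant on orbits (a function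
of the stabiliser, which is constant on orbits).  `S2.SvhStmt` (proved): `H : Ω → F` with
`H ((u, v) • ω) = H ω + e (φ (g ω)⁻¹ u) - e v = H ω + e u - e v` (`inv`).  `N = S2.Nh H b c`, `N a = ∑ c ω a H ω • b ω`:
(1) `N (a v) = N a v + e(v) a v` and (2) `N (u a) = u N a + e(u) u a` (substitute `ω ↦ (1, v⁻¹) • ω` etc., see the
proofs of `S2.CnhStmt` and `S2.SvkStmt`, with `q = 0`).  `D a = ∑_k (N (a x_k) - a N (x_k)) y_k`.
Derivation: for fixed `a` the map `f b = N (a b) - a N b` is right `V`-linear by (1), `D (a b) = ∑_k f (b x_k) y_k +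
a D b` and `S2.ThlStmt` (`q = 0`, proved; `S2.RLq`, `S2.Cg` with `q = 0` are equalities, `S2.cg_zero`):
`∑_k f (b x_k) y_k = (∑_k f (x_k) y_k) b = D a b`.  `D v = ∑_k e(v) v x_k y_k` by (2). -/
def DexStmt : Prop := ∀ (F V E A K : Type) [Field F] [CommGroup V] [Fintype V] [Group E] [Ring A]
  [Algebra F A] [Fintype K] (φ : E →* MulAut V) (α : V →* A) (lam : A →ₗ[F] F) (x y : K → A)
  (e : V → F), Per F φ α → RF F α lam x y → Adc φ e →
  ∃ D : A →ₗ[F] A, Der D ∧ ∀ v, D (α v) = e v • (α v * rt x y 1)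

/-- NKB: central elements in the Brauer kernel of `V` are nilpotent.

Proof.  Let `z` be central, `z ^ n ∈ BKR (cw F α) ⊤`, `z` not nilpotent.  `A` is finite-dimensional: there is a
polynomial `p` with `f = p(z) z ^ n` idempotent, `f ≠ 0` (Fitting: the minimal polynomial is `X ^ m r`, `r(0) ≠ 0`,
`s X ^ (m+n) + t r = 1`, `f = s(z) z ^ (m+n)`; `f = 0` would give `1 = t(z) r(z)`, so `z ^ m = 0`; or use
`S5.FitStmt`).  `f` is central and in `BKR (cw F α) ⊤` (an ideal of the centraliser of `V`: `S0.BkiStmt`).  `Cl.blk` for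
`Q = ⊥` (`e * e - e = 0`, `e * a - a * e = 0`): `f ∈ BKR (cw F α) ⊥`, which is `0` (`⊥` has no proper subgroup).  So
`f = 0`, a contradiction. -/
def NkbStmt : Prop := ∀ (F V E A : Type) [Field F] [CommGroup V] [Fintype V] [Group E] [Ring A]
  [Algebra F A] (φ : E →* MulAut V) (α : V →* A), Cl F φ α → ∀ z : A, (∀ a, z * a = a * z) →
  ∀ n : ℕ, z ^ n ∈ BKR (cw F α) ⊤ → IsNilpotent z

/-- ADX: existence of an additive invariant function which vanishes on `S`.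

Proof.  `P v = ∏_(g : E) φ g v`, an endomorphism of `V` (`V` commutative) with `P (φ h v) = P v`.  `P s = s ^ |E|` for
`s ∈ S` and `P q = q ^ |E|`, which is not in `S`: `|E|` is prime to the order of `q` (a power of `ℓ`), so `q` is a power of
`q ^ |E|`.  `H = S.comap P`: `q ∉ H`, `S ≤ H`, and `φ g v * v⁻¹ ∈ H` (`P` of it is `1`).  `H ≠ ⊤`: let `M` be a maximal
subgroup containing `H`; `V` is an `ℓ`-group, so `M` has index `ℓ`, `V ⧸ M` is cyclic of order `ℓ`: an injective additive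
function `V ⧸ M → ZMod ℓ → F` (`ZMod.castHom` for `CharP F ℓ`).  `e` = the composite: `e (φ g v) = e v`, `e = 0` on
`S ≤ M`, `e v ≠ 0` for `v ∉ M`. -/
def AdxStmt : Prop := ∀ (ℓ : ℕ) [Fact ℓ.Prime] (F V E : Type) [Field F] [CharP F ℓ] [CommGroup V]
  [Finite V] [Group E] [Finite E] (φ : E →* MulAut V) (S : Subgroup V) (q : V), IsPGroup ℓ V →
  ¬ ℓ ∣ Nat.card E → (∀ g, ∀ s ∈ S, φ g s = s) → (∀ g, φ g q = q) → q ∉ S →
  ∃ e : V → F, Adc φ e ∧ (∀ s ∈ S, e s = 0) ∧ ∃ v, e v ≠ 0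

/-- DZU: the value of `D_e` at `rt(u) - rt(1)`.

Proof.  `ζ = rt x y 1`, `z = rt x y u - ζ`: central (`S0.ZrtStmt`).  `D` maps central elements to central elements
(`D (z a) = D (a z)` gives `D(z) a = a D(z)`), `ζ` is central.  `D` maps the centraliser `A^V` of `V` into itself
(`D(a) v + e(v) a v ζ = D(a v) = D(v a) = e(v) v ζ a + v D(a)`), and `BK = BKR (cw F α) ⊤` into itself:
`D (t m t⁻¹) = t D(m) t⁻¹` (the two other terms cancel), and `D m` commutes with `P'` if `m` does.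
`B = A(V)` (`S0.BqxStmt`), `β`; `S0.BpuStmt` (`E1` = the centraliser of `V` in `E`): `lamB`, `xB`, `yB`; `ζ_B = ∑ xB yB`.
`V` is central in `B`.  `S0.MckStmt` (`Q = ⊤`) for `a = u` and `a = 1`: `β (rt u) = (∑_(t ∈ T) αB (φ t u)) ζ_B`,
`β ζ = |T| ζ_B`.  Let `s ∈ A^V`, `β s = ζ_B`.  Modulo `BK`: `rt u ≡ ∑_t (φ t u) s`, `ζ ≡ |T| s`.  So
`D (rt u) ≡ ∑_t (e(u) (φ t u) ζ s + (φ t u) D(s))` (`e (φ t u) = e u`), `D ζ ≡ |T| D(s)`, `e(u) ζ² ≡ ∑_t e(u) ζ s`, and
`D z - e(u) ζ² ≡ ∑_t ((φ t u) - 1) (e(u) ζ s + D(s))`.  The image in `B` is a combination of the central nilpotent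
elements `αB (φ t u) - 1` (`(v - 1) ^ (ℓ ^ n) = v ^ (ℓ ^ n) - 1 = 0`), so it is nilpotent, and a power of the
central element `D z - e(u) ζ²` is in `BK`: NKB. -/
def DzuStmt : Prop := ∀ (ℓ : ℕ) [Fact ℓ.Prime] (F V E A K : Type) [Field F] [CharP F ℓ]
  [CommGroup V] [Fintype V] [Group E] [Finite E] [Ring A] [Algebra F A] [Fintype K]
  (φ : E →* MulAut V) (α : V →* A) (lam : A →ₗ[F] F) (x y : K → A) (e : V → F) (D : A →ₗ[F] A),
  IsPGroup ℓ V → ¬ ℓ ∣ Nat.card E → Cl F φ α → RF F α lam x y → Adc φ e → Der D →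
  (∀ v, D (α v) = e v • (α v * rt x y 1)) → ∀ u : V,
  IsNilpotent (D (rt x y (α u) - rt x y 1) - e u • (rt x y 1 * rt x y 1))

/-- LSA: the relative traces from the kernel of an additive invariant function vanish (Lemma **).

Proof.  `D` from DEX, `f = rt x y (∑_(t ∈ T) t c t⁻¹)`.  Let `h_j = x_k t`, `h'_j = t⁻¹ y_k` for `j = (k, t)`: this is a
relative Frobenius system over `S` (`S0.RfsStmt`), `f = ∑_j h_j c h'_j`.  `D` is right `S`-linear (`D s = 0`), so is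
`b ↦ D(b) c` (`c` commutes with `S`), and `S2.ThlStmt` for the group `S` (`q = 0`) gives
`∑_j D (a h_j) c h'_j = (∑_j D(h_j) c h'_j) a`; the left side is `D(a) f + a ∑_j D(h_j) c h'_j`.  So for central `a`:
`D(a) f = 0`.  Choose `u` with `e u ≠ 0` and `a = rt x y u - ζ`: `D a = e(u) ζ² + nilpotent` (DZU), both central, `ζ` is a
unit (`u₀ * ζ = 1`, `ζ` central), so `D a` is a unit and `f = 0`. -/
def LsaStmt : Prop := ∀ (ℓ : ℕ) [Fact ℓ.Prime] (F V E A K : Type) [Field F] [CharP F ℓ]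
  [CommGroup V] [Fintype V] [Group E] [Finite E] [Ring A] [Algebra F A] [Fintype K]
  (φ : E →* MulAut V) (α : V →* A) (lam : A →ₗ[F] F) (x y : K → A) (u₀ : A) (e : V → F)
  (S : Subgroup V) (T : Finset V), IsPGroup ℓ V → ¬ ℓ ∣ Nat.card E → Cl F φ α →
  RF F α lam x y → u₀ * rt x y 1 = 1 → Adc φ e → (∀ s ∈ S, e s = 0) → (∃ v, e v ≠ 0) →
  IsTv S ⊤ T → ∀ c ∈ FxR (cw F α) S, rt x y (∑ t ∈ T, α t * c * α t⁻¹) = 0

/-! ## 2. The Brauer map on the centre -/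

/-- ZIJ: if `E` centralises `Q`, the Brauer map at `Q` is injective on the centre.

Proof.  Suppose `z ≠ 0`.  `z ∉ BKR (cw F α) ⊥ = 0`.  Choose `S ≤ V` maximal with `z ∉ BKR (cw F α) S`.  `Q` is not
contained in `S`: otherwise the coefficients of `z` at the points fixed by `Q` vanish (`S0.FcoStmt` for the frame of
`Per` with `V` acting through the diagonal), in particular at the points fixed by `S`, and `z ∈ BKR (cw F α) S` by
`S0.FbkStmt`.  Let `q ∈ Q`, `q ∉ S`.  `B = A(S)`, `β`, `αB` (`S0.BqxStmt`), `E1` = the centraliser of `S` in `E`; `B` is in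
the class for `φ.comp E1.subtype` (`S0.BclStmt`).  `z' = β z ≠ 0` is central in `B` (every element of `B` is `β a`,
`a ∈ A^S`).  For `P' > S`: `z ∈ BKR (cw F α) P'`, so `z' ∈ BKR (cw F αB) P'` (`S0.BbkStmt`, `P = P'`, `P' ⊔ S = P'`).
`S0.FtrStmt` (`H = V`, `ρ = cw F αB`, `P = S`; the frame of `Per F (φ.comp E1.subtype) αB` with the diagonal action):
`z' - ∑_(t ∈ T) t c t⁻¹ ∈ BKR (cw F αB) S`, which is `0` (`S0.BbkStmt` with `P = S`, `S0.BkfStmt`: an element of it is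
`β a`, `a ∈ BKR (cw F α) S`).  `lam`, `x`, `y`, `u₀` from `Cl.rt` for `B`; `ADX` for `φ.comp E1.subtype`, `S`, `q`
(`E1` centralises `S` and `Q`): `e`; LSA: `rt (z') = rt (∑ t c t⁻¹) = 0`, but `rt (z') = z' ζ_B` and `ζ_B` is a unit:
`z' = 0`, a contradiction. -/
def ZijStmt : Prop := ∀ (ℓ : ℕ) [Fact ℓ.Prime] (F V E A : Type) [Field F] [CharP F ℓ] [CommGroup V]
  [Fintype V] [Group E] [Finite E] [Ring A] [Algebra F A] (φ : E →* MulAut V) (α : V →* A)
  (Q : Subgroup V), IsPGroup ℓ V → ¬ ℓ ∣ Nat.card E → Cl F φ α → (∀ g, ∀ q ∈ Q, φ g q = q) →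
  ∀ z : A, (∀ a, z * a = a * z) → z ∈ BKR (cw F α) Q → z = 0

/-! ## 3. Derivations with given values on `V` -/

/-- DZC: the values at central elements.

Proof.  `ζ = rt x y 1`, `a_i` commutes with `V`.  `N b = ζ δ b - ∑_i D_i(b) a_i` is right `V`-linear:
`N (b v) = ζ δ(b) v + ζ b ∑ e_i(v) a_i v - ∑ D_i(b) v a_i - ∑ e_i(v) b v ζ a_i = N(b) v` (`ζ` is central,
`S0.ZrtStmt`).  `S2.ThlStmt` (`q = 0`): `∑_k N (z x_k) y_k = (∑_k N(x_k) y_k) z`.  `z` and all `D_i z` are central, so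
`N (z x_k) = z N(x_k) + ζ δ(z) x_k - ∑_i D_i(z) x_k a_i`, and the left side is
`z ∑_k N(x_k) y_k + ζ δ(z) ζ - ∑_i D_i(z) rt x y (a_i)`. -/
def DzcStmt : Prop := ∀ (F V A K ι : Type) [Field F] [CommGroup V] [Fintype V] [Ring A]
  [Algebra F A] [Fintype K] [Fintype ι] (α : V →* A) (lam : A →ₗ[F] F) (x y : K → A)
  (δ : A →ₗ[F] A) (D : ι → (A →ₗ[F] A)) (e : ι → V → F) (a : ι → A), RF F α lam x y → Der δ →
  (∀ i, Der (D i)) → (∀ i v, D i (α v) = e i v • (α v * rt x y 1)) →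
  (∀ i, a i ∈ FxR (cw F α) ⊤) → (∀ v, δ (α v) = ∑ i, e i v • (a i * α v)) →
  ∀ z : A, (∀ b, z * b = b * z) →
    rt x y 1 * rt x y 1 * δ z = ∑ i, D i z * rt x y (a i)

/-- EXA: extension of additive functions which vanish on `W`, `V / W` elementary abelian.

Proof.  By induction on the index of `T` (or Zorn): if `T ≠ ⊤` choose `u ∉ T`; `u ^ ℓ ∈ W ≤ T`, so every element of
`T' = T ⊔ zpowers u` is `s u ^ k`, and `k` is determined modulo `ℓ` (`u ^ k ∈ T` implies `ℓ ∣ k`); put `h'(s u ^ k) = h s`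
(well defined: `s u ^ (ℓ k) = s (u ^ ℓ) ^ k`, `h (u ^ ℓ) = 0`). -/
def ExaStmt : Prop := ∀ (ℓ : ℕ) [Fact ℓ.Prime] (F V : Type) [Field F] [CommGroup V] [Finite V]
  (W T : Subgroup V) (h : V → F), W ≤ T → (∀ v : V, v ^ ℓ ∈ W) →
  (∀ s ∈ T, ∀ t ∈ T, h (s * t) = h s + h t) → (∀ w ∈ W, h w = 0) →
  ∃ h' : V → F, (∀ u v, h' (u * v) = h' u + h' v) ∧ ∀ t ∈ T, h' t = h t

/-- HON: 1-cocycles of `V / W` in the centraliser of `W`, `V / W` elementary abelian; `la l` is a basis of the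
additive functions which vanish on `W`.

Proof.  `V` acts on `Ω` (frame of `Per`) through `(v, v)`: `c (v ω) (v a v⁻¹) = c ω a`, `v b_ω v⁻¹ = b_(v ω)`.
`f_ω(v) = c ω (q v)`: `f_ω(u v) = f_ω(u) + f_(u⁻¹ ω)(v)`, `f_ω(w) = 0` for `w ∈ W`; so `f_(w⁻¹ ω)(u) = f_ω(w u) =
f_ω(u w) = f_ω(u)`: `f_ω` depends only on the `W`-orbit of `ω`.  Let `ω₀` be a representative of a `V`-orbit, `T₀` its
stabiliser, `T = T₀ ⊔ W`.  For `s ∈ T`: `s⁻¹ ω₀` is in the `W`-orbit of `ω₀`, so `f_(ω₀)(s t) = f_(ω₀)(s) + f_(ω₀)(t)`: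
EXA gives an additive `h`, `h = f_(ω₀)` on `T`; `k_ω(v) = f_ω(v) - h(v)` for the `ω` in the orbit satisfies the same
cocycle identity and `k_(ω₀) = 0` on `T`.  `r_(u⁻¹ ω₀) := k_(ω₀)(u)` is well defined (`u' = t u`, `t ∈ T₀`:
`k_(ω₀)(t u) = k_(ω₀)(t) + k_(ω₀)(u)`), and `k_ω(v) = r_(v⁻¹ ω) - r_ω`.  `y = ∑ r_ω b_ω`:
`v y v⁻¹ - y = ∑ (r_(v⁻¹ ω) - r_ω) b_ω`; `y` commutes with `W` (`k_ω(w) = 0`).  `h = ∑_l c_l la l` (`spn`), constants
`c_(l, ω)` depending only on the `V`-orbit: `a_l = ∑_ω c_(l, ω) b_ω` commutes with `V`.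
`q v = ∑ f_ω(v) b_ω = ∑_l la l v a_l + (v y v⁻¹ - y)`. -/
def HonStmt : Prop := ∀ (ℓ : ℕ) [Fact ℓ.Prime] (F V E A : Type) [Field F] [CommGroup V]
  [Fintype V] [Group E] [Ring A] [Algebra F A] (φ : E →* MulAut V) (α : V →* A)
  (W : Subgroup V) (r : ℕ) (la : Fin r → V → F) (q : V → A), Per F φ α → (∀ v : V, v ^ ℓ ∈ W) →
  (∀ μ : V → F, (∀ u v, μ (u * v) = μ u + μ v) → (∀ w ∈ W, μ w = 0) →
    ∃ c : Fin r → F, ∀ v, μ v = ∑ l, c l * la l v) →
  (∀ u v, q (u * v) = q u + α u * q v * α u⁻¹) → (∀ w ∈ W, q w = 0) →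
  ∃ (a : Fin r → A) (y : A), (∀ l, a l ∈ FxR (cw F α) ⊤) ∧ (∀ w ∈ W, α w * y = y * α w) ∧
    ∀ v, q v = ∑ l, la l v • a l + (α v * y * α v⁻¹ - y)

end Pool.Agent.PST
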