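import Pool.Agent.PST.DefsT
import Pool.Agent.PST.StmtsK1
import Pool.Agent.PST.StmtsU

/-!
# Squad PST (theorem (S+)), block CL (helper78): closedness passes to the deformation

The input of block U (`Pool.Agent.PST.U.GfvStmt`): for `Q` not closed the Brauer quotient `As(Q)` has no
central elements with `br_Q' = 0` for all `Q' > Q` (`Vsh`), and the generic element `w₀`.
The input is row ZIJ of block KEY (the Brauer map at a subgroup centralised by `E` is injective on the centre).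
All rows of the blocks S0, S3 of squad PSS are PROVED: `Pool.Agent.Helper30_PSS.S3All` (theorems
`Pool.Agent.PSS.All30.fco` etc.), also `tfx : S3.TfxStmt`, `qbk : S3.QbkStmt`.
-/

open scoped BigOperators TensorProduct PowerSeries

noncomputable section

namespace Pool.Agent.PST

open Pool.Agent.PFC (tw IsTv)
open Pool.Agent.PFD.D2b (FrR)
open Pool.Agent.PSS
open Pool.Agent.PSS.S0 (IsBQ)
open Pool.Agent.PST.U (Clo Vsh)

/-- PRA (325; S0: FCO FBK BKI; S3: TFX).  Purity.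

Proof.  Frame `b, c` from `Per`, restricted to the diagonal.  `S = {ω | (u, u) • ω = ω for all u ∈ Q}` is stable
under the diagonal of `W` (abelian).  Some `c ω a ≠ 0`, `ω ∈ S` (otherwise `a ∈ BK(Q)` by FBK); let
`n` be the minimal order of the `c ω a`, `ω ∈ S`, `c ω a = X ^ n * r ω`; some `r ω` has a nonzero constant
coefficient; `r (g • ω) = r ω` for `g` in the diagonal.  `a' = ∑_(ω ∈ S) r ω • b ω` is fixed by `W`, and
`a - X ^ n • a'` is fixed by `W` and has zero coefficients at `S`, so it is in `BK(P)` for all `P ≥ Q` (FBK).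
By TFX (`n` times) `a' ∈ BK(Q')` for `Q' > Q`, and `a' m - m a' ∈ BK(Q)` (BK is an ideal: `S0.BkiStmt`).  If
`a' - X • m ∈ BK(Q)`, `m ∈ As^Q`, then `r ω = c ω a' = X * c ω m` for `ω ∈ S` (FCO), a contradiction. -/
def PraStmt : Prop :=
  ∀ (ℓ : ℕ) [Fact ℓ.Prime] (F W E As : Type) [Field F] [CharP F ℓ] [CommGroup W] [Fintype W]
    [Group E] [Ring As] [Algebra F⟦X⟧ As] (ψ : E →* MulAut W) (γ : W →* As) (Q : Subgroup W),
    IsPGroup ℓ W → Per F⟦X⟧ ψ γ → ∀ a ∈ FxR (cw F⟦X⟧ γ) ⊤,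
    (∀ Q' : Subgroup W, Q < Q' → a ∈ BKR (cw F⟦X⟧ γ) Q') →
    (∀ m ∈ FxR (cw F⟦X⟧ γ) Q, a * m - m * a ∈ BKR (cw F⟦X⟧ γ) Q) →
    a ∉ BKR (cw F⟦X⟧ γ) Q →
    ∃ a' ∈ FxR (cw F⟦X⟧ γ) ⊤, (∀ Q' : Subgroup W, Q < Q' → a' ∈ BKR (cw F⟦X⟧ γ) Q') ∧
      (∀ m ∈ FxR (cw F⟦X⟧ γ) Q, a' * m - m * a' ∈ BKR (cw F⟦X⟧ γ) Q) ∧
      ∀ m ∈ FxR (cw F⟦X⟧ γ) Q, a' - (PowerSeries.X : F⟦X⟧) • m ∉ BKR (cw F⟦X⟧ γ) Q

/-- QRF (326; S0: FCO FBK).  Fixed vectors of the special fibre.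

Proof.  Frame `b, c` of `As`, restricted to the diagonal.  `c₀ ω (q a) = constantCoeff (c ω a)` is well
defined (`q a = 0` gives `a = X • a'`) and linear, and `q ∘ b`, `c₀` is a frame of `A`.  (1) `z` fixed by `P`:
`a = ∑ ω, PowerSeries.C (c₀ ω z) • b ω`.  (2) `q a ∈ BK(P)`: for the fixed points `ω` of `P`
`c₀ ω (q a) = 0` (FCO), so `c ω a = X * r ω` with `r` constant on the `P`-orbits (one point each);
`m = ∑_(ω fixed by P) r ω • b ω` is in `As^P`, and `a - X • m ∈ BK(P)` by FBK.  (The same arguments are in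
`Helper41_PSS/PRQ.lean`.) -/
def QrfStmt : Prop :=
  ∀ (ℓ : ℕ) [Fact ℓ.Prime] (F W E A As : Type) [Field F] [CharP F ℓ] [CommGroup W] [Fintype W]
    [Group E] [Ring A] [Algebra F A] [Ring As] [Algebra F⟦X⟧ As] (ψ : E →* MulAut W)
    (ω : W →* A) (γ : W →* As) (q : As →+* A), IsPGroup ℓ W → Per F⟦X⟧ ψ γ →
    (∀ r : F⟦X⟧, q (algebraMap F⟦X⟧ As r) = algebraMap F A (PowerSeries.constantCoeff r)) →
    Function.Surjective q → (∀ a, q a = 0 → ∃ a', a = (PowerSeries.X : F⟦X⟧) • a') →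
    (∀ w, q (γ w) = ω w) → ∀ P : Subgroup W,
    (∀ z ∈ FxR (cw F ω) P, ∃ a ∈ FxR (cw F⟦X⟧ γ) P, q a = z) ∧
    ∀ a ∈ FxR (cw F⟦X⟧ γ) P, q a ∈ BKR (cw F ω) P →
      ∃ m ∈ FxR (cw F⟦X⟧ γ) P, a - (PowerSeries.X : F⟦X⟧) • m ∈ BKR (cw F⟦X⟧ γ) P

/-- CLO (327, uses ZIJ PRA QRF; S3: QBK; S0: BQX BCL BBK RES).  CLOSEDNESS PASSES TO THE DEFORMATION.

Proof.  Let `a` be as in `Vsh` and suppose `a ∉ BK(Q)`; PRA: `a'`.  Put `f = q a'` in `A^W`, `Q₁ = Q.map W.subtype`.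
QRF (2): `f ∉ BK_A(Q₁)` (RES: `BKR (cw F (α.comp W.subtype)) P = BKR (cw F α) (P.map W.subtype)`).
QBK: `f ∈ BK_A(P₁)` for the subgroups `P₁` of `W` with `Q₁ < P₁`.  `f z - z f ∈ BK_A(Q₁)` for `z ∈ A^(Q₁)` (QRF
(1): lift `z` to `m ∈ As^Q`; QBK).  `B = A(Q₁)` (BQX), `β`, `αB`, `E1 = {e | φ e u = u for all u ∈ Q₁}`, BCL:
`Cl F (φ.comp E1.subtype) αB`.  `β f ≠ 0` is central in `B`.  `P = {w ∈ W | φ e w = w for all e ∈ E1}`, a
subgroup of `W` which contains `Q`; `P ≠ Q`, as `Q` is not closed (`IsRs`).  So `β f ∈ BK_B(P)` (BBK (1),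
`P ⊔ Q₁ = P`), and ZIJ (`E1` centralises `P`) gives `β f = 0`: a contradiction. -/
def CloStmt : Prop :=
  ∀ (ℓ : ℕ) [Fact ℓ.Prime] (F V E A As : Type) [Field F] [CharP F ℓ] [CommGroup V]
    [Fintype V] [Group E] [Finite E] [Ring A] [Algebra F A] [Ring As] [Algebra F⟦X⟧ As]
    (φ : E →* MulAut V) (α : V →* A) (W : Subgroup V) [Fintype W]
    (ψ : E →* MulAut W) (γ : W →* As) (q : As →+* A), IsPGroup ℓ V → ¬ ℓ ∣ Nat.card E →
    Cl F φ α → IsRs φ W ψ → Per F⟦X⟧ ψ γ →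
    (∀ r : F⟦X⟧, q (algebraMap F⟦X⟧ As r) = algebraMap F A (PowerSeries.constantCoeff r)) →
    Function.Surjective q → (∀ a, q a = 0 → ∃ a', a = (PowerSeries.X : F⟦X⟧) • a') →
    (∀ w : W, q (γ w) = α w) → ∀ Q : Subgroup W, ¬ Clo ψ Q → Vsh F⟦X⟧ γ Q

/-- GNW (328).  A generic element.

Proof.  Choose `w₀` such that the number of `e` with `ψ e w₀ = w₀` is minimal.  Let `ψ e w₀ = w₀`, `n` the order
of `e` (prime to `ℓ`), `C = {w | ψ e w = w}`, `N w = ∏ i ∈ range n, ψ (e ^ i) w`: a homomorphism `W → C`,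
`N c = c ^ n` for `c ∈ C`; `K = ker N`.  `C ⊓ K = ⊥` (`c ^ n = 1`).  `C` and `K` are stable under `E`, because
the action is abelian.  Suppose `e` does not act trivially: then `K ≠ ⊥` (if `N` is injective, with
`n m ≡ 1` modulo `|W|`: `N (w * (N w) ^ (-m)) = 1`, so `w = (N w) ^ m ∈ C` for all `w`).  Choose `w₁ ∈ K`,
`w₁ ≠ 1`.  If `f` fixes `w₀ w₁` then `ψ f w₀ * w₀⁻¹ = w₁ * (ψ f w₁)⁻¹ ∈ C ⊓ K = ⊥`, so `f` fixes `w₀` and `w₁`;
but `e` fixes `w₀` and not `w₁` (`w₁ ∉ C`): a contradiction to the choice of `w₀`. -/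
def GnwStmt : Prop :=
  ∀ (ℓ : ℕ) [Fact ℓ.Prime] (W E : Type) [CommGroup W] [Finite W] [Group E] [Finite E]
    (ψ : E →* MulAut W), IsPGroup ℓ W → ¬ ℓ ∣ Nat.card E →
    (∀ e f : E, ψ e * ψ f = ψ f * ψ e) → ∃ w₀ : W, ∀ e, ψ e w₀ = w₀ → ψ e = 1

end Pool.Agent.PST
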