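import Pool.Agent.Helper71_PSS.CNH
import Pool.Agent.Helper20_PSS.CSR
import Pool.Agent.Helper95_PSS.TOR
import Pool.Agent.Helper29_PSS.SVH
import Pool.Agent.Helper76_PSS.EOR
import Pool.Agent.Helper6_PSS.BKI
import Pool.Agent.Helper86_PSS.RTC
import Pool.Agent.Helper85_PSS.ORB
import Pool.Agent.Helper40_PSS.DFR
import Pool.Agent.Helper20_PST.EGC
import Pool.Agent.Helper92_PST.SPT
import Pool.Agent.Helper77_PST.DUL
import Pool.Agent.Helper61_PST.AVX
import Pool.Agent.Helper61_PST.TIN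
import Pool.Agent.Helper40_PST.QWV
import Pool.Agent.Helper27_PST.EGX
import Pool.Agent.Helper85_PST.DGX
import Pool.Agent.Helper51_PST.YCV
import Pool.Agent.Helper13_PST.YQT
import Pool.Agent.Helper62_PST.YBR
import Pool.Agent.Helper77_PST.DRG
import Pool.Agent.Helper69_PST.LGD
import Pool.Agent.Helper77_PST.HLF
import Pool.Agent.Helper75_PST.DRR
import Pool.Agent.Helper75_PST.NSM
import Pool.Agent.Helper75_PST.FOX
import Pool.Agent.Helper11_PST.PWR

/-!
# Squad PST, block DR: assembly (helper75)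
-/

namespace Pool.Agent.PST.DRA

theorem egx_ : EgxStmt :=
  H27.egx H20.egc H92.spt H77D.dul H61.avx H61.tin

theorem ybr_ : YbrStmt :=
  H62.ybr Pool.Agent.PSS.H40.dfr Pool.Agent.PSS.H85.orb H13.yqt

theorem drg_ : DrgStmt :=
  H77R.drg Pool.Agent.PSS.S2.H76.eor (Pool.Agent.PSS.H29.svh Pool.Agent.PSS.S2.H95.tor) Pool.Agent.PSS.S2.H71.cnh H85.dgx
    H75.gxu H51.ycv ybr_ (Pool.Agent.PSS.H86.rtc Pool.Agent.PSS.H20.csr) Pool.Agent.PSS.S0.H6.bki

/-- the output of block DR -/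
theorem drq_ : DrqStmt :=
  H75.drr H40.qwv egx_ drg_ H69.lgd H77H.hlf

/-- the first order datum -/
theorem fox_ : FoxStmt := H75.fox H75.nsm H11.pwr

end Pool.Agent.PST.DRA
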