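import Pool.Agent.PSS.StmtsS4

/-!
# Squad PST, rows 350 - 353 (helper71): `N_W(A)` is in the class `Cl`

`A` in `Cl F φ α`, `W` an `E`-stable subgroup, `N : IsNW F α W B`, `B = N_W(A)`, `N.nwh : V →* B`.
Then `B` is in `Cl F φ N.nwh` (NWC).  Complete proofs in the docstrings.  We write `v` for `N.nwh v`.
-/

open scoped BigOperators TensorProduct

noncomputable section

namespace Pool.Agent.PST

open Pool.Agent.PFC (tw IsTv)
open Pool.Agent.PFD.D2b (FrR)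
open Pool.Agent.PSS

/-- NCG (350): the components of a fixed vector of `B` are fixed.

Proof.  `N.spn` gives `f` with sum `x`.  For `p` in `P`: `v ↦ p * v * p⁻¹` maps `β ε (f ε)` to
`β ε (p * f ε * p⁻¹)` (`N.mul` for `α p`, `f ε`, `α p⁻¹`, see `al_mem_tw`, `Fx_mul`; `1 * ε * 1 = ε`), and
`p * f ε * p⁻¹ - f ε` is in `FxR (bw R α) (twW W ε)`.  The sum over `ε` of `β ε (p * f ε * p⁻¹ - f ε)` is
`cw p x - x = 0`, so by `N.ind` every `β ε (p * f ε * p⁻¹ - f ε)` is `0`. -/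
def NcgStmt : Prop := ∀ (R V A B : Type) [CommRing R] [CommGroup V] [Finite V] [Ring A]
  [Algebra R A] [Ring B] [Algebra R B] (α : V →* A) (W : Subgroup V) (N : IsNW R α W B)
  (P : Subgroup V) (x : B), x ∈ FxR (cw R N.nwh) P →
  ∃ f : MulAut W → A, (∀ ε, f ε ∈ FxR (bw R α) (twW W ε)) ∧
    (∀ ε, N.β ε (f ε) ∈ FxR (cw R N.nwh) P) ∧ ∑ᶠ ε, N.β ε (f ε) = x

/-- NCB (351): `B(P) = A(P)` for `P ≥ W`.

Proof.  `N.nwh` has the frame `b' (ε, ω) = β ε (b ω)`, `ω` fixed by `twW W ε`, with coordinates `c'` (row NFR of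
`StmtsS4`, proved: `Pool.Agent.PSS.H45.nfr (Pool.Agent.PSS.H52.frb Pool.Agent.PSS.H85.orb)`).  The frame for `cw`
is the same with the action of `V` through `v ↦ (v, v)`.  FRB (`H52.frb`) for `cw F α`, `cw F N.nwh` and the group `P`: a vector
`m` fixed by `P` is in the Brauer kernel of `P` if and only if its coordinates at the points fixed by `P` are `0`.
(1) The coordinate of `β 1 a` at `(1, ω)` is `c ω a`, the others are `0`; a point `ω` of `Ω` fixed by `(p, p)`, `p` in `P`,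
is fixed by `twW W 1`, since `W ≤ P`.
(2) Let `(ε, ω)` be fixed by `(p, p)` for all `p` in `P ≥ W`.  For `w` in `W`, `(w, w)` and `(ε w, w)` fix `ω`, so
`(w * (ε w)⁻¹, 1)` fixes `ω`, so `ε w = w` by the hypothesis `fre`.  For `ε ≠ 1` there is no such point, so the
coordinates of `β ε a` at points fixed by `P` are `0` (its coordinates at `(δ, ω)`, `δ ≠ ε`, are `0`).
(3) `a' = ∑ (ω fixed by twW W 1), c' (1, ω) (β 1 a) • b ω`.  The coordinates are invariant under `P'` (frame), the set of the points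
fixed by `twW W 1` is stable under `V × V` (abelian), so `a'` is fixed by `P'`.  `β 1 a' = β 1 a` by the frame. -/
def NcbStmt : Prop := ∀ (ℓ : ℕ) [Fact ℓ.Prime] (F V A B Ω : Type) [Field F] [CharP F ℓ]
  [CommGroup V] [Fintype V] [Ring A] [Algebra F A] [Ring B] [Algebra F B] [Fintype Ω]
  [MulAction (V × V) Ω] (α : V →* A) (b : Ω → A) (c : Ω → (A →ₗ[F] F)) (W P : Subgroup V)
  (N : IsNW F α W B), IsPGroup ℓ V → FrR (bw F α) b c →
  (∀ (u : V) (ω : Ω), ((u, 1) : V × V) • ω = ω → u = 1) → W ≤ P →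
  (∀ a ∈ FxR (cw F α) P, N.β 1 a ∈ BKR (cw F N.nwh) P ↔ a ∈ BKR (cw F α) P) ∧
  (∀ ε : MulAut W, ε ≠ 1 → ∀ a ∈ FxR (bw F α) (twW W ε), N.β ε a ∈ FxR (cw F N.nwh) P →
    N.β ε a ∈ BKR (cw F N.nwh) P) ∧
  (∀ a ∈ FxR (bw F α) (twW W (1 : MulAut W)), N.β 1 a ∈ FxR (cw F N.nwh) P →
    ∃ a' ∈ FxR (cw F α) P, N.β 1 a' = N.β 1 a)

/-- NCN (352): an idempotent of `B(Q)` which vanishes in `B(QW)` is `0`.

Proof.  `I n` = the span of `(w₁ - 1) * .. * (w_n - 1) * y`, `w_i` in `W`, `y` in `FxR (cw) Q` (as a submodule: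
`Submodule.span F {x | ∃ (l : List W) (y : B), l.length = n ∧ y ∈ FxR (cw F N.nwh) Q ∧
x = (l.map (fun w => N.nwh w - 1)).prod * y}`).
(a) `I n * I m ≤ I (n + m)`: for `y` in `FxR Q`, NCG (`P = Q`) writes `y = ∑ β ε (f ε)` with components `y_ε` in `FxR Q`, and
`y_ε * w = ε w * y_ε` (as `f ε` is in `FxR (bw F α) (twW W ε)`, `mem_tw`), so `y * (w - 1) = ∑ (ε w - 1) * y_ε`.
(b) `I n = 0` for large `n`: `(w - 1) ^ |V| = w ^ |V| - 1 = 0` in characteristic `ℓ` (`|V|` is a power of `ℓ`), the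
elements `w - 1` commute, so a product of `|W| * |V|` of them is `0` (pigeonhole; or: the ideal of the commutative
algebra `MonoidAlgebra F W` generated by the finitely many nilpotent elements `w - 1` is nilpotent).
(c) `x` is in `I 1 + BKR (cw) Q`: `x` is a sum of traces `∑ (s ∈ S) s * y * s⁻¹`, `S` a transversal of `T < Q ⊔ W` in
`Q ⊔ W`, `y` in `FxR (cw) T`.  If `Q ≤ T`: every element of `Q ⊔ W` is `q * w`, so `s = w_s` modulo `Q ≤ T`:
`s * y * s⁻¹ = w_s * y * w_s⁻¹`, which is congruent to `y` modulo `I 1` (`(w - 1) y w⁻¹ + y (w⁻¹ - 1)`, (a) for `m = 0`), so the trace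
is congruent to `|S| • y = 0`, `ℓ ∣ |S|`.  If `Q` is not contained in `T`: the trace from `T` to `Q ⊔ W` is the trace from `T ⊔ Q` to `Q ⊔ W` of the trace
from `T` to `T ⊔ Q`, which is the trace from `T ⊓ Q < Q` to `Q` of `y`, an element of `BKR (cw) Q`; and `BKR (cw) Q` is stable
under conjugation by `V` (`V` is abelian).  (Cleaner: restrict `cw` to `Q`, use that the set `Q ⊔ W / T` decomposes into
`Q`-orbits `≅ Q / (Q ⊓ T)`.)
(d) `BKR (cw) Q` is an ideal of `FxR (cw) Q` (`BK_mulL`, `BK_mulR` with `ε = δ = 1` for the group `Q`, `BKR_tw`), `x` is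
congruent to `x ^ n` modulo `BKR (cw) Q`, and `x ^ n` is in `I n + BKR (cw) Q` by (a), so for large `n` in `BKR (cw) Q`. -/
def NcnStmt : Prop := ∀ (ℓ : ℕ) [Fact ℓ.Prime] (F V A B : Type) [Field F] [CharP F ℓ]
  [CommGroup V] [Fintype V] [Ring A] [Algebra F A] [Ring B] [Algebra F B]
  (α : V →* A) (W Q : Subgroup V) (N : IsNW F α W B) (x : B), IsPGroup ℓ V →
  x ∈ FxR (cw F N.nwh) Q → x * x - x ∈ BKR (cw F N.nwh) Q → x ∈ BKR (cw F N.nwh) (Q ⊔ W) →
  x ∈ BKR (cw F N.nwh) Q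

/-- NWC (353): `N_W(A)` is in the class.

Proof.  `fin`: `N.spn` (`MulAut W` is finite), `per`, `uni`: row NFP (`Pool.Agent.PSS.H79.nfp`), `rt`: row NRF
(`Pool.Agent.PSS.H77N.nrf`): the Casimir element of `B` is `β 1 ζ`, `ζ = ∑ x y` is central in `A` and has the inverse `u`,
so `β 1 u * β 1 ζ = β 1 (u ζ) = 1` (all are in `FxR (bw) (twW W 1)`).
`blk`: let `e` be as in `blk` for `B` and `Q`, `e` in `BKR (cw) ⊤`; `P = Q ⊔ W`.  By NCG (`P := ⊤`) `e = ∑ β ε (f ε)` with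
components `e_ε` in `FxR (cw) ⊤`; for `ε ≠ 1`, `e_ε` is in `BKR (cw) P` and in `BKR (cw) ⊤` (NCB (2) for `P` and for `⊤`).  NCB (3) for
`⊤`: `e_1 = β 1 g`, `g` in `FxR (cw F α) ⊤`.  So `β 1 g` is in `BKR (cw) ⊤`, hence `g` is in `BKR (cw F α) ⊤` (NCB (1) for `⊤`).
`e * e - e` is in `BKR (cw) Q ∩ FxR (cw) P ≤ BKR (cw) P` (coordinates: FRB; a point fixed by `P` is fixed by `Q`), so `β 1 (g * g - g)` is in
`BKR (cw) P` (`BKR (cw) P` is an ideal of `FxR (cw) P`), so `g * g - g` is in `BKR (cw F α) P`.  For `a` in `FxR (cw F α) P`, `β 1 a` is in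
`FxR (cw) P ≤ FxR (cw) Q`, so `e * β 1 a - β 1 a * e` is in `BKR (cw) Q ∩ FxR (cw) P ≤ BKR (cw) P`, so `g * a - a * g` is in
`BKR (cw F α) P`.  `blk` for `A` and `P`: `g` is in `BKR (cw F α) P`, so `e_1` and `e` are in `BKR (cw) P`.  NCN: `e` is in
`BKR (cw) Q`. -/
def NwcStmt : Prop := ∀ (ℓ : ℕ) [Fact ℓ.Prime] (F V E A B : Type) [Field F] [CharP F ℓ]
  [CommGroup V] [Fintype V] [Group E] [Ring A] [Algebra F A] [Ring B] [Algebra F B]
  (φ : E →* MulAut V) (α : V →* A) (W : Subgroup V) (N : IsNW F α W B), IsPGroup ℓ V →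
  (∀ e : E, ∀ w ∈ W, φ e w ∈ W) → Cl F φ α → Cl F φ N.nwh

end Pool.Agent.PST
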