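import Pool.Agent.PST.DefsT
import Pool.Agent.PST.StmtsNW

/-!
# Squad PST, rows 354 - 359 (helper71): the regularity datum of `N_W(A)`, first order terms

Complete proofs in the docstrings.
-/

open scoped BigOperators TensorProduct PowerSeries

noncomputable section

namespace Pool.Agent.PST

open Pool.Agent.PFC (tw IsTv)
open Pool.Agent.PFD.D2 (Cdv FibG wittCdv)
open Pool.Agent.PFD.D2b (FrR)
open Pool.Agent.PSS

/-- FMA (354): the first order term of a regular deformation.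

Proof.  `D₀.R` = sequences (`Dm.of`, `Dm.sq`); write `lf u = (α₀ u, s u, ..)`, `s u = D₀.sq (lf u) 1`.  The product in
degree `1`: `sq (Z * Z') 1 = D₀.m 1 (sq Z 0) (sq Z' 0) + sq Z 0 * sq Z' 1 + sq Z 1 * sq Z' 0`, in degree `0`: the product; `sq (X • Z) 1
= sq Z 0`, `sq (X ^ 2 • Z) 1 = 0` (`Dm.lean`).  `s u` commutes with `α₀ w`, `w` in `W` (`FoD.cm` in degree `1`; `D₀.m 1` vanishes
if one argument is `α₀ w`: `Dm.m_om_left`, `Dm.m_om_right`).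
(1) `FoD.cc` in degree `1`: `m 1 u v - m 1 v u + u s_v + s_u v - v s_u - s_v u = 0` (we write `u` for `α₀ u`).  Multiply by `(u v)⁻¹` on
the right: `(m 1 u v - m 1 v u) (u v)⁻¹ = s_v v⁻¹ - u (s_v v⁻¹) u⁻¹ - s_u u⁻¹ + v (s_u u⁻¹) v⁻¹`, and `c₀ ω (u a u⁻¹) = c₀ ω a` if
`(u, u) ω = ω` (frame), the same for `v`.
(2) By induction on `n`: `sq (lf u ^ n) 1 = ∑ (j < n), (m 1 (u ^ j) u + u ^ j s_u) u ^ (n - 1 - j)`.  `FoD.pl` in degree `1` for `n = ℓ`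
(`m 1 (u ^ ℓ) _ = 0` as `u ^ ℓ` is in `W`): this is `u ^ ℓ * D u`.  Multiply by `u ^ (-ℓ)` on the right (`D u` commutes with `u`, hypothesis; so does `u ^ ℓ * D u * u ^ (-ℓ) = D u`):
`∑ (j < ℓ), m 1 (u ^ j) u u ^ (-(j+1)) - D u = - ∑ (j < ℓ), u ^ j (s_u u⁻¹) u ^ (-j)`, and this is the trace of `- s_u u⁻¹` from
`zpowers (u ^ ℓ)` (`s_u u⁻¹` is fixed by it as `u ^ ℓ` is in `W`) to `zpowers u`; `zpowers (u ^ ℓ) < zpowers u` since `u ^ ℓ` is in `W` and `u` is not;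
transversal `{u ^ j | j < ℓ}` (`ℓ` is the index: it divides `ℓ` and is not `1`). -/
def FmaStmt : Prop := ∀ (ℓ : ℕ) [Fact ℓ.Prime] (F V A₀ : Type) [Field F] [CharP F ℓ]
  [CommGroup V] [Fintype V] [Ring A₀] [Algebra F A₀] (W : Subgroup V) (α₀ : V →* A₀)
  (D₀ : Dm F (aw α₀ W)) (D : V → A₀) (lf G : V → D₀.R), IsPGroup ℓ V → (∀ u : V, u ^ ℓ ∈ W) →
  (∀ u, D u ∈ FxR (cw F α₀) ⊤) →
  FoD ℓ F α₀ W D₀.w (fun Z => D₀.sq Z 0) D lf G →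
  (∀ (Ω : Type) [Fintype Ω] [MulAction (V × V) Ω] (b : Ω → A₀) (c : Ω → (A₀ →ₗ[F] F)),
    FrR (bw F α₀) b c → ∀ (ω : Ω) (u v : V), ((u, u) : V × V) • ω = ω →
    ((v, v) : V × V) • ω = ω →
    c ω ((D₀.m 1 (α₀ u) (α₀ v) - D₀.m 1 (α₀ v) (α₀ u)) * α₀ (u * v)⁻¹) = 0) ∧
  ∀ u : V, u ∉ W → ∑ j ∈ Finset.range ℓ, D₀.m 1 (α₀ (u ^ j)) (α₀ u) * α₀ (u ^ (j + 1))⁻¹ - D u ∈
    BKR (cw F α₀) (Subgroup.zpowers u)

/-- NTR (355): the regularity datum passes to `N_(W0)(A)`.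

`N₁` is the restriction of `N` to `W` (`N₁.β 1 = N.β 1`), `N'` is `N_(W0)` of `As`.

Proof.  The same `r, la, χ, xx, t`; `D' u = N.β 1 (D u)`, `lf' u = N'.β 1 (lf u)`, `G' u = N'.β 1 (G u)`.
`Drd`: `eg`, `qst` do not change; `add`, `w0` by linearity; `fx`: `N.β 1` of `v * D u * v⁻¹ = D u` with `N.mul` (`al_mem_tw`).  `bk`: let
`x = D u - Xe α (pg la xx t u)`; it is fixed by `V` and in `BKR (cw F α) Q`, `Q = QW0 φ W`; `N.β 1 x = D' u - Xe N.nwh (pg la xx t u)`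
(linearity).  `N.β 1 x` is fixed by `V`; by NFR (`Pool.Agent.PSS.H45.nfr`) its coordinate at `(ε, ω)` is `0` for `ε ≠ 1` and is `c ω x` for
`ε = 1`; if `(1, ω)` is fixed by `Q` then `ω` is fixed by `Q`, so `c ω x = 0` (FRB (1), `Pool.Agent.PSS.H52.frb` for `cw F α` and `Q`).  FRB (2) for `cw F N.nwh`
and `Q`: `N.β 1 x` is in `BKR (cw F N.nwh) Q`.
`FoD`: all `lf u`, `G u` commute with `γ w`, `w` in `W`: for `G u`: `lf u ^ ℓ` commutes with `γ w`, so `X • (G u * γ w - γ w * G u)` is `0` (multiply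
by `γ (u ^ ℓ)⁻¹`; if `u ^ ℓ` is in `W`, which is the hypothesis `hW`), and `As` has no `X`-torsion (frame `df.per`: `c ω (X • a) = X * c ω a`).  The same for the `z` of `cc`.
So they are in `FxR (bw) (twW (W0.subgroupOf W) 1)`, and `N'.mul`, `N'.one` give `cm`, `pl`, `cc`; `q0`, `qG` by `hq` and `hN`. -/
def NtrStmt : Prop := ∀ (ℓ : ℕ) [Fact ℓ.Prime] (F V E A As B Bs : Type) [Field F] [CharP F ℓ]
  [CommGroup V] [Fintype V] [Group E] [Ring A] [Algebra F A] [Ring As] [Algebra F⟦X⟧ As]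
  [Ring B] [Algebra F B] [Ring Bs] [Algebra F⟦X⟧ Bs] (φ : E →* MulAut V) (α : V →* A)
  (W W0 : Subgroup V) (γ : W →* As) (N : IsNW F α W0 B)
  (N₁ : IsNW F (aw α W) (W0.subgroupOf W) B) (N' : IsNW F⟦X⟧ γ (W0.subgroupOf W) Bs)
  (df : Df (PowerSeries.X : F⟦X⟧) PowerSeries.constantCoeff (aw α W) γ)
  (df' : Df (PowerSeries.X : F⟦X⟧) PowerSeries.constantCoeff (aw N.nwh W) N'.nwh),
  IsPGroup ℓ V → Per F φ α → W0 ≤ W → (∀ u : V, u ^ ℓ ∈ W) → (∀ a, N₁.β 1 a = N.β 1 a) →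
  (∀ a ∈ FxR (bw F⟦X⟧ γ) (twW (W0.subgroupOf W) 1), df'.q (N'.β 1 a) = N₁.β 1 (df.q a)) →
  Reg ℓ F φ α W γ df.q → Reg ℓ F φ N.nwh W N'.nwh df'.q

/-- KYW: the fact on cocycles, for a regular deformation `D₀` of an algebra in the class: what
LDW needs from KEY (helper79, helper43).  `key` is the hypothesis of the same name of `TlwStmt`. -/
def KywStmt : Prop :=
  ∀ (ℓ : ℕ) [Fact ℓ.Prime] (R K F V E A A₀ B κ Ω : Type) [CommRing R] [IsDomain R]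
    [IsPrincipalIdealRing R] [CharZero R] [Field K] [CharZero K] [Algebra R K] [Field F]
    [IsAlgClosed F] [CharP F ℓ] [CommGroup V] [Fintype V] [Group E] [Fintype E] [Ring A]
    [Algebra R A] [Module.Finite R A] [Module.Free R A] [Ring A₀] [Algebra F A₀] [Ring B]
    [Algebra R B] [Algebra K B] [Fintype κ] [Fintype Ω] [MulAction (V × V) Ω] (φ : E →* MulAut V)
    (W : Subgroup V) (cv : Cdv R F) (f : FibG A A₀ cv) (α₀ : V →* A₀) (lam₀ : A₀ →ₗ[F] F)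
    (x₀ y₀ : κ → A₀) (b₀ : Ω → A₀) (c₀ : Ω → (A₀ →ₗ[F] F)) (α : V →* A) (lam : A →ₗ[R] R)
    (x y : κ → A) (b : Ω → A) (c : Ω → (A →ₗ[R] R)) (u : A) (C : KC R K B α lam x y b c)
    (D₀ : Dm F (aw α₀ W)) (r : ℕ) (la : Fin r → V → F) (χ : Fin r → E → F)
    (xx : Fin r → V → F) (t : Fin r → F) (D : V → A₀),
    IsPGroup ℓ V → ¬ ℓ ∣ Nat.card E → cv.π = (ℓ : R) → Chf ℓ φ W → Cl F φ α₀ →
    (∀ ω : Ω, ∃ (e : E) (S : Subgroup V),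
      MulAction.stabilizer (V × V) ω = tw (φ e).toMonoidHom S) →
    FrR (bw F α₀) b₀ c₀ → RF F α₀ lam₀ x₀ y₀ →
    LiftV cv α₀ lam₀ x₀ y₀ b₀ c₀ f α lam x y b c → u * rt x y 1 = 1 →
    Drd F φ α₀ W (QW0 φ W) la χ xx t D →
    (∀ u : V, u ∉ W → ∑ j ∈ Finset.range ℓ, D₀.m 1 (α₀ (u ^ j)) (α₀ u) * α₀ (u ^ (j + 1))⁻¹ -
      D u ∈ BKR (cw F α₀) (Subgroup.zpowers u)) →
    ∀ (g : B →ₗ[K] B) (m₁ cc : B →ₗ[K] B →ₗ[K] B), WBl (ia C.i α) W g → g 1 = 0 →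
      (∀ x y, m₁ x y = d1 g x y) →
      (∀ a₁ a₂, ∃ e, C.i e = m₁ (C.i a₁) (C.i a₂) ∧ f.q e = D₀.m 1 (f.q a₁) (f.q a₂)) →
      Z2 C W cc → Bi C W m₁ cc → Fz C cc

end Pool.Agent.PST
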