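import Pool.Agent.PST.DefsK
import Pool.Agent.PST.StmtsDZ

/-!
# Squad PST: KYW from KEY
-/

open scoped BigOperators TensorProduct PowerSeries

noncomputable section

namespace Pool.Agent.PST

open Pool.Agent.PFC (tw IsTv)
open Pool.Agent.PFD.D2 (Cdv FibG)
open Pool.Agent.PFD.D2b (FrR)
open Pool.Agent.PSS

theorem kyw (key : KeyStmt) : KywStmt := by
  intro ℓ _ R K F V E A A₀ B κ Ω _ _ _ _ _ _ _ _ _ _ _ _ _ _ _ _ _ _ _ _ _ _ _ _ _ _ φ W cv f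
    α₀ lam₀ x₀ y₀ b₀ c₀ α lam x y b c u C D₀ r la χ xx t D hp hE hpi hch hcl hst hfr hrf hL hu
    hdr hm g m₁ cc hg hg1 hd hmm hz hb
  refine key ℓ R K F V E A A₀ B κ Ω φ W cv f α₀ lam₀ x₀ y₀ b₀ c₀ α lam x y b c u C r la χ xx t D
    g hp hE hpi hch hcl hst hfr hrf hL hu hdr hg hg1 ?_ ?_ m₁ cc hd hz hb
  · intro a₁ a₂
    obtain ⟨e, he, -⟩ := hmm a₁ a₂
    refine ⟨e, ?_⟩
    rw [he, hd]
  · intro s hs e he
    choose e' h1 h2 using hmm
    have h3 : e = ∑ j ∈ Finset.range ℓ, e' (α (s ^ j)) (α s) * α (s ^ (j + 1))⁻¹ := by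
      apply C.inj
      rw [he, map_sum]
      refine Finset.sum_congr rfl fun j _ => ?_
      rw [map_mul, h1, hd]
    have h4 : f.q e = ∑ j ∈ Finset.range ℓ,
        D₀.m 1 (α₀ (s ^ j)) (α₀ s) * α₀ (s ^ (j + 1))⁻¹ := by
      rw [h3, map_sum]
      refine Finset.sum_congr rfl fun j _ => ?_
      rw [map_mul, h2, hL.qa, hL.qa, hL.qa]
    rw [h4]
    exact hm s hs

end Pool.Agent.PST
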