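import Pool.Agent.PST.StmtsK3
import Pool.Agent.PST.StmtsDR
import Pool.Agent.PST.StmtsDZ

/-!
# Squad PST, block KEY, part 4 (helper79): the centre of `A₀(Q)`, assembly of `KeyStmt`

Notation as in parts 1 and 3: `v` for `α v`, `rt x y a = ∑ x k * a * y k`, `ζ = rt x y 1`.  `Q = QW0 φ W`.
`DxiStmt` is the interface to part 2 (helper43; row DXI : DrxStmt of StmtsK2.lean gives it): for `r ∉ W` the cocycle `cc` gives a derivation `δ` of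
`A₀(⟨r⟩)` which kills `W`, has the values `ob(·; g, r)` at `g`, and kills `∑_(j<ℓ) m₁(r^j, r) r^-(j+1)`.

1. ZUN, BQT, MCO, NDI: general rows on the class `Cl`.
2. YCE, YCB: `∑_(j<ℓ) m₁(r^j, r) r^-(j+1)` is central in `A₀(⟨r⟩)`.
3. VTA, VTX: the relation in the centre of `A₀(Q)` given by `r ∈ Q`.  LAL: linear algebra.
4. DxiStmt, KYA (assembly), KYD.
-/

open scoped BigOperators PowerSeries

noncomputable section

namespace Pool.Agent.PST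

open Pool.Agent.PFC (tw IsTv)
open Pool.Agent.PFD.D2 (Cdv FibG)
open Pool.Agent.PFD.D2b (FrR)
open Pool.Agent.PSS
open Pool.Agent.PSS.S0 (IsBQ)

/-! ## 1. The class -/

/-- ZUN: `rt x y 1` is a unit for every form.

Proof.  `Cl.rt`: `lam'`, `x'`, `y'`, `u'` with `u' * ∑ x' y' = 1`.  `z = ∑_(k, v) lam' (x_k v) • v⁻¹ y_k` satisfies
`lam (z a) = lam' a` (apply `lam'` to `e1` for `a`).  It is central: `lam ((z s - s z) a) = lam' (s a) - lam' (a s) = 0` for all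
`a` (`sym`), and `lam (t a) = 0` for all `a` implies `t = 0` (`e2`).  In the same way `z'` with `lam' (z' a) = lam a`.
`lam (z z' a) = lam' (z' a) = lam a`, so `z z' = 1`.  `z' x_k`, `y_k` is a system for `lam'`: `lam' (v⁻¹ y_k a) = lam (v⁻¹ y_k (z a))`
and `∑ lam (v⁻¹ y_k (z a)) • (z' x_k v) = z' z a = a`; `lam' (a z' x_k v) = lam (a x_k v)`.  `S0.IndStmt` (`a = 1`):
`∑ x' y' = ∑ z' x_k y_k = z' rt x y 1`, so `u' z' * rt x y 1 = 1`. -/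
def ZunStmt : Prop := ∀ (F V E A K : Type) [Field F] [CommGroup V] [Fintype V] [Group E]
  [Ring A] [Algebra F A] [Fintype K] (φ : E →* MulAut V) (α : V →* A) (lam : A →ₗ[F] F)
  (x y : K → A), Cl F φ α → RF F α lam x y → ∃ u₀ : A, u₀ * rt x y 1 = 1

/-- BQT: transitivity of Brauer quotients.

Proof.  `S0.BbkStmt` with `Q := T`, `P := T'` (`T' ⊔ T = T'`): every `z ∈ FxR (cw F αT) T'` is `βT a` with
`a ∈ FxR (cw F α) T'`; `β' z := βT' a` for such an `a` (chosen), `β' z := 0` for the other `z`.  If `βT a = βT a₁` with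
`a, a₁ ∈ FxR (cw F α) T'` then `βT (a - a₁) = 0 ∈ BKR (cw F αT) T'`, so `a - a₁ ∈ BKR (cw F α) T'` and `βT' a = βT' a₁`: this
gives `β' (βT a) = βT' a` for all `a ∈ FxR (cw F α) T'`.  `add`, `smul`, `mul`, `one`, `om`: from this formula (`FxR (cw F α) T' ≤
FxR (cw F α) T`, a subalgebra).  `ker`: `β' (βT a) = 0` iff `βT' a = 0` iff `a ∈ BKR (cw F α) T'` iff `βT a ∈ BKR (cw F αT) T'`.
`surj`: `IsBQ.surj` for `βT'`. -/
def BqtStmt : Prop := ∀ (ℓ : ℕ) [Fact ℓ.Prime] (F V E A BT BT' K : Type) [Field F] [CharP F ℓ]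
  [CommGroup V] [Fintype V] [Group E] [Ring A] [Algebra F A] [Ring BT] [Algebra F BT] [Ring BT']
  [Algebra F BT'] [Fintype K] (φ : E →* MulAut V) (α : V →* A) (lam : A →ₗ[F] F) (x y : K → A)
  (T T' : Subgroup V) (αT : V →* BT) (βT : A → BT) (αT' : V →* BT') (βT' : A → BT'),
  IsPGroup ℓ V → Per F φ α → RF F α lam x y → IsBQ F α T αT βT → IsBQ F α T' αT' βT' → T ≤ T' →
  ∃ β' : BT → BT', IsBQ F αT T' αT' β' ∧ ∀ a ∈ FxR (cw F α) T', β' (βT a) = βT' a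

/-- MCO: the Mackey formula if `E` centralises `Q`.

Proof.  `S0.MckStmt` with `T = {1}` (`φ e` and `φ 1` are the identity on `Q`, so `(φ e)⁻¹ q = q`), `n e`, `n' e` from
`Uni`, with `n 1 = n' 1 = 1`. -/
def McoStmt : Prop := ∀ (ℓ : ℕ) [Fact ℓ.Prime] (F V E A B K KB : Type) [Field F] [CharP F ℓ]
  [CommGroup V] [Fintype V] [Group E] [Ring A] [Algebra F A] [Ring B] [Algebra F B] [Fintype K]
  [Fintype KB] (φ : E →* MulAut V) (α : V →* A) (Q : Subgroup V) (αB : V →* B) (β : A → B)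
  (lam : A →ₗ[F] F) (x y : K → A) (lamB : B →ₗ[F] F) (xB yB : KB → B), IsPGroup ℓ V →
  Per F φ α → Uni φ α → RF F α lam x y → IsBQ F α Q αB β → RF F αB lamB xB yB →
  (∀ a ∈ FxR (cw F α) Q, lamB (β a) = lam a) → (∀ e, ∀ q ∈ Q, φ e q = q) →
  ∀ a ∈ FxR (cw F α) ⊤, β (rt x y a) = rt xB yB (β a)

/-- NDI: the value of `D_e` at a central element congruent to an element of `F V`.

Proof.  `ζ` is central (`S0.ZrtStmt`).  `D Y` is central: `D (Y a) = D (a Y)` gives `D(Y) a = a D(Y)`.  `D` maps `BK = BKR (cw F α) ⊤`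
into itself: for `m ∈ FxR (cw F α) P'`, `t ∈ V`: `D (t m t⁻¹) = t D(m) t⁻¹` (the terms `e(t) t ζ m t⁻¹` and `t m e(t⁻¹) t⁻¹ ζ` cancel) and
`D m ∈ FxR (cw F α) P'` (`D (m s) = D (s m)`).  So `D Y - ∑_v p(v) e(v) v ζ ∈ BK`.  `B = A(V)` (`S0.BqxStmt`, `Q = ⊤`), `β`.  The element
`z = D Y - (∑ p v * e v) • ζ` is central and `β z = ∑_v p(v) e(v) (αB v - 1) β(ζ)` is a combination of commuting (`αB v` and
`β ζ` are central in `B`: `B` is the image of the centraliser of `V`) nilpotent elements (`(αB v - 1) ^ (ℓ ^ n) = αB (v ^ (ℓ ^ n)) - 1 = 0`), so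
nilpotent, `β (z ^ n) = 0`, `z ^ n ∈ BK`: NKB. -/
def NdiStmt : Prop := ∀ (ℓ : ℕ) [Fact ℓ.Prime] (F V E A K : Type) [Field F] [CharP F ℓ]
  [CommGroup V] [Fintype V] [Group E] [Finite E] [Ring A] [Algebra F A] [Fintype K]
  (φ : E →* MulAut V) (α : V →* A) (lam : A →ₗ[F] F) (x y : K → A) (e : V → F) (D : A →ₗ[F] A)
  (p : V → F) (Y : A), IsPGroup ℓ V → ¬ ℓ ∣ Nat.card E → Cl F φ α → RF F α lam x y →
  Adc φ e → Der D → (∀ v, D (α v) = e v • (α v * rt x y 1)) → (∀ a, Y * a = a * Y) →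
  Y - Xe α p ∈ BKR (cw F α) ⊤ →
  (∀ a, D Y * a = a * D Y) ∧ IsNilpotent (D Y - (∑ v, p v * e v) • rt x y 1)

/-! ## 2. The element given by a vertex `r` -/

/-- YCE: the element `e = ∑_(j<ℓ) m₁(r^j, r) r^-(j+1)`, `m₁ = d1 g`.

Proof.  Write `g(a)`, `r` for `g (C.i a)`, `C.i (α r)`.  `s = g(r) r⁻¹` commutes with `r^ℓ` (`r^ℓ ∈ W`: `r^ℓ g(r) = g(r^ℓ r) =
g(r r^ℓ) = g(r) r^ℓ`).  `C.i e = ∑_(j<ℓ) r^j s r^-j`: `d1 g (r^j) r = r^j g(r) - g(r^(j+1)) + g(r^j) r`, and the terms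
`g(r^(j+1)) r^-(j+1)`, `g(r^j) r^-j` telescope to `g(r^ℓ) r^-ℓ - g(1) = 0`.  So `e` commutes with `r` (`r e r⁻¹ = e + r^ℓ s r^-ℓ - s`).
Let `a` commute with `r`.  `[a, C.i e] = ∑ r^j [a, s] r^-j`, `[a, s] = [a, g(r)] r⁻¹`, and
`m₁(a, r) - m₁(r, a) = [a, g(r)] + [g(a), r]`, `[g(a), r] r⁻¹ = g(a) - r g(a) r⁻¹`, and
`∑_(j<ℓ) r^j (g(a) - r g(a) r⁻¹) r^-j = g(a) - r^ℓ g(a) r^-ℓ = 0` (`r^ℓ ∈ W`, `r^ℓ a = a r^ℓ`).  So `[a, e] = ∑_(j<ℓ) r^j h r^-j` with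
`C.i h = (m₁(a, r) - m₁(r, a)) r⁻¹` (integral), and `h` commutes with `r^ℓ` (`WB2` for `d1 g`, or directly).  `⟨r^ℓ⟩ < ⟨r⟩`
(`r^ℓ ∈ W`, `r ∉ W`), and `{r^j | j < ℓ}` is a transversal. -/
def YceStmt : Prop :=
  ∀ (ℓ : ℕ) [Fact ℓ.Prime] (R K V A B κ Ω : Type) [CommRing R] [Field K] [Algebra R K]
    [CommGroup V] [Fintype V] [Ring A] [Algebra R A] [Ring B] [Algebra R B] [Algebra K B]
    [Fintype κ] [Fintype Ω] [MulAction (V × V) Ω] (W : Subgroup V) (α : V →* A)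
    (lam : A →ₗ[R] R) (x y : κ → A) (b : Ω → A) (c : Ω → (A →ₗ[R] R))
    (C : KC R K B α lam x y b c) (g : B →ₗ[K] B) (r : V) (e : A), IsPGroup ℓ V →
    WBl (ia C.i α) W g → g 1 = 0 → (∀ a₁ a₂, In C.i (d1 g (C.i a₁) (C.i a₂))) → r ∉ W →
    r ^ ℓ ∈ W → C.i e = ∑ j ∈ Finset.range ℓ,
      d1 g (C.i (α (r ^ j))) (C.i (α r)) * C.i (α (r ^ (j + 1))⁻¹) →
    e * α r = α r * e ∧
      ∀ a : A, a * α r = α r * a → a * e - e * a ∈ BKR (cw R α) (Subgroup.zpowers r)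

/-- YCB (uses YCE, LFX): the element is central in `A₀(⟨r⟩)`.

Proof.  `f.q e` commutes with `⟨r⟩` (YCE; `f.q (α v) = α₀ v`).  Every `s ∈ Br` is `β (f.q a)` with `a ∈ FxR (cw R α) ⟨r⟩`
(`IsBQ.surj`, LFX (1)).  `a e - e a ∈ BKR (cw R α) ⟨r⟩`, and `f.q` maps `BKR (cw R α)` into `BKR (cw F α₀)` (span induction), so
`β (f.q a) β (f.q e) = β (f.q e) β (f.q a)`. -/
def YcbStmt : Prop :=
  ∀ (ℓ : ℕ) [Fact ℓ.Prime] (R K F V A A₀ B κ Ω Br : Type) [CommRing R] [Field K]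
    [Algebra R K] [Field F] [CommGroup V] [Fintype V] [Ring A] [Algebra R A] [Ring A₀]
    [Algebra F A₀] [Ring B] [Algebra R B] [Algebra K B] [Fintype κ] [Fintype Ω]
    [MulAction (V × V) Ω] [Ring Br] [Algebra F Br] (W : Subgroup V) (α : V →* A)
    (lam : A →ₗ[R] R) (x y : κ → A) (b : Ω → A) (c : Ω → (A →ₗ[R] R))
    (C : KC R K B α lam x y b c) (cv : Cdv R F) (f : FibG A A₀ cv) (α₀ : V →* A₀)
    (lam₀ : A₀ →ₗ[F] F) (x₀ y₀ : κ → A₀) (b₀ : Ω → A₀) (c₀ : Ω → (A₀ →ₗ[F] F)) (g : B →ₗ[K] B)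
    (r : V) (e : A) (αB : V →* Br) (β : A₀ → Br), IsPGroup ℓ V → FrR (bw F α₀) b₀ c₀ →
    LiftV cv α₀ lam₀ x₀ y₀ b₀ c₀ f α lam x y b c →
    WBl (ia C.i α) W g → g 1 = 0 → (∀ a₁ a₂, In C.i (d1 g (C.i a₁) (C.i a₂))) → r ∉ W →
    r ^ ℓ ∈ W → IsBQ F α₀ (Subgroup.zpowers r) αB β → C.i e = ∑ j ∈ Finset.range ℓ,
      d1 g (C.i (α (r ^ j))) (C.i (α r)) * C.i (α (r ^ (j + 1))⁻¹) →
    f.q e ∈ FxR (cw F α₀) (Subgroup.zpowers r) ∧ ∀ s : Br, β (f.q e) * s = s * β (f.q e)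

/-! ## 3. The relation given by `r` -/

/-- VTA (uses HON, DEX, DZC): a derivation which kills `W`, and a central element killed by it.

Proof.  `q v = δ (v) v⁻¹` is a cocycle, `q w = 0` for `w ∈ W`: HON (the last hypothesis) gives `a`, `y₀`.  `δ' s = δ s + (y₀ s - s y₀)` is a
derivation with `δ' v v⁻¹ = ∑ la l v • a l`, `δ' z = δ z = 0`.  `D l` from DEX.  DZC for `δ'` and `z`. -/
def VtaStmt : Prop := ∀ (ℓ : ℕ) [Fact ℓ.Prime] (F V E A K : Type) [Field F] [CommGroup V]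
  [Fintype V] [Group E] [Ring A] [Algebra F A] [Fintype K] (φ : E →* MulAut V) (α : V →* A)
  (lam : A →ₗ[F] F) (x y : K → A) (W : Subgroup V) (n : ℕ) (la : Fin n → V → F) (δ : A →ₗ[F] A)
  (z : A), Per F φ α → RF F α lam x y → (∀ v : V, v ^ ℓ ∈ W) → (∀ l, Adc φ (la l)) → Der δ →
  (∀ w ∈ W, δ (α w) = 0) → (∀ a, z * a = a * z) → δ z = 0 →
  (∀ μ : V → F, (∀ u v, μ (u * v) = μ u + μ v) → (∀ w ∈ W, μ w = 0) →
    ∃ c : Fin n → F, ∀ v, μ v = ∑ l, c l * la l v) →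
  ∃ (a : Fin n → A) (y₀ : A) (D : Fin n → (A →ₗ[F] A)), (∀ l, a l ∈ FxR (cw F α) ⊤) ∧
    (∀ v, δ (α v) * α v⁻¹ = ∑ l, la l v • a l + (α v * y₀ * α v⁻¹ - y₀)) ∧
    (∀ l, Der (D l)) ∧ (∀ l v, D l (α v) = la l v • (α v * rt x y 1)) ∧
    ∑ l, D l z * rt x y (a l) = 0

/-- VTX (uses ZUN, BQT, MCO, NDI, VTA; S0.BclStmt BbkStmt FcoStmt FbkStmt ZrtStmt): the relation in the centre of
`A₀(Q)` given by `r ∈ Q`, `Q = QW0 φ W`.  `w u` is the element of OBW for `(u, r)`.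

Proof.  `P = ⟨r⟩ ≤ Q`, `E1 = {e | ∀ q ∈ P, φ e q = q}`.  For `e ∈ E1`: `φ e r * r⁻¹ = 1 ∈ W`, so `φ e u * u⁻¹ ∈ W` for all `u`
(`Chf.fr`): `la l (φ e u) = la l u` (`Eg.add`, `Eg.ker`), i.e. `Adc (φ.comp E1.subtype) (la l)`, and `φ e q = q` for `q ∈ Q` (definition of
`QW0`).  `Br`, `BQ` are in the class (BCL) for `φ.comp E1.subtype`, and the centraliser of `Q`.
`Y = β (D r)` is central.  VTA for `Br`, `δ`, `z = Y`: `a`, `y₀`, `Dl`, `∑ Dl Y * rt xB yB (a l) = 0`.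
`β'` from BQT (`T = P`, `T' = Q`), `β' (β a) = βQ a` for `a ∈ FxR (cw F α) Q`; `lamQ (β' s) = lamB s` for `s ∈ FxR (cw F αB) Q` (`s = β a` with
`a ∈ FxR (cw F α) Q`: BBK (2)).
(1) `β' (a n) = ∑_u xx n u • w u` for all `n`.  For `z ∈ FxR (cw F α) Q`, `u ∈ Q`: `lamB (β z * (u y₀ u⁻¹ - y₀)) = 0` (`β z` commutes with `u`,
`sym`), so `lamQ (βQ z * w u) = lamB (β z * (δ u u⁻¹)) = ∑_l la l u • lamB (β z * a l) = lamQ (βQ z * ∑_l la l u • β' (a l))`; `βQ z` is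
arbitrary in `BQ` and `lamQ` nondegenerate: `w u = ∑_l la l u • β' (a l)` for `u ∈ Q`; `xx n` is supported in `Q` (`Eg.qs`) and
`∑_u xx n u * la l u = δ_nl` (`Eg.xl`).
(2) `β' (rt xB yB (a l)) = rt xQ yQ (β' (a l)) = ζQ * ∑_u xx l u • w u`?  MCO for `Br`, `φ.comp E1.subtype`, `Q`, `β'`: the first
equality.  `β' (a l)` is central in `BQ`: by (1) it is a combination of the `w u`, `u ∈ Q`, which are central (hypothesis).
(3) `D r - Xe α p ∈ BKR (cw F α) Q`, `p = pg la xx t r` (`Drd.bk`), and it is fixed by `V`, so it is in `BKR (cw F α) ⊤` (FCO: the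
coefficients at the points fixed by `Q` vanish, FBK, for the frame of `Per` with the diagonal action), so
`Y - Xe αB p ∈ BKR (cw F αB) ⊤` (BBK (1), `P = ⊤`; `β` is linear on `FxR`).  NDI for `Br`, `Dl`: `Dl Y - (∑ p v * la l v) • ζB` is central and
nilpotent, `∑_v p v * la l v = t l * la l r` (`Eg.xl`).
(4) `β' ζB = ζQ` (MCO, `a = 1`), `ζQ` is central with inverse `u₀` (ZUN).  Apply `β'` to `∑ Dl Y * rt xB yB (a l) = 0` (all factors are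
central in `Br`, so in `FxR (cw F αB) Q`): `∑_l ((t l * la l r) • ζQ + N l) * (ζQ * ∑_u xx l u • w u) = 0`, `N l` = `β'` of the nilpotent
element, central as `β'` is surjective from `FxR`; multiply by `u₀ * u₀`: `m l = u₀ * N l`. -/
def VtxStmt : Prop := ∀ (ℓ : ℕ) [Fact ℓ.Prime] (F V E A Br BQ K KB KQ : Type) [Field F]
  [CharP F ℓ] [CommGroup V] [Fintype V] [Group E] [Finite E] [Ring A] [Algebra F A] [Ring Br]
  [Algebra F Br] [Ring BQ] [Algebra F BQ] [Fintype K] [Fintype KB] [Fintype KQ]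
  (φ : E →* MulAut V) (α : V →* A) (lam : A →ₗ[F] F) (x y : K → A) (W : Subgroup V) (n : ℕ)
  (la : Fin n → V → F) (χ : Fin n → E → F) (xx : Fin n → V → F) (t : Fin n → F) (D : V → A)
  (r : V) (αB : V →* Br) (β : A → Br) (lamB : Br →ₗ[F] F) (xB yB : KB → Br) (αQ : V →* BQ)
  (βQ : A → BQ) (lamQ : BQ →ₗ[F] F) (xQ yQ : KQ → BQ) (δ : Br →ₗ[F] Br) (w : V → BQ),
  IsPGroup ℓ V → ¬ ℓ ∣ Nat.card E → Chf ℓ φ W → Cl F φ α → RF F α lam x y →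
  Drd F φ α W (QW0 φ W) la χ xx t D → r ∈ QW0 φ W → r ∉ W →
  IsBQ F α (Subgroup.zpowers r) αB β → RF F αB lamB xB yB →
  (∀ a ∈ FxR (cw F α) (Subgroup.zpowers r), lamB (β a) = lam a) →
  IsBQ F α (QW0 φ W) αQ βQ → RF F αQ lamQ xQ yQ →
  (∀ a ∈ FxR (cw F α) (QW0 φ W), lamQ (βQ a) = lam a) →
  Der δ → (∀ v ∈ W, δ (αB v) = 0) → (∀ s, β (D r) * s = s * β (D r)) → δ (β (D r)) = 0 →
  (∀ u ∈ QW0 φ W, ∀ s, w u * s = s * w u) →
  (∀ u ∈ QW0 φ W, ∀ z ∈ FxR (cw F α) (QW0 φ W),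
    lamB (β z * (δ (αB u) * αB u⁻¹)) = lamQ (βQ z * w u)) →
  ∃ m : Fin n → BQ, (∀ l, IsNilpotent (m l) ∧ ∀ s, m l * s = s * m l) ∧
    ∑ l, (algebraMap F BQ (t l * la l r) + m l) * ∑ u, xx l u • w u = 0

/-- LAL (uses ALT, row 213): linear algebra.

Proof.  Choose `s : V → V` with `s v ∈ Q`, `v = s v * w`, `w ∈ W` (`hQ`), and put `w' u v = w (s u) (s v)`: `w u v` for `u, v ∈ Q` depends
only on the classes modulo `W` (additivity, and `w u v = 0` if `u` or `v` is in `Q ∩ W`), so `w' u v = w u v` for `u, v ∈ Q`; `w'` is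
biadditive, zero on `W`, `w' u u = 0`, `w' v u = - w' u v`, and the relation holds for `w'` and all `u ∈ V` (for `u ∈ W` it is trivial; `xx l` is
supported in `Q`, `la l (s u) = la l u`).  `I` = the ideal spanned by all `w' u v`, `J = nilradical Z`.  In `M = Z ⧸ (J * I)`
(an `F`-space) the image `f` of `w'` satisfies `∑_v pg la xx t u v • f u v = - ∑_l (t l * la l u) ∑_v xx l v • f v u = 0` by the relation
(`n l * ∑_v xx l v • w' v u ∈ J * I`).  ALT: `f = 0`, so `I ≤ J * I`; `I` is finitely generated (`Z` is Noetherian), `J` is contained in the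
Jacobson radical: `Submodule.eq_bot_of_le_smul_of_le_jacobson_bot`: `I = 0`. -/
def LalStmt : Prop := ∀ (F V E Z : Type) [Field F] [CommGroup V] [Fintype V] [Group E]
  [CommRing Z] [Algebra F Z] [FiniteDimensional F Z] (φ : E →* MulAut V) (W Q : Subgroup V)
  (n : ℕ) (la : Fin n → V → F) (χ : Fin n → E → F) (xx : Fin n → V → F) (t : Fin n → F)
  (w : V → V → Z), Eg F φ W Q la χ xx t → (∀ v : V, ∃ q ∈ Q, ∃ s ∈ W, v = q * s) →
  (∀ u ∈ Q, ∀ u' ∈ Q, ∀ v ∈ Q, w (u * u') v = w u v + w u' v) →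
  (∀ u ∈ Q, ∀ v ∈ Q, w v u = - w u v) → (∀ u ∈ Q, w u u = 0) →
  (∀ u ∈ Q, ∀ v ∈ Q, u ∈ W → w u v = 0) →
  (∀ u ∈ Q, u ∉ W → ∃ m : Fin n → Z, (∀ l, IsNilpotent (m l)) ∧
    ∑ l, (algebraMap F Z (t l * la l u) + m l) * ∑ v, xx l v • w v u = 0) →
  ∀ u ∈ Q, ∀ v ∈ Q, w u v = 0

/-! ## 4. Assembly -/

/-- DXI (interface to part 2, helper43): the derivation of `A₀(⟨r⟩)` given by a cocycle which satisfies the
Bianchi identity. -/
def DxiStmt : Prop :=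
  ∀ (ℓ : ℕ) [Fact ℓ.Prime] (R K F V E A A₀ B κ Ω Br KB : Type) [CommRing R] [IsDomain R]
    [IsPrincipalIdealRing R] [CharZero R] [Field K] [CharZero K] [Algebra R K] [Field F]
    [IsAlgClosed F] [CharP F ℓ] [CommGroup V] [Fintype V] [Group E] [Fintype E] [Ring A]
    [Algebra R A] [Module.Finite R A] [Module.Free R A] [Ring A₀] [Algebra F A₀] [Ring B]
    [Algebra R B] [Algebra K B] [Fintype κ] [Fintype Ω] [MulAction (V × V) Ω] [Ring Br]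
    [Algebra F Br] [Fintype KB] (φ : E →* MulAut V) (W : Subgroup V) (α : V →* A)
    (lam : A →ₗ[R] R) (x y : κ → A) (b : Ω → A) (c : Ω → (A →ₗ[R] R))
    (C : KC R K B α lam x y b c) (cv : Cdv R F) (f : FibG A A₀ cv) (α₀ : V →* A₀)
    (lam₀ : A₀ →ₗ[F] F) (x₀ y₀ : κ → A₀) (b₀ : Ω → A₀) (c₀ : Ω → (A₀ →ₗ[F] F))
    (m₁ cc : B →ₗ[K] B →ₗ[K] B) (r : V) (αB : V →* Br) (β : A₀ → Br) (lamB : Br →ₗ[F] F)
    (xB yB : KB → Br), Kx ℓ φ W C f α₀ lam₀ x₀ y₀ b₀ c₀ →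
    WB2 (ia C.i α) W (fun a b => m₁ a b) → Nrm (fun a b => m₁ a b) →
    (∀ a₁ a₂, In C.i (m₁ (C.i a₁) (C.i a₂))) →
    (∀ a₁ a₂ a₃ : B, dl (fun a b => m₁ a b) a₁ a₂ a₃ = 0) → Z2 C W cc → Bi C W m₁ cc →
    r ∉ W → r ^ ℓ ∈ W → IsBQ F α₀ (Subgroup.zpowers r) αB β → RF F αB lamB xB yB →
    (∀ a ∈ FxR (cw F α₀) (Subgroup.zpowers r), lamB (β a) = lam₀ a) →
    ∃ δ : Br →ₗ[F] Br, Der δ ∧ (∀ w ∈ W, δ (αB w) = 0) ∧
      (∀ (z : A) (g : V) (ρ : R), z * α r = α r * z → z * α g = α g * z →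
        algebraMap R K ρ = (ℓ : K) * C.lamK (C.i z * kp C.i α cc g r) →
        lamB (β (f.q z) * (δ (αB g) * αB g⁻¹)) = cv.κ ρ) ∧
      ∀ e : A, C.i e = ∑ j ∈ Finset.range ℓ,
          m₁ (C.i (α (r ^ j))) (C.i (α r)) * C.i (α (r ^ (j + 1))⁻¹) → δ (β (f.q e)) = 0

/-- KYA: assembly of `KeyStmt`.

Proof.  `Q = QW0 φ W`, `hQ` from QWV (`Chf.sw`).  `Kx` from the hypotheses (`ch`, `pi`, ..).  OBR: it is enough that
`InR (C.lamK (C.i z * kp C.i α cc u v))` for `u, v ∈ Q`, `z ∈ FxR (cw R α) Q`.  `BQ = A₀(Q)` (`S0.BqxStmt`), `lamQ`, `xQ`, `yQ`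
(`S0.BpuStmt`, `E1` = the centraliser of `Q`).  OBW (`T = Q`) and choice: `w : V → V → BQ`, central values (for all `u`, `v`: put
`w u v = 0` if `u ∉ Q` or `v ∉ Q`).  OBX: biadditive, alternating, zero on `W`, and it is enough that `w u v = 0` for
`u, v ∈ Q`.  LAL for `Z = Subalgebra.center F BQ` (finite-dimensional: `S0.BclStmt`, `Cl.fin`) and `w` with values in `Z`.  The relation
for `r ∈ Q`, `r ∉ W`: `Br = A₀(⟨r⟩)` (`S0.BqxStmt`, `S0.BpuStmt`: `lamB`, `xB`, `yB`), DRX for `m₁` (`WB2`, `Nrm`, `dl m₁ = 0` follow from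
`m₁ = d1 g`): `δ`.  `e` with `C.i e = ∑_(j<ℓ) m₁(r^j, r) r^-(j+1)` (integral).  YCB: `β (f.q e)` is central; `f.q e - D r ∈ BKR` (`Ekc`), both are
fixed by `⟨r⟩`: `β (D r) = β (f.q e)` (`IsBQ.ker`, linearity), so `δ (β (D r)) = 0`.  For `u ∈ Q`, `z₀ ∈ FxR (cw F α₀) Q`: `z₀ = f.q z`,
`z ∈ FxR (cw R α) Q` (LFX (1)), `ρ` from OBA (4) (`Chf.pw`), DRX and OBW: `lamB (β z₀ * (δ u u⁻¹)) = κ ρ = lamQ (βQ z₀ * w u r)`.  VTX for
`w · r`: `m : Fin n → BQ` central nilpotent: elements of `Z`. -/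
def KyaStmt : Prop :=
  DxiStmt → ObaStmt → LfxStmt → ObwStmt → ObxStmt → ObrStmt → YcbStmt → VtxStmt → LalStmt →
    QwvStmt → S0.BqxStmt → S0.BpuStmt → S0.BclStmt → KeyStmt

/-- KYD: `KywStmt` of `StmtsDZ.lean` follows from `KeyStmt`.

Proof.  Only `Ekc` and the integrality are to be shown.  Let `u ∉ W`, `C.i e = ∑_j m₁(u^j, u) u^-(j+1)`.  `C.i e_j = m₁(u^j, u)`,
`f.q e_j = D₀.m 1 (α₀ (u ^ j)) (α₀ u)` (`LiftV.qa`), so `e = ∑_j e_j * α (u ^ (j+1))⁻¹` (`C.inj`) and `f.q e` is the sum in the hypothesis. -/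
def KydStmt : Prop := KeyStmt → KywStmt

end Pool.Agent.PST
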