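import Pool.Agent.PSS.AllS
import Pool.Agent.PST.AsmDR
import Pool.Agent.PST.Kyw
import Pool.Agent.Helper85_PST.DEX
import Pool.Agent.Helper52_PST.NKB
import Pool.Agent.Helper27_PST.ADX
import Pool.Agent.Helper56_PST.DZU
import Pool.Agent.Helper81_PST.LSA
import Pool.Agent.Helper84_PST.ZIJ
import Pool.Agent.Helper40_PST.DZC
import Pool.Agent.Helper24_PST.EXA
import Pool.Agent.Helper44_PST.HON
import Pool.Agent.Helper46_PST.OBA
import Pool.Agent.Helper27_PST.OBB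
import Pool.Agent.Helper1_PST.OBN
import Pool.Agent.Helper13_PST.OBC
import Pool.Agent.Helper1_PST.LFX
import Pool.Agent.Helper95_PST.OBW
import Pool.Agent.Helper45_PST.OBX
import Pool.Agent.Helper91_PST.OBR
import Pool.Agent.Helper10_PST.ZUN
import Pool.Agent.Helper56_PST.BQT
import Pool.Agent.Helper94_PST.MCO
import Pool.Agent.Helper21_PST.NDI
import Pool.Agent.Helper13_PST.YCE
import Pool.Agent.Helper46_PST.YCB
import Pool.Agent.Helper82_PST.VTA
import Pool.Agent.Helper70_PST.VTX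
import Pool.Agent.Helper49_PST.ALT
import Pool.Agent.Helper15_PST.LAL
import Pool.Agent.Helper84_PST.KYA
import Pool.Agent.Helper51_PST.KYD
import Pool.Agent.Helper79_PST.DXI
import Pool.Agent.Helper10_PST.ECR
import Pool.Agent.Helper95_PST.EYR
import Pool.Agent.Helper91_PST.REL
import Pool.Agent.Helper6_PST.XCM
import Pool.Agent.Helper29_PST.XPR
import Pool.Agent.Helper29_PST.NRK
import Pool.Agent.Helper13_PST.PAI
import Pool.Agent.Helper41_PST.BKZ
import Pool.Agent.Helper79_PST.TRL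
import Pool.Agent.Helper51_PST.RZL
import Pool.Agent.Helper81_PST.DRX

/-!
# Squad PST, block KEY: assembly (helper79)
-/

namespace Pool.Agent.PST.KEY

open Pool.Agent.PSS
open Pool.Agent.PSS.All (z_bki z_bqx z_bpu z_mck z_zrt z_rfs z_fco z_fbk z_ftr z_bbk z_bcl z_bkf
  z_rfd b_thl a_uzl a_rfe)

theorem nkb_ : NkbStmt := H52.nkb z_bki

theorem dzu_ : DzuStmt := H56.dzu nkb_ z_bqx z_bpu z_mck z_zrt

theorem lsa_ : LsaStmt := H81.lsa H85.dex dzu_ z_rfs b_thl

theorem zij_ : ZijStmt :=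
  H84.zij H27.adx lsa_ z_fco z_fbk z_ftr z_bqx z_bbk z_bcl z_bkf

theorem dzc_ : DzcStmt := H40.dzc b_thl z_zrt

theorem hon_ : HonStmt := H44.hon H24.exa

theorem obc_ : ObcStmt := H13.obc H46.oba H27.obb H1.obn

theorem obw_ : ObwStmt := H95.obw H46.oba H27.obb obc_ H1.lfx

theorem obx_ : ObxStmt := H45.obx H46.oba H1.lfx

theorem obr_ : ObrStmt :=
  H91.obr zij_ H46.oba obw_ H1.lfx z_rfd z_bqx z_bcl z_bpu z_bbk z_fbk

theorem ycb_ : YcbStmt := H46.ycb H13.yce H1.lfx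

theorem vtx_ : VtxStmt :=
  H70.vtx H10.zun (H56.bqt z_bbk) H94.mco (H21.ndi nkb_) (H82.vta hon_ H85.dex dzc_) z_bcl z_bbk
    z_fco z_fbk z_zrt

theorem rel_ : RelStmt := H91.rel H95.eyr

theorem pai_ : PaiStmt := H13.pai H10.ecr H29.nrk rel_ H6.xcm_thm (H29.xpr H6.xcm_thm)

theorem trl_ : TrlStmt := H79.trl H41.bkz a_uzl

theorem drx_ : DrxStmt := H81.drx pai_ trl_ H51.rzl a_uzl a_rfe

theorem dxi_ : DxiStmt := H79.dxi drx_ H10.zun

theorem key_ : KeyStmt :=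
  H84.kya dxi_ H46.oba H1.lfx obw_ obx_ obr_ ycb_ vtx_ (H15.lal H49.alt) H40.qwv z_bqx z_bpu
    z_bcl

theorem kyw_ : KywStmt := Pool.Agent.PST.kyw key_

end Pool.Agent.PST.KEY
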