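import Pool.Agent.PST.Tpw

/-!
# Squad PST: the step STQ from the outputs of the blocks
-/

open scoped BigOperators TensorProduct PowerSeries

noncomputable section

namespace Pool.Agent.PST

open Pool.Agent.PFC (tw IsTv)
open Pool.Agent.PFD.D2b (FrR)
open Pool.Agent.PSS

/-- the deformation in the sense of `Df` -/
def Dpt.df {ℓ : ℕ} {F V E A As K K0 : Type} [Field F] [CommGroup V] [Fintype V] [Group E]
    [Ring A] [Algebra F A] [Ring As] [Algebra F⟦X⟧ As] [Fintype K] [Fintype K0]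
    {φ : E →* MulAut V} {α : V →* A} {W : Subgroup V} [Fintype W] {ψ : E →* MulAut W}
    {γ : W →* As} {q : As →+* A} {lam : As →ₗ[F⟦X⟧] F⟦X⟧} {lam0 : A →ₗ[F] F}
    {x y : K → As} {x0 y0 : K0 → A} (D : Dpt ℓ F φ α W ψ γ q lam lam0 x y x0 y0) :
    Df (PowerSeries.X : F⟦X⟧) PowerSeries.constantCoeff (aw α W) γ where
  q := q
  sc := D.sc
  surj := D.surj
  ker := D.ker
  qw := D.qw
  per := by
    obtain ⟨Ω, i1, i2, b, c, hf, _⟩ := D.per
    exact ⟨Ω, i1, i2, b, c, hf⟩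

/-- STQ -/
theorem stq (dtq : DtqStmt) (gfw : GfwStmt) (dz : DzwStmt) (tp : TpwStmt) : StqStmt := by
  intro ℓ _ F V E A B _ _ _ _ _ _ _ _ _ _ _ φ α W' W _ ψ hp hE hch hr hWW hst hA N
  by_cases hW' : W' = ⊤
  · exact trv ℓ F V E A B φ α W' W ψ hW' hr hA N
  · obtain ⟨As, K, K0, Ω, _, _, _, _, _, _, _, _, γ, q, lam, lam0, x, y, x0, y0, b, cc, D, hfr,
      hsb, hO⟩ := dtq ℓ F V E A φ α W' ψ hp hE hch hr hA
    obtain ⟨F', _, _, _, _, hinj⟩ := exists_gf ℓ F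
    obtain ⟨B', _, _, N', hB'⟩ := tp ℓ F V E A As B F' φ α W' W γ hp hE hch hWW hst hA N hinj
      D.df D.reg
    refine ⟨F', F' ⊗[F⟦X⟧] As, B', inferInstance, inferInstance, inferInstance, inferInstance,
      inferInstance, inferInstance, inferInstance, bcw (R := F⟦X⟧) (S := F') γ, N', ?_, ?_, hB'⟩
    · exact gfw ℓ F F' V E A As K K0 Ω φ α W' ψ γ q lam lam0 x y x0 y0 b cc hinj hp hE hW' D
        hfr hsb hO
    · exact dz ℓ F V E A As F' φ α W' γ hp hE hch hA hinj D.df D.reg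

end Pool.Agent.PST
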