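import Pool.Agent.PSS.AllS
import Pool.Agent.PST.AsmKEY
import Pool.Agent.PST.AsmDR
import Pool.Agent.Helper30_PST.UAll
import Pool.Agent.PST.Kyw
import Pool.Agent.PST.Stq
import Pool.Agent.Helper52_PSS.SYD
import Pool.Agent.Helper77_PSS.XCO
import Pool.Agent.Helper45_PSS.XCW
import Pool.Agent.Helper41_PSS.GAM
import Pool.Agent.Helper55_PSS.TAW
import Pool.Agent.Helper29_PSS.HCW
import Pool.Agent.Helper41_PSS.H2W
import Pool.Agent.Helper87_PSS.H1W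
import Pool.Agent.Helper24_PSS.STW
import Pool.Agent.Helper62_PSS.BIA
import Pool.Agent.Helper44_PSS.TGW
import Pool.Agent.Helper41_PSS.MUB
import Pool.Agent.Helper41_PSS.TGT
import Pool.Agent.Helper2_PSS.FZ0
import Pool.Agent.Helper29_PSS.STX
import Pool.Agent.Helper58_PSS.TLW
import Pool.Agent.Helper27_PST.RWT
import Pool.Agent.Helper29_PST.GVG
import Pool.Agent.Helper62_PST.EKF
import Pool.Agent.Helper21_PST.GNQ
import Pool.Agent.Helper85_PST.DTQ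
import Pool.Agent.Helper53_PST.FMA
import Pool.Agent.Helper5_PST.NTR
import Pool.Agent.Helper21_PST.NCG
import Pool.Agent.Helper15_PST.NCB
import Pool.Agent.Helper3_PST.NCN
import Pool.Agent.Helper56_PST.NWC

/-!
# Squad PST: the step STQ from the proved rows

Only the block ET (`ET.EtcStmt`) is a hypothesis here.
-/

namespace Pool.Agent.PST.All

open Pool.Agent.PSS

theorem xcw_ : XcwStmt := Pool.Agent.PSS.H45.xcw (Pool.Agent.PSS.H77X.xco Pool.Agent.PSS.H52.syd)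

theorem gam_ : GamStmt := Pool.Agent.PSS.H41.gam xcw_

theorem hcw_ : HcwStmt := Pool.Agent.PSS.H29.hcw Pool.Agent.PSS.H55.taw

theorem h2w_ : H2wStmt :=
  Pool.Agent.PSS.H41.h2w PSS.All.a_csu PSS.All.a_hcc PSS.All.a_lfg gam_ hcw_

theorem h1w_ : H1wStmt := Pool.Agent.PSS.H87.h1w PSS.All.a_csu PSS.All.a_fxl

theorem stw_ : StwStmt :=
  Pool.Agent.PSS.H24.stw PSS.All.a_trx PSS.All.a_tra PSS.All.a_trc h2w_

theorem bia_ : BiaStmt := Pool.Agent.PSS.H62.bia PSS.All.a_tra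

theorem tgw_ : TgwStmt :=
  Pool.Agent.PSS.H44.tgw PSS.All.a_trx PSS.All.a_tra PSS.All.a_trc PSS.All.a_lim stw_ bia_

theorem mub_ : MubStmt := Pool.Agent.PSS.H41.mub PSS.All.a_blt

theorem tgt_ : TgtStmt := Pool.Agent.PSS.H41.tgt PSS.All.a_tra mub_

theorem stx_ : StxStmt := Pool.Agent.PSS.H29.stx PSS.All.a_trx PSS.All.a_trc h2w_

theorem tlw_ : TlwStmt :=
  Pool.Agent.PSS.H58.tlw PSS.All.a_trx PSS.All.a_trc PSS.All.a_lim bia_ mub_ tgt_
    Pool.Agent.PSS.H2.fz0 stx_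

theorem gnq_ : GnqStmt :=
  H21.gnq PSS.All.a_kex DRA.drq_ H29.gvg H62.ekf KEY.key_ tgw_ PSS.All.a_dmr PSS.All.a_dmf h1w_
    H27.rwt PSS.All.a_fmx PSS.All.a_fsr PSS.All.a_red DRA.fox_

theorem dtq_ : DtqStmt :=
  H85.dtq PSS.All.a_lft gnq_ PSS.All.a_per PSS.All.a_spf PSS.All.a_fre PSS.All.a_rmp
    PSS.All.c_unx

theorem ldw_ : LdwStmt :=
  ldw PSS.All.a_lft PSS.All.a_kex tlw_ PSS.All.a_dmr h1w_ H53.fma KEY.kyw_

theorem cew_ : CewStmt := cew ldw_ PSS.All.a_uzl PSS.All.a_cen PSS.All.a_rmp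

theorem dzw_ : DzwStmt := dzwS cew_

theorem ncg_ : NcgStmt := H21.ncg

theorem nwc_ : NwcStmt := H56.nwc PSS.All.d_nfp PSS.All.d_nrf ncg_ H15.ncb (H3.ncn ncg_)

theorem ntr_ : NtrStmt := H5.ntr PSS.All.d_nfr PSS.All.d_frb

theorem tpw_ : TpwStmt := tpw dzw_ PSS.All.d_ndf nwc_ ntr_

/-- STQ from ET -/
theorem stq_ (etc : ET.EtcStmt) : StqStmt := stq dtq_ (UAll.gfw_ etc) dzw_ tpw_

end Pool.Agent.PST.All
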