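import Pool.Agent.PST.DefsGS

/-!
# Squad PST, block GS: the group level of theorem (S++) (helper11)

1. REA, REB: regular elements.  MSU: a minimal stable subgroup.
2. ECB: existence of the chain.  KNG, STL: from the class `KP` to the chains of `ATQ`; STO for `KP`.
3. ADP: `KP` is admissible.
4. CLP, FNP: the final theorem.

Complete proofs in the docstrings; a row may take the rows which it uses as hypotheses.
-/

open scoped BigOperators

noncomputable section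

namespace Pool.Agent.PST

open Pool.Agent.Helper51_AWC Pool.Agent.Helper79_WRA Pool.Agent.PP Pool.Agent.PP.KF
open Pool.Agent.PP.K9 Pool.Agent.PP.K9.H97 Pool.Agent.PP.H75 Pool.Agent.PP.T3 Pool.Agent.PP.T2
open Pool.Agent.PFD (Ei)
open Pool.Agent.PSS

attribute [local instance] Ideal.Quotient.field

/-! ## 1. Regular elements -/

/-- REA: a commutative group of operators has a regular element.

Proof.  Choose `q ∈ Q` such that the order of `C = {a ∈ E | a q = q}` is minimal (`Q`, `E` are finite).  Suppose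
that some `c ∈ C` moves some `w ∈ Q`.  `|C|` divides `|E|`, so it is prime to `ℓ`, and there is `m` with
`v ^ (m * |C|) = v` for all `v ∈ V` (`V` is a finite `ℓ`-group).  `p v = ∏ c ∈ C, c (v ^ m)` (product over the
subgroup `C`) is a homomorphism on `V` (`V` is commutative); for `v ∈ Q`: `p v ∈ Q`, `c (p v) = p v` for
`c ∈ C` (reindex), `p v = v` if all `c ∈ C` fix `v`, `a (p v) = p (a v)` for `a ∈ E`.  So `p (p v) = p v`.
`y = w * (p w)⁻¹`: `p y = 1`, and `c y = c w * (p w)⁻¹ ≠ y`.  If `a ∈ E` fixes `q * y` then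
`a q = a (p (q y)) = p (a (q y)) = p (q y) = q`, so `a y = y`.  So the stabiliser of `q * y` is contained in
`C` and does not contain `c`, a contradiction. -/
def ReaStmt : Prop := ∀ (ℓ : ℕ) (V : Type) [CommGroup V] [Finite V] (E : Subgroup (MulAut V))
  (Q : Subgroup V), ℓ.Prime → IsPGroup ℓ V → ¬ ℓ ∣ Nat.card E → (∀ a ∈ E, ∀ u ∈ Q, a u ∈ Q) →
  (∀ a ∈ E, ∀ b ∈ E, ∀ v ∈ Q, a (b v) = b (a v)) →
  ∃ q ∈ Q, ∀ a ∈ E, a q = q → ∀ w ∈ Q, a w = w

/-- REB (uses REA): regular elements in the class `KP`.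

Proof.  `K = {a ∈ E | ∀ v ∈ P, a v * v⁻¹ ∈ W}` is a subgroup (`W` is stable: `W = U ⊔ X`), and for `a, b ∈ E`
the element `(b a)⁻¹ (a b)` is in `K` (apply the stable `W` to `a (b v) * (b (a v))⁻¹ ∈ W`); `K` is normalised
by `E`.  `Q = {v ∈ P | ∀ k ∈ K, k v = v}` is stable: `k (a v) = a ((a⁻¹ k a) v) = a v`.  `E` is commutative on
`Q`: `a (b v) = b (a (k v))`, `k = (b a)⁻¹ (a b) ∈ K`.  `P = Q W`: there is `m` with `v ^ (m * |K|) = v` for all
`v`, `p v = ∏ k ∈ K, k (v ^ m)` is in `Q` for `v ∈ P`, and `p v * v⁻¹ ∈ W`.  REA: `q` for `Q`.  If all `k ∈ K` fix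
`W` pointwise then `W ≤ Q`, `P = Q` and `u = q`.  Otherwise let `k ∈ K` move some `w ∈ W`; choose
`u₀ ∈ U`, `u₀ ≠ 1` (`nt`); an element of `Q ⊓ U` is fixed by `k`, so it is `1` by `Frw.fr`.  `u = q * u₀`: if
`a u = u` then `q⁻¹ * a q = u₀ * (a u₀)⁻¹ ∈ Q ⊓ U` (`U` is stable), so `a q = q`, `a u₀ = u₀`, and `a` fixes `Q` and
`W` (`Frw.fr`), so it fixes `P = Q W`. -/
def RebStmt : Prop := ∀ (ℓ : ℕ) (V : Type) [CommGroup V] [Finite V] (E : Subgroup (MulAut V))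
  (W U X P : Subgroup V), ℓ.Prime → IsPGroup ℓ V → ¬ ℓ ∣ Nat.card E → Frw E W U X →
  (∀ a ∈ E, ∀ b ∈ E, ∀ v : V, a (b v) * (b (a v))⁻¹ ∈ W) → W ≤ P →
  (∀ a ∈ E, ∀ u ∈ P, a u ∈ P) → ∃ u ∈ P, ∀ a ∈ E, a u = u → ∀ w ∈ P, a w = w

/-- MSU: a minimal stable subgroup.

Proof.  `W` = a stable subgroup `≠ ⊥` of minimal order (`⊤` is one).  `U = W`, `X = ⊥`.  If `a ∈ E` fixes `u ≠ 1`
in `W` then `{v ∈ W | a v = v}` is a subgroup, stable (`a (b v) = b (a v) = b v`), not `⊥`, so it is `W`. -/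
def MsuStmt : Prop := ∀ (V : Type) [Group V] [Finite V] (E : Subgroup (MulAut V)),
  (∃ v : V, v ≠ 1) → (∀ a ∈ E, ∀ b ∈ E, ∀ v : V, a (b v) = b (a v)) →
  ∃ W : Subgroup V, Frw E W W ⊥

/-! ## 2. The class KP and the chains -/

/-- ECB (uses REB): the chain.

Proof.  Claim: `ChB ℓ E P W` for all stable `P ≥ W`, strong induction on
`Nat.card P`.  `P = W`: `refl`.  Otherwise choose a stable `P'`, `W ≤ P' < P`, of maximal order; every stable
`Q` with `P' < Q ≤ P` is `P`.  `StB ℓ E P P'`: `pw`: the subgroup `{v ∈ P | v ^ ℓ ∈ P'}` (`V` is commutative) is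
stable, contains `P'`, and is not `P'`: take `v ∈ P`, `v ∉ P'`, and the least `k` with `v ^ (ℓ ^ k) ∈ P'`,
`k ≥ 1`, and `v ^ (ℓ ^ (k - 1))`.  `fr`: for `a ∈ E` the subgroup `{v ∈ P | a v * v⁻¹ ∈ P'}` is stable
(`b (a v * v⁻¹) = b (a v) * (b v)⁻¹`, and `a (b v) * (b (a v))⁻¹ ∈ W ≤ P'`) and contains `P'`; if it
contains some `v ∉ P'` then it is `P`.  `am`: `W ≤ P'`.  `rg`: REB for `P'`. -/
def EcbStmt : Prop := ∀ (ℓ : ℕ) (V : Type) [CommGroup V] [Finite V] (E : Subgroup (MulAut V))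
  (W : Subgroup V), ℓ.Prime → IsPGroup ℓ V → ¬ ℓ ∣ Nat.card E → KP ℓ V E W → ChB ℓ E ⊤ W

/-- KNG: from `ChB`, `Frw` to `Chn`, `Fre`.

Proof.  Edit of `H10.knf` (`Helper10_PST/KNF.lean`): only steps `Chf` (`Or.inr`), with the new fields `am`, `rg`
of `Chf` from `StB.am`, `StB.rg` (`w₀` = the preimage under `i` of the regular element, `P' ≤ P = i.range`). -/
def KngStmt : Prop := ∀ (ℓ : ℕ) (V : Type) [CommGroup V] [Finite V] (E : Subgroup (MulAut V))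
  (W U X : Subgroup V), ChB ℓ E ⊤ W → Frw E W U X →
  ∃ (n : ℕ) (ψ : E →* MulAut W), Chn ℓ n V E E.subtype W ∧ IsRs E.subtype W ψ ∧ Fre ψ

/-- STL (uses ECB KNG): the input of the group level, for the class `KP`.

Proof.  Edit of `H20.stk` (`Helper20_PST/STK.lean`): the chain from ECB (`hL.tp.pg`, `hix`). -/
def StlStmt : Prop := AtqStmt → StoFor KP

/-! ## 3. The class is admissible -/

/-- ADP (uses MSU): the class `KP` is admissible.

Proof.  `nt`: `U ≤ W`, `U ≠ ⊥`.  `st`: `W = U ⊔ X`.  `iso`: images under `π` (as in `Helper77_PST/ADT.lean`).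
`quo`: `E'` is commutative: `a' (b' (π v)) = π (a (b v))`,
`π (a (b v) * (b (a v))⁻¹) = 1`; MSU: `W'`. -/
def AdpStmt : Prop := ∀ ℓ : ℕ, ℓ.Prime → Adm ℓ KP

/-! ## 4. The final theorem -/

/-- CLP (uses MSU): from the clean hypotheses to the class.

Proof.  As `H56.clt` (`Helper56_PST/CLT.lean`) and `H44.cab` (`Helper44_PST/CAB.lean`): `E = Ei V γ`; `w =
W.subgroupOf V` is stable; `a, b ∈ E` are induced by `s, t ∈ Tg V γ`, and `cm` for `x = t (s v s⁻¹) t⁻¹`: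
`(s t s⁻¹ t⁻¹) x (..)⁻¹ = (s t) v (s t)⁻¹`, so `a (b v) * (b (a v))⁻¹ ∈ w`.  `W ≠ ⊥`: `U ≠ ⊥`, `relEdf`
(`Helper44_PSS/CLN.lean`) for `U.subgroupOf V ≤ w` gives `U'`, `X'`.  `W = ⊥`: `E` is commutative on
`V`, MSU. -/
def ClpStmt : Prop := ∀ (ℓ : ℕ) [Fact ℓ.Prime] (M : Ideal (integralClosure ℤ ℂ)) [M.IsMaximal],
  (ℓ : integralClosure ℤ ℂ) ∈ M → ∀ (G : Type) [Group G] [Finite G] (e : G → FF M)
  (V : Subgroup G) (γ : G → FF M), Ld ℓ e V γ → V ≠ ⊥ → ∀ W U : Subgroup G,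
  ClP ℓ (Tg V γ : Set G) V W U → ∃ W₀ : Subgroup V, KP ℓ V (Ei V γ) W₀

/-- FNP: the final theorem.

Proof.  Edit of `PSS.H66.fns` (`Helper66_PSS/Fns.lean`) / of the row FNT: hypotheses `MnnFor KP`,
`ClpStmt`, `T3.FltStmt`, `T3.PsgStmt`; `hTg` rewrites `Iner M D th` to `Tg D γ`. -/
def FnpStmt : Prop := ∀ (ℓ : ℕ) [Fact ℓ.Prime] (M : Ideal (integralClosure ℤ ℂ)) [M.IsMaximal],
  (ℓ : integralClosure ℤ ℂ) ∈ M → ∀ (G : Type) [Group G] [Finite G],
  opCore ℓ G ≤ Subgroup.center G → ∀ χ ∈ Irr G, ∀ (H : Type) [Group H] (p : G →* H),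
  Function.Surjective p → p.ker ≤ opCore ℓ G → ∀ ψ ∈ Irr H,
  (∀ g : G, Cong M (omega (MonoidHom.id G) (fun x => ψ (p x)) g)
    (omega (MonoidHom.id G) χ g)) →
  ∀ D : Subgroup H, ML.IsDef ℓ M ψ D → D ≠ (opCore ℓ G).map p →
  (∀ x ∈ D, ∀ y ∈ D, x * y = y * x) →
  ∀ th ∈ IrrBlock M (Subgroup.centralizer (D : Set H)).subtype ψ,
  (∃ W U : Subgroup H, ClP ℓ (Iner M D th) D W U) → altSum ℓ M χ = 0

end Pool.Agent.PST
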