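import Pool.Agent.Helper66_PSS.Asm
import Pool.Agent.Helper11_PST.ATQ
import Pool.Agent.Helper85_PST.REA
import Pool.Agent.Helper20_PST.REB
import Pool.Agent.Helper27_PST.MSU
import Pool.Agent.Helper92_PST.ECB
import Pool.Agent.Helper91_PST.KNG
import Pool.Agent.Helper68_PST.STL
import Pool.Agent.Helper81_PST.ADP
import Pool.Agent.Helper97_PST.CLP
import Pool.Agent.Helper69_PST.FNP

/-!
# Squad PST, block GS: assembly (helper11)

`fnp_of : StqStmt → FnpStmt`: the final theorem of (S++) from the step.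
-/

noncomputable section

namespace Pool.Agent.PST.GS

open Pool.Agent.PP Pool.Agent.PSS

theorem rea_ : ReaStmt := H85.rea

theorem reb_ : RebStmt := H20.reb rea_

theorem msu_ : MsuStmt := H27.msu

theorem ecb_ : EcbStmt := H92.ecb reb_

theorem kng_ : KngStmt := H91.kng

theorem adp_ : AdpStmt := H81.adp msu_

theorem clp_ : ClpStmt := H97.clp msu_ PFD.edf_ PFD.H6.lke K9.H34.inx

theorem stl_ : StlStmt :=
  H68.stl ecb_ kng_ AllS6.clg_ AllS6.jnw_ AllS6.nwg_ AllS6.dzc_ PFD.H66.jex_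

theorem atq_of (stq : StqStmt) : AtqStmt := H11.atq PSS.All.stp stq PSS.H66.bas_

theorem stoKP_of (stq : StqStmt) : StoFor KP := stl_ (atq_of stq)

theorem lenKP_of (stq : StqStmt) : LenFor KP := PSS.H11.len_ KP adp_ (stoKP_of stq)

theorem mnnKP_of (stq : StqStmt) : MnnFor KP := PSS.H66.mnn_ KP adp_ (lenKP_of stq)

theorem fnp_of (stq : StqStmt) : FnpStmt := H69.fnp (mnnKP_of stq) clp_ T3.flt_ T3.psg_

end Pool.Agent.PST.GS
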