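import Pool.Agent.PST.AsmET
import Pool.Agent.PST.AllT
import Pool.Agent.PST.AllGS
import Pool.Agent.Helper3_PST.AllV
import Pool.Agent.Helper66_PSS.AsmS5

/-!
# Squad PST: the final theorems without hypotheses

* `fnp_`: theorem (S++).
* `fvx_`: the union of (S++), theorem (R) and rank two.
-/

noncomputable section

namespace Pool.Agent.PST.Fin

open Pool.Agent.PSS Pool.Agent.PSS.H66

theorem etc_ : ET.EtcStmt :=
  ETA.etc_of s5_pcx s5_bpt s5_fit s5_bor s5_rbk s5_coe s5_clj S5.H83.lcp s5_lkc

theorem stq_ : StqStmt := All.stq_ etc_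

/-- theorem (S++) -/
theorem fnp_ : FnpStmt := GS.fnp_of stq_

/-- the union of (S++) with theorem (R) and with rank two -/
theorem fvx_ : GU.FvxStmt := GU.H3.fvx_of stq_

end Pool.Agent.PST.Fin
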