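import Pool.Agent.Helper30_PSS.S3All
import Pool.Agent.Helper10_PST.DET
import Pool.Agent.Helper13_PST.BKT
import Pool.Agent.Helper13_PST.CILET
import Pool.Agent.Helper13_PST.PWS
import Pool.Agent.Helper15_PST.SCA
import Pool.Agent.Helper17_PST.RLI
import Pool.Agent.Helper19_PST.BCM
import Pool.Agent.Helper19_PST.DCI
import Pool.Agent.Helper19_PST.MLT
import Pool.Agent.Helper1_PST.JCU
import Pool.Agent.Helper1_PST.WUN
import Pool.Agent.Helper20_PST.UPR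
import Pool.Agent.Helper23_PST.RFP
import Pool.Agent.Helper24_PST.FUN
import Pool.Agent.Helper27_PST.STE
import Pool.Agent.Helper29_PST.CSS
import Pool.Agent.Helper29_PST.KLF
import Pool.Agent.Helper2_PST.ILF
import Pool.Agent.Helper31_PST.ETC
import Pool.Agent.Helper32_PST.EQC
import Pool.Agent.Helper32_PST.TWF
import Pool.Agent.Helper37_PST.COM
import Pool.Agent.Helper37_PST.TAU
import Pool.Agent.Helper39_PST.LOC
import Pool.Agent.Helper39_PST.TWZ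
import Pool.Agent.Helper40_PST.RTU
import Pool.Agent.Helper41_PST.CRE
import Pool.Agent.Helper41_PST.FCZ
import Pool.Agent.Helper41_PST.TWR
import Pool.Agent.Helper47_PST.CSI
import Pool.Agent.Helper47_PST.NBK
import Pool.Agent.Helper47_PST.TWC
import Pool.Agent.Helper4_PST.LCL
import Pool.Agent.Helper51_PST.TOR
import Pool.Agent.Helper55_PST.CO2
import Pool.Agent.Helper55_PST.REL
import Pool.Agent.Helper58_PST.COB
import Pool.Agent.Helper58_PST.SEX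
import Pool.Agent.Helper59_PST.CRS
import Pool.Agent.Helper65_PST.PCM
import Pool.Agent.Helper69_PST.ETB
import Pool.Agent.Helper69_PST.KRS
import Pool.Agent.Helper6_PST.GBS
import Pool.Agent.Helper70_PST.CFD
import Pool.Agent.Helper75_PST.VTR
import Pool.Agent.Helper77_PST.DIF
import Pool.Agent.Helper81_PST.GEN
import Pool.Agent.Helper81_PST.RFS
import Pool.Agent.Helper83_PST.CRG
import Pool.Agent.Helper83_PST.SUB
import Pool.Agent.Helper84_PST.ZSU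
import Pool.Agent.Helper85_PST.FVP
import Pool.Agent.Helper87_PST.TSF
import Pool.Agent.Helper91_PST.UNS
import Pool.Agent.Helper92_PST.EPS
import Pool.Agent.Helper94_PST.GNS

/-!
# Squad PST, block ET: assembly

`etc_of`: etaleness (`ET.EtcStmt`) from rows of the block S5 of squad PSS, which are proved in
`Pool/Agent/Helper66_PSS/AsmS5.lean`.
-/

set_option autoImplicit false

namespace Pool.Agent.PST.ETA

theorem gbs_ : Pool.Agent.PST.ET.GbsStmt :=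
  Pool.Agent.PST.ET.H6.gbs

theorem eps_ : Pool.Agent.PST.ET.EpsStmt :=
  Pool.Agent.PST.ET.H92.eps

theorem upr_ : Pool.Agent.PST.ET.UprStmt :=
  Pool.Agent.PST.ET.H20.upr

theorem uns_ : Pool.Agent.PST.ET.UnsStmt :=
  Pool.Agent.PST.ET.H91.uns Pool.Agent.PST.ET.H20.upr

theorem gns_ : Pool.Agent.PST.ET.GnsStmt :=
  Pool.Agent.PST.ET.H94.gns

theorem dif_ : Pool.Agent.PST.ET.DifStmt :=
  Pool.Agent.PST.ET.H77.dif

theorem det_ : Pool.Agent.PST.ET.DetStmt :=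
  Pool.Agent.PST.ET.H10.det

theorem jcu_ : Pool.Agent.PST.ET.JcuStmt :=
  Pool.Agent.PST.ET.H1.jcu Pool.Agent.PST.ET.H92.eps uns_

theorem sca_ : Pool.Agent.PST.ET.ScaStmt :=
  Pool.Agent.PST.ET.H15.sca

theorem tsf_ : Pool.Agent.PST.ET.TsfStmt :=
  Pool.Agent.PST.ET.H87.tsf

theorem css_ : Pool.Agent.PST.ET.CssStmt :=
  Pool.Agent.PST.ET.H29.css

theorem wun_ : Pool.Agent.PST.ET.WunStmt :=
  Pool.Agent.PST.ET.H1.wun Pool.Agent.PST.ET.H92.eps uns_ Pool.Agent.PST.ET.H15.sca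

theorem zsu_ : Pool.Agent.PST.ET.ZsuStmt :=
  Pool.Agent.PST.ET.H84.zsu Pool.Agent.PST.ET.H6.gbs Pool.Agent.PST.ET.H94.gns Pool.Agent.PST.ET.H77.dif Pool.Agent.PST.ET.H10.det jcu_ wun_ Pool.Agent.PST.ET.H29.css

theorem tor_ : Pool.Agent.PST.ET.TorStmt :=
  Pool.Agent.PST.ET.H51.tor

theorem krs_ : Pool.Agent.PST.ET.KrsStmt :=
  Pool.Agent.PST.ET.H69.krs

theorem pcm_ : Pool.Agent.PST.ET.PcmStmt :=
  Pool.Agent.PST.ET.H65.pcm

theorem klf_ : Pool.Agent.PST.ET.KlfStmt :=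
  Pool.Agent.PST.ET.H29.klf Pool.Agent.PST.ET.H65.pcm Pool.Agent.PST.ET.H69.krs

theorem tau_ : Pool.Agent.PST.ET.TauStmt :=
  Pool.Agent.PST.ET.H37.tau

theorem ilf_ : Pool.Agent.PST.ET.IlfStmt :=
  Pool.Agent.PST.ET.H2.ilf

theorem cil_et_ : Pool.Agent.PST.ET.CilStmt :=
  Pool.Agent.PST.H13.cil Pool.Agent.PST.ET.H51.tor

theorem fun_ : Pool.Agent.PST.ET.FunStmt :=
  Pool.Agent.PST.H24.fun_ Pool.Agent.PST.ET.H69.krs

theorem fcz_ : Pool.Agent.PST.ET.FczStmt :=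
  Pool.Agent.PST.ET.H41.fcz

theorem rdf_ : Pool.Agent.PST.ET.RdfStmt :=
  Pool.Agent.PST.ET.H41.rdf

theorem csi_ : Pool.Agent.PST.ET.CsiStmt :=
  Pool.Agent.PST.ET.H47.csi

theorem fvp_ : Pool.Agent.PST.ET.FvpStmt :=
  Pool.Agent.PST.H85.fvp

theorem bkt_ : Pool.Agent.PST.ET.BktStmt :=
  Pool.Agent.PST.H13.bkt

theorem cfd_ : Pool.Agent.PST.ET.CfdStmt :=
  Pool.Agent.PST.ET.H70.cfd Pool.Agent.PST.H13.bkt

theorem cob_ : Pool.Agent.PST.ET.CobStmt :=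
  Pool.Agent.PST.ET.H58.cob

theorem rli_ : Pool.Agent.PST.ET.RliStmt :=
  Pool.Agent.PST.ET.H17.rli Pool.Agent.PST.ET.H51.tor

theorem ste_ : Pool.Agent.PST.ET.SteStmt :=
  Pool.Agent.PST.ET.H27.ste Pool.Agent.PST.ET.H58.cob rli_ Pool.Agent.PST.ET.H51.tor

theorem sex_ : Pool.Agent.PST.ET.SexStmt :=
  Pool.Agent.PST.ET.H58.sex ste_ Pool.Agent.PST.ET.H69.krs rli_ Pool.Agent.PST.ET.H20.upr

theorem pws_ : Pool.Agent.PST.ET.PwsStmt :=
  Pool.Agent.PST.H13.pws rli_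

theorem gen_ : Pool.Agent.PST.ET.GenStmt :=
  Pool.Agent.PST.ET.H81.gen

theorem com_ : Pool.Agent.PST.ET.ComStmt :=
  Pool.Agent.PST.ET.H37.com Pool.Agent.PST.ET.H81.gen rli_ Pool.Agent.PST.ET.H51.tor

theorem sub_ : Pool.Agent.PST.ET.SubStmt :=
  Pool.Agent.PST.ET.H83.sub sex_ pws_ com_ rli_

theorem rel_et_ : Pool.Agent.PST.ET.RelStmt :=
  Pool.Agent.PST.H55.rel

theorem rfs_ : Pool.Agent.PST.ET.RfsStmt :=
  Pool.Agent.PST.ET.H81.rfs Pool.Agent.PST.H55.rel Pool.Agent.PFD.D2.H49.ung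

theorem rfp_ : Pool.Agent.PST.ET.RfpStmt :=
  Pool.Agent.PST.ET.H23.rfp

theorem rtu_et_ : Pool.Agent.PST.ET.RtuStmt :=
  Pool.Agent.PST.H40.rtu Pool.Agent.PSS.S0.H70.bqx Pool.Agent.PSS.All30.bpu Pool.Agent.PSS.All30.mck Pool.Agent.PSS.S0.H80.zrt

theorem loc_ : Pool.Agent.PST.ET.LocStmt :=
  Pool.Agent.PST.ET.H39.loc Pool.Agent.PST.H85.fvp cfd_ sub_ Pool.Agent.PST.ET.H87.tsf zsu_ Pool.Agent.PST.ET.H41.rdf Pool.Agent.PST.ET.H23.rfp rfs_ Pool.Agent.PST.ET.H47.csi Pool.Agent.PST.ET.H37.tau Pool.Agent.PST.ET.H51.tor Pool.Agent.PST.ET.H92.eps rtu_et_ Pool.Agent.PST.ET.H20.upr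

theorem cre_ : Pool.Agent.PST.ET.CreStmt :=
  Pool.Agent.PST.ET.H41.cre

theorem crs_ : Pool.Agent.PST.ET.CrsStmt :=
  Pool.Agent.PST.ET.H59.crs Pool.Agent.PST.ET.H37.tau

theorem crg_ : Pool.Agent.PST.ET.CrgStmt :=
  Pool.Agent.PST.ET.H83.crg Pool.Agent.PST.ET.H51.tor

theorem nbk_ : Pool.Agent.PST.ET.NbkStmt :=
  Pool.Agent.PST.ET.H47.nbk

theorem co2_ : Pool.Agent.PST.ET.Co2Stmt :=
  Pool.Agent.PST.H55.co2

theorem twf_ : Pool.Agent.PST.ET.TwfStmt :=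
  Pool.Agent.PST.ET.H32.twf

theorem twr_ : Pool.Agent.PST.ET.TwrStmt :=
  Pool.Agent.PST.ET.H41.twr

theorem twc_ : Pool.Agent.PST.ET.TwcStmt :=
  Pool.Agent.PST.ET.H47.twc

theorem twz_ : Pool.Agent.PST.ET.TwzStmt :=
  Pool.Agent.PST.ET.H39.twz

theorem bcm_ : Pool.Agent.PST.ET.BcmStmt :=
  Pool.Agent.PST.ET.H19.bcm

theorem eqc_ : Pool.Agent.PST.ET.EqcStmt :=
  Pool.Agent.PST.ET.H32.eqc

theorem vtr_ : Pool.Agent.PST.ET.VtrStmt :=
  Pool.Agent.PST.ET.H75.vtr Pool.Agent.PST.ET.H41.rdf Pool.Agent.PST.ET.H47.csi Pool.Agent.PST.ET.H20.upr Pool.Agent.PST.ET.H37.tau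

section
open Pool.Agent.PSS.S5

theorem lcl_of (lcp : LcpStmt) (lkc : LkcStmt) : Pool.Agent.PST.ET.LclStmt :=
  Pool.Agent.PST.ET.H4.lcl co2_ twf_ twr_ twc_ twz_ ilf_ cre_ crg_ crs_ loc_ bcm_ klf_ tau_ fun_ fcz_
    tor_ lcp lkc

theorem dci_of (fit : FitStmt) : Pool.Agent.PST.ET.DciStmt := Pool.Agent.PST.ET.H19.dci fit

theorem mlt_of (fit : FitStmt) (bor : BorStmt) (rbk : RbkStmt) : Pool.Agent.PST.ET.MltStmt :=
  Pool.Agent.PST.ET.H19.M.mlt (dci_of fit) eqc_ bcm_ bor rbk Pool.Agent.PSS.All30.bki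
    Pool.Agent.PSS.All30.zrt

theorem etb_of (coe : CoeStmt) (clj : CljStmt) (lcp : LcpStmt) (lkc : LkcStmt) :
    Pool.Agent.PST.ET.EtbStmt :=
  Pool.Agent.PST.ET.H69.etb coe clj ilf_ cre_ crg_ crs_ (lcl_of lcp lkc) cil_et_ fun_ fcz_ tor_ tau_

/-- the block ET -/
theorem etc_of (pcx : PcxStmt) (bpt : BptStmt) (fit : FitStmt) (bor : BorStmt) (rbk : RbkStmt)
    (coe : CoeStmt) (clj : CljStmt) (lcp : LcpStmt) (lkc : LkcStmt) : Pool.Agent.PST.ET.EtcStmt :=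
  Pool.Agent.PST.ET.H31.etc pcx bpt upr_ klf_ tau_ (mlt_of fit bor rbk) vtr_
    (etb_of coe clj lcp lkc)

end

end Pool.Agent.PST.ETA
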