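import Pool.Agent.PSS.StmtsS5
import Pool.Agent.PFD.StmtsD2
import Pool.Agent.PFC.StmtsB5c

/-!
# Squad PST (theorem (S+)), block ET (helper57): etaleness of the generic fibre, definitions

`R` is a complete discrete valuation ring of characteristic `ℓ` (in the end `F⟦X⟧`), `c : Cdv R F`, `H` is an
`F`-algebra with `α : V →* H`, `V` elementary abelian of rank `r`, `Hs` a finite free `R`-algebra with the special fibre
map `f : FibG Hs H c` (`f.q : Hs →+* H`).

* `EDat F lam xx t`: `lam l` (`l < r`) a basis of the additive functions `V → F`, `xx l` elements of the augmentation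
  ideal (functions on `V`) dual to the `lam n`, `t l ≠ 0`.
* `gv lam xx t v u = ∑ l, t l * lam l v * xx l u`: the coefficient at `u` of the value at `v` of the direction.
* `IV F α`: the span of the `α u * b - b * α u`.
* `Rgd ℓ c f α lam xx t`: the first order datum.
* `SFr R lam x y`: `lam` is a symmetric form with the dual families `x`, `y`.
* `SVd c σ cf`: `S` has the basis `σ v` with the coordinates `cf v`, and `σ u * σ v = σ (u v)` modulo `π`.
* `CrR j κ`: `Y` is the corner `j D j` (over the ring `R`).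
* `cmt R D`: the span of the commutators.
-/

open scoped BigOperators TensorProduct

noncomputable section

namespace Pool.Agent.PST.ET

open Pool.Agent.PFD.D2 (Cdv FibG)

/-- eigen-coordinates (without the characters) -/
structure EDat (F : Type) {V : Type} [Field F] [CommGroup V] [Fintype V] {r : ℕ}
    (lam xx : Fin r → V → F) (t : Fin r → F) : Prop where
  add : ∀ l u v, lam l (u * v) = lam l u + lam l v
  sp : ∀ m : V → F, (∀ u v, m (u * v) = m u + m v) → ∃ k : Fin r → F, ∀ v, m v = ∑ l, k l * lam l v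
  x0 : ∀ l, ∑ v, xx l v = 0
  x1 : ∀ l n, ∑ v, xx l v * lam n v = if l = n then 1 else 0
  t0 : ∀ l, t l ≠ 0

/-- the coefficient at `u` of the direction at `v` -/
def gv {F V : Type} [Field F] {r : ℕ} (lam xx : Fin r → V → F) (t : Fin r → F) (v u : V) : F :=
  ∑ l, t l * lam l v * xx l u

/-- the span of the commutators with `V` -/
def IV (F : Type) {V H : Type} [Field F] [CommGroup V] [Ring H] [Algebra F H] (α : V →* H) :
    Submodule F H :=
  Submodule.span F {x | ∃ (u : V) (b : H), x = α u * b - b * α u}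

/-- the span of all commutators -/
def cmt (R D : Type) [CommRing R] [Ring D] [Algebra R D] : Submodule R D :=
  Submodule.span R {x | ∃ a b : D, x = a * b - b * a}

section reg

variable {R F V H Hs : Type} [CommRing R] [Field F] [CommGroup V] [Fintype V] [Ring H]
  [Algebra F H] [Ring Hs] [Algebra R Hs]

/-- The first order datum: lifts of the elements of `V`, their `ℓ`-th powers and their commutators. -/
structure Rgd (ℓ : ℕ) (c : Cdv R F) (f : FibG Hs H c) (α : V →* H) {r : ℕ}
    (lam xx : Fin r → V → F) (t : Fin r → F) : Prop where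
  pw : ∀ v, ∃ w G : Hs, f.q w = α v ∧ w ^ ℓ = 1 + c.π • G ∧
    f.q G - ∑ u, gv lam xx t v u • α u ∈ IV F α
  cm : ∀ u v, ∃ a b d : Hs, f.q a = α u ∧ f.q b = α v ∧ a * b - b * a = c.π • d ∧
    f.q d ∈ IV F α

end reg

/-- a symmetric form with dual families -/
structure SFr (R : Type) {D K : Type} [CommRing R] [Ring D] [Algebra R D] [Fintype K]
    (lam : D →ₗ[R] R) (x y : K → D) : Prop where
  sym : ∀ a b, lam (a * b) = lam (b * a)
  e1 : ∀ a, ∑ k, lam (y k * a) • x k = a
  e2 : ∀ a, ∑ k, lam (a * x k) • y k = a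

/-- `Y` is the corner `j D j` -/
structure CrR {R D Y : Type} [CommRing R] [Ring D] [Algebra R D] [Ring Y] [Algebra R Y] (j : D)
    (κ : Y →ₗ[R] D) : Prop where
  inj : Function.Injective κ
  mul : ∀ a b, κ (a * b) = κ a * κ b
  one : κ 1 = j
  ran : ∀ a, j * a = a → a * j = a → ∃ b, κ b = a

section svd

variable {R F V S : Type} [CommRing R] [Field F] [CommGroup V] [Fintype V] [DecidableEq V]
  [Ring S] [Algebra R S]

/-- the basis `σ v` of `S` with the coordinates `cf v`; modulo `π` it is the group `V` -/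
structure SVd (c : Cdv R F) (σ : V → S) (cf : V → (S →ₗ[R] R)) : Prop where
  b1 : ∀ s, ∑ v, cf v s • σ v = s
  b2 : ∀ u v, cf u (σ v) = if u = v then 1 else 0
  one : σ 1 = 1
  mul : ∀ u v, ∃ d, σ u * σ v = σ (u * v) + c.π • d

/-- the powers of the `σ v` -/
def Pws (ℓ : ℕ) (c : Cdv R F) {r : ℕ} (lam xx : Fin r → V → F) (t : Fin r → F) (σ : V → S)
    (cf : V → (S →ₗ[R] R)) : Prop :=
  ∀ v, ∃ g, σ v ^ ℓ = 1 + c.π • g ∧ ∀ u, c.κ (cf u g) = gv lam xx t v u

/-- the augmentation -/
def eps (c : Cdv R F) (cf : V → (S →ₗ[R] R)) (s : S) : F := ∑ v, c.κ (cf v s)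

/-- the functional of an additive function -/
def dl (c : Cdv R F) (cf : V → (S →ₗ[R] R)) (m : V → F) (s : S) : F := ∑ v, c.κ (cf v s) * m v

end svd

section loc

variable {F V H : Type} [Field F] [CommGroup V] [Fintype V] [DecidableEq V] [Ring H] [Algebra F H]

/-- `lam` gives the `V`-`V`-projection `a ↦ ∑ u, lam (α u⁻¹ * a) • α u` of `H` onto the span of `V`. -/
structure Prj (α : V →* H) (lam : H →ₗ[F] F) : Prop where
  inv : ∀ v a, lam (α v * a) = lam (a * α v)
  del : ∀ v, lam (α v) = if v = 1 then 1 else 0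

/-- the projection -/
def prj (α : V →* H) (lam : H →ₗ[F] F) (a : H) : H := ∑ u, lam (α u⁻¹ * a) • α u

/-- `1 - prj` is a trace from the trivial subgroup (conjugation action) -/
def Trc (α : V →* H) (lam : H →ₗ[F] F) : Prop :=
  ∃ th : H →ₗ[F] H, ∀ a, ∑ v, α v * th (α v⁻¹ * a * α v) * α v⁻¹ = a - prj α lam a

end loc

end Pool.Agent.PST.ET
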