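import Pool.Agent.PST.DefsT
import Pool.Agent.PSS.StmtsG
import Pool.Agent.PSS.StmtsS6
import Pool.Agent.PSS.Atg

/-!
# Squad PST, block GR (group level of theorem (S+)): definitions (helper11)

* `Chn ℓ n V E φ W`: a chain of `n` steps from `V` down to `W`; one step is `Cyf` (a cyclic factor) or `Chf`
  (`ℓ ≠ 2`, `V / W'` elementary abelian, `E` abelian on `V`, free on `V / W' - 1`).
* `AtqStmt`: the theorem for algebras.
* `StA`, `ChA ℓ E P W`: the same chains of subgroups of a fixed group `V` with `E ≤ Aut V`.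
* `Frw E W U X`: `W = U × X`, and an element of `E` which fixes some `u ≠ 1` in `U` fixes `W`.
* `KT`: the class of theorem (S+): `V` abelian, a chain from `V` down to `W`, `Frw`.
* `ClT`: the clean hypotheses of the final theorem.
-/

open scoped BigOperators

noncomputable section

namespace Pool.Agent.PST

open Pool.Agent.PSS

/-! ## Algebras -/

/-- a chain of `n` steps from `V` down to `W` -/
def Chn (ℓ : ℕ) : ℕ → ∀ (V E : Type) [CommGroup V] [Group E] (_ : E →* MulAut V)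
    (_ : Subgroup V), Prop
  | 0, _, _, _, _, _, W => W = ⊤
  | n + 1, V, E, _, _, φ, W => ∃ (W' : Subgroup V) (ψ : E →* MulAut W'),
      ((∃ Y : Subgroup V, Cyf φ Y W') ∨ Chf ℓ φ W') ∧ W ≤ W' ∧ IsRs φ W' ψ ∧
      Chn ℓ n W' E ψ (W.subgroupOf W')

/-- ATQ: the theorem for algebras -/
def AtqStmt : Prop :=
  ∀ (n ℓ : ℕ) [Fact ℓ.Prime] (F V E A B : Type) [Field F] [IsAlgClosed F] [CharP F ℓ]
    [CommGroup V] [Fintype V] [Group E] [Fintype E] [Ring A] [Algebra F A] [Ring B] [Algebra F B]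
    (φ : E →* MulAut V) (α : V →* A) (W : Subgroup V) (ψ : E →* MulAut W),
    IsPGroup ℓ V → ¬ ℓ ∣ Nat.card E → Chn ℓ n V E φ W → IsRs φ W ψ →
    (W = ⊥ ∨ Fre ψ) → Cl F φ α → IsNW F α W B →
    Module.finrank F (Subalgebra.center F A) = Module.finrank F (Subalgebra.center F B)

/-! ## Groups -/

/-- one step in a fixed group `V` -/
structure StA (ℓ : ℕ) {V : Type} [Group V] (E : Subgroup (MulAut V)) (P P' : Subgroup V) :
    Prop where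
  le : P' ≤ P
  st : ∀ a ∈ E, ∀ u ∈ P', a u ∈ P'
  tp : (∃ Y : Subgroup V, Y ⊓ P' = ⊥ ∧ Y ⊔ P' = P ∧ (∃ y ∈ Y, ∀ x ∈ Y, ∃ k : ℤ, x = y ^ k) ∧
      ∀ a ∈ E, ∀ y ∈ Y, a y ∈ Y) ∨
    (ℓ ≠ 2 ∧ (∀ v ∈ P, v ^ ℓ ∈ P') ∧
      (∀ a ∈ E, ∀ v ∈ P, v ∉ P' → a v * v⁻¹ ∈ P' → ∀ w ∈ P, a w * w⁻¹ ∈ P') ∧
      ∀ a ∈ E, ∀ b ∈ E, ∀ v ∈ P, a (b v) = b (a v))

/-- a chain of steps from `P` down to `W` -/
inductive ChA (ℓ : ℕ) {V : Type} [Group V] (E : Subgroup (MulAut V)) :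
    Subgroup V → Subgroup V → Prop
  | refl (P : Subgroup V) : ChA ℓ E P P
  | step (P P' W : Subgroup V) : StA ℓ E P P' → ChA ℓ E P' W → ChA ℓ E P W

/-- `W = U × X`, both factors are stable, `U ≠ 1`, and an element of `E` which fixes some `u ≠ 1` in `U`
fixes `W` pointwise. -/
structure Frw {V : Type} [Group V] (E : Subgroup (MulAut V)) (W U X : Subgroup V) : Prop where
  ux : U ⊓ X = ⊥
  uw : U ⊔ X = W
  nt : U ≠ ⊥
  su : ∀ a ∈ E, ∀ u ∈ U, a u ∈ U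
  sx : ∀ a ∈ E, ∀ x ∈ X, a x ∈ X
  fr : ∀ a ∈ E, ∀ u ∈ U, u ≠ 1 → a u = u → ∀ w ∈ W, a w = w

/-- the class of theorem (S+) -/
def KT : Kl := fun ℓ V _ E W => (∀ a b : V, a * b = b * a) ∧ ChA ℓ E ⊤ W ∧
  ∃ U X : Subgroup V, Frw E W U X

/-- The clean hypotheses: a chain `D = P 0 ≥ P 1 ≥ .. ≥ P n` of subgroups normalised by `T`; either
`P i = Y × P (i + 1)` with `Y` cyclic and normalised by `T`, or `ℓ ≠ 2`, `T` acts on `P i` through an abelian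
group, `P i / P (i + 1)` is elementary abelian, and an element of `T` which fixes a nontrivial
element of it acts trivially on it; and `P n = 1`, or `T` normalises a subgroup `U ≠ 1` of `P n` and an
element of `T` which commutes with some `u ≠ 1` in `U` centralises `P n`. -/
structure ClT (ℓ : ℕ) {H : Type} [Group H] (T : Set H) (D : Subgroup H) (n : ℕ)
    (P : ℕ → Subgroup H) (U : Subgroup H) : Prop where
  p0 : P 0 = D
  st : ∀ i ≤ n, ∀ t ∈ T, ∀ x ∈ P i, t * x * t⁻¹ ∈ P i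
  le : ∀ i < n, P (i + 1) ≤ P i
  tp : ∀ i < n, (∃ Y : Subgroup H, Y ⊓ P (i + 1) = ⊥ ∧ Y ⊔ P (i + 1) = P i ∧
      (∃ y ∈ Y, ∀ x ∈ Y, ∃ k : ℤ, x = y ^ k) ∧ ∀ t ∈ T, ∀ y ∈ Y, t * y * t⁻¹ ∈ Y) ∨
    (ℓ ≠ 2 ∧ (∀ x ∈ P i, x ^ ℓ ∈ P (i + 1)) ∧
      (∀ t ∈ T, ∀ x ∈ P i, x ∉ P (i + 1) → t * x * t⁻¹ * x⁻¹ ∈ P (i + 1) →
        ∀ y ∈ P i, t * y * t⁻¹ * y⁻¹ ∈ P (i + 1)) ∧
      ∀ s ∈ T, ∀ t ∈ T, ∀ x ∈ P i, s * t * x * (s * t)⁻¹ = t * s * x * (t * s)⁻¹)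
  uw : U ≤ P n
  su : ∀ t ∈ T, ∀ u ∈ U, t * u * t⁻¹ ∈ U
  nt : U = ⊥ → P n = ⊥
  fr : ∀ t ∈ T, ∀ u ∈ U, u ≠ 1 → t * u = u * t → t ∈ Subgroup.centralizer (P n : Set H)

end Pool.Agent.PST
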