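import Pool.Agent.PST.DefsGR

/-!
# Squad PST, block GS (group level of theorem (S++)): definitions (helper11)

* `StB`, `ChB ℓ E P W`: chains of subgroups of a fixed group `V` with `E ≤ Aut V`; one step: `P / P'`
  elementary abelian, `E` abelian on `P / P'` and free on `P / P' - 1`, and `P'` contains a regular element.
* `KP`: the class of theorem (S++): `V` abelian, `[E, E]` centralises `V / W`, `Frw`.
* `ClP`: the clean hypotheses of the final theorem.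
-/

open scoped BigOperators

noncomputable section

namespace Pool.Agent.PST

open Pool.Agent.PSS

/-- one step in a fixed group `V` -/
structure StB (ℓ : ℕ) {V : Type} [Group V] (E : Subgroup (MulAut V)) (P P' : Subgroup V) :
    Prop where
  le : P' ≤ P
  st : ∀ a ∈ E, ∀ u ∈ P', a u ∈ P'
  pw : ∀ v ∈ P, v ^ ℓ ∈ P'
  fr : ∀ a ∈ E, ∀ v ∈ P, v ∉ P' → a v * v⁻¹ ∈ P' → ∀ w ∈ P, a w * w⁻¹ ∈ P'
  am : ∀ a ∈ E, ∀ b ∈ E, ∀ v ∈ P, a (b v) * (b (a v))⁻¹ ∈ P'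
  rg : ∃ u ∈ P', ∀ a ∈ E, a u = u → ∀ w ∈ P', a w = w

/-- a chain of steps from `P` down to `W` -/
inductive ChB (ℓ : ℕ) {V : Type} [Group V] (E : Subgroup (MulAut V)) :
    Subgroup V → Subgroup V → Prop
  | refl (P : Subgroup V) : ChB ℓ E P P
  | step (P P' W : Subgroup V) : StB ℓ E P P' → ChB ℓ E P' W → ChB ℓ E P W

/-- the class of theorem (S++) -/
def KP : Kl := fun _ V _ E W => (∀ a b : V, a * b = b * a) ∧
  (∀ a ∈ E, ∀ b ∈ E, ∀ v : V, a (b v) * (b (a v))⁻¹ ∈ W) ∧ ∃ U X : Subgroup V, Frw E W U X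

/-- The clean hypotheses (`ℓ` is not used): `W ≤ D` is normalised by `T`; the commutators of `T` centralise
`D / W`; and `W = 1`, or `T` normalises a subgroup `U ≠ 1` of `W` and an element of `T` which commutes with
some `u ≠ 1` in `U` centralises `W`. -/
structure ClP (ℓ : ℕ) {H : Type} [Group H] (T : Set H) (D W U : Subgroup H) : Prop where
  wd : W ≤ D
  sw : ∀ t ∈ T, ∀ w ∈ W, t * w * t⁻¹ ∈ W
  cm : ∀ s ∈ T, ∀ t ∈ T, ∀ x ∈ D,
    s * t * s⁻¹ * t⁻¹ * x * (s * t * s⁻¹ * t⁻¹)⁻¹ * x⁻¹ ∈ W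
  uw : U ≤ W
  su : ∀ t ∈ T, ∀ u ∈ U, t * u * t⁻¹ ∈ U
  nt : U = ⊥ → W = ⊥
  fr : ∀ t ∈ T, ∀ u ∈ U, u ≠ 1 → t * u = u * t → t ∈ Subgroup.centralizer (W : Set H)

end Pool.Agent.PST
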