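import Pool.Agent.PST.DefsT

/-!
# Squad PST (theorem (S+)): the interfaces between DR, OB (KEY) and the tower (helper36)

`A` is the lift to `R` (`cv.π = ℓ`, e.g. the Witt vectors) of `A₀` over `F` (`LiftV`).
* `Fov`: the direction over `R` (output of block DR, `DrqStmt`): `v : A → A` is `R`-linear,
  `W`-`W`-linear, a derivation modulo `ℓ`, `v (α u) ≡ α u * h u` modulo `ℓ`, `h u` commutes with `V`
  and reduces to `D u` (`Drd` of DefsR.lean, helper75).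
* `Fod`: the direction over `K`: `g = v / ℓ` up to a correction (`g 1 = 0`), input of KEY and of the
  tower (TGW).
* `Ekc`: the condition on `g` which KEY uses (it holds for `Fod`, row EKF).
* `KeyStmt`: (output of block OB): for a regular direction the Bianchi identity implies that the
  forms of a cocycle vanish.
-/

open scoped BigOperators TensorProduct PowerSeries

noncomputable section

namespace Pool.Agent.PST

open Pool.Agent.PFC (tw IsTv)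
open Pool.Agent.PFD.D2 (Cdv FibG)
open Pool.Agent.PFD.D2b (FrR)
open Pool.Agent.PSS

/-- the direction over `R` -/
structure Fov (ℓ : ℕ) {R F V A A₀ : Type} [CommRing R] [Field F] [CommGroup V] [Ring A]
    [Algebra R A] [Ring A₀] [Algebra F A₀] {cv : Cdv R F} (α : V →* A) (W : Subgroup V)
    (f : FibG A A₀ cv) (v : A →ₗ[R] A) (h : V → A) (D : V → A₀) : Prop where
  lin : ∀ w ∈ W, ∀ a, v (α w * a) = α w * v a ∧ v (a * α w) = v a * α w
  der : ∀ a a', ∃ e, v (a * a') - v a * a' - a * v a' = (ℓ : R) • e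
  vh : ∀ u, ∃ e, v (α u) - α u * h u = (ℓ : R) • e
  hv : ∀ u v, h u * α v = α v * h u
  hw : ∀ u, ∀ w ∈ W, h (u * w) = h u
  hy : ∀ u, f.q (h u) = D u

/-- the direction over `K` -/
structure Fod (ℓ : ℕ) {R K F V A A₀ B κ Ω : Type} [CommRing R] [Field K] [Algebra R K] [Field F]
    [CommGroup V] [Fintype V] [Ring A] [Algebra R A] [Ring A₀] [Algebra F A₀] [Ring B] [Algebra R B]
    [Algebra K B] [Fintype κ] [Fintype Ω] [MulAction (V × V) Ω] {α : V →* A} {lam : A →ₗ[R] R}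
    {x y : κ → A} {b : Ω → A} {c : Ω → (A →ₗ[R] R)} (C : KC R K B α lam x y b c) (W : Subgroup V)
    {cv : Cdv R F} (f : FibG A A₀ cv) (g : B →ₗ[K] B) (h : V → A) (D : V → A₀) : Prop where
  wbl : WBl (ia C.i α) W g
  one : g 1 = 0
  int : ∀ a₁ a₂, In C.i (d1 g (C.i a₁) (C.i a₂))
  gh : ∀ u, ∃ a, (ℓ : K) • g (C.i (α u)) = C.i (α u * h u) + (ℓ : K) • C.i a
  hv : ∀ u v, h u * α v = α v * h u
  hw : ∀ u, ∀ w ∈ W, h (u * w) = h u
  hy : ∀ u, f.q (h u) = D u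

/-- for `r ∉ W` the element `∑_(j<ℓ) m₁ (r^j, r) r^-(j+1)`, `m₁ = d1 g`, is congruent to `D r` modulo
`ℓ` and traces from proper subgroups of `⟨r⟩` -/
def Ekc (ℓ : ℕ) {R K F V A A₀ B κ Ω : Type} [CommRing R] [Field K] [Algebra R K] [Field F]
    [CommGroup V] [Fintype V] [Ring A] [Algebra R A] [Ring A₀] [Algebra F A₀] [Ring B] [Algebra R B]
    [Algebra K B] [Fintype κ] [Fintype Ω] [MulAction (V × V) Ω] {α : V →* A} {lam : A →ₗ[R] R}
    {x y : κ → A} {b : Ω → A} {c : Ω → (A →ₗ[R] R)} (C : KC R K B α lam x y b c) (W : Subgroup V)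
    {cv : Cdv R F} (f : FibG A A₀ cv) (α₀ : V →* A₀) (g : B →ₗ[K] B) (D : V → A₀) : Prop :=
  ∀ r : V, r ∉ W → ∀ e : A, C.i e = ∑ j ∈ Finset.range ℓ,
      d1 g (C.i (α (r ^ j))) (C.i (α r)) * C.i (α (r ^ (j + 1))⁻¹) →
    f.q e - D r ∈ BKR (cw F α₀) (Subgroup.zpowers r)

/-- DRQ (output of block DR): every algebra of the class has a regular direction over `R`. -/
def DrqStmt : Prop :=
  ∀ (ℓ : ℕ) [Fact ℓ.Prime] (R F V E A A₀ κ Ω : Type) [CommRing R] [IsDomain R]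
    [IsPrincipalIdealRing R] [CharZero R] [Field F] [IsAlgClosed F] [CharP F ℓ] [CommGroup V]
    [Fintype V] [Group E] [Fintype E] [Ring A] [Algebra R A] [Module.Finite R A] [Module.Free R A]
    [Ring A₀] [Algebra F A₀] [Fintype κ] [Fintype Ω] [MulAction (V × V) Ω]
    (φ : E →* MulAut V) (W : Subgroup V) (cv : Cdv R F) (f : FibG A A₀ cv) (α₀ : V →* A₀)
    (lam₀ : A₀ →ₗ[F] F) (x₀ y₀ : κ → A₀) (b₀ : Ω → A₀) (c₀ : Ω → (A₀ →ₗ[F] F)) (α : V →* A)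
    (lam : A →ₗ[R] R) (x y : κ → A) (b : Ω → A) (c : Ω → (A →ₗ[R] R)) (u : A),
    IsPGroup ℓ V → ¬ ℓ ∣ Nat.card E → cv.π = (ℓ : R) → Chf ℓ φ W → Cl F φ α₀ →
    (∀ ω : Ω, ∃ (e : E) (S : Subgroup V),
      MulAction.stabilizer (V × V) ω = tw (φ e).toMonoidHom S) →
    FrR (bw F α₀) b₀ c₀ → RF F α₀ lam₀ x₀ y₀ →
    LiftV cv α₀ lam₀ x₀ y₀ b₀ c₀ f α lam x y b c → u * rt x y 1 = 1 →
    ∃ (r : ℕ) (la : Fin r → V → F) (χ : Fin r → E → F) (xx : Fin r → V → F) (t : Fin r → F)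
      (D : V → A₀) (v : A →ₗ[R] A) (h : V → A),
      Drd F φ α₀ W (QW0 φ W) la χ xx t D ∧ Fov ℓ α W f v h D

/-- KEY (output of block OB): for a regular direction the Bianchi identity implies that the forms of
a cocycle vanish. -/
def KeyStmt : Prop :=
  ∀ (ℓ : ℕ) [Fact ℓ.Prime] (R K F V E A A₀ B κ Ω : Type) [CommRing R] [IsDomain R]
    [IsPrincipalIdealRing R] [CharZero R] [Field K] [CharZero K] [Algebra R K]
    [Field F] [IsAlgClosed F] [CharP F ℓ] [CommGroup V]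
    [Fintype V] [Group E] [Fintype E] [Ring A] [Algebra R A] [Module.Finite R A] [Module.Free R A]
    [Ring A₀] [Algebra F A₀] [Ring B] [Algebra R B] [Algebra K B] [Fintype κ] [Fintype Ω]
    [MulAction (V × V) Ω] (φ : E →* MulAut V) (W : Subgroup V) (cv : Cdv R F) (f : FibG A A₀ cv)
    (α₀ : V →* A₀) (lam₀ : A₀ →ₗ[F] F) (x₀ y₀ : κ → A₀) (b₀ : Ω → A₀) (c₀ : Ω → (A₀ →ₗ[F] F))
    (α : V →* A) (lam : A →ₗ[R] R) (x y : κ → A) (b : Ω → A) (c : Ω → (A →ₗ[R] R)) (u : A)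
    (C : KC R K B α lam x y b c) (r : ℕ) (la : Fin r → V → F) (χ : Fin r → E → F)
    (xx : Fin r → V → F) (t : Fin r → F) (D : V → A₀) (g : B →ₗ[K] B),
    IsPGroup ℓ V → ¬ ℓ ∣ Nat.card E → cv.π = (ℓ : R) → Chf ℓ φ W → Cl F φ α₀ →
    (∀ ω : Ω, ∃ (e : E) (S : Subgroup V),
      MulAction.stabilizer (V × V) ω = tw (φ e).toMonoidHom S) →
    FrR (bw F α₀) b₀ c₀ → RF F α₀ lam₀ x₀ y₀ →
    LiftV cv α₀ lam₀ x₀ y₀ b₀ c₀ f α lam x y b c → u * rt x y 1 = 1 →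
    Drd F φ α₀ W (QW0 φ W) la χ xx t D → WBl (ia C.i α) W g → g 1 = 0 →
    (∀ a₁ a₂, In C.i (d1 g (C.i a₁) (C.i a₂))) → Ekc ℓ C W f α₀ g D →
    ∀ m₁ cc : B →ₗ[K] B →ₗ[K] B, (∀ x y, m₁ x y = d1 g x y) → Z2 C W cc → Bi C W m₁ cc → Fz C cc

end Pool.Agent.PST
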