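import Pool.Agent.PSS.StmtsS3p
import Pool.Agent.PSS.StmtsOB
import Pool.Agent.PST.DefsR

/-!
# Squad PST (theorem (S+)): definitions and interface (helper36, helper71)

One step: `W ≤ V` is `E`-stable, `V / W` is elementary abelian, the group induced by `E` on `V / W` is
abelian and free on `V / W - 1`, `W` has a regular element (structure `Chf`; `ℓ` is any prime).  No
complement of `W`.  The step deforms `A` (class `Cl F φ α`) relative to `W`; the direction is regular.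

* `Reg ℓ F φ α W γ q`: the regularity datum: `Drd` and `FoD` of `DefsR.lean` (helper75), `Q = QW0 φ W`.
* `Dpt`: `As` is a regular deformation of `A` in the class, with forms and relative Frobenius systems
  (as `S3.Dpr` without `unt`).
* `Olf`: `As` is the reduction of a family over `R⟦X⟧`, `R` a complete discrete valuation ring of
  characteristic `0`.
-/

open scoped BigOperators TensorProduct PowerSeries

noncomputable section

namespace Pool.Agent.PST

open Pool.Agent.PFC (tw IsTv)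
open Pool.Agent.PFD.D2 (Cdv FibG)
open Pool.Agent.PFD.D2b (FrR)
open Pool.Agent.PSS
open Pool.Agent.PSS.S0 (IsBQ)

/-- The step from `V` to `W`: `W` is `E`-stable, `V / W` is elementary abelian, the group induced by `E`
on `V / W` is abelian and acts freely on `V / W - 1`, and `W` has a regular element (an element `w₀`
such that every `e` which fixes `w₀` centralises `W`).  `ℓ` is any prime. -/
structure Chf (ℓ : ℕ) {V E : Type} [CommGroup V] [Group E] (φ : E →* MulAut V) (W : Subgroup V) :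
    Prop where
  sw : ∀ e : E, ∀ w ∈ W, φ e w ∈ W
  pw : ∀ v : V, v ^ ℓ ∈ W
  fr : ∀ (e : E) (v : V), v ∉ W → φ e v * v⁻¹ ∈ W → ∀ u : V, φ e u * u⁻¹ ∈ W
  ab : ∀ (e f : E) (v : V), φ e (φ f v) * (φ f (φ e v))⁻¹ ∈ W
  gen : ∃ w₀ ∈ W, ∀ e : E, φ e w₀ = w₀ → ∀ w ∈ W, φ e w = w

/-- STQ: one step: pass from `V` to `W'`, `V / W'` elementary abelian (`Chf`). -/
def StqStmt : Prop :=
  ∀ (ℓ : ℕ) [Fact ℓ.Prime] (F V E A B : Type) [Field F] [IsAlgClosed F] [CharP F ℓ]
    [CommGroup V] [Fintype V] [Group E] [Fintype E] [Ring A] [Algebra F A] [Ring B] [Algebra F B]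
    (φ : E →* MulAut V) (α : V →* A) (W' W : Subgroup V) [Fintype W'] (ψ : E →* MulAut W'),
    IsPGroup ℓ V → ¬ ℓ ∣ Nat.card E → Chf ℓ φ W' → IsRs φ W' ψ →
    W ≤ W' → (∀ e : E, ∀ w ∈ W, φ e w ∈ W) → Cl F φ α → IsNW F α W B →
    ∃ (F' C B' : Type) (_ : Field F') (_ : IsAlgClosed F') (_ : CharP F' ℓ) (_ : Ring C)
      (_ : Algebra F' C) (_ : Ring B') (_ : Algebra F' B') (γ : W' →* C)
      (_ : IsNW F' γ (W.subgroupOf W') B'), Cl F' ψ γ ∧
      Module.finrank F' (Subalgebra.center F' C) = Module.finrank F (Subalgebra.center F A) ∧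
      Module.finrank F' (Subalgebra.center F' B') = Module.finrank F (Subalgebra.center F B)

/-! ## The regularity datum -/

/-- the deformation `As` has a regular first order term -/
def Reg (ℓ : ℕ) (F : Type) {V E A As : Type} [Field F] [CommGroup V] [Fintype V] [Group E] [Ring A]
    [Algebra F A] [Ring As] [Algebra F⟦X⟧ As] (φ : E →* MulAut V) (α : V →* A) (W : Subgroup V)
    (γ : W →* As) (q : As → A) : Prop :=
  ∃ (r : ℕ) (la : Fin r → V → F) (χ : Fin r → E → F) (xx : Fin r → V → F) (t : Fin r → F)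
    (D : V → A) (lf G : V → As),
    Drd F φ α W (QW0 φ W) la χ xx t D ∧ FoD ℓ F α W γ q D lf G

/-! ## The deformation -/

/-- `As` is a regular deformation of `A` relative to `W`, with forms and relative Frobenius systems
(`lam, x, y` of `As` over `W`; `lam0, x0, y0` of `A` over `V`). -/
structure Dpt (ℓ : ℕ) (F : Type) {V E A As K K0 : Type} [Field F] [CommGroup V] [Fintype V]
    [Group E] [Ring A] [Algebra F A] [Ring As] [Algebra F⟦X⟧ As] [Fintype K] [Fintype K0]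
    (φ : E →* MulAut V) (α : V →* A) (W : Subgroup V) [Fintype W] (ψ : E →* MulAut W)
    (γ : W →* As) (q : As →+* A) (lam : As →ₗ[F⟦X⟧] F⟦X⟧) (lam0 : A →ₗ[F] F)
    (x y : K → As) (x0 y0 : K0 → A) : Prop where
  cl : Cl F φ α
  ch : Chf ℓ φ W
  rs : IsRs φ W ψ
  per : Per F⟦X⟧ ψ γ
  uni : Uni ψ γ
  sc : ∀ r : F⟦X⟧, q (algebraMap F⟦X⟧ As r) = algebraMap F A (PowerSeries.constantCoeff r)
  surj : Function.Surjective q
  ker : ∀ a, q a = 0 → ∃ a', a = (PowerSeries.X : F⟦X⟧) • a'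
  qw : ∀ w : W, q (γ w) = α w
  rf : RF F⟦X⟧ γ lam x y
  rf0 : RF F α lam0 x0 y0
  lr : ∀ a, PowerSeries.constantCoeff (lam a) = lam0 (q a)
  reg : Reg ℓ F φ α W γ q

/-- `As` is the reduction of a family over `R⟦X⟧`: `R` is a complete discrete valuation ring of
characteristic `0` with residue field `F`; `A'` is an `R`-order with reduction `A` (all data are lifted,
`rt x' y' 1` is a unit); `D` a deformation of `A'` relative to `W`, `As` the reduction of `D.R`,
`Λ` (dual families `xs`, `ys`) a form on `D.R` which lifts `lam`; `cv.π = ℓ`; `P`, `m` the trivialisation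
of `D` over a field of characteristic `0` (outputs of TGW, DMR). -/
structure Olf (ℓ : ℕ) (F : Type) {V A As K K0 Ω : Type} [Field F] [CommGroup V] [Fintype V]
    [Ring A] [Algebra F A] [Ring As] [Algebra F⟦X⟧ As] [Fintype K] [Fintype K0] [Fintype Ω]
    [MulAction (V × V) Ω] (α : V →* A) (W : Subgroup V) [Fintype W]
    (γ : W →* As) (q : As →+* A) (lam : As →ₗ[F⟦X⟧] F⟦X⟧) (lam0 : A →ₗ[F] F)
    (x y : K → As) (x0 y0 : K0 → A) (b : Ω → A) (cc : Ω → (A →ₗ[F] F)) where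
  R : Type
  iR : CommRing R
  iD : IsDomain R
  iP : IsPrincipalIdealRing R
  iC : CharZero R
  cv : Cdv R F
  A' : Type
  iA : Ring A'
  iM : Algebra R A'
  iF : Module.Finite R A'
  iL : Module.Free R A'
  f : FibG A' A cv
  α' : V →* A'
  lam' : A' →ₗ[R] R
  x' : K0 → A'
  y' : K0 → A'
  b' : Ω → A'
  cc' : Ω → (A' →ₗ[R] R)
  u' : A'
  lft : LiftV cv α lam0 x0 y0 b cc f α' lam' x' y' b' cc'
  unt : u' * rt x' y' 1 = 1
  D : Dm R (aw α' W)
  θ : D.R →+* As
  θs : ∀ (r : PowerSeries R) a, θ (r • a) = (PowerSeries.map cv.κ r) • θ a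
  θj : Function.Surjective θ
  θk : ∀ a, θ a = 0 → ∃ a', a = (PowerSeries.C cv.π) • a'
  θw : ∀ w, θ (D.w w) = γ w
  θq : ∀ g : ℕ → A', q (θ (D.of g)) = f.q (g 0)
  Λ : D.R →ₗ[PowerSeries R] PowerSeries R
  xs : K → D.R
  ys : K → D.R
  rfs : RF (PowerSeries R) D.w Λ xs ys
  Λr : ∀ a, lam (θ a) = PowerSeries.map cv.κ (Λ a)
  xr : ∀ k, θ (xs k) = x k
  yr : ∀ k, θ (ys k) = y k
  Λ0 : ∀ g : ℕ → A', PowerSeries.constantCoeff (Λ (D.of g)) = lam' (g 0)
  hp : cv.π = (ℓ : R)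
  KK : Type
  jK : Field KK
  jZ : CharZero KK
  jR : Algebra R KK
  BB : Type
  jB : Ring BB
  jA : Algebra R BB
  jM : Algebra KK BB
  C : KC R KK BB α' lam' x' y' b' cc'
  P : ℕ → (BB →ₗ[KK] BB)
  m : ℕ → (BB →ₗ[KK] BB →ₗ[KK] BB)
  trv : Trv (ia C.i α') W P m
  mm : ∀ n a₁ a₂, C.i (D.m n a₁ a₂) = m n (C.i a₁) (C.i a₂)

/-- DTQ: the output of the blocks OB and DR: every algebra of the class has a regular deformation with
an `O`-lift. -/
def DtqStmt : Prop :=
  ∀ (ℓ : ℕ) [Fact ℓ.Prime] (F V E A : Type) [Field F] [IsAlgClosed F] [CharP F ℓ] [CommGroup V]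
    [Fintype V] [Group E] [Fintype E] [Ring A] [Algebra F A] (φ : E →* MulAut V) (α : V →* A)
    (W : Subgroup V) [Fintype W] (ψ : E →* MulAut W), IsPGroup ℓ V →
    ¬ ℓ ∣ Nat.card E → Chf ℓ φ W → IsRs φ W ψ → Cl F φ α →
    ∃ (As K K0 Ω : Type) (_ : Ring As) (_ : Algebra F⟦X⟧ As) (_ : Module.Finite F⟦X⟧ As)
      (_ : Module.Free F⟦X⟧ As) (_ : Fintype K) (_ : Fintype K0) (_ : Fintype Ω)
      (_ : MulAction (V × V) Ω) (γ : W →* As) (q : As →+* A)
      (lam : As →ₗ[F⟦X⟧] F⟦X⟧) (lam0 : A →ₗ[F] F) (x y : K → As) (x0 y0 : K0 → A)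
      (b : Ω → A) (cc : Ω → (A →ₗ[F] F)),
      Dpt ℓ F φ α W ψ γ q lam lam0 x y x0 y0 ∧ FrR (bw F α) b cc ∧
      (∀ ω : Ω, ∃ (e : E) (S : Subgroup V),
        MulAction.stabilizer (V × V) ω = tw (φ e).toMonoidHom S) ∧
      Nonempty (Olf ℓ F α W γ q lam lam0 x y x0 y0 b cc)

/-- GFW: the output of the blocks ET and U (helper30): the generic fibre is in the class. -/
def GfwStmt : Prop :=
  ∀ (ℓ : ℕ) [Fact ℓ.Prime] (F F' V E A As K K0 Ω : Type) [Field F] [IsAlgClosed F] [CharP F ℓ]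
    [Field F'] [IsAlgClosed F'] [CharP F' ℓ] [Algebra F⟦X⟧ F'] [CommGroup V]
    [Fintype V] [Group E] [Fintype E] [Ring A] [Algebra F A] [Ring As] [Algebra F⟦X⟧ As]
    [Module.Finite F⟦X⟧ As] [Module.Free F⟦X⟧ As] [Fintype K] [Fintype K0] [Fintype Ω]
    [MulAction (V × V) Ω] (φ : E →* MulAut V) (α : V →* A) (W : Subgroup V) [Fintype W]
    (ψ : E →* MulAut W) (γ : W →* As) (q : As →+* A) (lam : As →ₗ[F⟦X⟧] F⟦X⟧)
    (lam0 : A →ₗ[F] F) (x y : K → As) (x0 y0 : K0 → A) (b : Ω → A) (cc : Ω → (A →ₗ[F] F)),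
    Function.Injective (algebraMap F⟦X⟧ F') → IsPGroup ℓ V → ¬ ℓ ∣ Nat.card E → W ≠ ⊤ →
    Dpt ℓ F φ α W ψ γ q lam lam0 x y x0 y0 → FrR (bw F α) b cc →
    (∀ ω : Ω, ∃ (e : E) (S : Subgroup V),
      MulAction.stabilizer (V × V) ω = tw (φ e).toMonoidHom S) →
    Nonempty (Olf ℓ F α W γ q lam lam0 x y x0 y0 b cc) →
    Cl F' ψ (bcw (R := F⟦X⟧) (S := F') γ)

end Pool.Agent.PST
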