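import Pool.Agent.PST.StmtsDZ
import Pool.Agent.PST.Dzw

/-!
# Squad PST: a regular deformation lifts to the Witt vectors (LDW)
-/

open scoped BigOperators TensorProduct PowerSeries

noncomputable section

namespace Pool.Agent.PST

open Pool.Agent.PFC (tw IsTv)
open Pool.Agent.PFD.D2 (Cdv FibG wittCdv witt_charZero)
open Pool.Agent.PFD.D2b (FrR)
open Pool.Agent.PSS

/-- LDW: an algebra in the class and a regular deformation of it lift to the Witt vectors. -/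
def LdwStmt : Prop :=
  ∀ (ℓ : ℕ) [Fact ℓ.Prime] (F V E A₀ κ Ω : Type) [Field F] [IsAlgClosed F] [CharP F ℓ]
    [CommGroup V] [Fintype V] [Group E] [Fintype E] [Ring A₀] [Algebra F A₀]
    [FiniteDimensional F A₀] [Fintype κ] [Fintype Ω] [MulAction (V × V) Ω] (φ : E →* MulAut V)
    (W : Subgroup V) (α₀ : V →* A₀) (lam₀ : A₀ →ₗ[F] F) (x₀ y₀ : κ → A₀) (b₀ : Ω → A₀)
    (c₀ : Ω → (A₀ →ₗ[F] F)) (u₀ : A₀) (D₀ : Dm F (aw α₀ W)), IsPGroup ℓ V →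
    ¬ ℓ ∣ Nat.card E → Chf ℓ φ W → Cl F φ α₀ → RF F α₀ lam₀ x₀ y₀ → FrR (bw F α₀) b₀ c₀ →
    (∀ ω : Ω, ∃ (e : E) (S : Subgroup V),
      MulAction.stabilizer (V × V) ω = tw (φ e).toMonoidHom S) →
    u₀ * rt x₀ y₀ 1 = 1 → Reg ℓ F φ α₀ W D₀.w (fun Z => D₀.sq Z 0) →
    ∃ (A : Type) (_ : Ring A) (_ : Algebra (WittVector ℓ F) A)
      (_ : Module.Finite (WittVector ℓ F) A) (_ : Module.Free (WittVector ℓ F) A)
      (f : FibG A A₀ (wittCdv ℓ F)) (α : V →* A) (lam : A →ₗ[WittVector ℓ F] WittVector ℓ F)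
      (x y : κ → A) (b : Ω → A) (c : Ω → (A →ₗ[WittVector ℓ F] WittVector ℓ F)) (u : A)
      (D : Dm (WittVector ℓ F) (aw α W)),
      LiftV (wittCdv ℓ F) α₀ lam₀ x₀ y₀ b₀ c₀ f α lam x y b c ∧ u * rt x y 1 = 1 ∧
      (∀ n a a', f.q (D.m n a a') = D₀.m n (f.q a) (f.q a')) ∧
      H1P (WittVector ℓ F) (aw α W)

theorem ldw (hL : LftStmt) (hX : KexStmt) (hT : TlwStmt) (hM : DmrStmt) (hH : H1wStmt)
    (hF : FmaStmt) (hK : KywStmt) : LdwStmt := by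
  intro ℓ _ F V E A₀ κ Ω _ _ _ _ _ _ _ _ _ _ _ _ _ φ W α₀ lam₀ x₀ y₀ b₀ c₀ u₀ D₀ hp hE hch hcl
    hRF hFr hst hu hreg
  have hSt : StE φ Ω := stE_of φ hst
  obtain ⟨r, la, χ, xx, t, dd, lf, G, hdr, hfo⟩ := hreg
  obtain ⟨hz, hr⟩ := hF ℓ F V A₀ W α₀ D₀ dd lf G hp hch.pw hdr.fx hfo
  have : CharZero (WittVector ℓ F) := witt_charZero ℓ F
  obtain ⟨A, rA, aA, fA, frA, f, α, lam, x, y, b, c, u, hLV, hu'⟩ :=
    hL (WittVector ℓ F) F V A₀ κ Ω (wittCdv ℓ F) α₀ lam₀ x₀ y₀ b₀ c₀ u₀ inferInstance hRF hFr hu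
  let _ := rA
  let _ := aA
  have _ := fA
  have _ := frA
  have : CharZero (FractionRing (WittVector ℓ F)) :=
    charZero_of_injective_algebraMap
      (IsFractionRing.injective (WittVector ℓ F) (FractionRing (WittVector ℓ F)))
  obtain ⟨C⟩ := hX (WittVector ℓ F) (FractionRing (WittVector ℓ F)) V A κ Ω α lam x y b c
    hLV.rf hLV.fr
  obtain ⟨P, m, hTr, hm⟩ := hT (WittVector ℓ F) (FractionRing (WittVector ℓ F)) F V E A A₀
    (FractionRing (WittVector ℓ F) ⊗[WittVector ℓ F] A) κ Ω φ W α lam x y b c C u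
    (wittCdv ℓ F) f α₀ c₀ D₀ hch.sw hSt hu' hLV.qa hLV.qc (hz Ω b₀ c₀ hFr)
    (hK ℓ (WittVector ℓ F) (FractionRing (WittVector ℓ F)) F V E A A₀ _ κ Ω φ W
      (wittCdv ℓ F) f α₀ lam₀ x₀ y₀ b₀ c₀ α lam x y b c u C D₀ r la χ xx t dd hp hE rfl hch hcl
      hst hFr hRF hLV hu' hdr hr)
  obtain ⟨D, hD⟩ := hM (WittVector ℓ F) (FractionRing (WittVector ℓ F)) V A _ W α C.i C.inj C.tow
    P m hTr (fun n a₁ a₂ => by
      obtain ⟨e, he, -⟩ := hm n a₁ a₂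
      exact ⟨e, he⟩)
  refine ⟨A, rA, aA, fA, frA, f, α, lam, x, y, b, c, u, D, hLV, hu', ?_, ?_⟩
  · intro n a a'
    obtain ⟨e, he, hq⟩ := hm n a a'
    have h1 : e = D.m n a a' := C.inj (he.trans (hD n a a').symm)
    rw [← h1, hq]
  · intro δ hδ hw
    obtain ⟨e, he, h2⟩ := hH (WittVector ℓ F) (FractionRing (WittVector ℓ F)) V A _ κ Ω W
      α lam x y b c C u hu' δ hδ (fun w hw' => hw ⟨w, hw'⟩)
    exact ⟨e, fun w => he w w.2, h2⟩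

end Pool.Agent.PST
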