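import Pool.Agent.Helper52_PSS.NRS

/-!
# Squad PST: `N_W(A)` and the restriction to `V'`, with the Brauer map of `W`
-/

open scoped BigOperators TensorProduct

noncomputable section

namespace Pool.Agent.PST

open Pool.Agent.PSS
open Pool.Agent.PSS.H52
open Pool.Agent.PFC (tw IsTv)
open Pool.Agent.PFD.D2b (FrR)

/-- NRS with the additional equation `N'.β 1 = N.β 1` -/
theorem nrt (R V A B : Type) [CommRing R] [CommGroup V] [Finite V] [Ring A]
    [Algebra R A] [Ring B] [Algebra R B] (α : V →* A) (W V' : Subgroup V) (N : IsNW R α W B)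
    (hWV : W ≤ V') : ∃ N' : IsNW R (α.comp V'.subtype) (W.subgroupOf V') B,
      (∀ v : V', N'.nwh v = N.nwh v) ∧ ∀ a, N'.β 1 a = N.β 1 a := by
  have hbw : bw R (α.comp V'.subtype) = (bw R α).comp (inc V') := rfl
  have hF : ∀ ε, FxR (bw R (α.comp V'.subtype)) (twW (W.subgroupOf V') ε) =
      FxR (bw R α) (twW W (tht hWV ε)) := by
    intro ε
    rw [hbw, ← FxR_map, tw_map]
  have hB : ∀ ε, BKR (bw R (α.comp V'.subtype)) (twW (W.subgroupOf V') ε) =
      BKR (bw R α) (twW W (tht hWV ε)) := by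
    intro ε
    rw [hbw, ← BKR_map _ inc_inj, tw_map]
  refine ⟨{
    β := fun ε => N.β (tht hWV ε)
    one := ?_
    mul := ?_
    ker := ?_
    ind := ?_
    spn := ?_ }, ?_, ?_⟩
  · rw [map_one (tht hWV)]
    exact N.one
  · intro ε δ a ha b hb
    rw [map_mul (tht hWV)]
    rw [hF] at ha hb
    exact N.mul _ _ a ha b hb
  · intro ε a ha
    rw [hF] at ha
    rw [hB]
    exact N.ker _ a ha
  · intro f hf h0 ε
    have h1 := N.ind (fun ε => f ((tht hWV).symm ε)) (by
      intro ε
      have h2 := hf ((tht hWV).symm ε)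
      rw [hF, MulEquiv.apply_symm_apply] at h2
      exact h2) (by
      rw [← h0]
      symm
      refine finsum_eq_of_bijective (tht hWV) (tht hWV).bijective fun ε => ?_
      rw [MulEquiv.symm_apply_apply]) (tht hWV ε)
    rw [MulEquiv.symm_apply_apply] at h1
    exact h1
  · intro b
    obtain ⟨f, hf, hb⟩ := N.spn b
    refine ⟨fun ε => f (tht hWV ε), ?_, ?_⟩
    · intro ε
      rw [hF]
      exact hf _
    · rw [← hb]
      exact finsum_eq_of_bijective (tht hWV) (tht hWV).bijective fun ε => rfl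
  · intro v
    rw [IsNW.nwh_apply, IsNW.nwh_apply]
    change N.β (tht hWV 1) _ = _
    rw [map_one (tht hWV)]
    rfl
  · intro a
    change N.β (tht hWV 1) a = _
    rw [map_one (tht hWV)]

end Pool.Agent.PST
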