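import Pool.Agent.PST.DefsET

/-!
# Squad PST, block ET (helper57), part 1: the commutative algebra `S`

`S` is a commutative `R`-algebra with the basis `σ v` (`v ∈ V`), `S / π = F V`, `σ v ^ ℓ = 1 + π g v`, where `g v`
reduces to `∑_l t_l lam_l(v) X_l`, `X_l = ∑_u xx l u • u`.  Result (`ZsuStmt`): the Casimir element
`∑ σ v * σ' v` (`σ'` the dual basis for the form `cf 1`) is `π ^ r` times a unit.

Idea.  `b_1, .., b_r` a basis of `V`, `τ_i = σ (b_i)`, `d_i = τ_i ⊗ 1 - 1 ⊗ τ_i` in `S ⊗ S`.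
`d_j ^ ℓ = π (g_j ⊗ 1 - 1 ⊗ g_j) = π ∑_i M_ji d_i`.  `Δ = det (diag (d_j ^ (ℓ-1)) - π M)` is killed by all `d_i`
(Cramer), so it is `(w ⊗ 1) c`, `c = ∑ σ v ⊗ σ' v`, `w = (id ⊗ t) Δ`; modulo `π` it is `∏ d_j ^ (ℓ-1)`, so `w` is a
unit; the multiplication maps `Δ` to `(-π) ^ r det (mult M)`, and `det (mult M)` is a unit because the
`∑_l t_l lam_l(b_j) X_l` are independent modulo the square of the augmentation ideal.

All rows are elementary, the proofs in the docstrings are complete.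
-/

open scoped BigOperators TensorProduct

noncomputable section

namespace Pool.Agent.PST.ET

open Pool.Agent.PFD.D2 (Cdv FibG)

/-- GBS: a basis of the elementary abelian group `V`.

Proof.  `Additive V` is a vector space over `ZMod ℓ` (`AddCommGroup.zmodModule`, as `ℓ • x = 0`); let `b_1, .., b_m` be a
basis (`Module.finBasis`), `μ_i : V → F` the coordinates composed with `ZMod.castHom (dvd_refl ℓ) F`; they are
additive, so by `sp` `μ_i = ∑_l K_il lam_l`, and `L = (lam_l (b_j))` satisfies `K * L = 1` (size `m`).  As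
`lam_n v = ∑_j μ_j(v) lam_n(b_j)` (additivity), `x1` gives `δ_ln = ∑_j (∑_v xx l v μ_j v) lam_n (b_j)`, that is
`X * Lᵀ = 1` (size `r`).  So `m ≤ r` and `r ≤ m` (ranks, or injective / surjective linear maps between `F^m` and
`F^r`), `m = r`; reindex.  Every element of a vector space over `ZMod ℓ` with the basis `b` is uniquely
`∑ e_i • b_i` with `e_i ∈ {0, .., ℓ-1}`: the map is bijective (`Module.Basis.equivFun`, `ZMod.natCast_zmod_val`;
or injective and surjective with `ZMod.val`).  The second matrix identity: `K * L = 1` implies `L * K = 1` for square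
matrices (`Matrix.mul_eq_one_comm`). -/
def GbsStmt : Prop :=
  ∀ (ℓ r : ℕ) [Fact ℓ.Prime] (F V : Type) [Field F] [CharP F ℓ] [CommGroup V] [Fintype V]
    (lam xx : Fin r → V → F) (t : Fin r → F), (∀ v : V, v ^ ℓ = 1) → EDat F lam xx t →
    ∃ (b : Fin r → V) (K : Matrix (Fin r) (Fin r) F),
      K * Matrix.of (fun l j => lam l (b j)) = 1 ∧ Matrix.of (fun l j => lam l (b j)) * K = 1 ∧
      Function.Bijective (fun e : Fin r → Fin ℓ => ∏ i, b i ^ (e i : ℕ))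

/-- EPS: the augmentation is a ring homomorphism modulo `π`, the functional of an additive function is a
derivation over it.

Proof.  All maps are additive and `κ`-semilinear; by `b1` it is enough to check the identities for `a = σ u`,
`b = σ v`: `σ u * σ v = σ (u v) + π d`, `κ (cf w (π • d)) = κ π * .. = 0` (`c.ker`: `κ π = 0` since `π = π * 1`),
`κ (cf w (σ (u v))) = δ`. -/
def EpsStmt : Prop :=
  ∀ (R F V S : Type) [CommRing R] [Field F] [CommGroup V] [Fintype V] [DecidableEq V] [CommRing S]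
    [Algebra R S] (c : Cdv R F) (σ : V → S) (cf : V → (S →ₗ[R] R)) (m : V → F), SVd c σ cf →
    (∀ u v, m (u * v) = m u + m v) →
    eps c cf 1 = 1 ∧ (∀ a b, eps c cf (a + b) = eps c cf a + eps c cf b) ∧
    (∀ a b, eps c cf (a * b) = eps c cf a * eps c cf b) ∧
    (∀ r a, eps c cf (r • a) = c.κ r * eps c cf a) ∧
    (∀ a b, dl c cf m (a + b) = dl c cf m a + dl c cf m b) ∧
    (∀ a b, dl c cf m (a * b) = eps c cf a * dl c cf m b + dl c cf m a * eps c cf b) ∧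
    (∀ r a, dl c cf m (r • a) = c.κ r * dl c cf m a) ∧
    (∀ v, eps c cf (σ v) = 1) ∧ (∀ v, dl c cf m (σ v) = m v)

/-- UPR: an element which is invertible modulo `π` is invertible.

Proof.  `D2.UngStmt` for `M = D` and the right multiplication by `s y`, resp. `y s`: `x s y - x = x (s y - 1) = π ..`,
so `x ↦ x s y` is surjective: `x s y = 1`... in detail: the right multiplications by `s * y` and by `y * s` are bijective,
and so are the left multiplications, so `s * y` and `y * s` are units; `s` has a left and a right inverse. -/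
def UprStmt : Prop :=
  ∀ (R F D : Type) [CommRing R] [Field F] (c : Cdv R F) [Ring D] [Algebra R D] [Module.Finite R D]
    (s y d d' : D), s * y = 1 + c.π • d → y * s = 1 + c.π • d' → IsUnit s

/-- UNS: units of `S`.

Proof.  Let `e = eps s ≠ 0`, `κ r = e`, `x = s - r • 1`, so `eps x = 0`.  `x = ∑ cf v x • σ v` and in characteristic `ℓ`
`x ^ ℓ = ∑ (cf v x) ^ ℓ • σ v ^ ℓ`, and `σ v ^ ℓ = 1 + π ..` (from `mul` by induction `σ v ^ n = σ (v ^ n) + π ..`,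
`v ^ ℓ = 1`, `one`), so `x ^ ℓ = (∑ (cf v x) ^ ℓ) • 1 + π ..` and `κ (∑ (cf v x) ^ ℓ) = (eps x) ^ ℓ = 0` (`sum_pow_char`):
`x ^ ℓ = π • d`.  `s = r • 1 + x`; `s ^ ℓ = r ^ ℓ • 1 + π • d`, `r` is a unit (`c.loc`).  So `s * (s ^ (ℓ-1) r^(-ℓ)) = 1 + π ..`:
UPR (`S` is commutative, and finite over `R` by `b1`). -/
def UnsStmt : Prop :=
  ∀ (ℓ : ℕ) [Fact ℓ.Prime] (R F V S : Type) [CommRing R] [CharP R ℓ] [Field F] [CommGroup V]
    [Fintype V] [DecidableEq V] [CommRing S] [Algebra R S] (c : Cdv R F) (σ : V → S)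
    (cf : V → (S →ₗ[R] R)), (∀ v : V, v ^ ℓ = 1) → SVd c σ cf → ∀ s, eps c cf s ≠ 0 → IsUnit s

/-- GNS: `S` is generated by the `σ (b i)`.

Proof.  `N` = the algebra generated (as a submodule).  For `v = ∏ b i ^ e i`: `∏ σ (b i) ^ e i = σ v + π ..` (`mul`, `one`,
induction), so every `s = ∑ cf v s • σ v` is in `N + π S`.  Nakayama: `N = S` (`S` finite over `R`; `π` is in the
Jacobson radical of `R` since `κ (1 + π r) = 1 ≠ 0`, `c.loc`; `Submodule.le_of_le_smul_of_le_jacobson_bot` or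
`D2.UngStmt` for the `R`-linear map `σ v ↦ ∏ σ (b i) ^ e i`, which is the identity modulo `π`: it is surjective, with
the image in `N`). -/
def GnsStmt : Prop :=
  ∀ (ℓ r : ℕ) [Fact ℓ.Prime] (R F V S : Type) [CommRing R] [Field F] [CommGroup V]
    [Fintype V] [DecidableEq V] [CommRing S] [Algebra R S] (c : Cdv R F) (σ : V → S)
    (cf : V → (S →ₗ[R] R)) (b : Fin r → V), SVd c σ cf →
    Function.Bijective (fun e : Fin r → Fin ℓ => ∏ i, b i ^ (e i : ℕ)) →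
    Algebra.adjoin R (Set.range fun i => σ (b i)) = ⊤

/-- DIF: differences of the images under two homomorphisms.

Proof.  `Algebra.adjoin_induction`: `i1 (x y) - i2 (x y) = i1 x (i1 y - i2 y) + (i1 x - i2 x) i2 y`, constants give `0`. -/
def DifStmt : Prop :=
  ∀ (r : ℕ) (R S T : Type) [CommRing R] [CommRing S] [Algebra R S] [CommRing T] [Algebra R T]
    (i1 i2 : S →ₐ[R] T) (τ : Fin r → S), Algebra.adjoin R (Set.range τ) = ⊤ →
    ∀ y, i1 y - i2 y ∈ Ideal.span (Set.range fun i => i1 (τ i) - i2 (τ i))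

/-- DET: Cramer's rule.

Proof.  `A = diagonal (d j ^ (ℓ-1)) - p • M`; the hypothesis says `A.mulVec d = 0`; `adjugate A * A = det A • 1`, so
`det A * d i = 0`.  `m (det A) = det (m A)` (`RingHom.map_det`), `m A = - m p • m M` (`ℓ ≥ 2`, `m (d j) = 0`),
`det = (- m p) ^ r * det (m M)` (`Matrix.det_smul`).  `h A` is diagonal: `Matrix.det_diagonal`. -/
def DetStmt : Prop :=
  ∀ (ℓ r : ℕ) [Fact ℓ.Prime] (T : Type) [CommRing T] (p : T) (d : Fin r → T)
    (M : Matrix (Fin r) (Fin r) T), (∀ j, d j ^ ℓ = p * ∑ i, M j i * d i) →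
    (∀ i, (Matrix.diagonal (fun j => d j ^ (ℓ - 1)) - p • M).det * d i = 0) ∧
    (∀ (S : Type) [CommRing S] (m : T →+* S), (∀ j, m (d j) = 0) →
      m (Matrix.diagonal (fun j => d j ^ (ℓ - 1)) - p • M).det =
        (-m p) ^ r * (m.mapMatrix M).det) ∧
    ∀ (S : Type) [CommRing S] (h : T →+* S), h p = 0 →
      h (Matrix.diagonal (fun j => d j ^ (ℓ - 1)) - p • M).det = ∏ j, h (d j) ^ (ℓ - 1)

/-- JCU: the Jacobian is a unit.

Proof.  `d_i = σ (b i) ⊗ 1 - 1 ⊗ σ (b i)`.  For `n < r` let `χ : S ⊗ S → F` be the additive map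
`χ (x ⊗ y) = eps x * dl (lam n) y` (`F` as an `R`-module through `κ`: `letI := c.κ.toAlgebra`, `TensorProduct.lift`), and
`ε (x ⊗ y) = eps x * eps y`; by EPS `ε` is a ring homomorphism and `χ (a b) = ε a χ b + χ a ε b` (check on pure
tensors).  `ε (d_i) = 0`, `χ (d_i) = - lam n (b i)` (`dl 1 = dl (σ 1) = lam n 1 = 0`), `χ (g_j ⊗ 1 - 1 ⊗ g_j) = - dl (lam n) g_j
= - ∑_u gv (b j) u * lam n u = - ∑_l t_l lam_l(b j) ∑_u xx l u lam_n u = - t_n lam_n(b j)`.  So the hypothesis gives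
`t_n lam_n(b j) = ∑_i μ_ji lam_n(b i)`, `μ_ji = ε (M_ji) = eps (mult M_ji)` (`ε = eps ∘ mult`), that is `diag(t) * L = L * μᵀ`
with `L = (lam n (b i))` invertible; so `det μ = ∏ t_n ≠ 0`.  `eps (det (mult M)) = det μ` (EPS: `eps` is a ring
homomorphism), UNS. -/
def JcuStmt : Prop :=
  ∀ (ℓ r : ℕ) [Fact ℓ.Prime] (R F V S : Type) [CommRing R] [CharP R ℓ] [Field F] [CommGroup V]
    [Fintype V] [DecidableEq V] [CommRing S] [Algebra R S] (c : Cdv R F) (σ : V → S)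
    (cf : V → (S →ₗ[R] R)) (lam xx : Fin r → V → F) (t : Fin r → F) (b : Fin r → V)
    (K : Matrix (Fin r) (Fin r) F) (g : Fin r → S)
    (M : Matrix (Fin r) (Fin r) (S ⊗[R] S)), (∀ v : V, v ^ ℓ = 1) → EDat F lam xx t →
    SVd c σ cf → Matrix.of (fun l j => lam l (b j)) * K = 1 →
    (∀ j u, c.κ (cf u (g j)) = gv lam xx t (b j) u) →
    (∀ j, g j ⊗ₜ[R] (1 : S) - (1 : S) ⊗ₜ[R] g j =
      ∑ i, M j i * (σ (b i) ⊗ₜ[R] (1 : S) - (1 : S) ⊗ₜ[R] σ (b i))) →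
    IsUnit ((Algebra.TensorProduct.lmul' (S := S) R).toRingHom.mapMatrix M).det

/-- SCA: the sum of the elements of `V`.

Proof.  By the bijection and `Finset.prod_univ_sum` (`Fintype.piFinset`): `∑ v, β v = ∑_e ∏_i β (b i) ^ e i =
∏_i ∑_(k < ℓ) β (b i) ^ k`, and in characteristic `ℓ` `∑_(k < ℓ) x ^ k = (1 - x) ^ (ℓ-1)`: in `(ZMod ℓ)[X]`
`(1 - X) * (1 - X) ^ (ℓ-1) = 1 - X ^ ℓ = (1 - X) * ∑ X ^ k` (`sub_pow_char`), cancel `1 - X`, and evaluate. -/
def ScaStmt : Prop :=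
  ∀ (ℓ r : ℕ) [Fact ℓ.Prime] (V K : Type) [CommGroup V] [Fintype V] [CommRing K] [CharP K ℓ]
    (β : V →* K) (b : Fin r → V),
    Function.Bijective (fun e : Fin r → Fin ℓ => ∏ i, b i ^ (e i : ℕ)) →
    ∑ v, β v = ∏ i, (1 - β (b i)) ^ (ℓ - 1)

/-- TSF: the form `cf 1` is a symmetrising form, the dual basis.

Proof.  Gram matrix `G u v = cf 1 (σ u * σ v)`; `κ (G u v) = δ_(u v = 1)`; `P = (κ G)` is the
permutation matrix of the inversion, `det P = ± 1`, so `det G` is a unit (`c.loc`) and `G` has an inverse `N` (symmetric, as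
`G` is).  `σ' v = ∑_u N v u • σ u`: `cf 1 (σ' v * σ w) = ∑_u N v u G u w = δ_vw`; so `e1` for `s = σ w`, and by linearity for
all `s` (`b1`).  `e2`: for `s`, `∑_v cf 1 (σ v * s) • σ' v` pairs with every `σ w` under `cf 1` to `cf 1 (σ w * s)`, and `cf 1 (a *
σ w) = 0` for all `w` gives `a = 0` (`e1`).  `κ (cf u (σ' v)) = κ (N v u) = (P⁻¹) v u = P v u`. -/
def TsfStmt : Prop :=
  ∀ (R F V S : Type) [CommRing R] [Field F] [CommGroup V] [Fintype V] [DecidableEq V] [CommRing S]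
    [Algebra R S] (c : Cdv R F) (σ : V → S) (cf : V → (S →ₗ[R] R)), SVd c σ cf →
    ∃ σ' : V → S, (∀ s, ∑ v, cf 1 (σ' v * s) • σ v = s) ∧ (∀ s, ∑ v, cf 1 (σ v * s) • σ' v = s) ∧
      ∀ u v, c.κ (cf u (σ' v)) = if u = v⁻¹ then 1 else 0

/-- CSS: the elements of `S ⊗ S` which are killed by the `s ⊗ 1 - 1 ⊗ s`.

Proof.  `w = (id ⊗ t) Δ`, `t = cf 1`.  For pure tensors `x ⊗ y = ∑_v x ⊗ t (σ v y) σ' v = ∑_v (t (σ v y) • x) ⊗ σ' v =
∑_v ((id ⊗ t) ((1 ⊗ σ v) (x ⊗ y))) ⊗ σ' v`, so `Δ = ∑_v ((id ⊗ t) ((1 ⊗ σ v) Δ)) ⊗ σ' v = ∑_v ((id ⊗ t) ((σ v ⊗ 1) Δ)) ⊗ σ' v =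
∑_v σ v w ⊗ σ' v`.  Apply the multiplication. -/
def CssStmt : Prop :=
  ∀ (R V S : Type) [CommRing R] [Fintype V] [CommRing S] [Algebra R S] (σ σ' : V → S)
    (t : S →ₗ[R] R), (∀ s, ∑ v, t (σ v * s) • σ' v = s) → ∀ Δ : S ⊗[R] S,
    (∀ s : S, (s ⊗ₜ[R] (1 : S)) * Δ = ((1 : S) ⊗ₜ[R] s) * Δ) →
    Algebra.TensorProduct.lmul' (S := S) R Δ =
      TensorProduct.lift ((LinearMap.lsmul R S).flip.compl₂ t) Δ * ∑ v, σ v * σ' v

/-- WUN: `w` is a unit.

Proof.  `K = S ⧸ (π)`, `β v` = the class of `σ v`: a homomorphism `V →* K` (`mul`, `one`); `K` has characteristic `ℓ` or is zero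
(not zero: `eps` induces `K → F`).  `Θ : S ⊗ S → K`, `Θ (x ⊗ y) = eps(x) * class of y`: precisely, `K` is an algebra over
`R ⧸ (π)`, which is a field isomorphic to `F` by `κ`; take `Θ (x ⊗ y) = class of (r • y)` for any `r` with `κ r = eps x`
(`Θ` is a ring homomorphism by EPS).  `Θ (π) = 0`, `Θ (σ v ⊗ 1 - 1 ⊗ σ v) = 1 - β v`.  So `Θ Δ = ∏ (1 - β (b i)) ^ (ℓ-1) =
∑ v, β v` (hypothesis `hD`, SCA).  `t' : K → F` induced by `κ ∘ cf 1`: `t' (β v) = δ_(v = 1)`, and `t' ∘ Θ = eps ∘ (id ⊗ cf 1)`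
(pure tensors: both are `eps x * κ (cf 1 y)`).  So `eps w = t' (∑ β v) = 1`, UNS. -/
def WunStmt : Prop :=
  ∀ (ℓ r : ℕ) [Fact ℓ.Prime] (R F V S : Type) [CommRing R] [CharP R ℓ] [Field F] [CommGroup V]
    [Fintype V] [DecidableEq V] [CommRing S] [Algebra R S] (c : Cdv R F) (σ : V → S)
    (cf : V → (S →ₗ[R] R)) (b : Fin r → V) (Δ : S ⊗[R] S), (∀ v : V, v ^ ℓ = 1) →
    SVd c σ cf → Function.Bijective (fun e : Fin r → Fin ℓ => ∏ i, b i ^ (e i : ℕ)) →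
    (∀ (K : Type) [CommRing K] (h : S ⊗[R] S →+* K),
      h (algebraMap R (S ⊗[R] S) c.π) = 0 →
      h Δ = ∏ i, h (σ (b i) ⊗ₜ[R] (1 : S) - (1 : S) ⊗ₜ[R] σ (b i)) ^ (ℓ - 1)) →
    IsUnit (TensorProduct.lift ((LinearMap.lsmul R S).flip.compl₂ (cf 1)) Δ)

/-- ZSU: TOP of part 1: the Casimir element of `S`.

Proof.  GBS: `b`, `K`.  `Pws`: `g_j` for `v = b j`.  `T = S ⊗ S`, `d_i = σ (b i) ⊗ 1 - 1 ⊗ σ (b i)`, characteristic `ℓ`:
`d_j ^ ℓ = σ (b j) ^ ℓ ⊗ 1 - 1 ⊗ σ (b j) ^ ℓ = π (g_j ⊗ 1 - 1 ⊗ g_j)`; GNS and DIF (`i1`, `i2` the two inclusions) give `M`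
with `g_j ⊗ 1 - 1 ⊗ g_j = ∑ M_ji d_i` (`Ideal.mem_span_range_iff_exists_fun`).  DET with `p = π`: `Δ`.  `Δ d_i = 0`, and by DIF
`Δ` is killed by all `s ⊗ 1 - 1 ⊗ s`: CSS: `mult Δ = w z_S`; DET: `mult Δ = (-π) ^ r det (mult M)`, JCU: the determinant is a
unit; WUN: `w` is a unit.  So `z_S = π ^ r • z`, `z = w⁻¹ (-1) ^ r det (mult M)`. -/
def ZsuStmt : Prop :=
  ∀ (ℓ r : ℕ) [Fact ℓ.Prime] (R F V S : Type) [CommRing R] [CharP R ℓ] [Field F] [CharP F ℓ]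
    [CommGroup V] [Fintype V] [DecidableEq V] [CommRing S] [Algebra R S] (c : Cdv R F) (σ : V → S)
    (cf : V → (S →ₗ[R] R)) (lam xx : Fin r → V → F) (t : Fin r → F) (σ' : V → S),
    (∀ v : V, v ^ ℓ = 1) → EDat F lam xx t → SVd c σ cf → Pws ℓ c lam xx t σ cf →
    (∀ s, ∑ v, cf 1 (σ v * s) • σ' v = s) →
    ∃ z : S, IsUnit z ∧ ∑ v, σ v * σ' v = c.π ^ r • z

end Pool.Agent.PST.ET
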