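import Pool.Agent.PST.StmtsET1

/-!
# Squad PST, block ET (helper57), part 2: lifting lemmas, and the local case

Part A: commutators, idempotents, Casimir traces over `R`.
Part B: the local case: `H` with `PMid F φ ⊥ α`.  Then `H = F V ⊕ M` as `V`-`V`-bimodules, `M` projective for the
conjugation action; so `F V` lifts to a subalgebra `S` of `Hs` with a basis `σ v`, `S` is commutative by the first order
datum, and `∑ x k * y k = ∑ x~ z_S y~ = π ^ r • unit` with relative families `x~`, `y~` over `S`.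

All rows are elementary, the proofs in the docstrings are complete.
-/

open scoped BigOperators TensorProduct

noncomputable section

namespace Pool.Agent.PST.ET

open Pool.Agent.PFD.D2 (Cdv FibG)
open Pool.Agent.PFC (Fx BK cj bi tw PS Frm PMid)
open Pool.Agent.PSS (RF)

/-! ## A. General -/

/-- TOR: `π` is a nonzero divisor on a free module; elements which are divisible by all powers of `π` vanish.
Proof.  Coordinates (`Module.Free.chooseBasis`), `c.reg`, `c.sep`. -/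
def TorStmt : Prop :=
  ∀ (R F D : Type) [CommRing R] [Field F] (c : Cdv R F) [AddCommGroup D] [Module R D]
    [Module.Free R D], (∀ (n : ℕ) (x : D), c.π ^ n • x = 0 → x = 0) ∧
    ∀ x : D, (∀ n : ℕ, ∃ y, x = c.π ^ n • y) → x = 0

/-- KRS: Krull.

Proof.  `M = D ⧸ N` is a finite module over the Noetherian ring `R`, which is local (`c.loc`, `c.ker`: the nonunits are
`π R`), `π` is not a unit (`κ π = 0`): the intersection of the `π ^ n M` is `0`
(`Ideal.iInf_pow_smul_eq_bot_of_isLocalRing`). -/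
def KrsStmt : Prop :=
  ∀ (R F D : Type) [CommRing R] [IsDomain R] [IsPrincipalIdealRing R] [Field F] (c : Cdv R F)
    [AddCommGroup D] [Module R D] [Module.Finite R D] (N : Submodule R D) (x : D),
    (∀ n : ℕ, ∃ y, x - c.π ^ n • y ∈ N) → x ∈ N

/-- PCM: `ℓ`-th powers modulo the commutators.

Proof.  `(a + b) ^ ℓ` is the sum of the words of length `ℓ` in `a`, `b`; the cyclic group of order `ℓ` acts on the words by
rotation; a rotated word is congruent modulo `cmt` (`x y - y x`); the orbits of the words different from `a ^ ℓ`, `b ^ ℓ` have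
`ℓ` elements, `ℓ = 0` in `D`.  `(a b - b a) ^ ℓ` is congruent to `(a b) ^ ℓ - (b a) ^ ℓ = a y - y a` with `y = b (a b) ^ (ℓ-1)`;
for a sum `∑ r_i (a_i b_i - b_i a_i)` use the first part (`(r a) ^ ℓ = r ^ ℓ a ^ ℓ`), induction
(`Submodule.span_induction`: write the element as a sum, the statement `a ^ ℓ ∈ cmt` is stable under sums by the
first part). -/
def PcmStmt : Prop :=
  ∀ (ℓ : ℕ) [Fact ℓ.Prime] (R D : Type) [CommRing R] [CharP R ℓ] [Ring D] [Algebra R D],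
    (∀ a b : D, (a + b) ^ ℓ - a ^ ℓ - b ^ ℓ ∈ cmt R D) ∧ ∀ a ∈ cmt R D, a ^ ℓ ∈ cmt R D

/-- KLF: an integral combination of idempotents which is a sum of commutators modulo `π` is a sum of commutators.

Proof.  `x = ∑ m i • j i`.  Lift the commutators: `x = c0 + π d`, `c0 ∈ cmt R D` (`f.surj`, `c.surj`, `f.ker`).  By PCM, modulo
`cmt`: `x ^ (ℓ ^ n) = ∑ (m i) ^ (ℓ ^ n) • j i = x` (`m ^ ℓ = m` modulo `ℓ`), and `x ^ (ℓ ^ n) = c0 ^ (ℓ ^ n) + (π d) ^ (ℓ ^ n)`, the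
first term is in `cmt`.  So `x - π ^ (ℓ ^ n) • d ^ (ℓ ^ n) ∈ cmt` for all `n`, and `ℓ ^ n ≥ n`: KRS. -/
def KlfStmt : Prop :=
  ∀ (ℓ : ℕ) [Fact ℓ.Prime] (R F D H ι : Type) [CommRing R] [IsDomain R] [IsPrincipalIdealRing R]
    [CharP R ℓ] [Field F] (c : Cdv R F) [Ring D] [Algebra R D] [Module.Finite R D]
    [Ring H] [Algebra F H] (f : FibG D H c) [Fintype ι] (j : ι → D) (m : ι → ℤ),
    (∀ i, j i * j i = j i) → ∑ i, m i • f.q (j i) ∈ cmt F H → ∑ i, m i • j i ∈ cmt R D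

/-- TAU: the Casimir trace `τ a = ∑ x k * a * y k`.

Proof.  (1) `d x_k = ∑_l T (y_l d x_k) x_l` (`e1`), so `d τ a = ∑_l x_l a ∑_k T (y_l d x_k) y_k = ∑_l x_l a y_l d` (`e2`).
(2) `τ' z = ∑ y_k z x_k` is central in the same way (`b y_k = ∑_l T (b y_k x_l) y_l`, `∑_k T (y_k x_l b) x_k = x_l b`).
`T (τ (a b) z) = T (a b τ' z) = T (b τ' z a) = T (b a τ' z) = T (τ (b a) z)` for all `z`; if `T (e z) = 0` for all `z` then `e = 0`
(`e2`).  (3) linear. -/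
def TauStmt : Prop :=
  ∀ (R D K : Type) [CommRing R] [Ring D] [Algebra R D] [Fintype K] (T : D →ₗ[R] R) (x y : K → D),
    SFr R T x y → (∀ a d, d * ∑ k, x k * a * y k = (∑ k, x k * a * y k) * d) ∧
    (∀ a b, ∑ k, x k * (a * b) * y k = ∑ k, x k * (b * a) * y k) ∧
    ∀ z ∈ cmt R D, ∑ k, x k * z * y k = 0

/-- ILF: idempotents lift.  Proof.  `D2.IdgStmt` for `M = D`, the set of the left multiplications, `e` the right
multiplication by a lift `a` of `j`: `g` commutes with the left multiplications, so it is the right multiplication by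
`j' = g 1`, and `j' - a ∈ π D`. -/
def IlfStmt : Prop :=
  ∀ (R F D H : Type) [CommRing R] [IsDomain R] [IsPrincipalIdealRing R] [Field F] (c : Cdv R F)
    [Ring D] [Algebra R D] [Module.Finite R D] [Module.Free R D] [Ring H] [Algebra F H]
    (f : FibG D H c) (j : H), j * j = j → ∃ j' : D, j' * j' = j' ∧ f.q j' = j

/-- CIL: an idempotent which is central modulo `π` is central.

Proof.  Let `x ∈ b D (1 - b)`, i.e. `b x = x`, `x b = 0`.  `q x = q b * q x = q x * q b = 0`, so `x = π y`; `π (b y - y) = 0`,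
`π (y b) = 0`, so `y ∈ b D (1 - b)` (TOR).  By induction `x ∈ π ^ n D` for all `n`: `x = 0` (TOR).  In the same way
`(1 - b) D b = 0`; `b a = b a b = a b`. -/
def CilStmt : Prop :=
  ∀ (R F D H : Type) [CommRing R] [Field F] (c : Cdv R F)
    [Ring D] [Algebra R D] [Module.Free R D] [Ring H] [Algebra F H]
    (f : FibG D H c) (b : D), b * b = b → (∀ h, f.q b * h = h * f.q b) → ∀ a, b * a = a * b

/-- FUN: fullness lifts.

Proof.  `I` = the span of the `s j t`, a two-sided ideal, `N = {x : b x = x}`.  `b = i + π d` (lift the sum), `i ∈ I`; for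
`x ∈ N`: `x = b (b x) = b i x + π (b d x)`, so `N ≤ I ⊔ π N`; by iteration `b - π ^ n • y ∈ I` for all `n`; KRS. -/
def FunStmt : Prop :=
  ∀ (R F D H : Type) [CommRing R] [IsDomain R] [IsPrincipalIdealRing R] [Field F] (c : Cdv R F)
    [Ring D] [Algebra R D] [Module.Finite R D] [Ring H] [Algebra F H]
    (f : FibG D H c) (b j : D), b * b = b → (∀ a, b * a = a * b) →
    f.q b ∈ Submodule.span F {x : H | ∃ s t : H, x = s * f.q j * t} →
    b ∈ Submodule.span R {x : D | ∃ s t : D, x = s * j * t}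

/-- FCZ: a central element which is `p` times a unit on a full corner.

Proof.  `b = ∑ s_i j t_i`, `z = ∑ s_i u t_i b`, `z' = ∑ s_i u' t_i b`.  `p z = ∑ s_i j τ t_i b = τ b b = τ b = τ`.  `p (z a - a z) = τ a - a τ = 0`,
so `z` is central.  `p (z z') = τ z' = ∑ s_i u' τ t_i b` (`τ` central) `= ∑ s_i u' (j τ) t_i b = p ∑ s_i u' u t_i b = p ∑ s_i j t_i b = p b`:
`z z' = b`.  `z' = b z'`, and `z'` is central: for `a`: `z (z' a - a z') = b a - a b = 0`, multiply by `z'`... : `z' z = z z' = b`, so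
`z' a - a z' = b (z' a - a z') = z' z (z' a - a z') = 0`. -/
def FczStmt : Prop :=
  ∀ (R D : Type) [CommRing R] [Ring D] [Algebra R D] (p : R) (b j τ u u' : D),
    (∀ x : D, p • x = 0 → x = 0) → b * b = b → (∀ a, b * a = a * b) → j * j = j →
    b ∈ Submodule.span R {x : D | ∃ s t : D, x = s * j * t} → (∀ a, τ * a = a * τ) →
    τ * b = τ → j * τ = p • u → j * u = u → u * j = u → j * u' = u' → u' * j = u' →
    u * u' = j → u' * u = j →
    ∃ z z' : D, (∀ a, z * a = a * z) ∧ (∀ a, z' * a = a * z') ∧ z * z' = b ∧ z * b = z ∧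
      τ = p • z

/-- RDF: reduction of a symmetric form.  Proof.  `lam0 (q a) = κ (T a)`: well defined by `f.ker`, `F`-linear by
`c.surj`, `f.sc`. -/
def RdfStmt : Prop :=
  ∀ (R F D H K : Type) [CommRing R] [Field F] (c : Cdv R F) [Ring D] [Algebra R D]
    [Ring H] [Algebra F H] (f : FibG D H c) [Fintype K] (T : D →ₗ[R] R) (x y : K → D),
    SFr R T x y → ∃ lam0 : H →ₗ[F] F, (∀ a, lam0 (f.q a) = c.κ (T a)) ∧
      SFr F lam0 (fun k => f.q (x k)) (fun k => f.q (y k))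

/-- CSI: the Casimir trace does not depend on the families.

Proof.  `x k = ∑_l T (Y l * x k) • X l`, so `∑_k x k a y k = ∑_l X l a ∑_k T (Y l x k) y k = ∑_l X l a Y l` (`e2`). -/
def CsiStmt : Prop :=
  ∀ (R D K L : Type) [CommRing R] [Ring D] [Algebra R D] [Fintype K] [Fintype L]
    (T : D →ₗ[R] R) (x y : K → D) (X Y : L → D), SFr R T x y →
    (∀ a, ∑ l, T (Y l * a) • X l = a) → ∀ a, ∑ l, X l * a * Y l = ∑ k, x k * a * y k

/-! ## B. The local case -/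

/-- FVP: the `V`-`V`-projection onto the span of `V`.

Proof.  In the group algebra `F[V]` let `p = ∑_u lam (α u⁻¹) u`; its augmentation is `e = lam (∑ α u) ≠ 0`, and
`(p - e) ^ (ℓ ^ m) = ∑ lam(α u⁻¹) ^ (ℓ ^ m) (u ^ (ℓ ^ m) - 1) = 0` for `ℓ ^ m = |V|`; so `p` has an inverse `x = ∑ x_w w`.
`lam' a = ∑_w x_w lam (α w * a)`.  `lam' (α v) = ∑_w x_w lam (α (w v))` is the coefficient of `x p = 1` at `v⁻¹`.
`inv`: `lam (w v a) = lam (v w a) = lam (w a v)`. -/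
def FvpStmt : Prop :=
  ∀ (ℓ : ℕ) [Fact ℓ.Prime] (F V H : Type) [Field F] [CharP F ℓ] [CommGroup V] [Fintype V]
    [DecidableEq V] [Ring H] [Algebra F H] (α : V →* H) (lam : H →ₗ[F] F), IsPGroup ℓ V →
    Frm F α lam → ∃ lam' : H →ₗ[F] F, Prj α lam'

/-- BKT: fixed vectors are combinations of `V` and traces from the trivial group.

Proof.  Strong induction on `Nat.card R`.  `R = ⊥`: `m = a`, `c = 0`.  `R ≠ ⊥`: `a - ∑ c_u u` is a combination of traces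
`∑_(x ∈ S) x m' x⁻¹`, `S` a transversal of `P' < R`, `m'` fixed by `P'`; by induction `m' = ∑ c'_u u + ∑_(p ∈ P') p m'' p⁻¹`;
the sum over `x ∈ S` of the first part is `|S| c'_u u = 0` (`ℓ` divides `|R : P'|`, `V` is commutative), of the second part
`∑_(v ∈ R) v m'' v⁻¹` (`(x, p) ↦ x p` is a bijection of `S × P'` onto `R`).  The set of the elements of the form
`∑ c_u u + ∑_(v ∈ R) v m v⁻¹` is a subspace. -/
def BktStmt : Prop :=
  ∀ (ℓ : ℕ) [Fact ℓ.Prime] (F V H : Type) [Field F] [CharP F ℓ] [CommGroup V] [Fintype V]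
    [Ring H] [Algebra F H] (α : V →* H), IsPGroup ℓ V →
    (∀ R : Subgroup V, ¬ R ≤ ⊥ → ∀ a ∈ Fx (cj F α) R, ∃ c : V → F,
      a - ∑ u, c u • α u ∈ BK (cj F α) R) →
    ∀ (R : Subgroup V) [Fintype R], ∀ a ∈ Fx (cj F α) R, ∃ (c : V → F) (m : H),
      a = ∑ u, c u • α u + ∑ v : R, α v * m * α (v : V)⁻¹

/-- CFD: `1 - prj` is a trace from the trivial subgroup.

Proof.  Frame `(Ω, b, c)` for `V × V`; `v` acts on `Ω` by `(v, v)`; `R_ω` the stabiliser in `V`.  `b ω` is fixed by `R_ω` under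
conjugation: BKT: `b ω = ∑ c_u u + ∑_(v ∈ R_ω) v m_ω v⁻¹`.  Put `b' ω = b ω - prj (b ω)`, `m' = m_ω - prj m_ω`:
`b' ω = ∑_(v ∈ R_ω) v m' v⁻¹` (`prj` is `V`-`V`-linear, it fixes the `u`).  Also for `R_ω = ⊥`.  Let `Ω₀` be a set of
representatives of the `V`-orbits on `Ω`, `th a = ∑_(ω ∈ Ω₀) c ω a • m'_ω`.  `∑_v v th (v⁻¹ a v) v⁻¹ = ∑_(ω ∈ Ω₀) ∑_v c (v ω) a • v m'_ω v⁻¹`
(`c ω (v⁻¹ a v) = c (v ω) a`), and for `x` in a transversal of `R_ω` and `p ∈ R_ω`, `v = x p`: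
`= ∑_(ω ∈ Ω₀) ∑_x c (x ω) a • x b'_ω x⁻¹ = ∑_(ω ∈ Ω) c ω a • b'_ω` (`x b'_ω x⁻¹ = b'_(x ω)`) `= a - prj a`.
(The sum over the orbit of `ω`: `MulAction.orbitEquivQuotientStabilizer`, `MulAction.selfEquivSigmaOrbits`.) -/
def CfdStmt : Prop :=
  ∀ (ℓ : ℕ) [Fact ℓ.Prime] (F V H : Type) [Field F] [CharP F ℓ] [CommGroup V] [Fintype V]
    [DecidableEq V] [Ring H] [Algebra F H] (α : V →* H) (lam : H →ₗ[F] F)
    (X : Subgroup (V × V) → Prop), IsPGroup ℓ V → Prj α lam → PS X (bi F α) →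
    (∀ R : Subgroup V, ¬ R ≤ ⊥ → ∀ a ∈ Fx (cj F α) R, ∃ c : V → F,
      a - ∑ u, c u • α u ∈ BK (cj F α) R) → Trc α lam

/-- COB: 2-cocycles with values in `ker prj` are coboundaries.

Proof.  `c(u,v) = C(u,v) α(u v)⁻¹`; the hypothesis times `α(u v w)⁻¹` is `u c(v,w) u⁻¹ - c(u v,w) + c(u,v w) - c(u,v) = 0`.
`h(u) = ∑_x x th(c(x⁻¹,u)) x⁻¹`.  `u h(v) u⁻¹ = ∑_x (u x) th(c(x⁻¹,v)) (u x)⁻¹ = ∑_y y th(c(y⁻¹ u,v)) y⁻¹`; the identity for
`(y⁻¹,u,v)`: `c(y⁻¹ u,v) - c(y⁻¹,u v) + c(y⁻¹,u) = y⁻¹ c(u,v) y`; so `u h(v) u⁻¹ - h(u v) + h(u) = ∑_y y th(y⁻¹ c(u,v) y) y⁻¹ =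
c(u,v)` (`Trc`, `prj (c(u,v)) = prj (C(u,v)) α(u v)⁻¹ = 0`).  `g(u) = h(u) α u`. -/
def CobStmt : Prop :=
  ∀ (F V H : Type) [Field F] [CommGroup V] [Fintype V] [DecidableEq V] [Ring H] [Algebra F H]
    (α : V →* H) (lam : H →ₗ[F] F), Prj α lam → Trc α lam → ∀ C : V → V → H,
    (∀ u v, prj α lam (C u v) = 0) →
    (∀ u v w, α u * C v w - C (u * v) w + C u (v * w) - C u v * α w = 0) →
    ∃ g : V → H, ∀ u v, α u * g v - g (u * v) + g u * α v = C u v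

/-- RLI: the lifts of the elements of `V` are independent, also modulo `π ^ n`; their span is pure.

Proof.  Induction on `n`: apply `q` and `lam (α u⁻¹ * ·)`: `κ (r u) = 0`, `r u = π s_u`, `π (∑ s_u σ u - π ^ (n-1) h) = 0`, TOR.
For `∑ r u σ u = 0` use all `n` with `h = 0` and `c.sep`.  `π h = ∑ r u σ u` gives `r u = π s_u`, `h = ∑ s_u σ u` (TOR). -/
def RliStmt : Prop :=
  ∀ (R F V H Hs : Type) [CommRing R] [Field F] [CommGroup V] [Fintype V] [DecidableEq V]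
    [Ring H] [Algebra F H] [Ring Hs] [Algebra R Hs] [Module.Free R Hs] (c : Cdv R F)
    (f : FibG Hs H c) (α : V →* H) (lam : H →ₗ[F] F) (σ : V → Hs), Prj α lam →
    (∀ v, f.q (σ v) = α v) →
    (∀ (n : ℕ) (r : V → R) (h : Hs), ∑ v, r v • σ v = c.π ^ n • h → ∀ v, ∃ s, r v = c.π ^ n * s) ∧
    (∀ r : V → R, ∑ v, r v • σ v = 0 → r = 0) ∧
    ∀ h : Hs, c.π • h ∈ Submodule.span R (Set.range σ) → h ∈ Submodule.span R (Set.range σ)

/-- the span of the `σ v` is closed under the multiplication modulo `π ^ n` -/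
def Cls {R F V Hs : Type} [CommRing R] [Field F] [Fintype V] [Ring Hs] [Algebra R Hs]
    (c : Cdv R F) (σ : V → Hs) (n : ℕ) : Prop :=
  ∀ u v, ∃ (s : V → R) (d : Hs), σ u * σ v = ∑ w, s w • σ w + c.π ^ n • d

/-- STE: the lifting step.

Proof.  Choose `s(u,v,w)`, `d(u,v)`.  `prj (q d(u,v)) = ∑ k_w α w`; lift `k_w` to `R`, replace `s` by `s + π ^ n k_w`, `d` by
`d - ∑ k_w σ w`: so `prj (q d(u,v)) = 0`.  `κ (s(u,v,w)) = δ_(w = u v)` (apply `q`, `n ≥ 1`).  Associativity: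
`0 = σ_u (σ_v σ_w) - (σ_u σ_v) σ_w = ∑_y r_y σ_y + π ^ n (σ_u d(v,w) + ∑_x s(v,w,x) d(u,x) - d(u,v) σ_w - ∑_x s(u,v,x) d(x,w))`; by
RLI `r_y = π ^ n r'_y`; divide by `π ^ n` (TOR) and apply `q`: `∑ κ(r'_y) α y + (α u D(v,w) + D(u,v w) - D(u,v) α w - D(u v,w)) = 0`,
`D = q d`; apply `prj`: the first sum is `0` (`prj` is `V`-`V`-linear, `prj D = 0`, `prj (α y) = α y`), so the bracket is `0`.
COB: `g` with `α u g(v) - g(u v) + g(u) α v = D(u,v)`; `z(u)` = minus a lift of `g(u)`: `σ'_u σ'_v = σ_u σ_v + π ^ n (z_u σ_v + σ_u z_v) +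
π ^ (2n) z_u z_v`, and `∑ s_w σ_w = ∑ s_w σ'_w - π ^ n ∑ s_w z_w`; the coefficient of `π ^ n` is `d + z_u σ_v + σ_u z_v - ∑ s_w z_w`, under `q`:
`D(u,v) - g(u) α v - α u g(v) + g(u v) = 0`, so it is `π ..` (`f.ker`); `2 n ≥ n + 1`. -/
def SteStmt : Prop :=
  ∀ (R F V H Hs : Type) [CommRing R] [Field F] [CommGroup V] [Fintype V] [DecidableEq V]
    [Ring H] [Algebra F H] [Ring Hs] [Algebra R Hs] [Module.Free R Hs] (c : Cdv R F)
    (f : FibG Hs H c) (α : V →* H) (lam : H →ₗ[F] F), Prj α lam → Trc α lam →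
    ∀ (n : ℕ) (σ : V → Hs), 1 ≤ n → (∀ v, f.q (σ v) = α v) → Cls c σ n →
    ∃ z : V → Hs, Cls c (fun v => σ v + c.π ^ n • z v) (n + 1)

/-- SEX: the subalgebra exists.

Proof.  `D2.SugStmt` for `M = V → Hs` and `P n σ`: `(∀ v, q (σ v) = α v) ∧ Cls c σ n` for `n ≥ 1`, `True` for `n = 0` (adding
`π ^ n z` preserves it: expand); `P 1` holds for every lift (`σ u σ v - σ (u v) ∈ π Hs`); STE.  So there is `σ` with `Cls c σ n` for
all `n`; KRS for the span `N` of the `σ w`: `σ u σ v ∈ N`; `N` is closed under the multiplication.  `1 ∈ N`: `x ↦ x σ_1` maps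
`N` to `N` and is the identity modulo `π N` (`N` is pure: RLI), so it is onto (`D2.UngStmt` for `N`, finite): `e σ_1 = σ_1`
with `e ∈ N`; `σ_1` is a unit of `Hs` (UPR, `q σ_1 = 1`), so `e = 1`.  `1 = ∑ r_w σ_w`, `κ (r_w) = δ_(w = 1)` (apply `q` and `lam (α w⁻¹ ·)`),
`r_1` is a unit: replace `σ_1` by `1`; the span is the same. -/
def SexStmt : Prop :=
  ∀ (R F V H Hs : Type) [CommRing R] [IsDomain R] [IsPrincipalIdealRing R] [Field F] [CommGroup V]
    [Fintype V] [DecidableEq V] [Ring H] [Algebra F H] [Ring Hs] [Algebra R Hs]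
    [Module.Finite R Hs] [Module.Free R Hs] (c : Cdv R F) (f : FibG Hs H c) (α : V →* H)
    (lam : H →ₗ[F] F), Prj α lam → Trc α lam →
    ∃ σ : V → Hs, σ 1 = 1 ∧ (∀ v, f.q (σ v) = α v) ∧
      ∀ u v, σ u * σ v ∈ Submodule.span R (Set.range σ)

/-- PWS: the powers of the `σ v`.

Proof.  `Rgd.pw`: `w`, `G`; `w = σ_v + π s` (`f.ker`).  `w ^ ℓ = σ_v ^ ℓ + π ∑_(i<ℓ) σ_v ^ i s σ_v ^ (ℓ-1-i) + π ^ 2 ..`, so `σ_v ^ ℓ = 1 + π g`
with `q g = q G - ∑_i v ^ i s' v ^ (ℓ-1-i)`, `s' = q s`; `v ^ (ℓ-1-i) = v⁻¹ v ^ (-i)` as `v ^ ℓ = 1`, and `v ^ i (s' v⁻¹) v ^ (-i)` is `s' v⁻¹` modulo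
`IV`, so the sum is `ℓ s' v⁻¹ = 0` modulo `IV`: `q g - ∑ gv v u • α u ∈ IV`.  `g` is in the span `N` of the `σ w`: `σ_v ^ ℓ ∈ N` (closed,
`1 = σ 1`), `π g ∈ N`, RLI.  So `q g` is a combination of the `α w`; and a combination `y` of the `α w` which is in `IV` is `0`:
`lam (α w⁻¹ * (α u b - b α u)) = 0` (`Prj.inv`), so all coefficients `lam (α w⁻¹ * y)` of `y` vanish. -/
def PwsStmt : Prop :=
  ∀ (ℓ r : ℕ) [Fact ℓ.Prime] (R F V H Hs : Type) [CommRing R] [Field F] [CharP F ℓ]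
    [CommGroup V] [Fintype V] [DecidableEq V] [Ring H] [Algebra F H] [Ring Hs] [Algebra R Hs]
    [Module.Free R Hs] (c : Cdv R F) (f : FibG Hs H c) (α : V →* H) (lam' : H →ₗ[F] F)
    (lam xx : Fin r → V → F) (t : Fin r → F) (σ : V → Hs), (∀ v : V, v ^ ℓ = 1) →
    Rgd ℓ c f α lam xx t → Prj α lam' → σ 1 = 1 → (∀ v, f.q (σ v) = α v) →
    (∀ u v, σ u * σ v ∈ Submodule.span R (Set.range σ)) →
    (∀ v, ∃ g ∈ Submodule.span R (Set.range σ), σ v ^ ℓ = 1 + c.π • g ∧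
      f.q g = ∑ u, gv lam xx t v u • α u) ∧
    ∀ u v, ∃ d ∈ Submodule.span R (Set.range σ), σ u * σ v - σ v * σ u = c.π ^ 2 • d

/-- GEN: the direction generates the group algebra.

Proof.  (1) `X_l = ∑_u xx l u • β u ∈ B`: by `x1` `∑_v xx n v * (t_l lam_l v) = t_l δ_nl`, so `∑_v xx l v • (∑_u gv v u • β u) = t_l X_l`.
(2) `I` = the span of the `β v - 1`, an ideal of the span `K₀` of the `β v`; `I` is nilpotent (it is generated by the commuting
elements `β v - 1`, `(β v - 1) ^ ℓ = β (v ^ ℓ) - 1 = 0`; a product of `|V| (ℓ-1) + 1` elements `β v - 1` is `0`).  `X_l ∈ I` (`x0`).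
(3) `β v - 1 - ∑_l lam_l(v) X_l ∈ I ^ 2` (`I ^ 2` = the span of the products): otherwise there is an `F`-linear `ψ : K → F`
which vanishes on `I ^ 2` and not at this element; `m v = ψ (β v - 1)` is additive, as `β (u v) - 1 = (β u - 1) + (β v - 1) +
(β u - 1)(β v - 1)`; so `m = ∑ k_l lam_l` (`sp`), `ψ (X_l) = ∑_u xx l u m(u) = k_l` (`x0`, `x1`), and `ψ (β v - 1 - ∑ lam_l(v) X_l) =
m v - ∑ lam_l(v) k_l = 0`, a contradiction.
(4) So `I ≤ (B ⊓ I) + I ^ 2`, by induction `I ≤ (B ⊓ I) + I ^ k` for all `k ≥ 1` (`I ^ k ≤ ((B ⊓ I) + I ^ 2) ^ k ≤ (B ⊓ I) + I ^ (k+1)`),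
`I ≤ B`, `1 ∈ B`. -/
def GenStmt : Prop :=
  ∀ (ℓ r : ℕ) [Fact ℓ.Prime] (F V K : Type) [Field F] [CharP F ℓ] [CommGroup V] [Fintype V]
    [CommRing K] [Algebra F K] (β : V →* K) (lam xx : Fin r → V → F) (t : Fin r → F)
    (B : Subalgebra F K), (∀ v : V, v ^ ℓ = 1) → EDat F lam xx t →
    (∀ v, ∑ u, gv lam xx t v u • β u ∈ B) → ∀ v, β v ∈ B

/-- COM: the `σ v` commute.

Proof.  `N` = the span of the `σ v`, a subring (`σ 1 = 1`), pure (RLI).  Claim: `[N, N] ≤ π ^ n N` for all `n ≥ 2`; then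
`[σ u, σ v] = 0` (TOR).  `n = 2`: the last hypothesis.  Step: let `B` be the set of the `a ∈ N` with `a b - b a ∈ π ^ (n+1) N` for all
`b ∈ N`: a subring (`[a a', b] = a [a', b] + [a, b] a'`), an `R`-submodule, it contains `π N`.  It contains `g_v` (`σ_v ^ ℓ = 1 + π g_v`):
`π [g_v, b] = [σ_v ^ ℓ, b] = ad(σ_v) ^ ℓ b` (`ad a = L_a - R_a`, `L_a`, `R_a` commute, characteristic `ℓ`: `sub_pow_char_of_commute` in
`Module.End R Hs`), and `ad(σ_v) ^ ℓ b ∈ π ^ (n ℓ) N` (each `ad(σ_v)` maps `π ^ k N` to `π ^ (k+n) N`), so `[g_v, b] ∈ π ^ (n ℓ - 1) N`,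
`n ℓ - 1 ≥ n + 1` (`n ≥ 2`, `ℓ ≥ 2`).  `q(B)` is a subalgebra of the commutative algebra `q(N)` = the span of the `α v`; GEN (with
`K` = the subalgebra generated by the `α v`, it is commutative: `Algebra.adjoinCommRingOfComm`; or the group algebra and the
preimage of `q(B)`) : `α v ∈ q(B)`.  So for `b ∈ N` there is `a ∈ B` with `q (b - a) = 0`, `b - a = π y`, `y ∈ N` (pure), `b ∈ B`. -/
def ComStmt : Prop :=
  ∀ (ℓ r : ℕ) [Fact ℓ.Prime] (R F V H Hs : Type) [CommRing R] [CharP R ℓ] [Field F] [CharP F ℓ]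
    [CommGroup V] [Fintype V] [DecidableEq V] [Ring H] [Algebra F H] [Ring Hs] [Algebra R Hs]
    [Module.Free R Hs] (c : Cdv R F) (f : FibG Hs H c) (α : V →* H) (lam' : H →ₗ[F] F)
    (lam xx : Fin r → V → F) (t : Fin r → F) (σ : V → Hs), (∀ v : V, v ^ ℓ = 1) →
    EDat F lam xx t → Prj α lam' → σ 1 = 1 → (∀ v, f.q (σ v) = α v) →
    (∀ u v, σ u * σ v ∈ Submodule.span R (Set.range σ)) →
    (∀ v, ∃ g ∈ Submodule.span R (Set.range σ), σ v ^ ℓ = 1 + c.π • g ∧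
      f.q g = ∑ u, gv lam xx t v u • α u) →
    (∀ u v, ∃ d ∈ Submodule.span R (Set.range σ), σ u * σ v - σ v * σ u = c.π ^ 2 • d) →
    ∀ u v, σ u * σ v = σ v * σ u

/-- SUB: the commutative subalgebra `S`.

Proof.  SEX, PWS, COM.  `S` = the subalgebra of `Hs` with the underlying module the span of the `σ v` (commutative; `Algebra.adjoin R
(range σ)`, `Algebra.adjoinCommRingOfComm`), `i` the inclusion.  `cf v s` = the coordinates (RLI: unique).  `SVd.mul`: `q (σ u σ v -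
σ (u v)) = 0`, `= π d`, `d` in the span (RLI).  `Pws`: `g` from PWS, `κ (cf u g)` = the coefficient of `q g` at `α u` =
`lam' (α u⁻¹ * q g) = gv v u`. -/
def SubStmt : Prop :=
  ∀ (ℓ r : ℕ) [Fact ℓ.Prime] (R F V H Hs : Type) [CommRing R] [IsDomain R]
    [IsPrincipalIdealRing R] [CharP R ℓ] [Field F] [CharP F ℓ]
    [CommGroup V] [Fintype V] [DecidableEq V] [Ring H] [Algebra F H] [Ring Hs] [Algebra R Hs]
    [Module.Finite R Hs] [Module.Free R Hs] (c : Cdv R F) (f : FibG Hs H c) (α : V →* H)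
    (lam' : H →ₗ[F] F) (lam xx : Fin r → V → F) (t : Fin r → F), (∀ v : V, v ^ ℓ = 1) →
    EDat F lam xx t → Rgd ℓ c f α lam xx t → Prj α lam' → Trc α lam' →
    ∃ (S : Type) (_ : CommRing S) (_ : Algebra R S) (i : S →ₐ[R] Hs) (σ : V → S)
      (cf : V → (S →ₗ[R] R)), Function.Injective i ∧ (∀ v, f.q (i (σ v)) = α v) ∧ SVd c σ cf ∧
      Pws ℓ c lam xx t σ cf

/-- REL: the relative form is right `S`-linear.

Proof.  `T (i σ'_v a i s) = T (i (s σ'_v) a)` (`sym`), `s σ'_v = ∑_w t (σ_w s σ'_v) σ'_w`, so the left side is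
`∑_w T (i σ'_w a) i (∑_v t (σ_w s σ'_v) σ_v) = ∑_w T (i σ'_w a) i (s σ_w)` (`S` commutative, first identity). -/
def RelStmt : Prop :=
  ∀ (R V S D : Type) [CommRing R] [Fintype V] [CommRing S] [Algebra R S] [Ring D] [Algebra R D]
    (i : S →ₐ[R] D) (σ σ' : V → S) (t : S →ₗ[R] R) (T : D →ₗ[R] R),
    (∀ a b, T (a * b) = T (b * a)) → (∀ s, ∑ v, t (σ' v * s) • σ v = s) →
    (∀ s, ∑ v, t (σ v * s) • σ' v = s) → ∀ (a : D) (s : S),
    ∑ v, T (i (σ' v) * (a * i s)) • i (σ v) = (∑ v, T (i (σ' v) * a) • i (σ v)) * i s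

/-- RFS: relative dual families over `S`.

Proof.  `Ẽ a = ∑_v T (i σ'_v a) • i σ_v` (REL: right `S`-linear); `q (i σ'_v) = α v⁻¹` (last part of TSF), so `q (Ẽ a) =
∑_v lam0 (α v⁻¹ q a) α v`.  Lift `x0 k`, `y0 k` to `x♭`, `y♭`; `Φ a = ∑_k x♭_k Ẽ (y♭_k a)` is `R`-linear, right `S`-linear, and `q (Φ a) = q a`
by `RF.e1`: `Φ` is bijective (`D2.UngStmt`).  `x k = Φ⁻¹ (x♭_k)`, `y k = y♭_k`: `a = Φ⁻¹ (Φ a) = ∑ Φ⁻¹ (x♭_k) Ẽ (y♭_k a)`.
`q (x k) = q (Φ (x k)) = x0 k`. -/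
def RfsStmt : Prop :=
  ∀ (R F V S H Hs K : Type) [CommRing R] [Field F] [CommGroup V] [Fintype V] [DecidableEq V]
    [CommRing S] [Algebra R S] [Ring H] [Algebra F H] [Ring Hs] [Algebra R Hs]
    [Module.Finite R Hs] [Fintype K] (c : Cdv R F) (f : FibG Hs H c) (α : V →* H)
    (i : S →ₐ[R] Hs) (σ σ' : V → S) (cf : V → (S →ₗ[R] R)) (T : Hs →ₗ[R] R)
    (lam0 : H →ₗ[F] F) (x0 y0 : K → H), SVd c σ cf → (∀ v, f.q (i (σ v)) = α v) →
    (∀ s, ∑ v, cf 1 (σ' v * s) • σ v = s) → (∀ s, ∑ v, cf 1 (σ v * s) • σ' v = s) →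
    (∀ u v, c.κ (cf u (σ' v)) = if u = v⁻¹ then 1 else 0) →
    (∀ a b, T (a * b) = T (b * a)) → (∀ a, lam0 (f.q a) = c.κ (T a)) → RF F α lam0 x0 y0 →
    ∃ x y : K → Hs, (∀ k, f.q (x k) = x0 k) ∧ (∀ k, f.q (y k) = y0 k) ∧
      ∀ a, ∑ k, ∑ v, T (i (σ' v) * y k * a) • (x k * i (σ v)) = a

/-- RFP: relative Frobenius families from the frame.

Proof.  Frame `(Ω, b, c)` for `V × V`, the stabilisers are twisted diagonals, so `1 × V` acts freely on `Ω`.  `c ω a = lam (s ω * a)` with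
`s ω ∈ H` (nondegenerate, finite-dimensional).  `Z` = representatives of the `1 × V`-orbits: `a = ∑_ω c ω a • b ω =
∑_(κ ∈ Z) ∑_v c ((1,v) κ) a • b κ α v⁻¹`, `c ((1,v) κ) a = c κ (a α v) = lam (s κ a α v) = lam (α v s κ a)`; put `v⁻¹` for `v`:
`e1` for `x κ = b κ`, `y κ = s κ`.  `e2`: PSS row RFE (`H.. rfe`): the second identity follows from the first. -/
def RfpStmt : Prop :=
  ∀ (F V E H : Type) [Field F] [CommGroup V] [Fintype V] [Group E] [Ring H] [Algebra F H]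
    (φ : E →* MulAut V) (α : V →* H) (lam : H →ₗ[F] F), FiniteDimensional F H →
    (∀ a b, lam (a * b) = lam (b * a)) → (∀ a, (∀ b, lam (a * b) = 0) → a = 0) →
    PS (fun K => ∃ (e : E) (R : Subgroup V), K = tw (φ e).toMonoidHom R) (bi F α) →
    ∃ (K : Type) (_ : Fintype K) (x y : K → H), RF F α lam x y

/-- RTU: the relative trace of an element of `F V` of nonzero augmentation is a unit.

Proof.  `B = A(V)` (`S0.BqxStmt`, `Q = ⊤`, `β`), `S0.LmbStmt`/`S0.BpuStmt`: `RF F αB lamB xB yB`, `lamB (β a) = lam a`.  By `PMid.spn` for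
`R = ⊤` (if `V = 1`: `H = F 1` as `H = Cz ⊤` is local... in this case `⊤ ≤ ⊥`; so the statement assumes `V` nontrivial) `B` is the span
of the `αB v`, commutative.  `∑ xB yB = ζ`: `1 = ∑_k G(y_k) x_k` with `G(b) = ∑_v lamB (v⁻¹ b) v = b G(1)`, so `1 = ζ G(1)`: `ζ` is a unit.
`S0.MckStmt` for `Q = ⊤`, `a = ∑ s v • α v`: `β (rt a) = ∑_(t ∈ T) ζ β (n_t a n'_t) = ζ ∑_(t ∈ T) ∑_v s v αB (φ t v)`.  `w = ∑_t ∑_v s v • αB (φ t v)`
has the augmentation `|T| ∑ s v`, `|T| = |φ(E)|` divides `|E|`, not zero in `F`; `(w - |T| ∑ s) ^ (ℓ ^ m) = 0` for `ℓ ^ m = |V|`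
(`B` commutative of characteristic `ℓ`), so `w` is a unit of `B`.  `z = rt a` is central (`S0.ZrtStmt`), so it is in the local ring
`Cz F α ⊤` (finite-dimensional: its elements are units or nilpotent); if `z` is nilpotent, `β z` is a nilpotent unit, `B = 0`,
`1 ∈ BK`, a contradiction to `PMid.one`. -/
def RtuStmt : Prop :=
  ∀ (ℓ : ℕ) [Fact ℓ.Prime] (F V E H K : Type) [Field F] [CharP F ℓ] [CommGroup V] [Fintype V]
    [Group E] [Finite E] [Ring H] [Algebra F H] [Fintype K] (φ : E →* MulAut V) (α : V →* H)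
    (lam : H →ₗ[F] F) (x y : K → H), IsPGroup ℓ V → Nontrivial V → ¬ ℓ ∣ Nat.card E →
    PMid F φ ⊥ α → RF F α lam x y → ∀ s : V → F, ∑ v, s v ≠ 0 →
    IsUnit (∑ k, x k * (∑ v, s v • α v) * y k)

/-- LOC: TOP of part B: the local case.

Proof.  `PMid.frm`: FVP: `lam'`; CFD (`PMid.ps`, `PMid.spn`): `Trc`; SUB: `S`, `i`, `σ`, `cf`; TSF: `σ'`; ZSU: `∑ σ v σ' v = π ^ r z_S`, `z_S` a
unit of `S`.  RDF: `lam0`, nondegenerate and symmetric; RFP: `x0`, `y0`; RFS: `x~`, `y~`; CSI for `X (k,v) = x~ k i(σ v)`, `Y (k,v) =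
i(σ' v) y~ k`, `a = 1`: `∑ x k y k = ∑_k x~ k i(π ^ r z_S) y~ k = π ^ r z`, `z = ∑_k x~ k i(z_S) y~ k`.  `z` is central: TAU (1), TOR.
`q (i z_S) = ∑ s v • α v`, `s v = κ (cf v z_S)`, `∑ s v = eps z_S ≠ 0` (`z_S` is a unit and `eps` is a ring homomorphism: EPS).
`q z = ∑_k x0 k (∑ s v α v) y0 k` is a unit of `H`: RTU; `z` is a unit: UPR (lift the inverse). -/
def LocStmt : Prop :=
  ∀ (ℓ r : ℕ) [Fact ℓ.Prime] (R F V E H Hs K : Type) [CommRing R] [IsDomain R]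
    [IsPrincipalIdealRing R] [CharP R ℓ] [Field F] [CharP F ℓ] [CommGroup V] [Fintype V]
    [Group E] [Finite E] [Ring H] [Algebra F H] [Ring Hs] [Algebra R Hs]
    [Module.Finite R Hs] [Module.Free R Hs] [Fintype K] (c : Cdv R F) (f : FibG Hs H c)
    (φ : E →* MulAut V) (α : V →* H) (lam xx : Fin r → V → F) (t : Fin r → F)
    (T : Hs →ₗ[R] R) (x y : K → Hs), IsPGroup ℓ V → Nontrivial V → (∀ v : V, v ^ ℓ = 1) →
    ¬ ℓ ∣ Nat.card E → PMid F φ ⊥ α → EDat F lam xx t → Rgd ℓ c f α lam xx t →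
    SFr R T x y → ∃ z : Hs, IsUnit z ∧ (∀ a, z * a = a * z) ∧ ∑ k, x k * y k = c.π ^ r • z

end Pool.Agent.PST.ET
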