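import Pool.Agent.PST.DefsK

/-!
# Squad PST (theorem (S+)), rows 100 - 109 (helper36): from the direction to the deformation

Complete proofs in the docstrings.  Notation: `v` for `i (α v)`, `≡` = congruent modulo `i A`,
`u·a = u a u⁻¹`, `N_u a = ∑_(i<ℓ) u^i a u^-i`.
-/

open scoped BigOperators TensorProduct PowerSeries

noncomputable section

namespace Pool.Agent.PST

open Pool.Agent.PFC (tw IsTv)
open Pool.Agent.PFD.D2 (Cdv FibG)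
open Pool.Agent.PFD.D2b (FrR)
open Pool.Agent.PSS
open Dm (cst)

/-- RWT (100): dual families over `W` from dual families over `V` (as RWV, `Helper2_PSS/RWV.lean`).

Proof.  Every element of `V` is `q.out * w` for exactly one pair `q : V ⧸ W`, `w : W`; reindex the sums
over `V`: `x_k v = (x_k q.out) w`, `v⁻¹ y_k = w⁻¹ (q.out⁻¹ y_k)`. -/
def RwtStmt : Prop :=
  ∀ (k V A K : Type) [CommRing k] [CommGroup V] [Fintype V] [Ring A] [Algebra k A]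
    [Fintype K] (W : Subgroup V) [Fintype W] [Fintype (V ⧸ W)] (α : V →* A)
    (lam : A →ₗ[k] k) (x y : K → A), RF k α lam x y →
    RF k (aw α W) lam (fun p : K × (V ⧸ W) => x p.1 * α p.2.out)
      (fun p => α (p.2.out)⁻¹ * y p.1)

/-- GVG (101): the direction over `K` from the direction over `R`.

Proof.  `gen_g` of `Helper84_PSS/GEN.lean` with `n = ℓ` gives `g` with `WBl`, `g 1 = 0`, `d1 g` integral and
`i (v a - v 1 * a) = ℓ • g (i a)`.  `v 1 = ℓ e₁` (`der` for `1, 1`), `v (α u) = α u * h u + ℓ e`, so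
`ℓ g (α u) = i (α u * h u) + ℓ i (e - e₁ * α u)`. -/
def GvgStmt : Prop :=
  ∀ (ℓ : ℕ) [Fact ℓ.Prime] (R K F V A A₀ B κ Ω : Type) [CommRing R] [Field K] [CharZero K]
    [Algebra R K] [Field F] [CommGroup V] [Fintype V] [Ring A] [Algebra R A] [Ring A₀]
    [Algebra F A₀] [Ring B] [Algebra R B] [Algebra K B] [Fintype κ] [Fintype Ω]
    [MulAction (V × V) Ω] (W : Subgroup V) (cv : Cdv R F) (f : FibG A A₀ cv) (α : V →* A)
    (lam : A →ₗ[R] R) (x y : κ → A) (b : Ω → A) (c : Ω → (A →ₗ[R] R))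
    (C : KC R K B α lam x y b c) (v : A →ₗ[R] A) (h : V → A) (D : V → A₀),
    Fov ℓ α W f v h D → ∃ g : B →ₗ[K] B, Fod ℓ C W f g h D

/-- EKF (102): the condition `Ekc` holds for `Fod`.

Proof.  `gh`: `g r = ℓ⁻¹ r h_r + i a`, `i a` commutes with `W` (`WBl`, `hv`), so `a` commutes with `W`
(`C.inj`).  With `γ = g r * r⁻¹ = ℓ⁻¹ h_r + i (a r⁻¹)` (`h_r` commutes with `r`):
`∑_(j<ℓ) d1 g (r^j, r) r^-(j+1) = ∑_(j<ℓ) (r^j γ r^-j - g (r^(j+1)) r^-(j+1) + g (r^j) r^-j) =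
∑_(j<ℓ) r^j γ r^-j` (telescoping, `g (r^ℓ) = r^ℓ g 1 = 0` as `r^ℓ` is in `W`, `g 1 = 0`)
`= h_r + i (∑_(j<ℓ) r^j s r^-j)`, `s = a r⁻¹` commutes with `W`.  So `e = h_r + ∑ r^j s r^-j`,
`f.q e - D r = ∑_(j<ℓ) r^j (q s) r^-j` = the trace of `q s` (fixed by `⟨r^ℓ⟩ ≤ W`) from `⟨r^ℓ⟩` to `⟨r⟩`;
`⟨r^ℓ⟩ < ⟨r⟩` since `r^ℓ` is in `W` and `r` is not, transversal `{r^j | j < ℓ}` (the order of `r` is a power of
`ℓ`; `orderOf (r^ℓ) * ℓ = orderOf r`). -/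
def EkfStmt : Prop :=
  ∀ (ℓ : ℕ) [Fact ℓ.Prime] (R K F V A A₀ B κ Ω : Type) [CommRing R] [Field K] [CharZero K]
    [Algebra R K] [Field F] [CommGroup V] [Fintype V] [Ring A] [Algebra R A] [Ring A₀]
    [Algebra F A₀] [Ring B] [Algebra R B] [Algebra K B] [Fintype κ] [Fintype Ω]
    [MulAction (V × V) Ω] (W : Subgroup V) (cv : Cdv R F) (f : FibG A A₀ cv) (α₀ : V →* A₀)
    (α : V →* A) (lam : A →ₗ[R] R) (x y : κ → A) (b : Ω → A) (c : Ω → (A →ₗ[R] R))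
    (C : KC R K B α lam x y b c) (g : B →ₗ[K] B) (h : V → A) (D : V → A₀), IsPGroup ℓ V →
    (∀ v, f.q (α v) = α₀ v) → (∀ v : V, v ^ ℓ ∈ W) → Fod ℓ C W f g h D → Ekc ℓ C W f α₀ g D

/-- GNQ (108, uses KEX DRQ GVG EKF KEY TGW DMR DMF H1W RWT FMX FSR RED FOX): the family over `R⟦X⟧` and its
reduction.

Proof.  As GEN (`Helper84_PSS/GEN.lean`): `K` = fraction field, KEX: `C`.  DRQ: `v`, `h`, `D`; GVG: `g`.
TGW with `key` = KEY (EKF gives `Ekc`): `P`, `m`, `P 1 = g`; `Stb φ W` is `Chf.sw`, `StE φ Ω` from the stabilisers (as in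
`Helper75_PSS/DTP.lean`, or `stE_of` of `PST/Dzw.lean`).  DMR: `D'`; DMF: `D₀`; `m 1 = d1 g` (BIA, or from `Trv.pm`
in degree 1: `x P₁ y + P₁ x y = P₁ (x y) + m 1 x y`).  H1W: `H1P`; RWT: dual families over `W`; FMX: `Λ`;
FSR: `ys`; RED: `θ`, `Λ₀`.  FOX (`FoxStmt` of `StmtsDR.lean`, helper75): `Reg`. -/
def GnqStmt : Prop :=
  ∀ (ℓ : ℕ) [Fact ℓ.Prime] (R F V E A A₀ κ Ω : Type) [CommRing R] [IsDomain R]
    [IsPrincipalIdealRing R] [CharZero R] [Field F] [IsAlgClosed F] [CharP F ℓ] [CommGroup V]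
    [Fintype V] [Group E] [Fintype E] [Ring A] [Algebra R A] [Module.Finite R A] [Module.Free R A]
    [Ring A₀] [Algebra F A₀] [Fintype κ] [Fintype Ω] [MulAction (V × V) Ω]
    (φ : E →* MulAut V) (W : Subgroup V) [Fintype W] (cv : Cdv R F) (f : FibG A A₀ cv)
    (α₀ : V →* A₀) (lam₀ : A₀ →ₗ[F] F) (x₀ y₀ : κ → A₀) (b₀ : Ω → A₀) (c₀ : Ω → (A₀ →ₗ[F] F))
    (α : V →* A) (lam : A →ₗ[R] R) (x y : κ → A) (b : Ω → A) (c : Ω → (A →ₗ[R] R)) (u : A),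
    IsPGroup ℓ V → ¬ ℓ ∣ Nat.card E → cv.π = (ℓ : R) → Chf ℓ φ W → Cl F φ α₀ →
    (∀ ω : Ω, ∃ (e : E) (S : Subgroup V),
      MulAction.stabilizer (V × V) ω = tw (φ e).toMonoidHom S) →
    FrR (bw F α₀) b₀ c₀ → RF F α₀ lam₀ x₀ y₀ →
    LiftV cv α₀ lam₀ x₀ y₀ b₀ c₀ f α lam x y b c → u * rt x y 1 = 1 →
    ∃ (D' : Dm R (aw α W)) (D₀ : Dm F (aw α₀ W)) (θ : D'.R →+* D₀.R)
      (Λ : D'.R →ₗ[PowerSeries R] PowerSeries R) (Λ₀ : D₀.R →ₗ[F⟦X⟧] F⟦X⟧) (κ' : Type)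
      (_ : Fintype κ') (xs ys : κ' → D'.R),
      (∀ n a a', f.q (D'.m n a a') = D₀.m n (f.q a) (f.q a')) ∧
      (∀ g, θ (D'.of g) = D₀.of (fun n => f.q (g n))) ∧ (∀ w, θ (D'.w w) = D₀.w w) ∧
      Function.Surjective θ ∧ RF (PowerSeries R) D'.w Λ xs ys ∧
      (∀ g, PowerSeries.constantCoeff (Λ (D'.of g)) = lam (g 0)) ∧
      (∀ a, Λ₀ (θ a) = PowerSeries.map cv.κ (Λ a)) ∧
      RF F⟦X⟧ D₀.w Λ₀ (fun k => θ (xs k)) (fun k => θ (ys k)) ∧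
      Reg ℓ F φ α₀ W D₀.w (fun Z => D₀.sq Z 0) ∧
      ∃ (KK BB : Type) (_ : Field KK) (_ : CharZero KK) (_ : Algebra R KK) (_ : Ring BB)
        (_ : Algebra R BB) (_ : Algebra KK BB) (C : KC R KK BB α lam x y b c)
        (P : ℕ → (BB →ₗ[KK] BB)) (m : ℕ → (BB →ₗ[KK] BB →ₗ[KK] BB)),
        Trv (ia C.i α) W P m ∧ ∀ n a₁ a₂, C.i (D'.m n a₁ a₂) = m n (C.i a₁) (C.i a₂)

/-- DTQ (109, uses LFT GNQ PER SPF FRE RMP S3.UNX): `DtqStmt` (of `DefsT.lean`).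

Proof.  As `Helper75_PSS/DTP.lean`: `R` = Witt vectors, `cv = wittCdv ℓ F` (`cv.π = ℓ` by definition, see
`Pool.Agent.PFD.Witt`), LFT, GNQ.  `As = D₀.R`, `γ = D₀.w`, `q = π₀` of SPF (`π₀ a = D₀.sq a 0`), `lam = Λ₀`,
`x = θ xs`, `y = θ ys`.  `Dpt`: `per` by PER, `uni` as in DTP (units `D₀.of (cst n)`), `lr`:
`constantCoeff (Λ₀ (D₀.of g)) = lam₀ (g 0)` as in GEN.  `Olf`: the data of GNQ; `θs` and `θk`: with the `ψ` of
RMP, which is equal to `θ` (both are given by `D'.of g ↦ D₀.of (q ∘ g)`). -/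
def DtsStmt : Prop := DtqStmt

end Pool.Agent.PST
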