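import Pool.Agent.PST.DefsGR

/-!
# Squad PST, block GR: from the steps to the group level

1. ATQ: the theorem for algebras from the steps STP, STQ and the base case BAS.
2. KNF, STK: from the class `KT` to the chains of `ATQ`; STO for `KT`.
3. MCA, LST, ADT: `KT` is admissible.  ECA: existence of the chain if `E` is abelian.
4. CLT, CAB, FNT: the final theorem.

Complete proofs in the docstrings; a row may take the rows which it uses as hypotheses.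
-/

open scoped BigOperators

noncomputable section

namespace Pool.Agent.PST

open Pool.Agent.Helper51_AWC Pool.Agent.Helper79_WRA Pool.Agent.PP Pool.Agent.PP.KF
open Pool.Agent.PP.K9 Pool.Agent.PP.K9.H97 Pool.Agent.PP.H75 Pool.Agent.PP.T3 Pool.Agent.PP.T2
open Pool.Agent.PFD (Ei)
open Pool.Agent.PSS

attribute [local instance] Ideal.Quotient.field

/-! ## 1. Algebras -/

/-- ATQ: the iteration.

Proof.  Edit of `PSS.ats` (`Pool/Agent/PSS/Ats.lean`): the step `n + 1` gives `W'`, `ψ'` and either `Y` with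
`Cyf φ Y W'` (use `stp`) or `Chf ℓ φ W'` (use `stq`, the same output). -/
def AtqRow : Prop := StpStmt → StqStmt → BasStmt → AtqStmt

/-! ## 2. The class KT and the chains -/

/-- KNF: from `ChA`, `Frw` to `Chn`, `Fre`.

Proof.  Claim by induction on `ChA ℓ E P W` (as `claim` in `Helper69_PSS/CYP.lean`): for every commutative
group `V₁`, `φ : E₁ →* MulAut V₁`, injective `i : V₁ →* V` with `i.range = P`, such that
`∀ x, ∃ a ∈ E, ∀ v, i (φ x v) = a (i v)`, there is `n` with `Chn ℓ n V₁ E₁ φ (W.comap i)`.  `refl`: `n = 0`.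
`step P P' W`: `W' = P'.comap i` (it is stable: `StA.st`), `ψ` the restriction of `φ` to `W'` (`rsh` in
`Helper69_PSS/CYP.lean`).  Cyclic case: `Cyf φ (Y.comap i) W'` (as in `claim` there; `Y ≤ P = i.range`).  Other
case: `Chf ℓ φ W'`: `pw` from `v ^ ℓ ∈ P'`, `fr`: `i (φ e v * v⁻¹) = a (i v) * (i v)⁻¹`; `ab`: `i` is
injective, `i (φ e (φ f v)) = a (b (i v))`.  `W.comap i ≤ W'` as `W ≤ P'` (an induction on `ChA`).  The
induction hypothesis for `W'`, `i.comp W'.subtype` (its range is `P'`, as `P' ≤ P`), and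
`W.comap (i.comp W'.subtype) = (W.comap i).subgroupOf W'`.  Apply the claim to `V₁ = V`, `i = id`, `P = ⊤`.
`ψ = rsh E.subtype W _` (`W = U ⊔ X` is stable), `Fre ψ` with `U.subgroupOf W`, `X.subgroupOf W`: as in the
last part of `cyp` there. -/
def KnfStmt : Prop := ∀ (ℓ : ℕ) (V : Type) [CommGroup V] [Finite V] (E : Subgroup (MulAut V))
  (W U X : Subgroup V), ChA ℓ E ⊤ W → Frw E W U X →
  ∃ (n : ℕ) (ψ : E →* MulAut W), Chn ℓ n V E E.subtype W ∧ IsRs E.subtype W ψ ∧ Fre ψ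

/-- STK: the input of the group level, for the class `KT`.

Proof.  Edit of `stoalg` (`Helper4_PSS/STO.lean`): `KnfStmt` instead of `CypStmt`, `AtqStmt` instead of
`AtsStmt` (hypotheses ClgStmt JnwStmt NwgStmt DzcStmt PFC.JexStmt as there, KnfStmt). -/
def StkStmt : Prop := AtqStmt → StoFor KT

/-! ## 3. The class is admissible -/

/-- MCA: the image of a chain.

Proof.  `W ≤ P'` for every intermediate `P'` (induction on `ChA`), so `π.ker ≤ P'`.  Induction on `ChA`: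
`StA ℓ E P P'` and `π.ker ≤ P'` imply `StA ℓ E' (P.map π) (P'.map π)`.  `st`: `Qr.lif`.  Cyclic case: `Y.map π`;
if `π y = π p'` then `y ∈ P' ker π = P'`, so `y = 1`; `(Y ⊔ P').map π = Y.map π ⊔ P'.map π`.  Other case:
`π v ∈ P'.map π` implies `v ∈ P'` (as `π.ker ≤ P'`); `a' (π v) = π (a v)`,
`a' (b' (π v)) = π (a (b v)) = π (b (a v))`. -/
def McaStmt : Prop := ∀ (ℓ : ℕ) (V V' : Type) [Group V] [Group V'] (E : Subgroup (MulAut V))
  (E' : Subgroup (MulAut V')) (π : V →* V'), Qr E E' π → ∀ P W : Subgroup V, ChA ℓ E P W →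
  π.ker ≤ W → ChA ℓ E' (P.map π) (W.map π)

/-- LST: a chain down to `1` can be stopped at a subgroup with a free action.

Proof.  Induction on `ChA ℓ E P ⊥` (generalise `⊥` to `W` with `W = ⊥`).  `refl`: `P = ⊥`, excluded.
`step P P' ⊥`: if `P' ≠ ⊥` use the induction hypothesis for `P'` (stable by `StA.st`) and `ChA.step`.  Let
`P' = ⊥`; `W = U = P`, `X = ⊥`, `ChA.refl`.  `fr`: let `a ∈ E` fix `u ≠ 1` in `P`.  Cyclic case: `P = Y` is cyclic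
with the generator `y`, `a y = y ^ k`, `u = y ^ j`, so `a y = y` by `H49.fix_cyc` (`Helper49_PSS/TWN.lean`) and
`a` fixes `P`.  Other case: `a u * u⁻¹ = 1 ∈ ⊥`, so `a w * w⁻¹ ∈ ⊥` for all `w ∈ P`. -/
def LstStmt : Prop := ∀ (ℓ : ℕ) (V : Type) [Group V] [Finite V] (E : Subgroup (MulAut V)),
  ℓ.Prime → IsPGroup ℓ V → ¬ ℓ ∣ Nat.card E → ∀ P : Subgroup V, P ≠ ⊥ →
  (∀ a ∈ E, ∀ u ∈ P, a u ∈ P) → ChA ℓ E P ⊥ → ∃ W U X : Subgroup V, ChA ℓ E P W ∧ Frw E W U X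

/-- ADT: the class `KT` is admissible.

Proof.  As `H10.ads` (`Helper10_PSS/ADS.lean`, with the lemmas `qr_comm`, `qr_card`).  `nt`: `U ≤ W`, `U ≠ ⊥`.
`st`: `W = U ⊔ X`.  `iso`: MCA for `π.toMonoidHom` (`π.ker = ⊥`, `(⊤ : Subgroup V).map π = ⊤`), and the
image of `Frw`.  `quo`: MCA gives `ChA ℓ E' ⊤ (W.map π) = ChA ℓ E' ⊤ ⊥` (`π.ker = W`); LST for `P = ⊤`
(`¬ ℓ ∣ Nat.card E'`: `qr_card`; `V'` is an `ℓ`-group: `IsPGroup.of_surjective`). -/
def AdtStmt : Prop := ∀ ℓ : ℕ, ℓ.Prime → Adm ℓ KT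

/-- ECA: the chain for an abelian group of operators.

Proof.  Strong induction on `Nat.card P`.  (1) Suppose that there is no stable subgroup `Q` with
`⊥ < Q < P`.  `W = U = P`, `X = ⊥`; if `a ∈ E` fixes `u ≠ 1` in `P` then `{v ∈ P | a v = v}` is a subgroup, stable
(`a (b v) = b (a v)`), not `⊥`, so it is `P`.  (2) Otherwise choose a stable `P'`, `⊥ < P' < P`, of maximal
order.  Every stable `Q` with `P' < Q ≤ P` is `P`.  `StA ℓ E P P'` (second case): the subgroup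
`{v ∈ P | v ^ ℓ ∈ P'}` (`V` is commutative) is stable, contains `P'`, and is not `P'`: take `v ∈ P`, `v ∉ P'`, and
the least `k` with `v ^ (ℓ ^ k) ∈ P'` (`V` is an `ℓ`-group), `k ≥ 1`, and `v ^ (ℓ ^ (k - 1))`.  So it is `P`.  For
`a ∈ E` the subgroup `{v ∈ P | a v * v⁻¹ ∈ P'}` is stable (`b (a v * v⁻¹) = a (b v) * (b v)⁻¹`) and contains `P'`;
if it contains some `v ∉ P'` then it is `P`.  Induction hypothesis for `P'`. -/
def EcaStmt : Prop := ∀ (ℓ : ℕ) (V : Type) [Group V] [Finite V] (E : Subgroup (MulAut V)),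
  ℓ.Prime → ℓ ≠ 2 → IsPGroup ℓ V → (∀ a b : V, a * b = b * a) →
  (∀ a ∈ E, ∀ b ∈ E, ∀ v, a (b v) = b (a v)) → ∀ P : Subgroup V, P ≠ ⊥ →
  (∀ a ∈ E, ∀ u ∈ P, a u ∈ P) → ∃ W U X : Subgroup V, ChA ℓ E P W ∧ Frw E W U X

/-! ## 4. The final theorem -/

/-- CLT: from the clean hypotheses to the class.

Proof.  As `H44.cln` (`Helper44_PSS/CLN.lean`): `E = Ei V γ`, `¬ ℓ ∣ Nat.card E`; every `a ∈ E` is induced by
some `t ∈ Tg V γ`, so a subgroup of `G` normalised by `Tg V γ` has a stable trace on `V`.  `p i =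
(P i).subgroupOf V` for `i ≤ n` (`P i ≤ P 0 = V`), `StA ℓ E (p i) (p (i + 1))` for `i < n` (`Y.subgroupOf V`,
`Y ≤ P i ≤ V`; `(Y ⊔ P (i + 1)).subgroupOf V = Y.subgroupOf V ⊔ ..`: `Subgroup.subgroupOf_sup`;
`a (b v) = s t v (s t)⁻¹`), `p 0 = ⊤`, so `ChA ℓ E ⊤ (p n)` (show
`ChA ℓ E (p i) (p n)` for `i ≤ n` by downward induction, or `∀ k ≤ n, ChA ℓ E (p (n - k)) (p n)`).  If
`P n = ⊥`: `p n = ⊥`, LST for `P = ⊤` (`V ≠ ⊥`).  If `P n ≠ ⊥`: `U ≠ ⊥`; `relEdf` in `Helper44_PSS/CLN.lean`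
(from `PFD.EdfStmt`) for `U.subgroupOf V ≤ p n` gives `Frw E (p n) U' X'`. -/
def CltStmt : Prop := ∀ (ℓ : ℕ) [Fact ℓ.Prime] (M : Ideal (integralClosure ℤ ℂ)) [M.IsMaximal],
  (ℓ : integralClosure ℤ ℂ) ∈ M → ∀ (G : Type) [Group G] [Finite G] (e : G → FF M)
  (V : Subgroup G) (γ : G → FF M), Ld ℓ e V γ → V ≠ ⊥ → ∀ (n : ℕ) (P : ℕ → Subgroup G)
  (U : Subgroup G), ClT ℓ (Tg V γ : Set G) V n P U → ∃ W₀ : Subgroup V, KT ℓ V (Ei V γ) W₀

/-- CAB: an abelian inertial quotient.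

Proof.  ECA for `V`, `E = Ei V γ`, `P = ⊤` (`V ≠ ⊥`; `hL.tp.pg`; `hL.ab`): `a`, `b ∈ E` are induced by `s`, `t ∈
Tg V γ`, and `(s t) v (s t)⁻¹ = (t s) v (t s)⁻¹` because `s t = c t s` with `c = s t s⁻¹ t⁻¹ ∈ C(V)` and
`t s` normalises `V`. -/
def CabStmt : Prop := ∀ (ℓ : ℕ) [Fact ℓ.Prime] (M : Ideal (integralClosure ℤ ℂ)) [M.IsMaximal],
  (ℓ : integralClosure ℤ ℂ) ∈ M → ℓ ≠ 2 → ∀ (G : Type) [Group G] [Finite G] (e : G → FF M)
  (V : Subgroup G) (γ : G → FF M), Ld ℓ e V γ → V ≠ ⊥ →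
  (∀ s ∈ Tg V γ, ∀ t ∈ Tg V γ, s * t * s⁻¹ * t⁻¹ ∈ Subgroup.centralizer (V : Set G)) →
  ∃ W₀ : Subgroup V, KT ℓ V (Ei V γ) W₀

/-- FNT: the final theorem.

Proof.  Edit of `PSS.H66.fns` (`Helper66_PSS/Fns.lean`): hypotheses `MnnFor KT`, `CltStmt`, `CabStmt`,
`T3.FltStmt`, `T3.PsgStmt`; `hTg` rewrites `Iner M D th` to `Tg D γ` in both cases. -/
def FntStmt : Prop := ∀ (ℓ : ℕ) [Fact ℓ.Prime] (M : Ideal (integralClosure ℤ ℂ)) [M.IsMaximal],
  (ℓ : integralClosure ℤ ℂ) ∈ M → ∀ (G : Type) [Group G] [Finite G],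
  opCore ℓ G ≤ Subgroup.center G → ∀ χ ∈ Irr G, ∀ (H : Type) [Group H] (p : G →* H),
  Function.Surjective p → p.ker ≤ opCore ℓ G → ∀ ψ ∈ Irr H,
  (∀ g : G, Cong M (omega (MonoidHom.id G) (fun x => ψ (p x)) g)
    (omega (MonoidHom.id G) χ g)) →
  ∀ D : Subgroup H, ML.IsDef ℓ M ψ D → D ≠ (opCore ℓ G).map p →
  (∀ x ∈ D, ∀ y ∈ D, x * y = y * x) →
  ∀ th ∈ IrrBlock M (Subgroup.centralizer (D : Set H)).subtype ψ,
  ((∃ (n : ℕ) (P : ℕ → Subgroup H) (U : Subgroup H), ClT ℓ (Iner M D th) D n P U) ∨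
    (ℓ ≠ 2 ∧ ∀ s ∈ Iner M D th, ∀ t ∈ Iner M D th,
      s * t * s⁻¹ * t⁻¹ ∈ Subgroup.centralizer (D : Set H))) →
  altSum ℓ M χ = 0

end Pool.Agent.PST
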