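import Pool.Agent.PST.StmtsGR
import Pool.Agent.PSS.StmtsBR
import Pool.Agent.ATW.Rank2

/-!
# Squad PST, block GU (helper3): the group level of the union with theorem (R)

* `Kt`: classes of pairs `(V, E)` (terminal classes), `AdT ℓ L`: closed under quotients; `YkFor L`: the
  alternating sum of every block with the defect group `V ≠ 1` and `(V, E)` in `L` is zero.  Example `LR`:
  abelian groups of rank at most two (`TW.rk2_blk`).
* `Kf L`: `W = V`, `(V, E) ∈ L`.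
* `K3 L`: `V = C × W × U`, `C` is a direct product of `E`-stable groups of order `ℓ`, `|W| = ℓ`, `(U, E) ∈ L`,
  and the centraliser in `E` of every factor of `C × W` acts freely on `U` (`Yu`).
* `KU K L`: the union of the admissible class `K` (`KS` or `KT`) with `Kf L`, `K3 L`.

1. YKR: the known theorem for `LR`.  YMT, LET, STT: from `YkFor L` to `StoFor (Kf L)`.
2. K3R, STR: `StoFor (K3 L)` from theorem (R) for algebras.
3. YUM, CYM, RSQ, SUI, SUQ, ADV: `KU K L` is admissible.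
4. CLU: clean hypotheses.  FNK: the final theorem for a class `K`; FVS, KSK, FVT: the final theorems.

Complete proofs in the docstrings; a row may take the rows which it uses as hypotheses.
-/

open scoped BigOperators

noncomputable section

namespace Pool.Agent.PST.GU

open Pool.Agent.Helper51_AWC Pool.Agent.Helper79_WRA Pool.Agent.PP Pool.Agent.PP.KF
open Pool.Agent.PP.K9 Pool.Agent.PP.K9.H97 Pool.Agent.PP.H75 Pool.Agent.PP.T3 Pool.Agent.PP.T2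
open Pool.Agent.PFD (Ei)
open Pool.Agent.PSS

attribute [local instance] Ideal.Quotient.field

/-! ## Definitions -/

/-- a class of pairs `(V, E)`, for every prime `ℓ` -/
abbrev Kt : Type 1 := ℕ → ∀ (V : Type) [Group V], Subgroup (MulAut V) → Prop

/-- the class is closed under isomorphisms, subgroups of `E` and quotients -/
structure AdT (ℓ : ℕ) (L : Kt) : Prop where
  iso : ∀ (V V' : Type) [Group V] [Group V'] (E : Subgroup (MulAut V)) (E' : Subgroup (MulAut V'))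
    (π : V ≃* V'), Qr E E' π.toMonoidHom → L ℓ V E → L ℓ V' E'
  quo : ∀ (V V' : Type) [Group V] [Finite V] [Group V'] [Finite V'] (E : Subgroup (MulAut V))
    (E' : Subgroup (MulAut V')) (π : V →* V'), IsPGroup ℓ V → ¬ ℓ ∣ Nat.card E →
    (∀ a b : V, a * b = b * a) → Qr E E' π → L ℓ V E → (∃ v : V', v ≠ 1) → L ℓ V' E'

/-- the theorem is known for the class `L` -/
def YkFor (L : Kt) : Prop := ∀ (ℓ : ℕ) [Fact ℓ.Prime] (M : Ideal (integralClosure ℤ ℂ))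
  [M.IsMaximal], (ℓ : integralClosure ℤ ℂ) ∈ M → ∀ (G : Type) [Group G] [Finite G]
  (e : G → FF M) (V : Subgroup G) (γ : G → FF M), Ld ℓ e V γ → V ≠ ⊥ → L ℓ V (Ei V γ) →
  YY ℓ ⊤ e = 0

/-- the conclusion of YMT -/
def MntFor (L : Kt) : Prop := ∀ (ℓ : ℕ) [Fact ℓ.Prime] (M : Ideal (integralClosure ℤ ℂ))
  [M.IsMaximal], (ℓ : integralClosure ℤ ℂ) ∈ M → ∀ (G : Type) [Group G] [Finite G]
  (e : G → FF M) (V : Subgroup G) (γ : G → FF M), Ld ℓ e V γ → L ℓ V (Ei V γ) →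
  ∀ (A : Type) [Group A] [Finite A] (p : G →* A), Function.Surjective p → p.ker ≤ V →
  p.ker ≠ V → YY ℓ ⊤ (push p e) = 0

/-- the conclusion of LET -/
def LetFor (L : Kt) : Prop := ∀ (ℓ : ℕ) [Fact ℓ.Prime] (M : Ideal (integralClosure ℤ ℂ))
  [M.IsMaximal], (ℓ : integralClosure ℤ ℂ) ∈ M → ∀ (G : Type) [Group G] [Finite G]
  (e : G → FF M) (V : Subgroup G) (γ : G → FF M), Ld ℓ e V γ → L ℓ V (Ei V γ) →
  ln e = ln (fun t : Subgroup.normalizer (V : Set G) => br V e t)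

/-- the terminal class as a class of triples: `W = V` -/
def Kf (L : Kt) : Kl := fun ℓ V _ E W => W = ⊤ ∧ W ≠ ⊥ ∧ L ℓ V E

/-- abelian `ℓ`-groups of rank at most two -/
def LR : Kt := fun ℓ V _ _ => TW.R2 ℓ V

/-- the automorphisms of the stable subgroup `U` which are induced by elements of `E` -/
def rse {V : Type} [Group V] (E : Subgroup (MulAut V)) (U : Subgroup V) :
    Subgroup (MulAut U) where
  carrier := {a' | ∃ a ∈ E, ∀ u : U, ((a' u : U) : V) = a u}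
  one_mem' := ⟨1, E.one_mem, fun _ => rfl⟩
  mul_mem' := by
    rintro x y ⟨a, ha, h1⟩ ⟨b, hb, h2⟩
    refine ⟨a * b, E.mul_mem ha hb, fun u => ?_⟩
    rw [MulAut.mul_apply, MulAut.mul_apply, h1, h2]
  inv_mem' := by
    rintro x ⟨a, ha, h1⟩
    refine ⟨a⁻¹, E.inv_mem ha, fun u => ?_⟩
    have h2 : x (x⁻¹ u) = u := by
      rw [← MulAut.mul_apply, mul_inv_cancel, MulAut.one_apply]
    have h3 := h1 (x⁻¹ u)
    rw [h2] at h3
    rw [h3, ← MulAut.mul_apply, inv_mul_cancel, MulAut.one_apply]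

/-- `Y` is `E`-stable of order `ℓ`, and its centraliser in `E` acts freely on `U` -/
structure Yu (ℓ : ℕ) {V : Type} [Group V] (E : Subgroup (MulAut V)) (U Y : Subgroup V) :
    Prop where
  cd : Nat.card Y = ℓ
  st : ∀ a ∈ E, ∀ y ∈ Y, a y ∈ Y
  fr : ∀ a ∈ E, (∀ y ∈ Y, a y = y) → ∀ u ∈ U, u ≠ 1 → a u = u → ∀ x ∈ U, a x = x

/-- a direct product of subgroups `Y` with `Yu` -/
inductive Cyu (ℓ : ℕ) {V : Type} [Group V] (E : Subgroup (MulAut V)) (U : Subgroup V) :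
    Subgroup V → Prop
  | bot : Cyu ℓ E U ⊥
  | mul (C Y : Subgroup V) : Cyu ℓ E U C → Yu ℓ E U Y → C ⊓ Y = ⊥ → Cyu ℓ E U (C ⊔ Y)

/-- `V = C × W × U` -/
structure Su (L : Kt) (ℓ : ℕ) {V : Type} [Group V] (E : Subgroup (MulAut V))
    (C W U : Subgroup V) : Prop where
  ab : ∀ a b : V, a * b = b * a
  cy : Cyu ℓ E U C
  yw : Yu ℓ E U W
  su : ∀ a ∈ E, ∀ u ∈ U, a u ∈ U
  nt : U ≠ ⊥
  cw : C ⊓ W = ⊥
  cu : (C ⊔ W) ⊓ U = ⊥
  jn : C ⊔ W ⊔ U = ⊤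
  tm : L ℓ U (rse E U)

/-- the class of theorem (R) over the terminal class `L` -/
def K3 (L : Kt) : Kl := fun ℓ _ _ E W => ∃ C U, Su L ℓ E C W U

/-- the union -/
def KU (K : Kl) (L : Kt) : Kl := fun ℓ V _ E W => K ℓ V E W ∨ Kf L ℓ V E W ∨ K3 L ℓ V E W

/-- The clean hypotheses: `D` is the direct product of the subgroups `Y i` of order `ℓ` and of `U`, which
has two generators, all factors are normalised by `T`, and an element of `T` which centralises some `Y i`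
and commutes with some `u ≠ 1` in `U` centralises `U`. -/
structure ClU (ℓ : ℕ) {H : Type} [Group H] (T : Set H) (D : Subgroup H) (s : ℕ)
    (Y : Fin s → Subgroup H) (U : Subgroup H) : Prop where
  jn : (⨆ i, Y i) ⊔ U = D
  dy : ∀ i, Y i ⊓ (⨆ j, ⨆ (_ : j < i), Y j) = ⊥
  du : (⨆ i, Y i) ⊓ U = ⊥
  cd : ∀ i, Nat.card (Y i) = ℓ
  gn : ∃ x y : H, U = Subgroup.closure {x, y}
  sy : ∀ i, ∀ t ∈ T, ∀ y ∈ Y i, t * y * t⁻¹ ∈ Y i
  su : ∀ t ∈ T, ∀ u ∈ U, t * u * t⁻¹ ∈ U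
  fr : ∀ i, ∀ t ∈ T, (∀ y ∈ Y i, t * y = y * t) → ∀ u ∈ U, u ≠ 1 → t * u = u * t →
    t ∈ Subgroup.centralizer (U : Set H)

/-! ## 1. Terminal classes -/

/-- YKR: the known theorem for the groups of rank at most two.

Proof.  `TW.rk2_blk` (`Pool/Agent/ATW/Rank2b.lean`) with `hT := fun ℓ => TW.tt_ ℓ` (`ATW/AsmT.lean`; a
hypothesis `∀ ℓ [Fact ℓ.Prime], TW.Tt ℓ` is also fine) and `hS : SE.S2fStmt` (hypothesis, or `SE.s2f_`,
`Helper98_ASE/Asm.lean`).  `Pos ℓ e ⊤`: `T3.PosStmt` (`V ≠ ⊥`, `hL.tp.pg`, `hL.tp.gd`). -/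
def YkrStmt : Prop := YkFor LR

/-- ADR: the class of the groups of rank at most two is closed under quotients.

Proof.  `iso`: `TW.r2_subCl ℓ` for `π.symm`.  `quo`: `V` is commutative; `TW.gen_of`: two generators
`x`, `y` of `V`; `π x`, `π y` generate `V'`; `TW.ncard_le`; `V'` is finite, commutative, an `ℓ`-group
(`IsPGroup.of_surjective`).  (`ℓ` is a prime.) -/
def AdrStmt : Prop := ∀ ℓ : ℕ, ℓ.Prime → AdT ℓ LR

/-- YMT: the images of a block under `G → G/Q`, `Q < V`.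

Proof.  `PFD.YadStmt` (as in `Helper16_PSS/MNN.lean`) for `p`, `e`: let `f` be a block of `A`,
`mulF (push p e) f = f`.  `QrqStmt` for `W = p.ker` (normal, `≤ V`): `γ'`, `π : V →* V.map p` with
`π.ker = p.ker.subgroupOf V`, `Qr (Ei V γ) (Ei (V.map p) γ') π`.  `V.map p ≠ ⊥` because `p.ker ≠ V` (if `V.map p = ⊥`
then `V ≤ p.ker`).  `AdT.quo` (`¬ ℓ ∣ Nat.card (Ei V γ)`: as in the case `W` normal in
`Helper11_PSS/LEN.lean`, from `PFD.LkeStmt`, `K9.InxStmt`), `YkFor L`. -/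
def YmtStmt : Prop := ∀ L : Kt, (∀ ℓ : ℕ, ℓ.Prime → AdT ℓ L) → YkFor L → MntFor L

/-- LET: the number of modular characters.

Proof.  As `Helper16_PSS/MNN.lean` for `A = G`, `p = MonoidHom.id G`.  `V = ⊥`: see the first case in
`Helper11_PSS/LEN.lean`.  `V ≠ ⊥`: `YY ℓ ⊤ e = 0` by `MntFor L` for the identity (`p.ker = ⊥ ≠ V`;
`push id e = e`, or work with `push (MonoidHom.id G) e`).  `hY`: for an `ℓ`-subgroup `R ≠ ⊥`, `Nat.card R < Nat.card V`,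
`YQ ℓ e R = 0`: YAD, BNR and the class of `(conjS g V).subgroupOf N(R)` as in MNN (QRJ, QRX, `AdT.iso`), and
instead of the induction hypothesis `MntFor L` for `N(R)`, `c` and `N(R) → N(R)/R`.  `PFD.ChrStmt`:
`0 = YY ℓ ⊤ (push p e) = |A| (ln e - ln (br_V e|N(V)))`, so `ln e = ln ..` (`|A| ≠ 0`). -/
def LetStmt : Prop := ∀ L : Kt, (∀ ℓ : ℕ, ℓ.Prime → AdT ℓ L) → MntFor L → LetFor L

/-- STT: the numbers of ordinary characters (`W = V`, `N(W) = N(V)`).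

Proof.  `Kf L`: `(W.subgroupOf V) = ⊤`, so `W = V`; `subst`.  Let `N = N(V)`, `c` as in `StoFor`.  The reverse of the
case `W` not normal of `Helper11_PSS/LEN.lean`: `TW.StaStmt` for `e` and for `c`: `b`, `b'`; KSM for both: `iz
|Irr e| = ∑_v cz(v) ln (b v)`, `iz' |Irr c| = ∑_v' cz'(v') ln (b' v')`; `iz = iz'`, `cz' = cz` (IZX for `X = N ≥ Tg V
γ`: `T` normalises `V`).  For every `v ∈ V`: `ln (b v) = lnum (Tg V γ ⊓ Cu v) γ` (the lemma `claim` of LEN, with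
`LetFor L` instead of the induction hypothesis: LSB, QRX, `AdT.iso`, FRT, LTX), and in the same way
`ln (b' (π v)) = lnum (Tg V γ ⊓ Cu v) γ` (`hK2` there).  So `iz |Irr e| = iz |Irr c|`, `iz > 0`. -/
def SttStmt : Prop := ∀ L : Kt, (∀ ℓ : ℕ, ℓ.Prime → AdT ℓ L) → LetFor L → StoFor (Kf L)

/-! ## 2. The input from theorem (R) -/

/-- the property of `AtgStmt Rtp` as a property of `(V, E, W)` -/
def Rt3 : PrV := fun V E _ _ φ W => ∃ (n : ℕ) (T : Subgroup V) (ψ : E →* MulAut T), W ≤ T ∧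
  (∀ e : E, ∀ w ∈ W, φ e w ∈ W) ∧ Cyp n V E φ T ∧ IsRs φ T ψ ∧
  BR.Rtp T E ψ (W.subgroupOf T)

/-- K3R: from the class `K3 L` to the property `Rt3`.

Proof.  `C`, `U` with `Su L ℓ E C W U`; `letI` the structure of a commutative group is given.  `Cyc E C`: by
induction on `Cyu ℓ E U C` (a group of prime order is cyclic: `isCyclic_of_prime_card`; `ℓ` is a prime).
`T = W ⊔ U`, stable; `C ⊓ T = ⊥` (`c = w u` implies `u = w⁻¹ c ∈ (C ⊔ W) ⊓ U = ⊥`, `c = w ∈ C ⊓ W = ⊥`), `C ⊔ T = ⊤`.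
`H69.claim` (`Helper69_PSS/CYP.lean`) for `V₁ = V`, `i = id`, `W₁ = T` (see `H69.cyp` there): `n` with `Cyp n V E
E.subtype T`.  `ψ = H69.rsh E.subtype T _`.  `Rtp T E ψ (W.subgroupOf T)`: `Nat.card (W.subgroupOf T) = ℓ`; the
complement `U.subgroupOf T` (`W ⊓ U = ⊥`, as in `H69.cyp`), not `⊥`; stable; if `e` is trivial on `W` and
fixes `u ≠ 1` in `U` then it is trivial on `U` (`Yu.fr`) and so on `T = W ⊔ U`. -/
def K3rStmt : Prop := ∀ (L : Kt) (ℓ : ℕ) (V : Type) [CommGroup V] [Finite V]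
  (E : Subgroup (MulAut V)) (W : Subgroup V), ℓ.Prime → IsPGroup ℓ V → ¬ ℓ ∣ Nat.card E →
  K3 L ℓ V E W → Rt3 V E E.subtype W

/-- STR: the input of the group level for the class `K3 L`.

Proof.  `AllS6.stogen_ Rt3 (K3 L)` (`Pool/Agent/PSS/AllS6.lean`): its first hypothesis is K3R (if `ℓ` is not
available as a prime there: from `Yu.cd`, `Nat.card W = ℓ`, `W ≤ V`, `IsPGroup ℓ V` one gets `ℓ = 1` or a prime;
see the note below), `BsgStmt Rt3` from `AtgStmt BR.Rtp`: unfold.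

Note: `stogen_` has the hypothesis `∀ ℓ V E W, IsPGroup ℓ V → ¬ ℓ ∣ Nat.card E → K ℓ V E W → P V E E.subtype W` without
`ℓ.Prime`.  Apply it to the class `K' := fun ℓ V _ E W => ℓ.Prime ∧ K3 L ℓ V E W`; `StoFor K'` implies `StoFor (K3 L)`
(`StoFor` has `[Fact ℓ.Prime]`). -/
def StrStmt : Prop := AtgStmt BR.Rtp → ∀ L : Kt, StoFor (K3 L)

/-! ## 3. The union is admissible -/

/-- YUM: the image of a factor.

Proof.  `π` is injective on `Y ⊔ U` (kernel `⊥`).  `cd`: `Y ≃ Y.map π`.  `st`: `Qr.lif`.  `fr`: `a'` is induced by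
`a ∈ E`; if `a'` is trivial on `π(Y)` then `π (a y) = π y`, `a y ∈ Y`, so `a y = y`; in the same way for `U`. -/
def YumStmt : Prop := ∀ (ℓ : ℕ) (V V' : Type) [Group V] [Group V'] (E : Subgroup (MulAut V))
  (E' : Subgroup (MulAut V')) (π : V →* V'), Qr E E' π → ∀ U Y : Subgroup V,
  (∀ a ∈ E, ∀ u ∈ U, a u ∈ U) → Yu ℓ E U Y → Y ⊓ π.ker = ⊥ → U ⊓ π.ker = ⊥ →
  Yu ℓ E' (U.map π) (Y.map π)

/-- CYM: the image of a product, and the last factor.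

Proof.  (1) Induction on `Cyu`: `(C ⊔ Y).map π = C.map π ⊔ Y.map π`; YUM (`Y ≤ C ⊔ Y`, so `Y ⊓ π.ker = ⊥`);
`C.map π ⊓ Y.map π = ⊥`: `π c = π y` gives `c⁻¹ y ∈ (C ⊔ Y) ⊓ π.ker = ⊥`, `c = y ∈ C ⊓ Y = ⊥`.  (2) Cases. -/
def CymStmt : Prop := (∀ (ℓ : ℕ) (V V' : Type) [Group V] [Group V'] (E : Subgroup (MulAut V))
    (E' : Subgroup (MulAut V')) (π : V →* V'), Qr E E' π → ∀ U : Subgroup V,
    (∀ a ∈ E, ∀ u ∈ U, a u ∈ U) → U ⊓ π.ker = ⊥ → ∀ C : Subgroup V, Cyu ℓ E U C →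
    C ⊓ π.ker = ⊥ → Cyu ℓ E' (U.map π) (C.map π)) ∧
  ∀ (ℓ : ℕ) (V : Type) [Group V] (E : Subgroup (MulAut V)) (U C : Subgroup V), Cyu ℓ E U C →
    C ≠ ⊥ → ∃ C₁ Y₁ : Subgroup V, Cyu ℓ E U C₁ ∧ Yu ℓ E U Y₁ ∧ C₁ ⊓ Y₁ = ⊥ ∧ C₁ ⊔ Y₁ = C

/-- RSQ: the image of the stable subgroup `U`, `π` injective on `U`.

Proof.  `U ≃* U.map π` (`Subgroup.equivMapOfInjective` needs `π` injective; use `MulEquiv.ofBijective` of the
restriction `U → U.map π`).  `lif`: let `b' ∈ rse E' (U.map π)`, induced by `a' ∈ E'`, which is induced by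
`a ∈ E`; `a` stabilises `U`, its restriction to `U` (an automorphism: the inverse is the restriction of
`a⁻¹`) is in `rse E U` and induces `b'`. -/
def RsqStmt : Prop := ∀ (V V' : Type) [Group V] [Group V'] (E : Subgroup (MulAut V))
  (E' : Subgroup (MulAut V')) (π : V →* V'), Qr E E' π → ∀ U : Subgroup V,
  (∀ a ∈ E, ∀ u ∈ U, a u ∈ U) → U ⊓ π.ker = ⊥ →
  ∃ τ : U ≃* U.map π, (∀ u : U, ((τ u : U.map π) : V') = π u) ∧
    Qr (rse E U) (rse E' (U.map π)) τ.toMonoidHom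

/-- SUI: the image of the decomposition under an isomorphism.

Proof.  `ab`: `π` is bijective.  CYM (1), YUM (`π.ker = ⊥`), `su`: `Qr.lif`; `nt`, `cw`, `cu`, `jn`: maps of `⊓`, `⊔` under
an injective homomorphism (`Subgroup.map_inf_eq`, `Subgroup.map_sup`); `tm`: RSQ and `AdT.iso`. -/
def SuiStmt : Prop := ∀ (L : Kt) (ℓ : ℕ), AdT ℓ L → ∀ (V V' : Type) [Group V] [Group V']
  (E : Subgroup (MulAut V)) (E' : Subgroup (MulAut V')) (π : V ≃* V'), Qr E E' π.toMonoidHom →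
  ∀ C W U : Subgroup V, Su L ℓ E C W U →
  Su L ℓ E' (C.map π.toMonoidHom) (W.map π.toMonoidHom) (U.map π.toMonoidHom)

/-- SUQ: the quotient by `W`.

Proof.  `π.ker = W`.  First `C ⊓ W = ⊥`, `U ⊓ W = ⊥`, `(C ⊔ U) ⊓ W = ⊥` (`w = c u` gives `u = c⁻¹ w ∈ (C ⊔ W) ⊓ U = ⊥`,
`w = c ∈ C ⊓ W = ⊥`).  (1) `C = ⊥`: `V = W ⊔ U`, so `U.map π = ⊤`.  RSQ: `τ : U ≃* U.map π`; the inclusion of
`U.map π = ⊤` in `V'` gives an isomorphism `U ≃* V'` with `Qr (rse E U) E' _` (surjective; `a' ∈ E'` is induced by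
`a ∈ E`, and by the restriction of `a` to `U`), `AdT.iso`: `L ℓ V' E'`; so `Kf L ℓ V' E' ⊤` (`⊤ ≠ ⊥` by hypothesis).
(2) `C ≠ ⊥`: CYM (2): `C₁`, `Y₁`; `Su L ℓ E' (C₁.map π) (Y₁.map π) (U.map π)`: `ab` (surjective), CYM (1), YUM, `su`
(`Qr.lif`), `nt` (`U ⊓ π.ker = ⊥`), `cw`: `π c = π y` gives `c⁻¹ y ∈ C ⊓ W = ⊥`; `cu`: `π (c y) = π u` gives
`(c y)⁻¹ u ∈ (C ⊔ U) ⊓ W = ⊥`, so `u ∈ (C ⊔ W) ⊓ U = ⊥`; `jn`: `⊤ = (C ⊔ W ⊔ U).map π`, `W.map π = ⊥`; `tm`: RSQ, `AdT.iso`. -/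
def SuqStmt : Prop := ∀ (L : Kt) (ℓ : ℕ), AdT ℓ L → ∀ (V V' : Type) [Group V] [Group V']
  (E : Subgroup (MulAut V)) (E' : Subgroup (MulAut V')) (π : V →* V'), Qr E E' π →
  ∀ C W U : Subgroup V, Su L ℓ E C W U → π.ker = W → (∃ v : V', v ≠ 1) →
  ∃ W' : Subgroup V', Kf L ℓ V' E' W' ∨ K3 L ℓ V' E' W'

/-- ADV: the union is admissible.

Proof.  `nt`: `Adm.nt`; `Kf`: clear; `K3`: `Nat.card W = ℓ ≠ 1`.  `st`: `Adm.st`; `W = ⊤`; `Yu.st`.  `iso`: `Adm.iso`; `Kf`: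
`(⊤ : Subgroup V).map π = ⊤`, not `⊥`, `AdT.iso`; SUI.  `quo`: `Adm.quo`; `Kf`: `π.ker = ⊤` contradicts the
existence of `v ≠ 1` in `V'` (`Qr.sur`); SUQ. -/
def AdvStmt : Prop := ∀ (K : Kl) (L : Kt) (ℓ : ℕ), ℓ.Prime → Adm ℓ K → AdT ℓ L →
  Adm ℓ (KU K L)

/-! ## 4. The final theorems -/

/-- CLU: from the clean hypotheses to the class.

Proof.  `U = ⊥`: `ClnStmt` for `s`, `Y`, `W = ⊥`, `U = ⊥` (a group of prime order is cyclic; `fr` is empty):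
`KS`.  `U ≠ ⊥`: `E = Ei V γ`; every `a ∈ E` is induced by some `t ∈ Tg V γ`, so the traces `y i = (Y i).subgroupOf V`,
`u = U.subgroupOf V` are stable (as in `H44.cln`, `Helper44_PSS/CLN.lean`).  `Yu ℓ E u (y i)`: an automorphism induced by
`t` is trivial on `y i` iff `t` commutes with `Y i`.  `Cyu ℓ E u (⨆ i < n, y i)` for `n ≤ s` by induction
(as there).  `LR`: `U` has two generators, `TW.ncard_le`.  `s = 0`: `u = ⊤`, `Kf LR`, `W₀ = ⊤` (`LR ℓ V E`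
does not depend on `E`; `V = U`).  `s = n + 1`: `W₀` = the last `y i`, `C` = the product of the others. -/
def CluStmt : Prop := ∀ (ℓ : ℕ) [Fact ℓ.Prime] (M : Ideal (integralClosure ℤ ℂ)) [M.IsMaximal],
  (ℓ : integralClosure ℤ ℂ) ∈ M → ∀ (G : Type) [Group G] [Finite G] (e : G → FF M)
  (V : Subgroup G) (γ : G → FF M), Ld ℓ e V γ → V ≠ ⊥ → ∀ (s : ℕ) (Y : Fin s → Subgroup G)
  (U : Subgroup G), ClU ℓ (Tg V γ : Set G) V s Y U → ∃ W₀ : Subgroup V, KU KS LR ℓ V (Ei V γ) W₀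

/-- FNK: the final theorem for a class `K`.

Proof.  As `PSS.H66.fns` (`Helper66_PSS/Fns.lean`): `hTg` is the hypothesis of `hK`; hypotheses `T3.FltStmt`,
`T3.PsgStmt`. -/
def FnkStmt : Prop := ∀ K : Kl, MnnFor K → ∀ (ℓ : ℕ) [Fact ℓ.Prime]
  (M : Ideal (integralClosure ℤ ℂ)) [M.IsMaximal],
  (ℓ : integralClosure ℤ ℂ) ∈ M → ∀ (G : Type) [Group G] [Finite G],
  opCore ℓ G ≤ Subgroup.center G → ∀ χ ∈ Irr G, ∀ (H : Type) [Group H] [Finite H] (p : G →* H),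
  Function.Surjective p → p.ker ≤ opCore ℓ G → ∀ ψ ∈ Irr H,
  (∀ g : G, Cong M (omega (MonoidHom.id G) (fun x => ψ (p x)) g)
    (omega (MonoidHom.id G) χ g)) →
  ∀ D : Subgroup H, ML.IsDef ℓ M ψ D → D ≠ (opCore ℓ G).map p →
  (∀ x ∈ D, ∀ y ∈ D, x * y = y * x) →
  ∀ th ∈ IrrBlock M (Subgroup.centralizer (D : Set H)).subtype ψ,
  (∀ e γ : H → FF M, Ld ℓ e D γ → (Tg D γ : Set H) = Iner M D th → D ≠ ⊥ →
    ∃ W₀ : Subgroup D, K ℓ D (Ei D γ) W₀) →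
  altSum ℓ M χ = 0

/-- FVS: the final theorem for the union of (A) + (S) and (R).

Proof.  FNK for `K = KU KS LR`; `ClnStmt` (class `KS`), CLU. -/
def FvsStmt : Prop := ∀ (ℓ : ℕ) [Fact ℓ.Prime] (M : Ideal (integralClosure ℤ ℂ)) [M.IsMaximal],
  (ℓ : integralClosure ℤ ℂ) ∈ M → ∀ (G : Type) [Group G] [Finite G],
  opCore ℓ G ≤ Subgroup.center G → ∀ χ ∈ Irr G, ∀ (H : Type) [Group H] (p : G →* H),
  Function.Surjective p → p.ker ≤ opCore ℓ G → ∀ ψ ∈ Irr H,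
  (∀ g : G, Cong M (omega (MonoidHom.id G) (fun x => ψ (p x)) g)
    (omega (MonoidHom.id G) χ g)) →
  ∀ D : Subgroup H, ML.IsDef ℓ M ψ D → D ≠ (opCore ℓ G).map p →
  (∀ x ∈ D, ∀ y ∈ D, x * y = y * x) →
  ∀ th ∈ IrrBlock M (Subgroup.centralizer (D : Set H)).subtype ψ,
  ((∃ (s : ℕ) (Y : Fin s → Subgroup H) (W U : Subgroup H), Cln (Iner M D th) D s Y W U) ∨
    ∃ (s : ℕ) (Y : Fin s → Subgroup H) (U : Subgroup H), ClU ℓ (Iner M D th) D s Y U) →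
  altSum ℓ M χ = 0

/-- KSK: the class (A) + (S) is contained in the class (S+).

Proof.  `Cyc E C`, `C ⊓ W = ⊥` imply `ChA ℓ E (C ⊔ W) W` for every stable `W` (commutative `V`), by induction
on `Cyc`: `bot`: `refl`; `mul C Y`: `(C ⊔ Y) ⊔ W = Y ⊔ (C ⊔ W)`, `step` with `P' = C ⊔ W` (stable; `Y ⊓ (C ⊔ W) = ⊥`:
`y = c w` gives `w ∈ (C ⊔ Y) ⊓ W = ⊥`, `y = c ∈ C ⊓ Y = ⊥`), then the induction hypothesis.  `Frw` from `Sx`. -/
def KskStmt : Prop := ∀ (ℓ : ℕ) (V : Type) [Group V] (E : Subgroup (MulAut V)) (W : Subgroup V),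
  KS ℓ V E W → KT ℓ V E W

/-- FVT: the final theorem for the union of (S+) and (R).

Proof.  FNK for `K = KU KT LR`; `CltStmt`, `CabStmt`; CLU gives `KU KS LR`, and KSK. -/
def FvtStmt : Prop := ∀ (ℓ : ℕ) [Fact ℓ.Prime] (M : Ideal (integralClosure ℤ ℂ)) [M.IsMaximal],
  (ℓ : integralClosure ℤ ℂ) ∈ M → ∀ (G : Type) [Group G] [Finite G],
  opCore ℓ G ≤ Subgroup.center G → ∀ χ ∈ Irr G, ∀ (H : Type) [Group H] (p : G →* H),
  Function.Surjective p → p.ker ≤ opCore ℓ G → ∀ ψ ∈ Irr H,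
  (∀ g : G, Cong M (omega (MonoidHom.id G) (fun x => ψ (p x)) g)
    (omega (MonoidHom.id G) χ g)) →
  ∀ D : Subgroup H, ML.IsDef ℓ M ψ D → D ≠ (opCore ℓ G).map p →
  (∀ x ∈ D, ∀ y ∈ D, x * y = y * x) →
  ∀ th ∈ IrrBlock M (Subgroup.centralizer (D : Set H)).subtype ψ,
  ((∃ (n : ℕ) (P : ℕ → Subgroup H) (U : Subgroup H), ClT ℓ (Iner M D th) D n P U) ∨
    (ℓ ≠ 2 ∧ ∀ s ∈ Iner M D th, ∀ t ∈ Iner M D th,
      s * t * s⁻¹ * t⁻¹ ∈ Subgroup.centralizer (D : Set H)) ∨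
    ∃ (s : ℕ) (Y : Fin s → Subgroup H) (U : Subgroup H), ClU ℓ (Iner M D th) D s Y U) →
  altSum ℓ M χ = 0

end Pool.Agent.PST.GU
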