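import Pool.Agent.PST.StmtsGS
import Pool.Agent.PST.StmtsGU

/-!
# Squad PST, block GV (helper3): the group level of the union of (S++) with theorem (R)

`V = P × U`, `E` commutative on `P`, `P` has an `E`-stable series `1 < W < .. < P` with factors of order `ℓ`
whose centralisers in `E` act freely on `U`, `(U, E)` in the terminal class `L` (`Kt`, `StmtsGU.lean`; `LR` =
rank at most two): the class `K4 L`.  `V` has a chain of steps `StB` (`DefsGS.lean`) down to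
`T = W × U`, and theorem (R) (`BR.Rtp`, `PSS/StmtsBR.lean`) is the base case.

1. AGQ: the generic iteration.  RGV, ECG, KNH: the chain.  K4R, STV: `StoFor (K4 L)`.
2. SRQ, SVI, SVQ, ADW: the class `KV K L` = `K` or `Kf L` or `K4 L` is admissible.
3. SRY: the series of a cyclic factor.  CLV: clean hypotheses.  FVX: the final theorem.

Complete proofs in the docstrings; a row may take the rows which it uses as hypotheses.
-/

open scoped BigOperators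

noncomputable section

namespace Pool.Agent.PST.GU

open Pool.Agent.Helper51_AWC Pool.Agent.Helper79_WRA Pool.Agent.PP Pool.Agent.PP.KF
open Pool.Agent.PP.K9 Pool.Agent.PP.K9.H97 Pool.Agent.PP.H75 Pool.Agent.PP.T3 Pool.Agent.PP.T2
open Pool.Agent.PFD (Ei)
open Pool.Agent.PSS

attribute [local instance] Ideal.Quotient.field

/-! ## Definitions -/

/-- one step of the series: `Q'` is stable, `|Q' : Q| = ℓ`, and the centraliser of `Q' / Q` in `E` acts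
freely on `U` -/
structure Sp (ℓ : ℕ) {V : Type} [Group V] (E : Subgroup (MulAut V)) (U Q Q' : Subgroup V) :
    Prop where
  le : Q ≤ Q'
  ix : Q.relIndex Q' = ℓ
  st : ∀ a ∈ E, ∀ v ∈ Q', a v ∈ Q'
  fr : ∀ a ∈ E, (∀ v ∈ Q', a v * v⁻¹ ∈ Q) → ∀ u ∈ U, u ≠ 1 → a u = u → ∀ x ∈ U, a x = x

/-- a series from `Q` up to `P` -/
def Sr (ℓ : ℕ) {V : Type} [Group V] (E : Subgroup (MulAut V)) (U Q P : Subgroup V) : Prop :=
  Relation.ReflTransGen (Sp ℓ E U) Q P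

/-- `V = P × U`, `W` is the first term of the series -/
structure Sw (L : Kt) (ℓ : ℕ) {V : Type} [Group V] (E : Subgroup (MulAut V))
    (P W U : Subgroup V) : Prop where
  ab : ∀ a b : V, a * b = b * a
  cm : ∀ a ∈ E, ∀ b ∈ E, ∀ v ∈ P, a (b v) = b (a v)
  w1 : Sp ℓ E U ⊥ W
  wp : Sr ℓ E U W P
  su : ∀ a ∈ E, ∀ u ∈ U, a u ∈ U
  nt : U ≠ ⊥
  pu : P ⊓ U = ⊥
  jn : P ⊔ U = ⊤
  tm : L ℓ U (rse E U)

/-- the class of theorem (R) over the terminal class `L` -/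
def K4 (L : Kt) : Kl := fun ℓ _ _ E W => ∃ P U, Sw L ℓ E P W U

/-- the union -/
def KV (K : Kl) (L : Kt) : Kl := fun ℓ V _ E W => K ℓ V E W ∨ Kf L ℓ V E W ∨ K4 L ℓ V E W

/-- The clean hypotheses: `D` is the direct product of the cyclic subgroups `Y i` and of `U`, which has two
generators, all factors are normalised by `T`, and an element of `T` which centralises some `Y i ≠ 1` and
commutes with some `u ≠ 1` in `U` centralises `U`. -/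
structure ClV {H : Type} [Group H] (T : Set H) (D : Subgroup H) (s : ℕ)
    (Y : Fin s → Subgroup H) (U : Subgroup H) : Prop where
  jn : (⨆ i, Y i) ⊔ U = D
  dy : ∀ i, Y i ⊓ (⨆ j, ⨆ (_ : j < i), Y j) = ⊥
  du : (⨆ i, Y i) ⊓ U = ⊥
  cy : ∀ i, ∃ y ∈ Y i, ∀ x ∈ Y i, ∃ k : ℤ, x = y ^ k
  gn : ∃ x y : H, U = Subgroup.closure {x, y}
  sy : ∀ i, ∀ t ∈ T, ∀ y ∈ Y i, t * y * t⁻¹ ∈ Y i
  su : ∀ t ∈ T, ∀ u ∈ U, t * u * t⁻¹ ∈ U
  fr : ∀ i, Y i ≠ ⊥ → ∀ t ∈ T, (∀ y ∈ Y i, t * y = y * t) → ∀ u ∈ U, u ≠ 1 →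
    t * u = u * t → t ∈ Subgroup.centralizer (U : Set H)

/-! ## 1. The input from the algebras -/

/-- the theorem for algebras with the chains `Chn` and the base property `P` -/
def AgqStmt (P : PrV) : Prop :=
  ∀ (n ℓ : ℕ) [Fact ℓ.Prime] (F V E A B : Type) [Field F] [IsAlgClosed F] [CharP F ℓ]
    [CommGroup V] [Fintype V] [Group E] [Fintype E] [Ring A] [Algebra F A] [Ring B] [Algebra F B]
    (φ : E →* MulAut V) (α : V →* A) (T W : Subgroup V) (ψ : E →* MulAut T),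
    IsPGroup ℓ V → ¬ ℓ ∣ Nat.card E → W ≤ T → (∀ e : E, ∀ w ∈ W, φ e w ∈ W) →
    Chn ℓ n V E φ T → IsRs φ T ψ → P T E ψ (W.subgroupOf T) → Cl F φ α → IsNW F α W B →
    Module.finrank F (Subalgebra.center F A) = Module.finrank F (Subalgebra.center F B)

/-- AGQ: the generic iteration.

Proof.  Edit of `PSS.atg` (`Pool/Agent/PSS/Atg.lean`) with the chain of `PST.H11.atq`
(`Helper11_PST/ATQ.lean`): the step `n + 1` gives `W'`, `ψ'` and either `Cyf` (use `stp`) or `Chf` (use `stq`,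
the same output). -/
def AgqRow : Prop := ∀ P : PrV, P.Inv → StpStmt → StqStmt → BsgStmt P → AgqStmt P

/-- RGV: regular elements.

Proof.  `U ≤ Q`, so `Q = (Q ⊓ P) ⊔ U` (`q = p u` with `p ∈ P`, `u ∈ U`, `p = q u⁻¹ ∈ Q`).  `ReaStmt` for `Q ⊓ P`
(stable, `E` commutative on `P`): `q ∈ Q ⊓ P`.  `u₀ ∈ U`, `u₀ ≠ 1`.  `q * u₀ ∈ Q`: if `a (q * u₀) = q * u₀` then
`q⁻¹ * a q = u₀ * (a u₀)⁻¹ ∈ P ⊓ U = ⊥`, so `a q = q`, `a u₀ = u₀`; `a` fixes `Q ⊓ P ≥ W` pointwise, so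
`a v * v⁻¹ = 1 ∈ ⊥` for `v ∈ W`, and by `Sp.fr` (for `⊥`, `W`) `a` fixes `U` pointwise; so it fixes `Q`. -/
def RgvStmt : Prop := ∀ (ℓ : ℕ) (V : Type) [CommGroup V] [Finite V] (E : Subgroup (MulAut V))
  (P W U Q : Subgroup V), ℓ.Prime → IsPGroup ℓ V → ¬ ℓ ∣ Nat.card E →
  (∀ a ∈ E, ∀ b ∈ E, ∀ v ∈ P, a (b v) = b (a v)) → Sp ℓ E U ⊥ W →
  (∀ a ∈ E, ∀ v ∈ P, a v ∈ P) → W ≤ P → (∀ a ∈ E, ∀ u ∈ U, a u ∈ U) → U ≠ ⊥ → P ⊓ U = ⊥ →
  P ⊔ U = ⊤ → W ⊔ U ≤ Q → (∀ a ∈ E, ∀ v ∈ Q, a v ∈ Q) →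
  ∃ u ∈ Q, ∀ a ∈ E, a u = u → ∀ w ∈ Q, a w = w

/-- ECG: the chain if all stable subgroups above `T` have regular elements.

Proof.  Edit of the row ECB (`StmtsGS.lean`), with `T` in place of `W` and the last hypothesis instead of
REB.  Claim: `ChB ℓ E P T` for all stable `P ≥ T`, strong induction on `Nat.card P`.  `P = T`: `refl`.
Otherwise choose a stable `P'`, `T ≤ P' < P`, of maximal order.  `pw`: `{v ∈ P | v ^ ℓ ∈ P'}` is stable and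
larger than `P'`, so it is `P`.  `fr`: `{v ∈ P | a v * v⁻¹ ∈ P'}` is stable (`E` is commutative modulo `T`) and
contains `P'`.  `am`: `T ≤ P'`.  `rg`: hypothesis. -/
def EcgStmt : Prop := ∀ (ℓ : ℕ) (V : Type) [CommGroup V] [Finite V] (E : Subgroup (MulAut V))
  (T : Subgroup V), ℓ.Prime → IsPGroup ℓ V → (∀ a ∈ E, ∀ v ∈ T, a v ∈ T) →
  (∀ a ∈ E, ∀ b ∈ E, ∀ v : V, a (b v) * (b (a v))⁻¹ ∈ T) →
  (∀ P : Subgroup V, T ≤ P → (∀ a ∈ E, ∀ v ∈ P, a v ∈ P) →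
    ∃ u ∈ P, ∀ a ∈ E, a u = u → ∀ w ∈ P, a w = w) → ChB ℓ E ⊤ T

/-- KNH: from `ChB` to `Chn`.

Proof.  The first part of the row KNG (`StmtsGS.lean`), an edit of `H10.claim` (`Helper10_PST/KNF.lean`). -/
def KnhStmt : Prop := ∀ (ℓ : ℕ) (V : Type) [CommGroup V] [Finite V] (E : Subgroup (MulAut V))
  (T : Subgroup V), ChB ℓ E ⊤ T → ∃ n : ℕ, Chn ℓ n V E E.subtype T

/-- the property of `AgqStmt Rtp` as a property of `(V, E, W)` (`ℓ = |W|`) -/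
def Rt4 : PrV := fun V E _ _ φ W => ∃ (n : ℕ) (T : Subgroup V) (ψ : E →* MulAut T), W ≤ T ∧
  (∀ e : E, ∀ w ∈ W, φ e w ∈ W) ∧ Chn (Nat.card W) n V E φ T ∧ IsRs φ T ψ ∧
  BR.Rtp T E ψ (W.subgroupOf T)

/-- K4R: from the class `K4 L` to the property `Rt4`.

Proof.  `P`, `U` with `Sw L ℓ E P W U`.  `W ≤ P` and `P` is stable (induction on the series: `W` is stable by
`Sp.st`).  `Nat.card W = ℓ` (`Subgroup.relIndex_bot_left`).  `T = W ⊔ U`, stable; `E` is commutative modulo `T`: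
`v = p u`, `a (b v) * (b (a v))⁻¹ = a (b u) * (b (a u))⁻¹ ∈ U ≤ T`.  RGV, ECG: `ChB ℓ E ⊤ T`; KNH: `n`.
`ψ = H69.rsh E.subtype T _` (`Helper69_PSS/CYP.lean`).  `Rtp T E ψ (W.subgroupOf T)`: `Nat.card = ℓ`; the
complement `U.subgroupOf T` (`W ⊓ U ≤ P ⊓ U = ⊥`), not `⊥`; if `e` is trivial on `W` and fixes `u ≠ 1` in `U` then
by `Sp.fr` it is trivial on `U`, and so on `T`. -/
def K4rStmt : Prop := ∀ (L : Kt) (ℓ : ℕ) (V : Type) [CommGroup V] [Finite V]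
  (E : Subgroup (MulAut V)) (W : Subgroup V), ℓ.Prime → IsPGroup ℓ V → ¬ ℓ ∣ Nat.card E →
  K4 L ℓ V E W → Rt4 V E E.subtype W

/-- STV: the input of the group level for the class `K4 L`.

Proof.  As STR (`StmtsGU.lean`): `AllS6.stogen_ Rt4 K'`, `K' := fun ℓ V _ E W => ℓ.Prime ∧ K4 L ℓ V E W`, K4R.
`BsgStmt Rt4` from `AgqStmt BR.Rtp`: `Nat.card W` is a prime (`Rtp`: `Nat.card (W.subgroupOf T) = Nat.card W` as
`W ≤ T`) and a power of `ℓ`, so it is `ℓ`; rewrite. -/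
def StvStmt : Prop := AgqStmt BR.Rtp → ∀ L : Kt, StoFor (K4 L)

/-! ## 2. The union is admissible -/

/-- SRQ: the image of a step and of a series.

Proof.  `U ⊓ π.ker = ⊥`: `π` is injective on `U`.  Step: `Subgroup.relIndex_map_map` (`π.ker ≤ Q ≤ Q'`).  `st`:
`Qr.lif`.  `fr`: `a'` is induced by `a ∈ E`; `π (a v * v⁻¹) ∈ Q.map π` implies `a v * v⁻¹ ∈ Q` (as `π.ker ≤ Q`);
`a' (π u) = π u` implies `a u * u⁻¹ ∈ U ⊓ π.ker = ⊥`.  Series: induction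
(`Relation.ReflTransGen.head_induction_on` or the recursor; the lower end grows, so it contains `π.ker`). -/
def SrqStmt : Prop := ∀ (ℓ : ℕ) (V V' : Type) [Group V] [Group V'] (E : Subgroup (MulAut V))
  (E' : Subgroup (MulAut V')) (π : V →* V'), Qr E E' π → ∀ U : Subgroup V,
  (∀ a ∈ E, ∀ u ∈ U, a u ∈ U) → U ⊓ π.ker = ⊥ →
  (∀ Q Q' : Subgroup V, π.ker ≤ Q → Sp ℓ E U Q Q' →
    Sp ℓ E' (U.map π) (Q.map π) (Q'.map π)) ∧
  ∀ Q P : Subgroup V, π.ker ≤ Q → Sr ℓ E U Q P → Sr ℓ E' (U.map π) (Q.map π) (P.map π)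

/-- SVI: the image under an isomorphism.

Proof.  `ab`, `cm` (`Qr.lif`), SRQ (`π.ker = ⊥`, `(⊥ : Subgroup V).map π = ⊥`), `su`: `Qr.lif`; `nt`, `pu`, `jn`: maps
of `⊓`, `⊔` under an injective homomorphism; `tm`: `RsqStmt` and `AdT.iso`. -/
def SviStmt : Prop := ∀ (L : Kt) (ℓ : ℕ), AdT ℓ L → ∀ (V V' : Type) [Group V] [Group V']
  (E : Subgroup (MulAut V)) (E' : Subgroup (MulAut V')) (π : V ≃* V'), Qr E E' π.toMonoidHom →
  ∀ P W U : Subgroup V, Sw L ℓ E P W U →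
  Sw L ℓ E' (P.map π.toMonoidHom) (W.map π.toMonoidHom) (U.map π.toMonoidHom)

/-- SVQ: the quotient by `W`.

Proof.  `π.ker = W ≤ P`, so `U ⊓ π.ker = ⊥`.  The series `W → P`: (1) `P = W` (`Relation.ReflTransGen.cases_head`):
`V = W ⊔ U`, so `U.map π = ⊤`; RSQ and `AdT.iso` give `L ℓ V' E'` (as in the case (1) of SUQ, `StmtsGU.lean`),
`Kf L ℓ V' E' ⊤`.  (2) `Sp ℓ E U W Q`, `Sr ℓ E U Q P`: `W' = Q.map π`, `P' = P.map π`, `U' = U.map π`; `w1`: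
`W.map π = ⊥`, SRQ; `wp`: SRQ; `pu`: `π p = π u` gives `p⁻¹ u ∈ W`, `u ∈ P`; `jn`: `⊤.map π = ⊤`; `cm`: `Qr.lif`; `tm`:
RSQ, `AdT.iso`. -/
def SvqStmt : Prop := ∀ (L : Kt) (ℓ : ℕ), AdT ℓ L → ∀ (V V' : Type) [Group V] [Group V']
  (E : Subgroup (MulAut V)) (E' : Subgroup (MulAut V')) (π : V →* V'), Qr E E' π →
  ∀ P W U : Subgroup V, Sw L ℓ E P W U → π.ker = W → (∃ v : V', v ≠ 1) →
  ∃ W' : Subgroup V', Kf L ℓ V' E' W' ∨ K4 L ℓ V' E' W'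

/-- ADW: the union is admissible.

Proof.  As ADV (`StmtsGU.lean`).  `nt` for `K4`: `Nat.card W = ℓ ≠ 1` (`Subgroup.relIndex_bot_left`).  `st`: `Sp.st`.
`iso`: SVI.  `quo`: SVQ. -/
def AdwStmt : Prop := ∀ (K : Kl) (L : Kt) (ℓ : ℕ), ℓ.Prime → Adm ℓ K → AdT ℓ L →
  Adm ℓ (KV K L)

/-! ## 3. The final theorem -/

/-- SRY: the series of a cyclic factor.

Proof.  Strong induction on `Nat.card Y`.  `Y = ⊥`: `refl`.  Otherwise let `y` be the generator of `Y`,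
`Y₁ = {x ^ ℓ | x ∈ Y}` = the group generated by `y ^ ℓ`; it is stable, cyclic, of index `ℓ` in `Y` (`Y` is a
nontrivial cyclic `ℓ`-group), `C ⊓ Y₁ = ⊥`.  Key: if `a ∈ E`, `a y = y ^ k` and `ℓ` divides `k - 1` then
`a y = y` (see the proof of `H49.fix_cyc` in `Helper49_PSS/TWN.lean`: the order of `a` on `Y` is a power of `ℓ` and
divides the order of `a`; or: if `Y₁ ≠ ⊥`, the element `y ^ (|Y| / ℓ)` of order `ℓ` is fixed, and `fix_cyc`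
applies; if `Y₁ = ⊥` then `y ^ ℓ = 1` and `y ^ (k - 1) = 1`).  So `a` is trivial on `Y` if it is trivial on
`Y₁ ≠ ⊥` or on `Y / Y₁`.  Induction hypothesis: `Sr ℓ E U C (C ⊔ Y₁)` (its hypothesis `fr` for `Y₁ ≠ ⊥`: by
`fix_cyc` `a` is trivial on `Y`).  Last step `Sp ℓ E U (C ⊔ Y₁) (C ⊔ Y)`: `ix`: `(C ⊔ Y₁).relIndex (C ⊔ Y) =
Y₁.relIndex Y = ℓ` (`C ⊔ Y = (C ⊔ Y₁) ⊔ Y`, `Subgroup.relIndex_sup_left` or similar, `(C ⊔ Y₁) ⊓ Y = Y₁`); `fr`: `a y * y⁻¹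
∈ (C ⊔ Y₁) ⊓ Y = Y₁`, so `a y = y`. -/
def SryStmt : Prop := ∀ (ℓ : ℕ) (V : Type) [CommGroup V] [Finite V] (E : Subgroup (MulAut V))
  (U C Y : Subgroup V), ℓ.Prime → IsPGroup ℓ V → ¬ ℓ ∣ Nat.card E →
  (∀ a ∈ E, ∀ v ∈ C, a v ∈ C) → (∀ a ∈ E, ∀ v ∈ Y, a v ∈ Y) →
  (∃ y ∈ Y, ∀ x ∈ Y, ∃ k : ℤ, x = y ^ k) → C ⊓ Y = ⊥ →
  (Y ≠ ⊥ → ∀ a ∈ E, (∀ y ∈ Y, a y = y) → ∀ u ∈ U, u ≠ 1 → a u = u → ∀ x ∈ U, a x = x) →
  Sr ℓ E U C (C ⊔ Y)

/-- CLV: from the clean hypotheses to the class.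

Proof.  `E = Ei V γ`; traces `y i = (Y i).subgroupOf V`, `u = U.subgroupOf V` (stable, see `H44.cln`,
`Helper44_PSS/CLN.lean`, and CLU); an automorphism induced by `t` is trivial on a trace iff `t` commutes
with the subgroup; `E` is commutative on `P = ⨆ i, y i` (automorphisms `x ↦ x ^ k` of a cyclic group).
(1) `U = ⊥`: `V = P`, `MsuStmt`: `KP`.  (2) `U ≠ ⊥`, all `Y i = ⊥`: `V = U`, `Kf LR`, `W₀ = ⊤`
(`TW.ncard_le`).  (3) `U ≠ ⊥`, some `Y i ≠ ⊥`: `Sr ℓ E u ⊥ (⨆ i < n, y i)` for `n ≤ s` by induction (SRY), so `Sr ℓ E u ⊥ P`, `P ≠ ⊥`;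
`Relation.ReflTransGen.cases_head`: `W₀` with `Sp ℓ E u ⊥ W₀`, `Sr ℓ E u W₀ P`.  `K4 LR`. -/
def ClvStmt : Prop := ∀ (ℓ : ℕ) [Fact ℓ.Prime] (M : Ideal (integralClosure ℤ ℂ)) [M.IsMaximal],
  (ℓ : integralClosure ℤ ℂ) ∈ M → ∀ (G : Type) [Group G] [Finite G] (e : G → FF M)
  (V : Subgroup G) (γ : G → FF M), Ld ℓ e V γ → V ≠ ⊥ → ∀ (s : ℕ) (Y : Fin s → Subgroup G)
  (U : Subgroup G), ClV (Tg V γ : Set G) V s Y U → ∃ W₀ : Subgroup V, KV KP LR ℓ V (Ei V γ) W₀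

/-- FVX: the final theorem.

Proof.  FNK for `K = KV KP LR`; `ClpStmt`, CLV. -/
def FvxStmt : Prop := ∀ (ℓ : ℕ) [Fact ℓ.Prime] (M : Ideal (integralClosure ℤ ℂ)) [M.IsMaximal],
  (ℓ : integralClosure ℤ ℂ) ∈ M → ∀ (G : Type) [Group G] [Finite G],
  opCore ℓ G ≤ Subgroup.center G → ∀ χ ∈ Irr G, ∀ (H : Type) [Group H] (p : G →* H),
  Function.Surjective p → p.ker ≤ opCore ℓ G → ∀ ψ ∈ Irr H,
  (∀ g : G, Cong M (omega (MonoidHom.id G) (fun x => ψ (p x)) g)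
    (omega (MonoidHom.id G) χ g)) →
  ∀ D : Subgroup H, ML.IsDef ℓ M ψ D → D ≠ (opCore ℓ G).map p →
  (∀ x ∈ D, ∀ y ∈ D, x * y = y * x) →
  ∀ th ∈ IrrBlock M (Subgroup.centralizer (D : Set H)).subtype ψ,
  ((∃ W U : Subgroup H, ClP ℓ (Iner M D th) D W U) ∨
    ∃ (s : ℕ) (Y : Fin s → Subgroup H) (U : Subgroup H), ClV (Iner M D th) D s Y U) →
  altSum ℓ M χ = 0

end Pool.Agent.PST.GU
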