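import Pool.Agent.PST.DefsK
import Pool.Agent.PST.StmtsK1

/-!
# Squad PST, block KEY, part 2 (helper43): one vertex `⟨r⟩`

`A` is an order in the `K`-algebra `B` (`C : KC ..`), `cc` a relative 2-cocycle of `A` with values in `B / A`,
`r ∈ V`, `r ^ ℓ ∈ W`.  Complete proofs in the docstrings.

* `Ecx i c p j s`: the ring `X` is the extension of `A` by the bimodule `B / i A` given by `c`: every element of `X`
  is `s a + j m`, `j m` depends only on `m` modulo `i A`, `s a * s a' = s (a a') + j (c a a')`.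
* `Eyx ..`: the ring `Y`, a deformation of `X` over `ℤ[σ]/(σ²)` whose first order term on `A` is `μ`.
* `xcm i c r k a`: the commutator of `s a` with `rh = s r + j k` is `j (xcm i c r k a)` if `a` commutes with `r`.

We write `a` for `i a`, and `≡` for congruence modulo `i A`.  `rh ^ ℓ = s w`, `w = r ^ ℓ`.
-/

open scoped BigOperators TensorProduct

noncomputable section

namespace Pool.Agent.PST

open Pool.Agent.PFC (tw IsTv)
open Pool.Agent.PFD.D2 (Cdv FibG)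
open Pool.Agent.PFD.D2b (FrR)
open Pool.Agent.PSS
open Pool.Agent.PSS.S0 (IsBQ)
open Finset

/-! ## 1. The rings -/

/-- biadditive maps -/
structure Bad {B : Type} [Ring B] (c : B → B → B) : Prop where
  l : ∀ x y z, c (x + y) z = c x z + c y z
  r : ∀ x y z, c x (y + z) = c x y + c x z

/-- the ring `X` is the extension of `A` by `B / i A` given by the cocycle `c` -/
structure Ecx {A B X : Type} [Ring A] [Ring B] [Ring X] (i : A → B) (c : B → B → B)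
    (p : X →+* A) (j : B →+ X) (s : A →+ X) : Prop where
  ps : ∀ a, p (s a) = a
  pj : ∀ m, p (j m) = 0
  ker : ∀ x, p x = 0 → ∃ m, x = j m
  j0 : ∀ m, j m = 0 ↔ In i m
  jj : ∀ m m', j m * j m' = 0
  sj : ∀ a m, s a * j m = j (i a * m)
  js : ∀ a m, j m * s a = j (m * i a)
  ss : ∀ a a', s a * s a' = s (a * a') + j (c (i a) (i a'))
  s1 : s 1 = 1

/-- the ring `Y`: `Y / σ Y = X`, and `σ` is central with `σ² = 0` -/
structure Eyx {A B X Y : Type} [Ring A] [Ring B] [Ring X] [Ring Y] (i : A → B) (n : A → A → A)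
    (μ c d : B → B → B) (jX : B →+ X) (sX : A →+ X) (π : Y →+* X) (j : B →+ Y) (s : A →+ Y)
    (σ : Y) : Prop where
  πs : ∀ a, π (s a) = sX a
  πj : ∀ m, π (j m) = jX m
  πσ : π σ = 0
  ker : ∀ y, π y = 0 → ∃ y', y = σ * y'
  inj : ∀ y, σ * y = 0 → π y = 0
  cen : ∀ y, σ * y = y * σ
  sq : σ * σ = 0
  j0 : ∀ m, In i m → j m = 0
  jj : ∀ m m', j m * j m' = 0
  sj : ∀ a m, s a * j m = j (i a * m) + σ * j (μ (i a) m)
  js : ∀ a m, j m * s a = j (m * i a) + σ * j (μ m (i a))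
  ss : ∀ a a', s a * s a' =
    s (a * a') + σ * s (n a a') + j (c (i a) (i a')) + σ * j (d (i a) (i a'))
  s1 : s 1 = 1

/-- ECR: the ring `X` exists.

Proof.  `H` = the additive subgroup `i.range` of `B` (`(i : A →+ B).range`), `M = B ⧸ H`; `X` = a structure with fields
`a : A`, `m : M`.  Left and right multiplication by `i a` map `H` to `H` and give additive maps `L a, R a : M →+ M`
(`QuotientAddGroup.map`), additive and (anti)multiplicative in `a`, `L a (R a' m) = R a' (L a m)`.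
`(a, m) (a', m') = (a a', L a m' + R a' m + [c (i a) (i a')])`, unit `(1, 0)` (`Nrm c`).  Distributivity: `c` is
biadditive.  Associativity in the second component: `L`, `R` and
`[c (a a') a''] + R a'' [c a a'] = [c a (a' a'')] + L a [c a' a'']`, which is the cocycle identity (`dl`).
`p (a, m) = a`, `j m = (0, [m])`, `s a = (a, 0)`. -/
def EcrStmt : Prop := ∀ (A B : Type) [Ring A] [Ring B] (i : A →+* B) (c : B → B → B),
  Bad c → Nrm c → (∀ a₁ a₂ a₃, In i (dl c (i a₁) (i a₂) (i a₃))) →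
  ∃ (X : Type) (_ : Ring X) (p : X →+* A) (j : B →+ X) (s : A →+ X), Ecx i c p j s

/-- EYR: the ring `Y` exists.

Proof.  `n a a'` = the element of `A` with `i (n a a') = μ (i a) (i a')`; by injectivity of `i` it is biadditive,
normalised, and `a n(a',a'') - n(a a',a'') + n(a,a' a'') - n(a,a') a'' = 0`.  `M = B ⧸ H` as in ECR; as `μ` maps
`i A × i A` to `i A`, it induces biadditive maps `A × M → M`, `M × A → M`.  `Y` = a structure with fields `a0 a1 : A`,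
`m0 m1 : M` (for `a0 + σ a1 + m0 + σ m1`), with
`(a0,a1,m0,m1) (a0',a1',m0',m1') = (a0 a0', a0 a1' + a1 a0' + n a0 a0', a0 m0' + m0 a0' + [c a0 a0'],
a0 m1' + a1 m0' + m0 a1' + m1 a0' + μ(a0,m0') + μ(m0,a0') + [c a1 a0'] + [c a0 a1'] + [d a0 a0'])`,
unit `(1,0,0,0)`.  Associativity in the last component: the cocycle identities of `μ` at `(m,a,a')`, `(a,m,a')`,
`(a,a',m)`, the cocycle identity of `c` with one argument `a1`, and
`d(a a',a'') + d(a,a') a'' + μ(c(a,a'),a'') + c(n(a,a'),a'') = d(a,a' a'') + a d(a',a'') + μ(a,c(a',a'')) + c(a,n(a',a''))`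
modulo `H`, which is `hb`.  `π (a0,a1,m0,m1) = sX a0 + jX m0` (`jX` factors through `M` by `Ecx.j0`; a ring homomorphism by
`Ecx.ss, sj, js, jj`), `s a = (a,0,0,0)`, `j m = (0,0,[m],0)`, `σ = (0,1,0,0)`:
`σ (a0,a1,m0,m1) = (0,a0,0,m0)` (`Nrm`), the same on the right.  `inj`: `(0,a0,0,m0) = 0` gives `π = 0`.  `ker`:
`sX a0 + jX m0 = 0`: apply `p`: `a0 = 0`, so `m0 = 0` in `M` (`j0`): the element is `(0,a1,0,m1) = σ (a1,0,m1,0)`. -/
def EyrStmt : Prop := ∀ (A B X : Type) [Ring A] [Ring B] [Ring X] (i : A →+* B)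
  (μ c d : B → B → B) (p : X →+* A) (j : B →+ X) (s : A →+ X), Function.Injective i →
  Bad μ → Bad c → Bad d → Nrm μ → Nrm c → Nrm d → (∀ a₁ a₂, In i (μ (i a₁) (i a₂))) →
  (∀ x y z, dl μ x y z = 0) → (∀ a₁ a₂ a₃, In i (dl c (i a₁) (i a₂) (i a₃))) →
  (∀ a₁ a₂ a₃, In i (brk μ c (i a₁) (i a₂) (i a₃) - dl d (i a₁) (i a₂) (i a₃))) →
  Ecx i c p j s →
  ∃ (n : A → A → A) (Y : Type) (_ : Ring Y) (π : Y →+* X) (jY : B →+ Y) (sY : A →+ Y) (σ : Y),
    (∀ a a', i (n a a') = μ (i a) (i a')) ∧ Eyx i n μ c d j s π jY sY σ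

/-- REL (uses EYR): the relation.

Proof.  `Y` from EYR, `y0 = sY r + jY k`, so `π y0 = s r + j k =: rh`.
(1) `y0` commutes with `sY w`: `sY w * sY r = sY (w r) = sY (r w) = sY r * sY w` (`n w r = 0` etc. by `hw`, `i` injective),
`sY w * jY k = jY (w k) + σ jY (μ w k) = jY (k w) = jY k * sY w`.
(2) By induction on `t`: `y0 ^ t = sY (r ^ t) + σ sY (n_t) + jY g + σ jY g'` for some `g, g'`, where
`n_0 = 0`, `n_(t+1) = n_t r + n (r ^ t) r`, so `n_t = ∑_(q<t) n (r ^ q) r * r ^ (t-1-q)`; hence `n_ℓ = e`.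
(3) `π (y0 ^ ℓ) = rh ^ ℓ = s w = π (sY w)`: `y0 ^ ℓ = sY w + σ y1` (`ker`).  `y0` commutes with `y0 ^ ℓ` and with `sY w`, so
`σ (y0 y1 - y1 y0) = 0`, and `rh * π y1 = π y1 * rh` (`inj`).
(4) By (2) `sY w + σ sY e + jY g + σ jY g' = sY w + σ y1`; apply `π`: `j g = 0`, so `In i g` and `jY g = 0`;
`σ (y1 - sY e - jY g') = 0`, `π y1 = s e + j g'`: `f = g'`. -/
def RelStmt : Prop := ∀ (A B X : Type) [Ring A] [Ring B] [Ring X] (i : A →+* B)
  (μ c d : B → B → B) (p : X →+* A) (j : B →+ X) (s : A →+ X) (ℓ : ℕ) (r w e : A) (k : B),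
  Function.Injective i → Bad μ → Bad c → Bad d → Nrm μ → Nrm c → Nrm d →
  (∀ a₁ a₂, In i (μ (i a₁) (i a₂))) → (∀ x y z, dl μ x y z = 0) →
  (∀ a₁ a₂ a₃, In i (dl c (i a₁) (i a₂) (i a₃))) →
  (∀ a₁ a₂ a₃, In i (brk μ c (i a₁) (i a₂) (i a₃) - dl d (i a₁) (i a₂) (i a₃))) →
  Ecx i c p j s → r ^ ℓ = w →
  (∀ x, μ (i w) x = 0 ∧ μ x (i w) = 0 ∧ c (i w) x = 0 ∧ c x (i w) = 0 ∧ d (i w) x = 0 ∧
    d x (i w) = 0) → i w * k = k * i w → (s r + j k) ^ ℓ = s w →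
  i e = ∑ t ∈ range ℓ, μ (i r ^ t) (i r) * i r ^ (ℓ - 1 - t) →
  ∃ f : B, (s r + j k) * (s e + j f) = (s e + j f) * (s r + j k)

/-! ## 2. Commutators with the lift of `r` -/

/-- the commutator of the lift of `a` with `s r + j k` -/
def xcm {A B : Type} [Ring A] [Ring B] (i : A → B) (c : B → B → B) (r : A) (k : B) (a : A) : B :=
  c (i a) (i r) - c (i r) (i a) + (i a * k - k * i a)

/-- XCM: the commutator, and the product rule.

Proof.  (1) `ss`, `sj`, `js`.  (2) `rh = s r + j k`; `s (a b) = s a * s b - j (c a b)`; `[x y, rh] = x [y, rh] + [x, rh] y`,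
(1) for `a`, `b`, `a b` and `[j m, rh] = j (m r - r m)`; conclude with `j0`.  (3) Apply `p`; then (1) and
`[j f, rh] = j (f r - r f)`. -/
def XcmStmt : Prop := ∀ (A B X : Type) [Ring A] [Ring B] [Ring X] (i : A →+* B) (c : B → B → B)
  (p : X →+* A) (j : B →+ X) (s : A →+ X) (r : A) (k : B), Ecx i c p j s →
  (∀ a, a * r = r * a → s a * (s r + j k) - (s r + j k) * s a = j (xcm i c r k a)) ∧
  (∀ a b, a * r = r * a → b * r = r * b → In i (xcm i c r k (a * b) -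
    (xcm i c r k a * i b + i a * xcm i c r k b) + (c (i a) (i b) * i r - i r * c (i a) (i b)))) ∧
  ∀ e f, (s r + j k) * (s e + j f) = (s e + j f) * (s r + j k) →
    e * r = r * e ∧ In i (xcm i c r k e + (f * i r - i r * f))

/-- XPR (uses XCM): norms and traces.

Proof.  `rh = s r + j k`, `rh ^ ℓ = s w`.  (1) `s a * s w = s (a w) = s w * s a` (`a w = w a` since `w = r ^ ℓ`), so
`0 = s a * rh ^ ℓ - rh ^ ℓ * s a = ∑_t rh ^ t (s a * rh - rh * s a) rh ^ (ℓ-1-t) = ∑_t rh ^ t * j x_a * rh ^ (ℓ-1-t)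
= j (∑_t r ^ t x_a r ^ (ℓ-1-t))` (`rh * j m = j (r m)`, `j m * rh = j (m r)`).  (2) `w` has the inverse `w' = r' ^ ℓ`, and
`s w * s w' = 1 = s w' * s w` (`hw`), so `rh' = rh ^ (ℓ-1) * s w'` is a right and (as `rh` commutes with `s w`, hence with
`s w'`) left inverse of `rh` (`ℓ ≥ 1`).  `ah = ∑_(t<ℓ) rh ^ t * s m * rh' ^ t`: `rh * ah * rh' = ah - s m + rh ^ ℓ * s m * rh' ^ ℓ
= ah`, as `s w` commutes with `s m` (`hw`, `m w = w m`).  `p ah = a`, so `ah = s a + j h`, and `rh * ah = ah * rh`: XCM (3). -/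
def XprStmt : Prop := ∀ (A B X : Type) [Ring A] [Ring B] [Ring X] (i : A →+* B) (c : B → B → B)
  (p : X →+* A) (j : B →+ X) (s : A →+ X) (ℓ : ℕ) (r r' w : A) (k : B), 0 < ℓ → Ecx i c p j s →
  r * r' = 1 → r' * r = 1 → r ^ ℓ = w → (s r + j k) ^ ℓ = s w →
  (∀ x, c (i w) x = 0 ∧ c x (i w) = 0) → (∀ x, c (i (r' ^ ℓ)) x = 0 ∧ c x (i (r' ^ ℓ)) = 0) →
  (∀ a, a * r = r * a →
    In i (∑ t ∈ range ℓ, i r ^ t * xcm i c r k a * i r ^ (ℓ - 1 - t))) ∧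
  ∀ m, m * w = w * m → ∃ h : B,
    In i (xcm i c r k (∑ t ∈ range ℓ, r ^ t * m * r' ^ t) + (h * i r - i r * h))

/-! ## 3. The context `KC` -/

section ctx

variable {R K V A B κ Ω : Type} [CommRing R] [Field K] [Algebra R K] [CommGroup V]
  [Fintype V] [Ring A] [Algebra R A] [Ring B] [Algebra R B] [Algebra K B] [Fintype κ] [Fintype Ω]
  [MulAction (V × V) Ω] {α : V →* A} {lam : A →ₗ[R] R} {x y : κ → A} {b : Ω → A}
  {c : Ω → (A →ₗ[R] R)}

/-- `lamK (y * X(a) * r⁻¹)`, `X(a)` the commutator -/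
def par (C : KC R K B α lam x y b c) (cc : B →ₗ[K] B →ₗ[K] B) (r : V) (k : B) (y' a : A) : K :=
  C.lamK (C.i y' * xcm C.i (fun a b => cc a b) (α r) k a * C.i (α r⁻¹))

end ctx

/-- NRK: a lift `rh` with `rh ^ ℓ = s (r ^ ℓ)`.

Proof.  By induction `(s r) ^ t = s (r ^ t) + j (z_t r ^ t)`, `z_t = ∑_(q<t) cc (r ^ q) r * r ^ -(q+1)`.  `z = z_ℓ` commutes
exactly with `W` (`Z2.rel`: `w cc (r ^ q, r) = cc (w r ^ q, r) = cc (r ^ q w, r) = cc (r ^ q, r w) = cc (r ^ q, r) w`).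
`s r` commutes with `(s r) ^ ℓ = s w + j (z w)` and with `s w` (`w = r ^ ℓ ∈ W`, `cc w _ = 0 = cc _ w` by `Z2.rel`, `Z2.nrm`), so
`j (r z w - z w r) = 0`: `r z r⁻¹ - z ≡ 0`.  `PSS.FxlStmt` (proved: `Pool.Agent.PSS.H63.fxl`) for the subgroup
`X = {(v, v) | v ∈ zpowers r ⊔ W}` (the set of the `v` with `v z v⁻¹ ≡ z` is a subgroup): `z'` commuting with `r` and `W`,
`z' ≡ z`.  `k = - ℓ⁻¹ • (z' * r)`.  `(s r + j k) ^ ℓ = (s r) ^ ℓ + j (∑_t r ^ t k r ^ (ℓ-1-t))` (`jj`; by induction)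
`= s w + j (z w) + j (ℓ k r ^ (ℓ-1)) = s w + j (z w - z' w) = s w`. -/
def NrkStmt : Prop :=
  ∀ (R K V A B κ Ω X : Type) [CommRing R] [Field K] [CharZero K] [Algebra R K] [CommGroup V]
    [Fintype V] [Ring A] [Algebra R A] [Ring B] [Algebra R B] [Algebra K B] [Fintype κ]
    [Fintype Ω] [MulAction (V × V) Ω] [Ring X] (W : Subgroup V) (α : V →* A)
    (lam : A →ₗ[R] R) (x y : κ → A) (b : Ω → A) (c : Ω → (A →ₗ[R] R))
    (C : KC R K B α lam x y b c) (cc : B →ₗ[K] B →ₗ[K] B) (p : X →+* A) (j : B →+ X)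
    (s : A →+ X) (ℓ : ℕ) (r : V), 0 < ℓ → r ^ ℓ ∈ W → Z2 C W cc →
    Ecx C.i (fun a b => cc a b) p j s →
    ∃ k : B, (∀ w ∈ W, C.i (α w) * k = k * C.i (α w)) ∧
      C.i (α r) * k = k * C.i (α r) ∧ (s (α r) + j k) ^ ℓ = s (α (r ^ ℓ))

/-- PAI (uses ECR NRK EYR REL XCM XPR; assemble): the pairing `par C cc r k`.

Proof.  ECR for `i = C.i` (as a ring homomorphism), `cc` (`Z2.nrm`, `Z2.cyc`, linearity): `X`, `p`, `j`, `s`; NRK: `k`.
`r' = α r⁻¹`, `w = α (r ^ ℓ)`; `cc w x = 0 = cc x w` for `w ∈ W` (`Z2.rel`, `Z2.nrm`: `cc (w * 1) x = w * cc 1 x`,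
`cc x w = cc x (1 * w) = cc x 1 * w`), the same for `r' ^ ℓ = α (r ^ ℓ)⁻¹`.  `lamK` is symmetric (`rfK.sym`), maps `i A` to
the image of `R` (`lk`).
(a) For `y', a` commuting with `r`: `z = xcm a * r⁻¹`; by XPR (1) `N = ∑_t r ^ t z r ^ -t ∈ i A` (multiply by
`r ^ -ℓ` on the right), and `lamK (y' N) = ∑_t lamK (r ^ -t y' r ^ t z) = ℓ lamK (y' z)`.
(b) `a = ∑_t r ^ t m r ^ -t`: by XPR (2) `xcm a ≡ r h - h r`, and `lamK (y' (r h - h r) r⁻¹) =
lamK (y' r h r⁻¹) - lamK (y' h) = 0`.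
(c) `y' = ∑_t r ^ t m r ^ -t`: `lamK (y' z) = ∑_t lamK (m r ^ -t z r ^ t)`, `∑_t r ^ -t z r ^ t` is in `i A`: it is
`r ^ (1-ℓ) N' r ^ (ℓ-1)`, `N' = ∑_t r ^ (ℓ-1-t) z r ^ -(ℓ-1-t) = N`.
(d) XCM (2), with `lamK (y' (cc r - r cc) r⁻¹) = 0` for `cc = cc a b` (`y'` commutes with `r`), and
`lamK (y' xcm(a) b r⁻¹) = lamK (b y' xcm(a) r⁻¹)` (`b` commutes with `r`).
(e) `xcm w = 0` (`cc w _ = cc _ w = 0`, `k` commutes with `w`).
(f) `xcm g = cc g r - cc r g + (g k - k g)` and `lamK (g⁻¹ y' (g k - k g) r⁻¹) = 0`, since `y'` commutes with `g`: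
`g⁻¹ y' g k r⁻¹ = y' k r⁻¹` and `lamK (g⁻¹ y' k g r⁻¹) = lamK (y' k r⁻¹)`.
(g) REL with `μ = m₁`, `d = - c'` (`Bi`), `e = e' w`: `C.i (e' w) = ∑_t m₁ (r ^ t) r * r ^ -(t+1) * r ^ ℓ`; XCM (3): `e' w`
commutes with `r` (so does `e'`), `xcm (e' w) ≡ r f - f r`, and `lamK (y' (r f - f r) r⁻¹) = 0` as in (b). -/
def PaiStmt : Prop :=
  ∀ (R K V A B κ Ω : Type) [CommRing R] [Field K] [CharZero K] [Algebra R K] [CommGroup V]
    [Fintype V] [Ring A] [Algebra R A] [Ring B] [Algebra R B] [Algebra K B] [Fintype κ]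
    [Fintype Ω] [MulAction (V × V) Ω] (W : Subgroup V) (α : V →* A)
    (lam : A →ₗ[R] R) (x y : κ → A) (b : Ω → A) (c : Ω → (A →ₗ[R] R))
    (C : KC R K B α lam x y b c) (m₁ cc : B →ₗ[K] B →ₗ[K] B) (ℓ : ℕ) (r : V), 0 < ℓ →
    r ^ ℓ ∈ W → WB2 (ia C.i α) W (fun a b => m₁ a b) → Nrm (fun a b => m₁ a b) →
    (∀ a₁ a₂, In C.i (m₁ (C.i a₁) (C.i a₂))) → (∀ x y z, dl (fun a b => m₁ a b) x y z = 0) →
    Z2 C W cc → Bi C W m₁ cc →
    ∃ k : B,
      (∀ y' a, y' * α r = α r * y' → a * α r = α r * a →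
        In (algebraMap R K) ((ℓ : K) * par C cc r k y' a)) ∧
      (∀ y' m, y' * α r = α r * y' → m * α (r ^ ℓ) = α (r ^ ℓ) * m →
        In (algebraMap R K) (par C cc r k y' (∑ t ∈ range ℓ, α (r ^ t) * m * α (r ^ t)⁻¹))) ∧
      (∀ m a, a * α r = α r * a → m * α (r ^ ℓ) = α (r ^ ℓ) * m →
        In (algebraMap R K) (par C cc r k (∑ t ∈ range ℓ, α (r ^ t) * m * α (r ^ t)⁻¹) a)) ∧
      (∀ y' a a', y' * α r = α r * y' → a * α r = α r * a → a' * α r = α r * a' →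
        In (algebraMap R K) (par C cc r k y' (a * a') - par C cc r k (a' * y') a -
          par C cc r k (y' * a) a')) ∧
      (∀ w ∈ W, ∀ y', par C cc r k y' (α w) = 0) ∧
      (∀ g y', y' * α g = α g * y' → par C cc r k (α g⁻¹ * y') (α g) =
        C.lamK (C.i y' * (cc (C.i (α g)) (C.i (α r)) - cc (C.i (α r)) (C.i (α g))) *
          C.i (α (g * r)⁻¹))) ∧
      ∀ e : A, C.i e = ∑ t ∈ range ℓ, m₁ (C.i (α (r ^ t))) (C.i (α r)) * C.i (α (r ^ (t + 1))⁻¹) →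
        e * α r = α r * e ∧ ∀ y', y' * α r = α r * y' →
          In (algebraMap R K) (par C cc r k y' (e * α (r ^ ℓ)))

/-! ## 4. The derivation of the Brauer quotient -/

/-- BKZ: the Brauer kernel of `zpowers r`.

Proof.  `P = zpowers r` is a cyclic `ℓ`-group; a proper subgroup `P'` is contained in `P₀ = zpowers (r ^ ℓ)`.  If `r ∈ P₀`
then `r = 1` (the order of `r ^ ℓ` is smaller), `P` has no proper subgroup and `a = 0`, `m = 0`.  Otherwise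
`1, r, .., r ^ (ℓ-1)` represents the cosets of `P₀` in `P`.  For `P' < P` with transversal `S` and `m'` fixed by `P'`:
`m = ∑_(x ∈ S₀) x m' x⁻¹`, `S₀` a transversal of `P'` in `P₀`, is fixed by `P₀`, and both `S` and
`{r ^ t x | t < ℓ, x ∈ S₀}` are transversals of `P'` in `P`, so the relative traces agree: the trace is
`∑_t r ^ t m r ^ -t`.  These elements form a submodule, so this holds for the span (`Submodule.span_induction`). -/
def BkzStmt : Prop := ∀ (ℓ : ℕ) [Fact ℓ.Prime] (F V A : Type) [CommRing F] [CommGroup V] [Finite V]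
  [Ring A] [Algebra F A] (α : V →* A) (r : V), IsPGroup ℓ V →
  ∀ a ∈ BKR (cw F α) (Subgroup.zpowers r), ∃ m : A, m * α (r ^ ℓ) = α (r ^ ℓ) * m ∧
    a = ∑ t ∈ range ℓ, α (r ^ t) * m * α (r ^ t)⁻¹

/-- TRL (uses BKZ; UZL proved: Pool.Agent.PSS.H19.uzl): elements over the Brauer kernel.

Proof.  BKZ for `q a`: `m₀` commuting with `r ^ ℓ`; UZL (2) for the subgroup `{(v, v) | v ∈ zpowers (r ^ ℓ)}`: a lift `m`
commuting with `r ^ ℓ`.  `a - ∑_t r ^ t m r ^ -t` is in the kernel of `q`, so it is `ℓ • a'`; it commutes with `r` (the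
trace does, as `r ^ ℓ m r ^ -ℓ = m`), and `A` is torsion-free, so `a'` commutes with `r`. -/
def TrlStmt : Prop :=
  ∀ (ℓ : ℕ) [Fact ℓ.Prime] (R F V A A₀ κ Ω : Type) [CommRing R] [IsDomain R] [Field F]
    [CommGroup V] [Fintype V] [Ring A] [Algebra R A] [Module.Finite R A] [Module.Free R A]
    [Ring A₀] [Algebra F A₀] [Fintype κ] [Fintype Ω] [MulAction (V × V) Ω] (cv : Cdv R F)
    (f : FibG A A₀ cv) (α₀ : V →* A₀) (lam₀ : A₀ →ₗ[F] F) (x₀ y₀ : κ → A₀) (b₀ : Ω → A₀)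
    (c₀ : Ω → (A₀ →ₗ[F] F)) (α : V →* A) (lam : A →ₗ[R] R) (x y : κ → A) (b : Ω → A)
    (c : Ω → (A →ₗ[R] R)) (u₀ : A₀) (r : V), IsPGroup ℓ V → cv.π = (ℓ : R) →
    LiftV cv α₀ lam₀ x₀ y₀ b₀ c₀ f α lam x y b c → u₀ * rt x₀ y₀ 1 = 1 →
    ∀ a : A, a * α r = α r * a → f.q a ∈ BKR (cw F α₀) (Subgroup.zpowers r) →
      ∃ m a' : A, m * α (r ^ ℓ) = α (r ^ ℓ) * m ∧ a' * α r = α r * a' ∧
        a = (∑ t ∈ range ℓ, α (r ^ t) * m * α (r ^ t)⁻¹) + (ℓ : R) • a'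

/-- RZL: a linear map from a pairing.

Proof.  `T m n` depends only on `g m`, `g n`, and `(g m, g n) ↦ T m n` is `F`-bilinear on `Br` (`g`, `κ` surjective).
For fixed `n`: a functional on `Br`, so by `PSS.RfeStmt` (proved: `Pool.Agent.PSS.H84.rfe`) it is `z ↦ lamB (d z) =
lamB (z d)`; `d` is unique (nondegeneracy, RFE), so it depends linearly on `g n`. -/
def RzlStmt : Prop := ∀ (R F V Br KB M : Type) [CommRing R] [Field F] (κ : R →+* F) [CommGroup V]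
  [Fintype V] [Ring Br] [Algebra F Br] [Fintype KB] [AddCommGroup M] [Module R M]
  (αB : V →* Br) (lamB : Br →ₗ[F] F) (xB yB : KB → Br) (g : M →+ Br) (T : M → M → F),
  Function.Surjective κ → RF F αB lamB xB yB → Function.Surjective g →
  (∀ (ρ : R) m, g (ρ • m) = κ ρ • g m) → (∀ m m' n, T (m + m') n = T m n + T m' n) →
  (∀ m n n', T m (n + n') = T m n + T m n') → (∀ (ρ : R) m n, T (ρ • m) n = κ ρ * T m n) →
  (∀ (ρ : R) m n, T m (ρ • n) = κ ρ * T m n) → (∀ m n, g m = 0 → T m n = 0) →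
  (∀ m n, g n = 0 → T m n = 0) →
  ∃ δ : Br →ₗ[F] Br, ∀ m n, lamB (g m * δ (g n)) = T m n

/-- DRX (uses PAI TRL RZL; UZL proved): the derivation of `A(⟨r⟩)`.

Proof.  `M` = the centraliser of `r` in `A`, `= FxR (cw R α) (zpowers r)` (a submodule), `g = β ∘ q : M → Br`: additive and
semilinear (`IsBQ.add`, `IsBQ.smul`; `q` maps `M` into the centraliser), surjective (`IsBQ.surj` and UZL (2) for the
subgroup `{(v, v) | v ∈ zpowers r}`).  PAI: `k`.  `T y' a = κ ρ`, `ρ` the element of `R` with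
`algebraMap ρ = ℓ * par C cc r k y' a` (`rinj`): biadditive, semilinear.  `g a = 0` implies `T y' a = 0`: TRL and `IsBQ.ker`
give `a = ∑ r ^ t m r ^ -t + ℓ a'`; the first term gives `ℓ * (element of R)`, the second
`ℓ * (ℓ par y' a')`; `κ ℓ = 0` (`cv.π = ℓ`).  The same in `y'`.  RZL: `δ`.
Derivation: `lamB (g y' * (δ (g a g a') - δ (g a) g a' - g a δ (g a'))) = T y' (a a') - T (a' y') a - T (y' a) a'`
(symmetry of `lamB`) `= κ (ℓ * ..) = 0`, so it is `0` by nondegeneracy (`PSS.RfeStmt`); `g` is surjective.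
`δ (αB w) = 0`: `T y' (α w) = 0`; `g (α w) = αB w` (`IsBQ.om`, `LiftV.qa`).
`lamB (β (q y') * δ (αB g) * αB g⁻¹) = lamB (g (g⁻¹ y') * δ (αB g)) = T (α g⁻¹ * y') (α g)` for `y'` commuting with `r`, `g`.
Last: `0 = δ (g (e r ^ ℓ)) = δ (g e * αB (r ^ ℓ)) = δ (g e) * αB (r ^ ℓ)` (`r ^ ℓ ∈ W`), and `αB (r ^ ℓ)` is a unit. -/
def DrxStmt : Prop :=
  ∀ (ℓ : ℕ) [Fact ℓ.Prime] (R K F V A A₀ Br B κ Ω KB : Type) [CommRing R] [IsDomain R]
    [Field K] [CharZero K] [Algebra R K] [Field F] [CommGroup V]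
    [Fintype V] [Ring A] [Algebra R A] [Module.Finite R A] [Module.Free R A]
    [Ring A₀] [Algebra F A₀] [Ring Br] [Algebra F Br] [Ring B] [Algebra R B] [Algebra K B]
    [Fintype κ] [Fintype Ω] [Fintype KB] [MulAction (V × V) Ω] (W : Subgroup V)
    (cv : Cdv R F) (f : FibG A A₀ cv) (α₀ : V →* A₀) (lam₀ : A₀ →ₗ[F] F) (x₀ y₀ : κ → A₀)
    (b₀ : Ω → A₀) (c₀ : Ω → (A₀ →ₗ[F] F)) (α : V →* A) (lam : A →ₗ[R] R) (x y : κ → A)
    (b : Ω → A) (c : Ω → (A →ₗ[R] R)) (u₀ : A₀) (C : KC R K B α lam x y b c)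
    (m₁ cc : B →ₗ[K] B →ₗ[K] B) (r : V) (αB : V →* Br) (β : A₀ → Br) (lamB : Br →ₗ[F] F)
    (xB yB : KB → Br), IsPGroup ℓ V → cv.π = (ℓ : R) →
    LiftV cv α₀ lam₀ x₀ y₀ b₀ c₀ f α lam x y b c → u₀ * rt x₀ y₀ 1 = 1 →
    WB2 (ia C.i α) W (fun a b => m₁ a b) → Nrm (fun a b => m₁ a b) →
    (∀ a₁ a₂, In C.i (m₁ (C.i a₁) (C.i a₂))) → (∀ x y z, dl (fun a b => m₁ a b) x y z = 0) →
    Z2 C W cc → Bi C W m₁ cc → r ^ ℓ ∈ W → IsBQ F α₀ (Subgroup.zpowers r) αB β →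
    RF F αB lamB xB yB → (∀ a ∈ FxR (cw F α₀) (Subgroup.zpowers r), lamB (β a) = lam₀ a) →
    ∃ δ : Br →ₗ[F] Br, Der δ ∧ (∀ w ∈ W, δ (αB w) = 0) ∧
      (∀ (g : V) (y' : A), y' * α r = α r * y' → y' * α g = α g * y' →
        ∃ ρ : R, algebraMap R K ρ = (ℓ : K) * C.lamK (C.i y' *
          (cc (C.i (α g)) (C.i (α r)) - cc (C.i (α r)) (C.i (α g))) * C.i (α (g * r)⁻¹)) ∧
        lamB (β (f.q y') * δ (αB g) * αB g⁻¹) = cv.κ ρ) ∧
      ∀ e : A, C.i e = ∑ t ∈ range ℓ, m₁ (C.i (α (r ^ t))) (C.i (α r)) * C.i (α (r ^ (t + 1))⁻¹) →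
        e * α r = α r * e ∧ δ (β (f.q e)) = 0

end Pool.Agent.PST
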