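import Pool.Agent.PST.DefsK
import Pool.Agent.PST.StmtsK1

/-!
# Squad PST, block KEY, part 3 (helper79): the forms of a cocycle

Context: `C : KC R K B α lam x y b c` (an order `A` in the `K`-algebra `B`), `cc` a normalised `W`-relative
2-cocycle with values in `B / A` (`Z2 C W cc`).  Notation: `v` for `C.i (α v)`, `a` for `C.i a`, `≡` = congruent
modulo `C.i A` (products of `≡` with elements of `C.i A` are allowed), `c(x, y)` for `cc x y`,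
`{x, y} = c(x, y) - c(y, x)`, `κ(u, v) = {u, v} (u v)⁻¹` = `kp`, `ob(y; u, v) = lamK (y κ(u, v))`, for `y ∈ A` which commutes
with `u` and `v`; `≡` for elements of `K`: the difference is in the image of `R` (`InR`).

Facts used everywhere: for `w ∈ W`: `c(w x, y) = w c(x, y)`, `c(x w, y) = c(x, w y)`, `c(x, y w) = c(x, y) w`, `c(x, w) = 0 =
c(w, x)`, and `κ(u, v)` commutes with `W` (`w c(u, v) = c(w u, v) = c(u w, v) = c(u, w v) = c(u, v w) = c(u, v) w`).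
`lamK (s t) = lamK (t s)`; if `s ≡ 0` then `lamK s ≡ 0`.
The cocycle identity: `a c(a', a'') - c(a a', a'') + c(a, a' a'') - c(a, a') a'' ≡ 0` for `a, a', a'' ∈ A`.
(PR) for `a, a' ∈ A` which commute with `a'' ∈ A`: `{a a', a''} ≡ a {a', a''} + {a, a''} a' + [a'', c(a, a')]` (the identities at
`(a, a', a'')`, `(a, a'', a')`, `(a'', a, a')`).
(3C) for pairwise commuting `a, a', a'' ∈ A`: `[a'', {a, a'}] + [a, {a', a''}] - [a', {a, a''}] ≡ 0` (the alternating sum of the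
identities at the six permutations).

1. OBA - OBC: bilinear, invariant, trace form, zero on traces.
2. OBW, OBX: the elements `w_T(u, v)` of the centre of `A(T)`.  OBR: reduction to `Q = QW0 φ W`.
3. `Kx`: the context of KEY.
-/

open scoped BigOperators

noncomputable section

namespace Pool.Agent.PST

open Pool.Agent.PFC (tw IsTv)
open Pool.Agent.PFD.D2 (Cdv FibG)
open Pool.Agent.PFD.D2b (FrR)
open Pool.Agent.PSS
open Pool.Agent.PSS.S0 (IsBQ)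

/-! ## Definitions -/

/-- `t` is in the image of `R` -/
def InR (R : Type) {K : Type} [CommRing R] [Field K] [Algebra R K] (t : K) : Prop :=
  ∃ r : R, algebraMap R K r = t

/-- `κ(u, v) = (cc u v - cc v u) (u v)⁻¹` -/
def kp {R K V A B : Type} [CommRing R] [Field K] [Group V] [Ring A] [Algebra R A] [Ring B]
    [Algebra R B] [Algebra K B] (i : A →ₐ[R] B) (α : V →* A) (cc : B →ₗ[K] B →ₗ[K] B) (u v : V) :
    B :=
  (cc (i (α u)) (i (α v)) - cc (i (α v)) (i (α u))) * i (α (u * v)⁻¹)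

/-- The context of KEY. -/
structure Kx (ℓ : ℕ) {R K F V E A A₀ B κ Ω : Type} [CommRing R] [Field K] [Algebra R K] [Field F]
    [CommGroup V] [Fintype V] [Group E] [Ring A] [Algebra R A] [Ring A₀] [Algebra F A₀] [Ring B]
    [Algebra R B] [Algebra K B] [Fintype κ] [Fintype Ω] [MulAction (V × V) Ω]
    (φ : E →* MulAut V) (W : Subgroup V) {α : V →* A} {lam : A →ₗ[R] R} {x y : κ → A} {b : Ω → A}
    {c : Ω → (A →ₗ[R] R)} (C : KC R K B α lam x y b c) {cv : Cdv R F} (f : FibG A A₀ cv)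
    (α₀ : V →* A₀) (lam₀ : A₀ →ₗ[F] F) (x₀ y₀ : κ → A₀) (b₀ : Ω → A₀)
    (c₀ : Ω → (A₀ →ₗ[F] F)) : Prop where
  pg : IsPGroup ℓ V
  cop : ¬ ℓ ∣ Nat.card E
  pi : cv.π = (ℓ : R)
  ch : Chf ℓ φ W
  cl : Cl F φ α₀
  st : ∀ ω : Ω, ∃ (e : E) (S : Subgroup V),
    MulAction.stabilizer (V × V) ω = tw (φ e).toMonoidHom S
  fr0 : FrR (bw F α₀) b₀ c₀
  rf0 : RF F α₀ lam₀ x₀ y₀
  lv : LiftV cv α₀ lam₀ x₀ y₀ b₀ c₀ f α lam x y b c

/-! ## 1. The forms -/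

/-- OBA: `κ(u, v)` and the bilinear form.

Proof.  (1) `u v = v u`.  (2), (3) the facts above: `c(u w, v) = c(w u, v) = w c(u, v)`, `c(v, u w) = c(v, u) w`, so `{u w, v} =
w c(u, v) - c(v, u) w = {u, v} w` and `κ(u w, v) = κ(u, v)`; `κ(u, w) = 0`.  (4) (PR) for `u, u', v`, multiplied by
`y` on the left and `(u u' v)⁻¹` on the right: `lamK (y u {u', v} (u u' v)⁻¹) = lamK (y {u', v} (u' v)⁻¹)` because
`y u = u y` (`sym`, `(u u' v)⁻¹ u = (u' v)⁻¹`), in the same way the second term, and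
`lamK (y [v, s] (u u' v)⁻¹) = lamK ([(u u' v)⁻¹ y, v] s) = 0` as `y` commutes with `v`.  (5) by (4) and (2), by induction
`ob(y; u ^ n, v) ≡ n ob(y; u, v)`, and `u ^ ℓ ∈ W` gives `0` for `n = ℓ` (`κ(w, v) = - κ(v, w) = 0`). -/
def ObaStmt : Prop :=
  ∀ (R K V A B κ Ω : Type) [CommRing R] [Field K] [Algebra R K] [CommGroup V]
    [Fintype V] [Ring A] [Algebra R A] [Ring B] [Algebra R B] [Algebra K B] [Fintype κ]
    [Fintype Ω] [MulAction (V × V) Ω] (W : Subgroup V) (α : V →* A) (lam : A →ₗ[R] R)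
    (x y : κ → A) (b : Ω → A) (c : Ω → (A →ₗ[R] R)) (C : KC R K B α lam x y b c)
    (cc : B →ₗ[K] B →ₗ[K] B), Z2 C W cc →
    (∀ u v, kp C.i α cc v u = - kp C.i α cc u v) ∧
    (∀ w ∈ W, ∀ u v, kp C.i α cc (u * w) v = kp C.i α cc u v ∧
      kp C.i α cc u (v * w) = kp C.i α cc u v ∧ kp C.i α cc u w = 0 ∧
      C.i (α w) * kp C.i α cc u v = kp C.i α cc u v * C.i (α w)) ∧
    (∀ (z : A) (u u' v : V), z * α u = α u * z → z * α u' = α u' * z → z * α v = α v * z →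
      InR R (C.lamK (C.i z * kp C.i α cc (u * u') v) - C.lamK (C.i z * kp C.i α cc u v) -
        C.lamK (C.i z * kp C.i α cc u' v))) ∧
    ∀ (z : A) (ℓ : ℕ) (u v : V), z * α u = α u * z → z * α v = α v * z → u ^ ℓ ∈ W →
      InR R ((ℓ : K) * C.lamK (C.i z * kp C.i α cc u v))

/-- OBB: trace form, invariance under conjugation by `V`.

Proof.  (1) `z, z'` commute with `u, v`.  (3C) for `u, v, z'`: `[z', {u, v}] ≡ [v, {u, z'}] - [u, {v, z'}]`.  Multiply by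
`(u v)⁻¹ z` on the left and apply `lamK`: `lamK ((u v)⁻¹ z [v, s]) = lamK ([(u v)⁻¹ z, v] s) = 0`.  So
`0 ≡ lamK ((u v)⁻¹ z (z' {u, v} - {u, v} z')) = lamK (z z' κ(u, v)) - lamK (z' z κ(u, v))` (`(u v)⁻¹` commutes with `z`, `z'`,
`sym`).  (2) (3C) for `u, v, t` with `t ∈ V`; multiply by `(u v)⁻¹ t⁻¹ (t z t⁻¹)`, which commutes with `u` and `v`:
`0 ≡ lamK ((u v)⁻¹ z t⁻¹ (t {u, v} - {u, v} t))`, `z t⁻¹ t = z`, and `lamK ((u v)⁻¹ z t⁻¹ {u, v} t) =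
lamK (t z t⁻¹ κ(u, v))` up to the order (`(u v)⁻¹` commutes with `z`, `t`).  (Or exchange `z` and `t z t⁻¹`.) -/
def ObbStmt : Prop :=
  ∀ (R K V A B κ Ω : Type) [CommRing R] [Field K] [Algebra R K] [CommGroup V]
    [Fintype V] [Ring A] [Algebra R A] [Ring B] [Algebra R B] [Algebra K B] [Fintype κ]
    [Fintype Ω] [MulAction (V × V) Ω] (W : Subgroup V) (α : V →* A) (lam : A →ₗ[R] R)
    (x y : κ → A) (b : Ω → A) (c : Ω → (A →ₗ[R] R)) (C : KC R K B α lam x y b c)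
    (cc : B →ₗ[K] B →ₗ[K] B), Z2 C W cc →
    (∀ (z z' : A) (u v : V), z * α u = α u * z → z * α v = α v * z → z' * α u = α u * z' →
      z' * α v = α v * z' →
      InR R (C.lamK (C.i (z * z') * kp C.i α cc u v) -
        C.lamK (C.i (z' * z) * kp C.i α cc u v))) ∧
    ∀ (z : A) (u v t : V), z * α u = α u * z → z * α v = α v * z →
      InR R (C.lamK (C.i (α t * z * α t⁻¹) * kp C.i α cc u v) -
        C.lamK (C.i z * kp C.i α cc u v))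

/-- OBN: the norm.

Proof.  For `n : ℕ` put `X_n = {u, g ^ n} (u g ^ n)⁻¹ = κ(u, g ^ n)`.  The identities at `(u, g, g ^ n)`, `(g, u, g ^ n)`,
`(g, g ^ n, u)` give `{u, g g ^ n} ≡ g {u, g ^ n} + {u, g} g ^ n - [u, c(g, g ^ n)]`, so
`X_(n+1) ≡ g X_n g⁻¹ + X_1 - [u, s_n]`, `s_n = c(g, g ^ n) (u g ^ (n+1))⁻¹`, and by induction
`X_n ≡ ∑_(j<n) (g ^ j X_1 g ^ (-j) - g ^ j [u, s'_j] g ^ (-j))` for some `s'_j`.  For `n = ℓ`: `X_ℓ = 0` (`g ^ ℓ ∈ W`).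
`lamK (z g ^ j [u, s] g ^ (-j)) = lamK ([g ^ (-j) z g ^ j, u] s) = 0` as `z` commutes with `u`, and
`lamK (z g ^ j X_1 g ^ (-j)) = lamK (g ^ (-j) z g ^ j X_1)`; the sum over `j < ℓ` of the `g ^ (-j) z g ^ j` is that of the
`g ^ j z g ^ (-j)` (`z` commutes with `g ^ ℓ`: `j ↦ ℓ - j`). -/
def ObnStmt : Prop :=
  ∀ (R K V A B κ Ω : Type) [CommRing R] [Field K] [Algebra R K] [CommGroup V]
    [Fintype V] [Ring A] [Algebra R A] [Ring B] [Algebra R B] [Algebra K B] [Fintype κ]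
    [Fintype Ω] [MulAction (V × V) Ω] (W : Subgroup V) (α : V →* A) (lam : A →ₗ[R] R)
    (x y : κ → A) (b : Ω → A) (c : Ω → (A →ₗ[R] R)) (C : KC R K B α lam x y b c)
    (cc : B →ₗ[K] B →ₗ[K] B), Z2 C W cc →
    ∀ (z : A) (ℓ : ℕ) (u g : V), z * α u = α u * z → z * α (g ^ ℓ) = α (g ^ ℓ) * z →
      g ^ ℓ ∈ W →
      InR R (C.lamK (C.i (∑ j ∈ Finset.range ℓ, α (g ^ j) * z * α (g ^ j)⁻¹) *
        kp C.i α cc u g))

/-- OBC: the forms vanish on traces.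

Proof.  `z` is in the span of the traces `z = ∑_(s ∈ S) s m s⁻¹` from `P' < T`, `m` commutes with `P'`; it is enough to
take one of them (`InR` is closed under sums, and `r • z`, `r ∈ R`: `C.tow`).  Let `P' ≤ T' < T`, `T'` maximal in `T`, so of
index `ℓ` (`T` is an `ℓ`-group), `g ∈ T`, `g ∉ T'`.  `z = ∑_(j<ℓ) g ^ j m' g ^ (-j)`, `m'` = the trace of `m` from `P'` to `T'`
(the trace does not depend on the transversal: `{g ^ j s'}` is another one), `m'` commutes with `T'`, `g ^ ℓ ∈ T'`.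
Every element of `T` is `u' g ^ a` with `u' ∈ T'`; by OBA (additive in both variables on `T`, as `z` commutes with `T`,
alternating) it is enough to show `ob(z; u, v) ≡ 0` for `u, v ∈ T'` and for `u ∈ T'`, `v = g`.  The first: by OBB (2)
`ob(g ^ j m' g ^ (-j); u, v) ≡ ob(m'; u, v)`, and `ℓ ob(m'; u, v) ≡ 0` by OBA.  The second: OBN. -/
def ObcStmt : Prop :=
  ∀ (R K V A B κ Ω : Type) [CommRing R] [Field K] [Algebra R K] [CommGroup V]
    [Fintype V] [Ring A] [Algebra R A] [Ring B] [Algebra R B] [Algebra K B] [Fintype κ]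
    [Fintype Ω] [MulAction (V × V) Ω] (W : Subgroup V) (α : V →* A) (lam : A →ₗ[R] R)
    (x y : κ → A) (b : Ω → A) (c : Ω → (A →ₗ[R] R)) (C : KC R K B α lam x y b c)
    (cc : B →ₗ[K] B →ₗ[K] B) (ℓ : ℕ) [Fact ℓ.Prime], IsPGroup ℓ V → (∀ v : V, v ^ ℓ ∈ W) →
    Z2 C W cc → ∀ (T : Subgroup V), ∀ z ∈ BKR (cw R α) T, ∀ u ∈ T, ∀ v ∈ T,
      InR R (C.lamK (C.i z * kp C.i α cc u v))

/-! ## 2. The elements of the centres of the Brauer quotients -/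

/-- LFX: fixed vectors and Brauer kernels lift.

Proof.  (1) `S` acts on `Ω` through the diagonal.  `a₀ = ∑ c₀ ω a₀ • b₀ ω`; choose lifts `r ω ∈ R` of the `c₀ ω a₀`, constant on the
`S`-orbits: `a = ∑ r ω • b ω` (`LiftV.qb`).  (2) Span induction: a trace `∑_(s ∈ T) s m₀ s⁻¹` is the image of `∑ s m s⁻¹`, `m` from
(1) for `P'`; scalars of `F` lift to `R`.  (3) `f.q a ∈ BKR`: by (2) there is `a' ∈ BKR (cw R α) S` with `f.q a' = f.q a`, so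
`a - a' = cv.π • d` (`f.ker`) and `d` commutes with `S` (`cv.π` is a nonzero divisor and `A` has the frame `b`, `c`:
`cv.π • d' = 0` implies `c ω d' = 0` (`cv.reg`) and `d' = 0`). -/
def LfxStmt : Prop :=
  ∀ (R F V A A₀ κ Ω : Type) [CommRing R] [Field F] [CommGroup V] [Fintype V] [Ring A]
    [Algebra R A] [Ring A₀] [Algebra F A₀] [Fintype κ] [Fintype Ω] [MulAction (V × V) Ω]
    (cv : Cdv R F) (f : FibG A A₀ cv) (α₀ : V →* A₀) (lam₀ : A₀ →ₗ[F] F) (x₀ y₀ : κ → A₀)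
    (b₀ : Ω → A₀) (c₀ : Ω → (A₀ →ₗ[F] F)) (α : V →* A) (lam : A →ₗ[R] R) (x y : κ → A)
    (b : Ω → A) (c : Ω → (A →ₗ[R] R)), FrR (bw F α₀) b₀ c₀ →
    LiftV cv α₀ lam₀ x₀ y₀ b₀ c₀ f α lam x y b c → ∀ S : Subgroup V,
    (∀ a₀ ∈ FxR (cw F α₀) S, ∃ a ∈ FxR (cw R α) S, f.q a = a₀) ∧
    (∀ a₀ ∈ BKR (cw F α₀) S, ∃ a ∈ BKR (cw R α) S, f.q a = a₀) ∧
    ∀ a ∈ FxR (cw R α) S, f.q a ∈ FxR (cw F α₀) S ∧ (f.q a ∈ BKR (cw F α₀) S →
      ∃ a' ∈ BKR (cw R α) S, ∃ d ∈ FxR (cw R α) S, a = a' + cv.π • d)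

/-- OBW: the central elements.  `A(T)` = `BT`.

Proof.  For `z ∈ FxR (cw R α) T` the element `ℓ ob(z; u, v)` is in the image of `R` (OBA), `τ z := κ` of it (`C.rinj`: well
defined), additive, `τ (r z) = κ(r) τ z`.  `τ z = 0` if `f.q z ∈ BKR`: LFX (3), `z = a' + ℓ d`: `ob(a') ≡ 0` (OBC) and
`ob(ℓ d) = ℓ ob(d) ≡ 0`, so `ℓ ob(z)` is `ℓ` times an element of `R` (`cv.π = ℓ`).  By LFX (1) and `IsBQ` every element of `BT` is
`β (f.q z)`, and `σ (β (f.q z)) := τ z` is a well defined `F`-linear form on `BT`; `σ (s t) = σ (t s)` by OBB (1).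
`lamT` is a symmetric form with dual families `xT`, `yT` (`RF`): `w = ∑_(k, v) σ (x_k v) • v⁻¹ y_k` satisfies
`lamT (t w) = σ t` (apply `σ` to `e1` for `t`; `sym`), and it is central as `lamT (t (s w - w s)) = σ (t s) - σ (s t) = 0` and `lamT`
is nondegenerate. -/
def ObwStmt : Prop :=
  ∀ (ℓ : ℕ) [Fact ℓ.Prime] (R K F V E A A₀ B κ Ω BT KT : Type) [CommRing R] [Field K] [CharZero K]
    [Algebra R K] [Field F] [CharP F ℓ] [CommGroup V] [Fintype V] [Group E] [Ring A] [Algebra R A]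
    [Ring A₀] [Algebra F A₀] [Ring B] [Algebra R B] [Algebra K B] [Fintype κ] [Fintype Ω]
    [MulAction (V × V) Ω] [Ring BT] [Algebra F BT] [Fintype KT] (φ : E →* MulAut V)
    (W : Subgroup V) (α : V →* A) (lam : A →ₗ[R] R) (x y : κ → A) (b : Ω → A)
    (c : Ω → (A →ₗ[R] R)) (C : KC R K B α lam x y b c) (cv : Cdv R F) (f : FibG A A₀ cv)
    (α₀ : V →* A₀) (lam₀ : A₀ →ₗ[F] F) (x₀ y₀ : κ → A₀) (b₀ : Ω → A₀) (c₀ : Ω → (A₀ →ₗ[F] F))
    (cc : B →ₗ[K] B →ₗ[K] B) (T : Subgroup V) (αT : V →* BT) (β : A₀ → BT) (lamT : BT →ₗ[F] F)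
    (xT yT : KT → BT), Kx ℓ φ W C f α₀ lam₀ x₀ y₀ b₀ c₀ → Z2 C W cc → IsBQ F α₀ T αT β →
    RF F αT lamT xT yT → (∀ a ∈ FxR (cw F α₀) T, lamT (β a) = lam₀ a) →
    ∀ u ∈ T, ∀ v ∈ T, ∃ w : BT, (∀ s, w * s = s * w) ∧
      ∀ z ∈ FxR (cw R α) T, ∀ ρ : R,
        algebraMap R K ρ = (ℓ : K) * C.lamK (C.i z * kp C.i α cc u v) →
        lamT (β (f.q z) * w) = cv.κ ρ

/-- OBX: the elements of OBW form a biadditive alternating function, and the cocycle is determined by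
them.

Proof.  Nondegeneracy of `lamT` (`RF`), every element of `BT` is `β (f.q z)` (LFX (1)), and `ℓ ob(z; u, v)` is in the image of `R`
(OBA).  So two central elements with the same values `lamT (β (f.q z) * w)` are equal, and the claims follow from
OBA: `ℓ ob(z; u u', v) - ℓ ob(z; u, v) - ℓ ob(z; u', v)` is `ℓ` times an element of `R` (`κ ℓ = 0`), etc.  (5): if
`ω u v = 0` then `κ ρ = 0`, `ρ = ℓ r`, and `ob(z; u, v) = r` (`(ℓ : K) ≠ 0`). -/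
def ObxStmt : Prop :=
  ∀ (ℓ : ℕ) [Fact ℓ.Prime] (R K F V E A A₀ B κ Ω BT KT : Type) [CommRing R] [Field K] [CharZero K]
    [Algebra R K] [Field F] [CharP F ℓ] [CommGroup V] [Fintype V] [Group E] [Ring A] [Algebra R A]
    [Ring A₀] [Algebra F A₀] [Ring B] [Algebra R B] [Algebra K B] [Fintype κ] [Fintype Ω]
    [MulAction (V × V) Ω] [Ring BT] [Algebra F BT] [Fintype KT] (φ : E →* MulAut V)
    (W : Subgroup V) (α : V →* A) (lam : A →ₗ[R] R) (x y : κ → A) (b : Ω → A)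
    (c : Ω → (A →ₗ[R] R)) (C : KC R K B α lam x y b c) (cv : Cdv R F) (f : FibG A A₀ cv)
    (α₀ : V →* A₀) (lam₀ : A₀ →ₗ[F] F) (x₀ y₀ : κ → A₀) (b₀ : Ω → A₀) (c₀ : Ω → (A₀ →ₗ[F] F))
    (cc : B →ₗ[K] B →ₗ[K] B) (T : Subgroup V) (αT : V →* BT) (β : A₀ → BT) (lamT : BT →ₗ[F] F)
    (xT yT : KT → BT) (w : V → V → BT), Kx ℓ φ W C f α₀ lam₀ x₀ y₀ b₀ c₀ → Z2 C W cc →
    IsBQ F α₀ T αT β → RF F αT lamT xT yT → (∀ a ∈ FxR (cw F α₀) T, lamT (β a) = lam₀ a) →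
    (∀ u ∈ T, ∀ v ∈ T, ∀ z ∈ FxR (cw R α) T, ∀ ρ : R,
      algebraMap R K ρ = (ℓ : K) * C.lamK (C.i z * kp C.i α cc u v) →
      lamT (β (f.q z) * w u v) = cv.κ ρ) →
    (∀ u ∈ T, ∀ u' ∈ T, ∀ v ∈ T, w (u * u') v = w u v + w u' v) ∧
    (∀ u ∈ T, ∀ v ∈ T, w v u = - w u v) ∧ (∀ u ∈ T, w u u = 0) ∧
    (∀ u ∈ T, ∀ v ∈ T, u ∈ W → w u v = 0) ∧
    ∀ u ∈ T, ∀ v ∈ T, w u v = 0 → ∀ z ∈ FxR (cw R α) T, InR R (C.lamK (C.i z * kp C.i α cc u v))

/-- OBR: it is enough that the forms vanish at `Q = QW0 φ W`.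

Proof.  Let `(u, u) ω = ω`, `(v, v) ω = ω`, `T` = the subgroup generated by `u`, `v`.  `S0.RfdStmt` (proved): `d ω ∈ A` with
`c ω a = lam (d ω a)`, `d ω` commutes with `u` and `v`, so with `T` (`SF.ed`); `C.cK ω s = C.lamK (d ω s)` for `s ∈ B` (both are
`K`-linear, and equal on `C.i (b ω')`, which span `B`: `C.frK`).  So it is enough: for all `z ∈ FxR (cw R α) T`: `ob(z; u, v) ≡ 0`.
If `T ≤ W` then `κ(u, v) = 0`.  Otherwise there is `t ∈ T`, `t ∉ W`.  `E1` = the centraliser of `T` in `E`.  `e ∈ E1` fixes `t`, so by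
`Chf.fr` `φ e u' u'⁻¹ ∈ W` for all `u'`, and `φ e q = q` for `q ∈ Q` (definition of `QW0`).  `BT = A₀(T)` (`S0.BqxStmt`), in
`Cl F (φ.comp E1.subtype) αT` (`S0.BclStmt`), `lamT`, `xT`, `yT` from `S0.BpuStmt`; `w` from OBW.  ZIJ for `BT`, `Q`, `z = w`: `w = 0`, if
`w ∈ BKR (cw F αT) Q`.  For this let `b'`, `c'` be the frame of `BT` (`Per`) with dual family `d'` (`S0.RfdStmt`): by
`S0.FbkStmt` it is enough that `lamT (d' ω' w) = 0` for the `ω'` fixed by the diagonal of `Q`; `d' ω'` commutes with `Q`, so (`S0.BbkStmt`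
(2) with `P = Q`) `d' ω' = β a₀`, `a₀ ∈ FxR (cw F α₀) (Q ⊔ T)`, and `a₀ = f.q z`, `z ∈ FxR (cw R α) (Q ⊔ T)` (LFX (1)).
`lamT (β (f.q z) w) = κ ρ` with `ρ = ℓ ob(z; u, v)`; `u = u' w₁`, `v = v' w₂` with `u', v' ∈ Q`, `w₁, w₂ ∈ W` (`hQ`), and `κ(u, v) = κ(u', v')`
(OBA), so `ob(z; u, v) = ob(z; u', v') ≡ 0` by hypothesis (`z` commutes with `Q`) and `κ ρ = 0`.
So `w = 0`, and by OBX (5) `ob(z; u, v) ≡ 0` for all `z ∈ FxR (cw R α) T` (or directly: `κ ρ = 0`, `ρ = ℓ r`). -/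
def ObrStmt : Prop :=
  ∀ (ℓ : ℕ) [Fact ℓ.Prime] (R K F V E A A₀ B κ Ω : Type) [CommRing R] [Field K] [CharZero K]
    [Algebra R K] [Field F] [CharP F ℓ] [CommGroup V] [Fintype V] [Group E] [Finite E] [Ring A]
    [Algebra R A] [Ring A₀] [Algebra F A₀] [Ring B] [Algebra R B] [Algebra K B] [Fintype κ]
    [Fintype Ω] [MulAction (V × V) Ω] (φ : E →* MulAut V) (W : Subgroup V) (α : V →* A)
    (lam : A →ₗ[R] R) (x y : κ → A) (b : Ω → A) (c : Ω → (A →ₗ[R] R))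
    (C : KC R K B α lam x y b c) (cv : Cdv R F) (f : FibG A A₀ cv) (α₀ : V →* A₀)
    (lam₀ : A₀ →ₗ[F] F) (x₀ y₀ : κ → A₀) (b₀ : Ω → A₀) (c₀ : Ω → (A₀ →ₗ[F] F))
    (cc : B →ₗ[K] B →ₗ[K] B), Kx ℓ φ W C f α₀ lam₀ x₀ y₀ b₀ c₀ → Z2 C W cc →
    (∀ v : V, ∃ u ∈ QW0 φ W, ∃ w ∈ W, v = u * w) →
    (∀ u ∈ QW0 φ W, ∀ v ∈ QW0 φ W, ∀ z ∈ FxR (cw R α) (QW0 φ W),
      InR R (C.lamK (C.i z * kp C.i α cc u v))) → Fz C cc

end Pool.Agent.PST
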