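import Pool.Agent.PSS.StmtsS3p

/-!
# Squad PST, block UC (helper30): reduction of the etaleness to the closed case, part 1

`N ≤ V` a subgroup with central image in `A`, `H = A / (N - 1) A` with the group `V ⧸ N` (`IsQt`).
Used for `A(W)`, `N = W` (group `V`), over the field `F`, and for `As(W)`, `N = ⊤` (group `W`), over
`F⟦X⟧`.  Result: `H` is in the class `Cl` for `V ⧸ N` (QCL); forms, frames and Brauer kernels of `H`.

Complete proofs in the docstrings.  All rows of S0, S3 are PROVED: `Pool.Agent.Helper30_PSS.S3All`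
(`Pool.Agent.PSS.All30.bkf`, `fco`, `fbk`, `bki`, `bqx`, `lmb`, `sfq`, `bpu`, `bbk`, `bcl`, `rfd`, ..).
`(R : char ℓ)`.  We write `v` for `α v`, `v̄` for the class of `v` in `V ⧸ N`.
-/

open scoped BigOperators TensorProduct PowerSeries

noncomputable section

namespace Pool.Agent.PST.UC

open Pool.Agent.PFC (tw IsTv)
open Pool.Agent.PFD.D2b (FrR)
open Pool.Agent.PSS
open Pool.Agent.PSS.S0

/-! ## Definitions -/

/-- the span of the elements `(ν n - 1) * b`, `b ∈ J` -/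
def Aug (R : Type) {N B : Type} [CommRing R] [Group N] [Ring B] [Algebra R B] (ν : N →* B)
    (J : Submodule R B) : Submodule R B :=
  Submodule.span R {x | ∃ n, ∃ b ∈ J, x = (ν n - 1) * b}

/-- `H = A / (N - 1) A`, `N ≤ V` a subgroup with central image in `A` -/
structure IsQt (R : Type) {V A H : Type} [CommRing R] [CommGroup V] [Ring A] [Algebra R A] [Ring H]
    [Algebra R H] (α : V →* A) (N : Subgroup V) (αH : V ⧸ N →* H) (π : A →ₐ[R] H) : Prop where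
  cen : ∀ n ∈ N, ∀ a, α n * a = a * α n
  surj : Function.Surjective π
  ker : ∀ a, π a = 0 ↔ a ∈ Aug R (α.comp N.subtype) ⊤
  om : ∀ v : V, αH (v : V ⧸ N) = π (α v)

/-- a permutation frame whose points are fixed by the `(n, n)`, `n ∈ N` -/
structure FrN (R : Type) {V E A Ω : Type} [CommRing R] [CommGroup V] [Group E] [Ring A]
    [Algebra R A] [Fintype Ω] [MulAction (V × V) Ω] (φ : E →* MulAut V) (α : V →* A)
    (N : Subgroup V) (b : Ω → A) (c : Ω → (A →ₗ[R] R)) : Prop where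
  fr : FrR (bw R α) b c
  st : ∀ ω : Ω, ∃ (e : E) (S : Subgroup V),
    MulAction.stabilizer (V × V) ω = tw (φ e).toMonoidHom S
  nn : ∀ n ∈ N, ∀ ω : Ω, ((n, n) : V × V) • ω = ω

open Classical in
/-- the frame of the quotient: `σ : Ω → Ω'` is the quotient by `N × N`, `s` a section of `σ` which is
equivariant for the diagonal action, `ω = (m ω, 1) • s (σ ω)`. -/
structure QFr (R : Type) {V E A H Ω Ω' : Type} [CommRing R] [CommGroup V] [Group E] [Ring A]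
    [Algebra R A] [Ring H] [Algebra R H] [Fintype Ω] [MulAction (V × V) Ω] [Fintype Ω']
    (N : Subgroup V) [MulAction ((V ⧸ N) × (V ⧸ N)) Ω'] (φH : E →* MulAut (V ⧸ N))
    (αH : V ⧸ N →* H) (π : A →ₐ[R] H) (b : Ω → A) (c : Ω → (A →ₗ[R] R))
    (b' : Ω' → H) (c' : Ω' → (H →ₗ[R] R)) (σ : Ω → Ω') (s : Ω' → Ω) (m : Ω → V) : Prop where
  fr : FrR (bw R αH) b' c'
  st : ∀ ω : Ω', ∃ (e : E) (S : Subgroup (V ⧸ N)),
    MulAction.stabilizer ((V ⧸ N) × (V ⧸ N)) ω = tw (φH e).toMonoidHom S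
  hb : ∀ ω, b' (σ ω) = π (b ω)
  hc : ∀ ω' a, c' ω' (π a) = ∑ ω ∈ Finset.univ.filter (fun ω => σ ω = ω'), c ω a
  sg : ∀ (u v : V) (ω : Ω), (((u : V ⧸ N), (v : V ⧸ N)) : (V ⧸ N) × (V ⧸ N)) • σ ω =
    σ (((u, v) : V × V) • ω)
  fx : ∀ (v : V) (ω : Ω), (((v : V ⧸ N), (v : V ⧸ N)) : (V ⧸ N) × (V ⧸ N)) • σ ω = σ ω →
    ((v, v) : V × V) • ω = ω
  ss : ∀ ω', σ (s ω') = ω'
  se : ∀ (v : V) (ω' : Ω'), s ((((v : V ⧸ N), (v : V ⧸ N)) : (V ⧸ N) × (V ⧸ N)) • ω') =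
    ((v, v) : V × V) • s ω'
  mn : ∀ ω, m ω ∈ N
  ms : ∀ ω, ω = ((m ω, 1) : V × V) • s (σ ω)
  me : ∀ (v : V) (ω : Ω), m (((v, v) : V × V) • ω) = m ω

/-! ## A. The augmentation ideal -/

/-- NIA (330).  Proof.  `(ν n - 1)^|N| = ν n^|N| - 1 = 0` in characteristic `ℓ` (`|N|` is a power of `ℓ`); the elements
`ν n - 1` are central, so a product of `|N| * |N|` of them is `0` (one of them occurs at least `|N|` times).  So
`(Aug R ν)^[k] ⊤ = ⊥`, `k = |N|^2`.  (2) `Aug` is monotone: `J ≤ Aug J ≤ .. ≤ Aug^k J ≤ Aug^k ⊤ = ⊥`.  (3)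
`Aug^i ⊤ * Aug^j ⊤ ≤ Aug^(i+j) ⊤`, so `x^k = 0`. -/
def NiaStmt : Prop :=
  ∀ (ℓ : ℕ) [Fact ℓ.Prime] (R N B : Type) [CommRing R] [CommGroup N] [Finite N] [Ring B]
    [Algebra R B] (ν : N →* B), (ℓ : R) = 0 → IsPGroup ℓ N → (∀ n b, ν n * b = b * ν n) →
    (∃ k : ℕ, (Aug R ν)^[k] ⊤ = ⊥) ∧ (∀ J : Submodule R B, J ≤ Aug R ν J → J = ⊥) ∧
      ∀ x ∈ Aug R ν ⊤, IsNilpotent x

/-- CIL (331, uses NIA).  Central idempotents lift.  Proof.  `I = Aug R ν ⊤`, a two-sided ideal.  `n = b * b - b` is nilpotent,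
`n^k = 0`, `k ≥ 1`.  `f = 1 - (1 - b^k)^k`: divisible by `b^k`, `1 - f` is divisible by `(1 - b)^k`, so `f (1 - f) = 0`;
`f - b` is in `I` (modulo `I`, `b` is idempotent).  `f x - x f` is in `I` for all `x`.  Let `J` be the submodule of the
`f x (1 - f)`, `x` in `B`: `f x (1 - f) = f (f x - x f) (1 - f)`.. is in `I`, and if `y = f x (1 - f) = ∑ (ν n - 1) x_n` then
`y = f y (1 - f) = ∑ (ν n - 1) f x_n (1 - f)`, so `J ≤ Aug R ν J`, `J = ⊥` (NIA).  In the same way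
`(1 - f) x f = 0`: `f x = f x f = x f`. -/
def CilStmt : Prop :=
  ∀ (ℓ : ℕ) [Fact ℓ.Prime] (R N B : Type) [CommRing R] [CommGroup N] [Finite N] [Ring B]
    [Algebra R B] (ν : N →* B) (b : B), (ℓ : R) = 0 → IsPGroup ℓ N →
    (∀ n b, ν n * b = b * ν n) → b * b - b ∈ Aug R ν ⊤ →
    (∀ x, b * x - x * b ∈ Aug R ν ⊤) →
    ∃ (f : B) (g : Polynomial R), f = b * Polynomial.aeval b g ∧ f * f = f ∧
      (∀ x, f * x = x * f) ∧ f - b ∈ Aug R ν ⊤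

/-- QLU (332, uses NIA).  Proof.  `u = π u₁`; `n = u₁ z - X^m • 1` is in the kernel of `π`, so in `Aug`, `n^k = 0`; `n` commutes
with `X^m • 1`, and `s (X^m • 1 + n) = (X^m • 1)^k - (-n)^k = X^(mk) • 1` for
`s = ∑_(i<k) (X^m)^(k-1-i) • (-n)^i` (`Commute.mul_geom_sum₂` or so).  `u' = s u₁`, `m' = m k`. -/
def QluStmt : Prop :=
  ∀ (ℓ : ℕ) [Fact ℓ.Prime] (F N B H : Type) [Field F] [CharP F ℓ] [CommGroup N] [Finite N]
    [Ring B] [Algebra F⟦X⟧ B] [Ring H] [Algebra F⟦X⟧ H] (ν : N →* B) (π : B →ₐ[F⟦X⟧] H) (z : B)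
    (m : ℕ) (u : H), IsPGroup ℓ N → (∀ n b, ν n * b = b * ν n) → Function.Surjective π →
    (∀ a, π a = 0 → a ∈ Aug F⟦X⟧ ν ⊤) → u * π z = (PowerSeries.X ^ m : F⟦X⟧) • (1 : H) →
    ∃ (m' : ℕ) (u' : B), u' * z = (PowerSeries.X ^ m' : F⟦X⟧) • (1 : B)

/-! ## B. The quotient -/

/-- QTX (333).  Existence.  Proof: `Aug R _ ⊤` is a two-sided ideal (`N` is central); the quotient ring (as in the row
BQX, `Helper70_PSS`); `α` descends. -/
def QtxStmt : Prop :=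
  ∀ (R V A : Type) [CommRing R] [CommGroup V] [Ring A] [Algebra R A] (α : V →* A)
    (N : Subgroup V), (∀ n ∈ N, ∀ a, α n * a = a * α n) →
    ∃ (H : Type) (_ : Ring H) (_ : Algebra R H) (αH : V ⧸ N →* H) (π : A →ₐ[R] H),
      IsQt R α N αH π

/-- QTF (334).  The form of the quotient.  Proof.  `a ↦ ∑_(n in N) lam (n a)` vanishes at `(n' - 1) a` (reindex).
Symmetric: `∑ lam (n a b) = ∑ lam (b n a) = ∑ lam (n b a)`.  `e1`: `∑_k ∑_(v̄) lamH (v̄⁻¹ ȳ_k ā) x̄_k v̄ =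
∑_k ∑_(v̄) ∑_n lam (n v⁻¹ y_k a) π (x_k v)`, `v = out v̄`, `= ∑_k ∑_(v̄, n) lam ((v n⁻¹)⁻¹ y_k a) π (x_k (v n⁻¹))
= π (∑_k ∑_v lam (v⁻¹ y_k a) x_k v) = ā` (`(v̄, n) ↦ v n⁻¹` is a bijection onto `V`).  `e2` in the same way. -/
def QtfStmt : Prop :=
  ∀ (R V A H K : Type) [CommRing R] [CommGroup V] [Fintype V] [Ring A] [Algebra R A] [Ring H]
    [Algebra R H] [Fintype K] (α : V →* A) (N : Subgroup V) [Fintype N] [Fintype (V ⧸ N)]
    (αH : V ⧸ N →* H) (π : A →ₐ[R] H) (lam : A →ₗ[R] R) (x y : K → A), IsQt R α N αH π →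
    RF R α lam x y → ∃ lamH : H →ₗ[R] R, (∀ a, lamH (π a) = ∑ n : N, lam (α n * a)) ∧
      RF R αH lamH (fun k => π (x k)) (fun k => π (y k))

/-- QFR (335).  The frame of the quotient.  Proof.  `Ω'` = the quotient of `Ω` by the action of `N × N`, with the action of
`(V × V) / (N × N) = V ⧸ N × V ⧸ N`; `σ` = the projection.  Since `(n, n) ω = ω`, the `N × N`-orbit of `ω` is the set of the
`(n, 1) ω`.  `b' (σ ω) = π (b ω)` (well defined: `π ((n, n') b ω) = π (b ω)`), `c' ω' (π a) = ∑_(σ ω = ω') c ω a`: well defined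
as `∑_(σ ω = ω') c ω (n a) = ∑ c ((n⁻¹, 1) ω) a` is the same sum.  `fr`: `π a = ∑ c ω a • π (b ω)`.  `st`: the stabiliser
of `σ ω` is the image of the stabiliser `tw (φ e) S` of `ω` (if `(u, v) ω = (n, 1) ω` then `(n⁻¹ u, v)` fixes `ω`), so it is
`tw (φH e) (image of S)`.  `fx`: if `(v, v) ω = (n, 1) ω` then `(n⁻¹ v, v)` is in `tw (φ e) S`, `φ e v = n⁻¹ v`; `φ e n = n`, so
`φ (e^k) v = n^(-k) v`, for `k` the order of `e` (prime to `ℓ`) `n^k = 1`, and `n` has `ℓ`-power order, so `n = 1`.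
`s`: choose in every orbit of the diagonal action of `V` on `Ω'` a point `ω'₀ = σ ω₀`, `s ((v̄, v̄) ω'₀) = (v, v) ω₀`: well
defined by `fx`, and `σ s = 1`.  `m`: choose in every orbit of the diagonal action on `Ω` a point `ω₀` and `n` with
`ω₀ = (n, 1) s (σ ω₀)`, `m = n` on this orbit. -/
def QfrStmt : Prop :=
  ∀ (ℓ : ℕ) [Fact ℓ.Prime] (R V E A H Ω : Type) [CommRing R] [CommGroup V] [Finite V] [Group E]
    [Finite E] [Ring A] [Algebra R A] [Ring H] [Algebra R H] [Fintype Ω] [MulAction (V × V) Ω]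
    (φ : E →* MulAut V) (α : V →* A) (N : Subgroup V) (φH : E →* MulAut (V ⧸ N))
    (αH : V ⧸ N →* H) (π : A →ₐ[R] H) (b : Ω → A) (c : Ω → (A →ₗ[R] R)), IsPGroup ℓ V →
    ¬ ℓ ∣ Nat.card E → IsQt R α N αH π → FrN R φ α N b c → (∀ e, ∀ n ∈ N, φ e n = n) →
    (∀ (e : E) (v : V), φH e (v : V ⧸ N) = (φ e v : V ⧸ N)) →
    ∃ (Ω' : Type) (_ : Fintype Ω') (_ : MulAction ((V ⧸ N) × (V ⧸ N)) Ω') (b' : Ω' → H)
      (c' : Ω' → (H →ₗ[R] R)) (σ : Ω → Ω') (s : Ω' → Ω) (m : Ω → V),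
      QFr R N φH αH π b c b' c' σ s m

/-- QSC (336).  Fixed vectors and Brauer kernels of the quotient.  `P' = P.map (mk' N)`.  Proof.
`S h = ∑_(ω') c' ω' h • b (s ω')`: `π (S h) = ∑ c' ω' h • b' ω' = h`, and `S (v̄ h v̄⁻¹) = v S(h) v⁻¹` (`se`).  (1) clear.
(2) clear: `N` is central.  (3) `h` = a sum of traces `∑_(x ∈ T) x m x⁻¹`, `m` fixed by `P1' < P'`, `T` a transversal: let
`P1` be the preimage of `P1'` in `P`, `P1 < P`, the representatives of the elements of `T` are a transversal of `P1` in `P`, and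
`S m` is fixed by `P1`.  (4) `π a` is fixed by `P'` (BKF); for `ω'` fixed by `P'` (diagonal) every `ω` with `σ ω = ω'` is fixed by `P`
(`fx`), so `c ω a = 0` (FCO) and `c' ω' (π a) = 0` (`hc`); FBK.  (5) `a = ∑ c ω a • b ω`, `∑_(σ ω = ω') c ω a = 0` for all `ω'`
(`hc`), so `a = ∑_ω c ω a • (b ω - b (s (σ ω))) = ∑_(n in N) (n - 1) a_n`, `a_n = ∑_(m ω = n) c ω a • b (s (σ ω))` (`ms`), and
`a_n` is fixed by `P` (`c ((v,v) ω) a = c ω a`, `me`, `se`, `sg`). -/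
def QscStmt : Prop :=
  ∀ (ℓ : ℕ) [Fact ℓ.Prime] (R V E A H Ω Ω' : Type) [CommRing R] [CommGroup V] [Finite V]
    [Group E] [Ring A] [Algebra R A] [Ring H] [Algebra R H] [Fintype Ω] [MulAction (V × V) Ω]
    [Fintype Ω'] (φ : E →* MulAut V) (α : V →* A) (N : Subgroup V)
    [MulAction ((V ⧸ N) × (V ⧸ N)) Ω'] (φH : E →* MulAut (V ⧸ N)) (αH : V ⧸ N →* H)
    (π : A →ₐ[R] H) (b : Ω → A) (c : Ω → (A →ₗ[R] R)) (b' : Ω' → H) (c' : Ω' → (H →ₗ[R] R))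
    (σ : Ω → Ω') (s : Ω' → Ω) (m : Ω → V), (ℓ : R) = 0 → IsPGroup ℓ V → IsQt R α N αH π →
    FrN R φ α N b c → QFr R N φH αH π b c b' c' σ s m →
    ∃ S : H →ₗ[R] A, (∀ h, π (S h) = h) ∧ ∀ P : Subgroup V, N ≤ P →
      (∀ h ∈ FxR (cw R αH) (P.map (QuotientGroup.mk' N)), S h ∈ FxR (cw R α) P) ∧
      (∀ a ∈ FxR (cw R α) P, π a ∈ FxR (cw R αH) (P.map (QuotientGroup.mk' N))) ∧
      (∀ h ∈ BKR (cw R αH) (P.map (QuotientGroup.mk' N)), S h ∈ BKR (cw R α) P) ∧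
      (∀ a ∈ BKR (cw R α) P, π a ∈ BKR (cw R αH) (P.map (QuotientGroup.mk' N))) ∧
      ∀ a ∈ FxR (cw R α) P, π a = 0 → a ∈ Aug R (α.comp N.subtype) (FxR (cw R α) P)

/-- QCL (337, uses NIA CIL QTF QFR QSC; S0: BQX BBK BCL BKI BKF).  THE QUOTIENT IS IN THE CLASS.  Proof.  `fin`, `uni`: images.
`per`: QFR.  `rt`: QTF, `π u * ∑ π x π y = 1`.  `blk`: let `Q' ≤ V ⧸ N`, `Q` = its preimage (`N ≤ Q`, `Q.map mk' = Q'`), `e` as in
the definition, `a = S e` (QSC), fixed by `V`, in `BK(⊤)`.  `a * a - a - S (e * e - e)` is in the kernel of `π` and fixed by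
`Q`, so `a * a - a` is in `BK(Q) + Aug (A^Q)` (QSC (3), (5)); for `x` in `A^Q` also `a x - x a`.  `B = A(Q)`, `β` (BQX),
`ν n = αB n = β n`, central in `B`; `b' = β a`: `b' * b' - b'` and all `b' y - y b'` are in `Aug R ν ⊤` (every `y` is `β x`).
CIL: `f = b' g(b')`, idempotent, central, `f - b'` in `Aug`.  `b'` is in `BK_B(⊤)` (BBK: `a` is in `BK(⊤)`), so `f` is (BKI; `b'` and
`g(b')` are fixed by `V`).  BCL: `B` is in the class, `blk` at `⊥`: `f` is in `BK_B(⊥) = 0`.  So `b'` is in `Aug R ν ⊤`: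
`b' = ∑ (n - 1) β (a_n)`, `a_n` in `A^Q`, so `a - ∑ (n - 1) a_n` is in `BK(Q)`; apply `π`: `e = π a` is in `BK(Q')` (QSC (4)). -/
def QclStmt : Prop :=
  ∀ (ℓ : ℕ) [Fact ℓ.Prime] (F V E A H Ω : Type) [Field F] [CharP F ℓ] [CommGroup V] [Fintype V]
    [Group E] [Finite E] [Ring A] [Algebra F A] [Ring H] [Algebra F H] [Fintype Ω]
    [MulAction (V × V) Ω] (φ : E →* MulAut V) (α : V →* A) (N : Subgroup V) [Fintype (V ⧸ N)]
    (φH : E →* MulAut (V ⧸ N)) (αH : V ⧸ N →* H) (π : A →ₐ[F] H) (b : Ω → A)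
    (c : Ω → (A →ₗ[F] F)), IsPGroup ℓ V → ¬ ℓ ∣ Nat.card E → Cl F φ α → FrN F φ α N b c →
    IsQt F α N αH π → (∀ e, ∀ n ∈ N, φ e n = n) →
    (∀ (e : E) (v : V), φH e (v : V ⧸ N) = (φ e v : V ⧸ N)) → Cl F φH αH

/-- BFN (338; S0: RFD SFQ LMB, proved).  The frame of `A(Q)` has the points fixed by `(q, q)`.  Proof: as in BPU (`Helper65_PSS`):
RFD, SFQ with `θ = 1`, `n = n' = 1`, `Ω' = OQt Q 1 Ω = {ω | (q, q) ω = ω for q ∈ Q}`; the stabiliser of `ω` is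
`tw (φ e) S` with `φ e q = q` for `q ∈ Q`.  (Right freeness of `Ω`: the stabilisers are twisted diagonals.) -/
def BfnStmt : Prop :=
  ∀ (ℓ : ℕ) [Fact ℓ.Prime] (R V E A B K : Type) [CommRing R] [CommGroup V] [Fintype V] [Group E]
    [Ring A] [Algebra R A] [Ring B] [Algebra R B] [Fintype K] (φ : E →* MulAut V)
    (α : V →* A) (Q : Subgroup V) (αB : V →* B) (β : A → B) (lam : A →ₗ[R] R) (x y : K → A)
    (E1 : Subgroup E), (ℓ : R) = 0 → IsPGroup ℓ V → Per R φ α → RF R α lam x y →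
    IsBQ R α Q αB β → (∀ e, e ∈ E1 ↔ ∀ q ∈ Q, φ e q = q) →
    ∃ (Ω : Type) (_ : Fintype Ω) (_ : MulAction (V × V) Ω) (b : Ω → B) (c : Ω → (B →ₗ[R] R)),
      FrN R (φ.comp E1.subtype) αB Q b c

end Pool.Agent.PST.UC
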