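import Pool.Agent.PST.StmtsUC
import Pool.Agent.PST.StmtsCL
import Pool.Agent.PST.Etw

/-!
# Squad PST, block UC (helper30): reduction of the etaleness to the closed case, part 2

`As` a deformation of `A` relative to `W ≤ V` (`Dpt`); `B = A(W)`, `Bs = As(W)`, `H = B / (W - 1) B` with the
group `V ⧸ W`, `Hs = Bs / (W - 1) Bs` (`IsQt`).  The pair `Hs`, `H` has the regularity datum of block ET (QRG).

Complete proofs in the docstrings.  All rows of S0, S3 are PROVED: `Pool.Agent.Helper30_PSS.S3All`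
(`Pool.Agent.PSS.All30.fco`, `fbk`, `bki`, `bbk`, `res`, `qbk`, `tfx`, ..); row QRF of `StmtsCL.lean` is PROVED
(`Pool.Agent.Helper84_PST.QRF`, theorem `Pool.Agent.PST.H84.qrf : QrfStmt`).
-/

open scoped BigOperators TensorProduct PowerSeries

noncomputable section

namespace Pool.Agent.PST.UC

open Pool.Agent.PFC (tw IsTv)
open Pool.Agent.PFD.D2b (FrR)
open Pool.Agent.PSS
open Pool.Agent.PSS.S0

/-- the span of the commutators with the elements `α u` -/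
def Civ (F : Type) {G H : Type} [CommRing F] [Group G] [Ring H] [Algebra F H] (α : G →* H) :
    Submodule F H :=
  Submodule.span F {x | ∃ (u : G) (b : H), x = α u * b - b * α u}

/-- PRT (340, uses QRF; S0: RES; S3: QBK).  The reduction `As(W) → A(W)`.  Proof.  `qB (βs a) = β (q a)` for `a`
fixed by `W`: well defined, if `βs a = βs a'` then `a - a'` is in `BKR (cw γ) ⊤`, so `q (a - a')` is in
`BKR (cw F (α.comp W.subtype)) ⊤ = BKR (cw F α) W` (QBK, RES: `⊤.map W.subtype = W`).  A ring homomorphism, by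
`IsBQ`.  `sc`: `a = r • 1`.  Surjective: QRF (1) for `P = ⊤`.  Kernel: QRF (2): `a - X • m` is in `BKR (cw γ) ⊤`, so
`βs a = X • βs m`.  `qB (γB w) = qB (βs (γ w)) = β (α w) = αB w`. -/
def PrtStmt : Prop :=
  ∀ (ℓ : ℕ) [Fact ℓ.Prime] (F V E A As B Bs : Type) [Field F] [CharP F ℓ] [CommGroup V]
    [Fintype V] [Group E] [Ring A] [Algebra F A] [Ring As] [Algebra F⟦X⟧ As] [Ring B]
    [Algebra F B] [Ring Bs] [Algebra F⟦X⟧ Bs] (α : V →* A) (W : Subgroup V) [Fintype W]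
    (ψ : E →* MulAut W) (γ : W →* As) (q : As →+* A) (αB : V →* B) (β : A → B) (γB : W →* Bs)
    (βs : As → Bs), IsPGroup ℓ V → Per F⟦X⟧ ψ γ →
    (∀ r : F⟦X⟧, q (algebraMap F⟦X⟧ As r) = algebraMap F A (PowerSeries.constantCoeff r)) →
    Function.Surjective q → (∀ a, q a = 0 → ∃ a', a = (PowerSeries.X : F⟦X⟧) • a') →
    (∀ w : W, q (γ w) = α w) → IsBQ F α W αB β → IsBQ F⟦X⟧ γ ⊤ γB βs →
    ∃ qB : Bs →+* B, (∀ a ∈ FxR (cw F⟦X⟧ γ) ⊤, qB (βs a) = β (q a)) ∧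
      (∀ r : F⟦X⟧, qB (algebraMap F⟦X⟧ Bs r) = algebraMap F B (PowerSeries.constantCoeff r)) ∧
      Function.Surjective qB ∧ (∀ b, qB b = 0 → ∃ b', b = (PowerSeries.X : F⟦X⟧) • b') ∧
      ∀ w : W, qB (γB w) = αB w

/-- QFA (341).  The reduction `Hs → H`.  Proof.  `q1 (πs b) = π (qB b)`: well defined, the kernel `Aug` of `πs` is
spanned by the `(γB w - 1) * b`, and `qB ((γB w - 1) * b) = (αB w - 1) * qB b` is in the kernel of `π` (span induction: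
`qB (r • b) = constantCoeff r • qB b`).  Kernel: if `π (qB b) = 0` then `qB b = ∑ (αB w - 1) * b_w = qB b''`, `b''` in `Aug` (`qB` is
surjective), so `b = b'' + X • b'`, `πs b = X • πs b'`. -/
def QfaStmt : Prop :=
  ∀ (F V B Bs H Hs : Type) [Field F] [CommGroup V] [Ring B] [Algebra F B] [Ring Bs]
    [Algebra F⟦X⟧ Bs] [Ring H] [Algebra F H] [Ring Hs] [Algebra F⟦X⟧ Hs] (W : Subgroup V)
    (αB : V →* B) (γB : W →* Bs) (qB : Bs →+* B) (αH : V ⧸ W →* H)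
    (γH : W ⧸ (⊤ : Subgroup W) →* Hs) (π : B →ₐ[F] H) (πs : Bs →ₐ[F⟦X⟧] Hs),
    IsQt F αB W αH π → IsQt F⟦X⟧ γB ⊤ γH πs →
    (∀ r : F⟦X⟧, qB (algebraMap F⟦X⟧ Bs r) = algebraMap F B (PowerSeries.constantCoeff r)) →
    Function.Surjective qB → (∀ b, qB b = 0 → ∃ b', b = (PowerSeries.X : F⟦X⟧) • b') →
    (∀ w : W, qB (γB w) = αB w) →
    ∃ q1 : Hs →+* H, (∀ b, q1 (πs b) = π (qB b)) ∧
      (∀ r : F⟦X⟧, q1 (algebraMap F⟦X⟧ Hs r) = algebraMap F H (PowerSeries.constantCoeff r)) ∧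
      Function.Surjective q1 ∧ ∀ h, q1 h = 0 → ∃ h', h = (PowerSeries.X : F⟦X⟧) • h'

/-- HSF (342).  An algebra over `F⟦X⟧` with dual families is finite and free.  Proof: it is spanned by the `x k`; if
`r • a = 0`, `r ≠ 0`, then `r * lam (y k * a) = 0`, so `lam (y k * a) = 0` for all `k` and `a = 0`; `F⟦X⟧` is a principal
ideal domain. -/
def HsfStmt : Prop :=
  ∀ (F H K : Type) [Field F] [Ring H] [Algebra F⟦X⟧ H] [Fintype K] (lam : H →ₗ[F⟦X⟧] F⟦X⟧)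
    (x y : K → H), (∀ a, ∑ k, lam (y k * a) • x k = a) →
    Module.Finite F⟦X⟧ H ∧ Module.Free F⟦X⟧ H

/-- QRG (343; S0: FCO FBK BBK, `Pool.Agent.PSS.H28.bk_up`; S3: TFX).  THE REGULARITY DATUM OF THE PAIR `Hs`, `H`.
Proof.  `Reg`: `la`, `χ`, `xx`, `t`, `D`, `lf`, `G` (`Drd`, `FoD` of `DefsR.lean`), `Q0 = QW0 φ W`.
(1) `la' l x = la l (out x)`; `la' l (v : V ⧸ W) = la l v` (`Eg.add`, `Eg.ker`); `xx' l x = ∑_(v, v̄ = x) xx l v`.  The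
sums over `V ⧸ W` are sums over `V` (`Finset.sum_fiberwise`).  For `μ` additive on `V ⧸ W` use `Eg.spn` for
`v ↦ μ v̄`: `c l = ∑ u, xx l u * μ ū`.
(2) `lf u` commutes with `W` (`cm`), it is in `As^W`; `X • G u = γ (u^ℓ)⁻¹ lf u ^ ℓ - 1` commutes with `W`, so `G u` does
(TFX (1): `As` is `X`-torsion free); in the same way `z` in `cc`.
(3) For `x` in `V ⧸ W`, `u = out x`: `w = πs (βs (lf u))`, `G' = πs (βs (G u))`.  `q1 w = π (β (α u)) = π (αB u) = αH x`;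
`w ^ ℓ = γH .. * (1 + X • G')` and `γH` is trivial (`W ⧸ ⊤` has one element).  `q1 G' = π (β (D u))`.
`D u = Xe α (pg la xx t u) + m`, `m` in `BKR (cw F α) Q0`, and `m` is fixed by `V`, so `m` is in `BKR (cw F α) ⊤`
(`bk_up`), and `β m` is in `BKR (cw F αB) ⊤` (BBK for `P = ⊤`).  `π (β (Xe α ..)) = ∑_v pg .. v • αH v̄` is the sum in the
statement.
(4) `π` maps `BKR (cw F αB) ⊤` to `Civ F αH`: `∑_(t in T) t m t⁻¹ = ∑_t (t m t⁻¹ - m) + |T| • m`, `|T|` is divisible by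
`ℓ` (a transversal of a proper subgroup), and `t̄ h t̄⁻¹ - h = t̄ (h t̄⁻¹) - (h t̄⁻¹) t̄`, `h = π m`.
(5) commutators: `a = πs (βs (lf u))`, `b = πs (βs (lf v))`, `d = X • πs (βs z)`, `q1 d = 0`. -/
def QrgStmt : Prop :=
  ∀ (ℓ : ℕ) [Fact ℓ.Prime] (F V E A As B Bs H Hs : Type) [Field F] [CharP F ℓ] [CommGroup V]
    [Fintype V] [Group E] [Finite E] [Ring A] [Algebra F A] [Ring As] [Algebra F⟦X⟧ As] [Ring B]
    [Algebra F B] [Ring Bs] [Algebra F⟦X⟧ Bs] [Ring H] [Algebra F H] [Ring Hs] [Algebra F⟦X⟧ Hs]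
    (φ : E →* MulAut V) (α : V →* A) (W : Subgroup V) [Fintype W] [Fintype (V ⧸ W)]
    (ψ : E →* MulAut W) (γ : W →* As) (q : As →+* A) (αB : V →* B) (β : A → B) (γB : W →* Bs)
    (βs : As → Bs) (qB : Bs →+* B) (αH : V ⧸ W →* H) (γH : W ⧸ (⊤ : Subgroup W) →* Hs)
    (π : B →ₐ[F] H) (πs : Bs →ₐ[F⟦X⟧] Hs) (q1 : Hs →+* H), IsPGroup ℓ V →
    (∀ v : V, v ^ ℓ ∈ W) → Cl F φ α → Per F⟦X⟧ ψ γ →
    (∀ r : F⟦X⟧, q (algebraMap F⟦X⟧ As r) = algebraMap F A (PowerSeries.constantCoeff r)) →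
    (∀ r : F⟦X⟧, q1 (algebraMap F⟦X⟧ Hs r) = algebraMap F H (PowerSeries.constantCoeff r)) →
    IsBQ F α W αB β → IsBQ F⟦X⟧ γ ⊤ γB βs →
    (∀ a ∈ FxR (cw F⟦X⟧ γ) ⊤, qB (βs a) = β (q a)) → IsQt F αB W αH π →
    IsQt F⟦X⟧ γB ⊤ γH πs → (∀ b, q1 (πs b) = π (qB b)) → Reg ℓ F φ α W γ q →
    ∃ (r : ℕ) (la xx : Fin r → V ⧸ W → F) (t : Fin r → F),
      (∀ l u v, la l (u * v) = la l u + la l v) ∧
      (∀ μ : V ⧸ W → F, (∀ u v, μ (u * v) = μ u + μ v) →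
        ∃ c : Fin r → F, ∀ v, μ v = ∑ l, c l * la l v) ∧
      (∀ l, ∑ v, xx l v = 0) ∧
      (∀ l n, ∑ v, xx l v * la n v = if l = n then 1 else 0) ∧ (∀ l, t l ≠ 0) ∧
      (∀ v : V ⧸ W, ∃ w G : Hs, q1 w = αH v ∧ w ^ ℓ = 1 + (PowerSeries.X : F⟦X⟧) • G ∧
        q1 G - ∑ u, (∑ l, t l * la l v * xx l u) • αH u ∈ Civ F αH) ∧
      ∀ u v : V ⧸ W, ∃ a b d : Hs, q1 a = αH u ∧ q1 b = αH v ∧
        a * b - b * a = (PowerSeries.X : F⟦X⟧) • d ∧ q1 d ∈ Civ F αH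

end Pool.Agent.PST.UC
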