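import Pool.Agent.PST.Ldw
import Pool.Agent.PST.Nrt
import Pool.Agent.PSS.Trv
import Pool.Agent.PSS.Stp
import Pool.Agent.Helper60_PSS.TPF
import Pool.Agent.Helper60_PSS.DZF

/-!
# Squad PST: the dimension of the centre of the generic fibre, for `A` and for `N_W(A)`
-/

open scoped BigOperators TensorProduct PowerSeries

noncomputable section

namespace Pool.Agent.PST

open Pool.Agent.PFC (tw IsTv)
open Pool.Agent.PFD.D2 (Cdv FibG wittCdv witt_charZero)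
open Pool.Agent.PFD.D2b (FrR)
open Pool.Agent.PSS

/-- CEW: the centre of a regular deformation is onto the centre of the special fibre. -/
def CewStmt : Prop :=
  ∀ (ℓ : ℕ) [Fact ℓ.Prime] (F V E A₀ κ Ω : Type) [Field F] [IsAlgClosed F] [CharP F ℓ]
    [CommGroup V] [Fintype V] [Group E] [Fintype E] [Ring A₀] [Algebra F A₀]
    [FiniteDimensional F A₀] [Fintype κ] [Fintype Ω] [MulAction (V × V) Ω] (φ : E →* MulAut V)
    (W : Subgroup V) (α₀ : V →* A₀) (lam₀ : A₀ →ₗ[F] F) (x₀ y₀ : κ → A₀) (b₀ : Ω → A₀)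
    (c₀ : Ω → (A₀ →ₗ[F] F)) (u₀ : A₀) (D₀ : Dm F (aw α₀ W)), IsPGroup ℓ V →
    ¬ ℓ ∣ Nat.card E → Chf ℓ φ W → Cl F φ α₀ → RF F α₀ lam₀ x₀ y₀ → FrR (bw F α₀) b₀ c₀ →
    (∀ ω : Ω, ∃ (e : E) (S : Subgroup V),
      MulAction.stabilizer (V × V) ω = tw (φ e).toMonoidHom S) →
    u₀ * rt x₀ y₀ 1 = 1 → Reg ℓ F φ α₀ W D₀.w (fun Z => D₀.sq Z 0) →
    ∀ z₀ : A₀, (∀ a, z₀ * a = a * z₀) → ∃ Z : D₀.R, (∀ a, Z * a = a * Z) ∧ D₀.sq Z 0 = z₀

theorem cew (hLDW : LdwStmt) (hUZL : UzlStmt) (hCEN : CenStmt) (hRMP : RmpStmt) : CewStmt := by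
  intro ℓ _ F V E A₀ κ Ω _ _ _ _ _ _ _ _ _ _ _ _ _ φ W α₀ lam₀ x₀ y₀ b₀ c₀ u₀ D₀ hp hE hch hcl
    hrf hfr hst hu0 hreg z₀ hz₀
  obtain ⟨A, _, _, _, _, f, α, lam, x, y, b, c, u, D, hL, hu, hm, hH⟩ :=
    hLDW ℓ F V E A₀ κ Ω φ W α₀ lam₀ x₀ y₀ b₀ c₀ u₀ D₀ hp hE hch hcl hrf hfr hst hu0 hreg
  obtain ⟨z', hz', hzq⟩ := (hUZL (WittVector ℓ F) F V A₀ A κ Ω (wittCdv ℓ F) α₀ lam₀ x₀ y₀ b₀ c₀
    f α lam x y b c u₀ hL hu0).2.2 z₀ hz₀
  obtain ⟨Z, hZ, hZ0⟩ := hCEN (WittVector ℓ F) W A (aw α W) D hH z' hz'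
  obtain ⟨ψ, hψ, -, -, hs, -⟩ := hRMP (WittVector ℓ F) F W A A₀ (aw α W) (aw α₀ W) D D₀ f.q
    (wittCdv ℓ F).κ f.sc (fun w => hL.qa w) hm
  refine ⟨ψ Z, ?_, ?_⟩
  · intro a
    obtain ⟨a', rfl⟩ := hs f.surj a
    rw [← map_mul, hZ, map_mul]
  · rw [← D.of_sq Z, hψ, D₀.sq_of, hZ0, hzq]

/-- transport of the regularity datum by an isomorphism -/
theorem reg_equiv {ℓ : ℕ} {F V E A A1 A2 : Type} [Field F] [CommGroup V] [Fintype V] [Group E]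
    [Ring A] [Algebra F A] [Ring A1] [Algebra F⟦X⟧ A1] [Ring A2] [Algebra F⟦X⟧ A2]
    {φ : E →* MulAut V} {α : V →* A} {W : Subgroup V} {γ1 : W →* A1} {γ2 : W →* A2}
    {q1 : A1 → A} {q2 : A2 → A} (θ : A1 ≃ₐ[F⟦X⟧] A2) (hw : ∀ w, θ (γ1 w) = γ2 w)
    (hq : ∀ Z, q2 (θ Z) = q1 Z) (h : Reg ℓ F φ α W γ2 q2) : Reg ℓ F φ α W γ1 q1 := by
  obtain ⟨r, la, χ, xx, t, D, lf, G, hdr, hfo⟩ := h
  refine ⟨r, la, χ, xx, t, D, fun v => θ.symm (lf v), fun v => θ.symm (G v), hdr, ?_⟩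
  refine ⟨?_, ?_, ?_, ?_, ?_⟩
  · intro u
    rw [← hq, AlgEquiv.apply_symm_apply]
    exact hfo.q0 u
  · intro u w
    apply θ.injective
    rw [map_mul, map_mul, AlgEquiv.apply_symm_apply, hw]
    exact hfo.cm u w
  · intro u h
    apply θ.injective
    rw [map_pow, map_mul, map_add, map_smul, map_one, AlgEquiv.apply_symm_apply,
      AlgEquiv.apply_symm_apply, hw]
    exact hfo.pl u h
  · intro u
    rw [← hq, AlgEquiv.apply_symm_apply]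
    exact hfo.qG u
  · intro u v
    obtain ⟨z, hz⟩ := hfo.cc u v
    refine ⟨θ.symm z, ?_⟩
    apply θ.injective
    rw [map_sub, map_mul, map_mul, map_smul, AlgEquiv.apply_symm_apply,
      AlgEquiv.apply_symm_apply, AlgEquiv.apply_symm_apply]
    exact hz

/-- DZW: the dimension of the centre of the generic fibre of a regular deformation. -/
def DzwStmt : Prop :=
  ∀ (ℓ : ℕ) [Fact ℓ.Prime] (F V E A A' F' : Type) [Field F] [IsAlgClosed F] [CharP F ℓ]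
    [CommGroup V] [Fintype V] [Group E] [Fintype E] [Ring A] [Algebra F A] [Ring A']
    [Algebra F⟦X⟧ A'] [Field F'] [Algebra F⟦X⟧ F'] (φ : E →* MulAut V) (α : V →* A)
    (W : Subgroup V) (α' : W →* A'), IsPGroup ℓ V → ¬ ℓ ∣ Nat.card E → Chf ℓ φ W →
    Cl F φ α → Function.Injective (algebraMap F⟦X⟧ F') →
    ∀ df : Df (PowerSeries.X : F⟦X⟧) PowerSeries.constantCoeff (aw α W) α',
    Reg ℓ F φ α W α' df.q →
    Module.finrank F' (Subalgebra.center F' (F' ⊗[F⟦X⟧] A')) =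
      Module.finrank F (Subalgebra.center F A)

theorem dzwS (hC : CewStmt) : DzwStmt := by
  intro ℓ _ F V E A A' F' _ _ _ _ _ _ _ _ _ _ _ _ _ φ α W α' hp hE hch hA hinj df hreg
  have hfin : FiniteDimensional F A := hA.fin
  have hfaith : FaithfulSMul F⟦X⟧ F' := (faithfulSMul_iff_algebraMap_injective F⟦X⟧ F').2 hinj
  obtain ⟨Ω1, _, _, b1, c1, hfr1⟩ := df.per
  have hf1 : Module.Finite F⟦X⟧ A' := Pool.Agent.PSS.H60.fin_of_frame hfr1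
  have hf2 : Module.Free F⟦X⟧ A' := Pool.Agent.PSS.H60.free_of_frame hfr1
  obtain ⟨Ω, _, _, b, c, hfr, hst⟩ := hA.per
  obtain ⟨lam, K, _, x, y, hrf, u, hu⟩ := hA.rt
  have hu' : u * rt x y 1 = 1 := by
    refine Eq.trans ?_ hu
    simp only [rt, mul_one]
  obtain ⟨D₀, θ, hθw, hθ⟩ := df_dm W α α' b c hfr df
  refine dzw F F' W A A' (aw α W) α' df fun z₀ hz₀ => ?_
  obtain ⟨Z, hZ, hZ0⟩ := hC ℓ F V E A K Ω φ W α lam x y b c u D₀ hp hE hch hA hrf hfr hst hu'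
    (reg_equiv θ hθw hθ hreg) z₀ hz₀
  refine ⟨θ Z, fun a => ?_, ?_⟩
  · have h1 := congrArg θ (hZ (θ.symm a))
    rw [map_mul, map_mul, AlgEquiv.apply_symm_apply] at h1
    exact h1
  · rw [hθ, hZ0]

/-- TPW: the dimension of the centre of the generic fibre of `N_W` of a regular deformation. -/
def TpwStmt : Prop :=
  ∀ (ℓ : ℕ) [Fact ℓ.Prime] (F V E A A' B F' : Type) [Field F] [IsAlgClosed F] [CharP F ℓ]
    [CommGroup V] [Fintype V] [Group E] [Fintype E] [Ring A] [Algebra F A] [Ring A']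
    [Algebra F⟦X⟧ A'] [Ring B] [Algebra F B] [Field F'] [Algebra F⟦X⟧ F']
    (φ : E →* MulAut V) (α : V →* A) (W' W : Subgroup V) (α' : W' →* A'),
    IsPGroup ℓ V → ¬ ℓ ∣ Nat.card E → Chf ℓ φ W' → W ≤ W' → (∀ e : E, ∀ w ∈ W, φ e w ∈ W) →
    Cl F φ α → IsNW F α W B → Function.Injective (algebraMap F⟦X⟧ F') →
    ∀ df : Df (PowerSeries.X : F⟦X⟧) PowerSeries.constantCoeff (aw α W') α',
    Reg ℓ F φ α W' α' df.q →
    ∃ (B' : Type) (_ : Ring B') (_ : Algebra F' B')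
      (_ : IsNW F' (bcw (R := F⟦X⟧) (S := F') α') (W.subgroupOf W') B'),
      Module.finrank F' (Subalgebra.center F' B') = Module.finrank F (Subalgebra.center F B)

theorem tpw (hZ : DzwStmt) (ndf : NdfStmt) (nwc : NwcStmt) (ntr : NtrStmt) : TpwStmt := by
  intro ℓ _ F V E A A' B F' _ _ _ _ _ _ _ _ _ _ _ _ _ _ _ φ α W' W α' hV hE hch hWW hst hA N
    hinj df hreg
  have : Fintype W' := Fintype.ofFinite _
  have hℓR : (ℓ : F⟦X⟧) = 0 := by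
    rw [← map_natCast (PowerSeries.C (R := F)) ℓ, CharP.cast_eq_zero F ℓ, map_zero]
  obtain ⟨N₁, hN₁, hβ⟩ := nrt F V A B α W W' N hWW
  obtain ⟨Ω, _, _, b, c, hfr⟩ := df.per
  obtain ⟨B', _, _, ⟨N'⟩⟩ := nwe α' hfr (W.subgroupOf W')
  obtain ⟨D', hD'⟩ := ndf ℓ F⟦X⟧ F W' A A' B B' PowerSeries.X
    (PowerSeries.constantCoeff (R := F)) (aw α W') α' (W.subgroupOf W') N₁ N' df hℓR
    (hV.to_subgroup W') (Pool.Agent.PSS.H60.red_X F)
  let df' : Df (PowerSeries.X : F⟦X⟧) PowerSeries.constantCoeff (aw N.nwh W') N'.nwh :=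
    { q := D'.q
      sc := D'.sc
      surj := D'.surj
      ker := D'.ker
      qw := fun w => (D'.qw w).trans (hN₁ w)
      per := D'.per }
  have hreg' : Reg ℓ F φ N.nwh W' N'.nwh df'.q :=
    ntr ℓ F V E A A' B B' φ α W' W α' N N₁ N' df df' hV hA.per hWW hch.pw hβ
      (fun a ha => hD' 1 a ha) hreg
  have h := hZ ℓ F V E B B' F' φ N.nwh W' N'.nwh hV hE hch (nwc ℓ F V E A B φ α W N hV hst hA)
    hinj df' hreg'
  obtain ⟨N'', _⟩ := ngf (S := F') hfr N'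
  exact ⟨_, _, _, N'', h⟩

end Pool.Agent.PST
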